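import Mathlib

/-!
Automorphic growth: definitions, and the group `H(ℤ) ⋊ ℤ/2`.
-/

open scoped Classical

namespace R636.AutG

section defs
variable {G : Type*} [Group G]

/-- The elements of word length at most `n` over `T ∪ T⁻¹`. -/
def ball (T : Set G) (n : ℕ) : Set G :=
  {g | ∃ l : List G, l.length ≤ n ∧ (∀ s ∈ l, s ∈ T ∨ s⁻¹ ∈ T) ∧ l.prod = g}

/-- The orbit of `g` under `Aut(G)`. -/
def autOrbit (g : G) : Set G := {h | ∃ φ : G ≃* G, φ g = h}

/-- The automorphic growth function: the number of `Aut(G)`-orbits of length at most `n`, i.e.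
containing an element of word length at most `n`. -/
noncomputable def autGrowth (T : Set G) (n : ℕ) : ℕ :=
  {O : Set G | (∃ g, O = autOrbit g) ∧ ∃ h ∈ O, h ∈ ball T n}.ncard

end defs

/-- `f ≼ g` : there is an integer `c ≥ 1` with `f(n) ≤ c g(c n + c) + c` for all `n`. -/
def Dom (f g : ℕ → ℕ) : Prop := ∃ c : ℕ, 1 ≤ c ∧ ∀ n, f n ≤ c * g (c * n + c) + c

/-- `f ∼ g`. -/
def Equi (f g : ℕ → ℕ) : Prop := Dom f g ∧ Dom g f

/-- The group `H(ℤ) ⋊ ℤ/2`, where the generator of `ℤ/2` acts by `(x,y,z) ↦ (-x,y,-z)`. -/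
@[ext] structure E : Type where
  x : ℤ
  y : ℤ
  z : ℤ
  e : ℤˣ

namespace E

instance : Mul E := ⟨fun a b => ⟨a.x + a.e * b.x, a.y + b.y, a.z + a.e * b.z + a.x * b.y, a.e * b.e⟩⟩
instance : One E := ⟨⟨0, 0, 0, 1⟩⟩
instance : Inv E := ⟨fun a => ⟨-(a.e * a.x), -a.y, -(a.e * (a.z - a.x * a.y)), a.e⟩⟩

@[simp] lemma mul_x (a b : E) : (a * b).x = a.x + a.e * b.x := rfl
@[simp] lemma mul_y (a b : E) : (a * b).y = a.y + b.y := rfl
@[simp] lemma mul_z (a b : E) : (a * b).z = a.z + a.e * b.z + a.x * b.y := rfl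
@[simp] lemma mul_e (a b : E) : (a * b).e = a.e * b.e := rfl
@[simp] lemma one_x : (1 : E).x = 0 := rfl
@[simp] lemma one_y : (1 : E).y = 0 := rfl
@[simp] lemma one_z : (1 : E).z = 0 := rfl
@[simp] lemma one_e : (1 : E).e = 1 := rfl
@[simp] lemma inv_x (a : E) : (a⁻¹).x = -(a.e * a.x) := rfl
@[simp] lemma inv_y (a : E) : (a⁻¹).y = -a.y := rfl
@[simp] lemma inv_z (a : E) : (a⁻¹).z = -(a.e * (a.z - a.x * a.y)) := rfl
@[simp] lemma inv_e (a : E) : (a⁻¹).e = a.e := rfl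

instance : Group E :=
  Group.ofLeftAxioms
    (by
      intro a b c
      ext
      · simp; ring
      · simp; ring
      · simp; ring
      · simp [mul_assoc])
    (by intro a; ext <;> simp)
    (by
      intro a
      rcases Int.units_eq_one_or a.e with h | h
      · ext <;> simp [h]
      · ext <;> simp [h]
        ring)

/-- the element `(x,y,z)` of the Heisenberg group. -/
def h (x y z : ℤ) : E := ⟨x, y, z, 1⟩
/-- the involution. -/
def s : E := ⟨0, 0, 0, -1⟩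

lemma e_sq (a : E) : (a * a).e = 1 := by
  simp

lemma class_two (a b c : E) (ha : a.e = 1) (hb : b.e = 1) (hc : c.e = 1) :
    (a * b * a⁻¹ * b⁻¹) * c = c * (a * b * a⁻¹ * b⁻¹) := by
  ext
  · simp [ha, hb, hc]
  · simp [ha, hb, hc]
  · simp [ha, hb, hc]; ring
  · simp [ha, hb, hc]

lemma not_class_two (a : E) (ha : a.e = -1) :
    (a * h 2 0 0 * a⁻¹ * (h 2 0 0)⁻¹) * h 0 2 0 ≠ h 0 2 0 * (a * h 2 0 0 * a⁻¹ * (h 2 0 0)⁻¹) := by
  intro hh
  have := congrArg E.z hh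
  simp [ha, h] at this

/-- The Heisenberg subgroup is invariant under automorphisms. -/
lemma e_map (φ : E ≃* E) (a : E) (ha : a.e = 1) : (φ a).e = 1 := by
  by_contra hne
  have h1 : (φ a).e = -1 := by
    rcases Int.units_eq_one_or (φ a).e with h | h
    · exact absurd h hne
    · exact h
  obtain ⟨p, hp⟩ := φ.surjective (h 1 0 0)
  obtain ⟨q, hq⟩ := φ.surjective (h 0 1 0)
  have h2 := class_two a (p * p) (q * q) ha (e_sq p) (e_sq q)
  have h3 := congrArg φ h2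
  simp only [map_mul, map_inv, hp, hq] at h3
  have h4 : h 1 0 0 * h 1 0 0 = h 2 0 0 := by ext <;> simp [h]
  have h5 : h 0 1 0 * h 0 1 0 = h 0 2 0 := by ext <;> simp [h]
  rw [h4, h5] at h3
  exact not_class_two (φ a) h1 h3

lemma e_map_s (φ : E ≃* E) : (φ s).e = -1 := by
  rcases Int.units_eq_one_or (φ s).e with h | h
  · have h1 := e_map φ.symm (φ s) h
    rw [φ.symm_apply_apply] at h1
    simp [s] at h1
  · exact h

lemma conj_sX : s * h 1 0 0 * s⁻¹ = (h 1 0 0)⁻¹ := by ext <;> simp [h, s]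
lemma conj_sY : s * h 0 1 0 * s⁻¹ = h 0 1 0 := by ext <;> simp [h, s]

lemma y_phiX (φ : E ≃* E) : (φ (h 1 0 0)).y = 0 := by
  have h1 := congrArg (fun g => (φ g).y) conj_sX
  simp only [map_mul, map_inv, mul_y, inv_y] at h1
  omega

lemma x_phiY (φ : E ≃* E) : (φ (h 0 1 0)).x = 0 := by
  have h1 := congrArg (fun g => (φ g).x) conj_sY
  have h2 := e_map φ (h 0 1 0) rfl
  simp only [map_mul, map_inv, mul_x, mul_e, inv_x, e_map_s φ, h2] at h1
  simp at h1
  omega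

lemma npow_X (a c : ℤ) (n : ℕ) : (h a 0 c) ^ n = h (n * a) 0 (n * c) := by
  induction n with
  | zero => ext <;> simp [h]
  | succ n ih =>
    rw [pow_succ, ih]
    ext
    · simp [h]; ring
    · simp [h]
    · simp [h]; ring
    · simp [h]

lemma npow_Y (b c : ℤ) (n : ℕ) : (h 0 b c) ^ n = h 0 (n * b) (n * c) := by
  induction n with
  | zero => ext <;> simp [h]
  | succ n ih =>
    rw [pow_succ, ih]
    ext
    · simp [h]
    · simp [h]; ring
    · simp [h]; ring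
    · simp [h]

lemma pow_X (a c n : ℤ) : (h a 0 c) ^ n = h (n * a) 0 (n * c) := by
  obtain ⟨m, rfl | rfl⟩ := n.eq_nat_or_neg
  · rw [zpow_natCast, npow_X]
  · rw [zpow_neg, zpow_natCast, npow_X]
    ext <;> simp [h]

lemma pow_Y (b c n : ℤ) : (h 0 b c) ^ n = h 0 (n * b) (n * c) := by
  obtain ⟨m, rfl | rfl⟩ := n.eq_nat_or_neg
  · rw [zpow_natCast, npow_Y]
  · rw [zpow_neg, zpow_natCast, npow_Y]
    ext <;> simp [h]

lemma phiX (φ : E ≃* E) : ∃ a c : ℤ, φ (h 1 0 0) = h a 0 c := by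
  refine ⟨(φ (h 1 0 0)).x, (φ (h 1 0 0)).z, ?_⟩
  ext
  · rfl
  · rw [y_phiX]; rfl
  · rfl
  · rw [e_map φ (h 1 0 0) rfl]; rfl

lemma phiY (φ : E ≃* E) : ∃ b c : ℤ, φ (h 0 1 0) = h 0 b c := by
  refine ⟨(φ (h 0 1 0)).y, (φ (h 0 1 0)).z, ?_⟩
  ext
  · rw [x_phiY]; rfl
  · rfl
  · rfl
  · rw [e_map φ (h 0 1 0) rfl]; rfl

lemma hZ : h 0 0 1 = h 1 0 0 * h 0 1 0 * (h 1 0 0)⁻¹ * (h 0 1 0)⁻¹ := by
  ext <;> simp [h]

lemma decomp (x y z : ℤ) : h x y z = (h 0 1 0) ^ y * (h 1 0 0) ^ x * (h 0 0 1) ^ z := by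
  rw [pow_X, pow_Y, pow_Y]
  ext <;> simp [h]

lemma phi_formula (φ : E ≃* E) : ∃ a b c c' : ℤ, ∀ x y z : ℤ,
    φ (h x y z) = h (a * x) (b * y) (c * x + c' * y + a * b * z) := by
  obtain ⟨a, c, hX⟩ := phiX φ
  obtain ⟨b, c', hY⟩ := phiY φ
  refine ⟨a, b, c, c', fun x y z => ?_⟩
  have hZ' : φ (h 0 0 1) = h 0 0 (a * b) := by
    rw [hZ]
    simp only [map_mul, map_inv, hX, hY]
    ext
    · simp [h]
    · simp [h]
    · simp [h]; ring
    · simp [h]
  rw [decomp]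
  simp only [map_mul, map_zpow, hX, hY, hZ']
  rw [pow_X, pow_Y, pow_Y]
  ext
  · simp [h]; ring
  · simp [h]; ring
  · simp [h]; ring
  · simp [h]

/-- Distinctness: elements `(x,y,z)` with `x, y > 0`, `0 ≤ z < gcd(x,y)` lie in different
automorphism orbits. -/
lemma distinct (φ : E ≃* E) (x y z x' y' z' : ℤ) (hx : 0 < x) (hy : 0 < y) (hz : 0 ≤ z)
    (hz2 : z < Int.gcd x y) (hx' : 0 < x') (hy' : 0 < y') (hz' : 0 ≤ z')
    (hz2' : z' < Int.gcd x' y') (hφ : φ (h x y z) = h x' y' z') : x = x' ∧ y = y' ∧ z = z' := by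
  obtain ⟨a, b, c, c', hf⟩ := phi_formula φ
  obtain ⟨a2, b2, c2, c2', hf2⟩ := phi_formula φ.symm
  have hcomp : ∀ x y z : ℤ, h x y z = h (a * (a2 * x)) (b * (b2 * y))
      (c * (a2 * x) + c' * (b2 * y) + a * b * (c2 * x + c2' * y + a2 * b2 * z)) := by
    intro x y z
    have := φ.apply_symm_apply (h x y z)
    rw [hf2, hf] at this
    exact this.symm
  have ha : a * a2 = 1 := by
    have := congrArg E.x (hcomp 1 0 0)
    simp [h] at this
    exact this.symm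
  have hb : b * b2 = 1 := by
    have := congrArg E.y (hcomp 0 1 0)
    simp [h] at this
    exact this.symm
  have ha1 : a = 1 ∨ a = -1 := Int.isUnit_iff.mp (IsUnit.of_mul_eq_one _ ha)
  have hb1 : b = 1 ∨ b = -1 := Int.isUnit_iff.mp (IsUnit.of_mul_eq_one _ hb)
  rw [hf] at hφ
  have h1 : a * x = x' := congrArg E.x hφ
  have h2 : b * y = y' := congrArg E.y hφ
  have h3 : c * x + c' * y + a * b * z = z' := congrArg E.z hφ
  have ha2 : a = 1 := by
    rcases ha1 with h | h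
    · exact h
    · subst h; omega
  have hb2 : b = 1 := by
    rcases hb1 with h | h
    · exact h
    · subst h; omega
  subst ha2 hb2
  simp only [one_mul] at h1 h2 h3
  subst h1 h2
  refine ⟨rfl, rfl, ?_⟩
  have hd1 : (Int.gcd x y : ℤ) ∣ x := Int.gcd_dvd_left ..
  have hd2 : (Int.gcd x y : ℤ) ∣ y := Int.gcd_dvd_right ..
  have hd3 : (Int.gcd x y : ℤ) ∣ z' - z := by
    have : z' - z = c * x + c' * y := by omega
    rw [this]
    exact dvd_add (dvd_mul_of_dvd_right hd1 _) (dvd_mul_of_dvd_right hd2 _)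
  obtain ⟨k, hk⟩ := hd3
  have hk0 : k = 0 := by
    by_contra hne
    have : (Int.gcd x y : ℤ) ≤ |z' - z| := by
      rw [hk, abs_mul]
      have h5 : 1 ≤ |k| := Int.one_le_abs hne
      have h6 : |(Int.gcd x y : ℤ)| = Int.gcd x y := abs_of_nonneg (by positivity)
      rw [h6]
      nlinarith
    rcases abs_cases (z' - z) with h7 | h7 <;> omega
  rw [hk0, mul_zero] at hk
  omega

end E
end R636.AutG
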