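import Mathlib

/-! Lower and upper bounds for sums of gcds. -/

open scoped Classical

namespace R636.GcdSum

/-- the sum of `gcd(x,y)` over `1 ≤ x, y ≤ N`. -/
def L (N : ℕ) : ℕ := ∑ p ∈ Finset.Icc 1 N ×ˢ Finset.Icc 1 N, Nat.gcd p.1 p.2

/-- the coprime pairs in `[1,m]²`. -/
def cop (m : ℕ) : Finset (ℕ × ℕ) :=
  (Finset.Icc 1 m ×ˢ Finset.Icc 1 m).filter (fun p => Nat.gcd p.1 p.2 = 1)

lemma card_mult (m k : ℕ) :
    ((Finset.Icc 1 m).filter (fun a => k ∣ a)).card = m / k := by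
  have : (Finset.Icc 1 m).filter (fun a => k ∣ a) = (Finset.Ioc 0 m).filter (fun a => k ∣ a) := by
    ext a; simp [Nat.lt_iff_add_one_le]
  rw [this, Nat.Ioc_filter_dvd_card_eq_div]

lemma sum_inv_sq (m : ℕ) (hm : 2 ≤ m) :
    ∑ k ∈ Finset.Icc 2 m, (1 : ℝ) / (k : ℝ) ^ 2 ≤ 3 / 4 - 1 / m := by
  induction m, hm using Nat.le_induction with
  | base => norm_num
  | succ m hm ih =>
    rw [Finset.sum_Icc_succ_top (by omega)]
    have h1 : (2 : ℝ) ≤ m := by exact_mod_cast hm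
    have h2 : (1 : ℝ) / ((m + 1 : ℕ) : ℝ) ^ 2 ≤ 1 / m - 1 / ((m + 1 : ℕ) : ℝ) := by
      push_cast
      rw [div_sub_div _ _ (by positivity) (by positivity), div_le_div_iff₀ (by positivity) (by positivity)]
      nlinarith
    linarith

lemma sum_inv_sq' (m : ℕ) :
    ∑ k ∈ Finset.Icc 2 m, (1 : ℝ) / (k : ℝ) ^ 2 ≤ 3 / 4 := by
  rcases le_or_gt 2 m with h | h
  · have := sum_inv_sq m h
    have h2 : (0 : ℝ) ≤ 1 / m := by positivity
    linarith
  · rw [Finset.Icc_eq_empty (by omega)]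
    norm_num

lemma cop_card (m : ℕ) : (m : ℝ) ^ 2 / 4 ≤ (cop m).card := by
  have h1 := Finset.card_filter_add_card_filter_not (s := Finset.Icc 1 m ×ˢ Finset.Icc 1 m)
    (fun p => Nat.gcd p.1 p.2 = 1)
  rw [Finset.card_product, Nat.card_Icc] at h1
  have h2 : (Finset.Icc 1 m ×ˢ Finset.Icc 1 m).filter (fun p => ¬ Nat.gcd p.1 p.2 = 1) ⊆
      (Finset.Icc 2 m).biUnion (fun k => ((Finset.Icc 1 m).filter (fun a => k ∣ a)) ×ˢ
        ((Finset.Icc 1 m).filter (fun a => k ∣ a))) := by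
    intro p hp
    rw [Finset.mem_filter, Finset.mem_product] at hp
    rw [Finset.mem_biUnion]
    refine ⟨Nat.gcd p.1 p.2, ?_, ?_⟩
    · have h3 := Finset.mem_Icc.mp hp.1.1
      have h4 : 0 < Nat.gcd p.1 p.2 := Nat.gcd_pos_of_pos_left _ (by omega)
      have h5 : Nat.gcd p.1 p.2 ≤ p.1 := Nat.gcd_le_left _ (by omega)
      rw [Finset.mem_Icc]
      have := hp.2
      omega
    · rw [Finset.mem_product, Finset.mem_filter, Finset.mem_filter]
      exact ⟨⟨hp.1.1, Nat.gcd_dvd_left _ _⟩, ⟨hp.1.2, Nat.gcd_dvd_right _ _⟩⟩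
  have h3 := (Finset.card_le_card h2).trans Finset.card_biUnion_le
  simp only [Finset.card_product, card_mult] at h3
  have h4 : ((∑ k ∈ Finset.Icc 2 m, m / k * (m / k) : ℕ) : ℝ) ≤ 3 / 4 * (m : ℝ) ^ 2 := by
    push_cast
    calc ∑ k ∈ Finset.Icc 2 m, ((m / k : ℕ) : ℝ) * ((m / k : ℕ) : ℝ)
        ≤ ∑ k ∈ Finset.Icc 2 m, (m : ℝ) ^ 2 * (1 / (k : ℝ) ^ 2) := by
          apply Finset.sum_le_sum
          intro k hk
          have hk2 : (0 : ℝ) < k := by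
            have := (Finset.mem_Icc.mp hk).1
            exact_mod_cast (by omega : 0 < k)
          have h5 : ((m / k : ℕ) : ℝ) ≤ (m : ℝ) / k := Nat.cast_div_le
          calc ((m / k : ℕ) : ℝ) * ((m / k : ℕ) : ℝ) ≤ ((m : ℝ) / k) * ((m : ℝ) / k) := by gcongr
            _ = _ := by field_simp
      _ = (∑ k ∈ Finset.Icc 2 m, (1 / (k : ℝ) ^ 2)) * (m : ℝ) ^ 2 := by
          rw [← Finset.mul_sum]; ring
      _ ≤ 3 / 4 * (m : ℝ) ^ 2 := by
          gcongr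
          exact sum_inv_sq' m
  have h5 : (((Finset.Icc 1 m ×ˢ Finset.Icc 1 m).filter (fun p => ¬ Nat.gcd p.1 p.2 = 1)).card : ℝ)
      ≤ 3 / 4 * (m : ℝ) ^ 2 := le_trans (by exact_mod_cast h3) h4
  have h6 : ((cop m).card : ℝ) +
      (((Finset.Icc 1 m ×ˢ Finset.Icc 1 m).filter (fun p => ¬ Nat.gcd p.1 p.2 = 1)).card : ℝ)
      = (m : ℝ) * m := by
    have : m + 1 - 1 = m := by omega
    rw [this] at h1
    exact_mod_cast h1
  nlinarith

lemma card_gcd_eq (N d : ℕ) (hd : 1 ≤ d) :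
    (cop (N / d)).card ≤
      ((Finset.Icc 1 N ×ˢ Finset.Icc 1 N).filter (fun p => Nat.gcd p.1 p.2 = d)).card := by
  refine Finset.card_le_card_of_injOn (fun p => (d * p.1, d * p.2)) ?_ ?_
  · intro p hp
    simp only [cop, Finset.coe_filter, Finset.mem_product, Finset.mem_Icc, Set.mem_ofPred_eq] at hp ⊢
    obtain ⟨⟨⟨h1, h2⟩, h3, h4⟩, h5⟩ := hp
    have h6 : d * (N / d) ≤ N := Nat.mul_div_le N d
    refine ⟨⟨⟨Nat.mul_pos hd h1, le_trans (Nat.mul_le_mul_left d h2) h6⟩,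
      Nat.mul_pos hd h3, le_trans (Nat.mul_le_mul_left d h4) h6⟩, ?_⟩
    rw [Nat.gcd_mul_left, h5, mul_one]
  · rintro ⟨a, b⟩ _ ⟨c, e⟩ _ hh
    simp only [Prod.mk.injEq] at hh
    have h1 := Nat.eq_of_mul_eq_mul_left hd hh.1
    have h2 := Nat.eq_of_mul_eq_mul_left hd hh.2
    rw [h1, h2]

lemma L_ge (N : ℕ) : (N : ℝ) ^ 2 / 16 * Real.log (N + 1) ≤ L N := by
  have h1 : L N = ∑ d ∈ Finset.Icc 1 N, ∑ p ∈ (Finset.Icc 1 N ×ˢ Finset.Icc 1 N).filter
      (fun p => Nat.gcd p.1 p.2 = d), Nat.gcd p.1 p.2 := by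
    rw [L]
    symm
    apply Finset.sum_fiberwise_of_maps_to
    intro p hp
    rw [Finset.mem_product, Finset.mem_Icc, Finset.mem_Icc] at hp
    have h4 : 0 < Nat.gcd p.1 p.2 := Nat.gcd_pos_of_pos_left _ (by omega)
    have h5 : Nat.gcd p.1 p.2 ≤ p.1 := Nat.gcd_le_left _ (by omega)
    rw [Finset.mem_Icc]
    omega
  have h2 : ∀ d ∈ Finset.Icc 1 N, (N : ℝ) ^ 2 / 16 * ((d : ℝ))⁻¹ ≤
      ((∑ p ∈ (Finset.Icc 1 N ×ˢ Finset.Icc 1 N).filter
      (fun p => Nat.gcd p.1 p.2 = d), Nat.gcd p.1 p.2 : ℕ) : ℝ) := by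
    intro d hd
    rw [Finset.mem_Icc] at hd
    have h3 : ∑ p ∈ (Finset.Icc 1 N ×ˢ Finset.Icc 1 N).filter
      (fun p => Nat.gcd p.1 p.2 = d), Nat.gcd p.1 p.2 =
      ((Finset.Icc 1 N ×ˢ Finset.Icc 1 N).filter (fun p => Nat.gcd p.1 p.2 = d)).card * d := by
      rw [Finset.sum_const_nat]
      intro p hp
      exact (Finset.mem_filter.mp hp).2
    rw [h3]
    push_cast
    have h4 := card_gcd_eq N d hd.1
    have h5 := cop_card (N / d)
    have h6 : (N : ℝ) / (2 * d) ≤ ((N / d : ℕ) : ℝ) := by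
      rw [div_le_iff₀ (by have : (0:ℝ) < d := by exact_mod_cast hd.1
                          positivity)]
      have h7 : N < d * (N / d) + d := by
        have := Nat.div_add_mod N d
        have := Nat.mod_lt N hd.1
        omega
      have h8 : 1 ≤ N / d := Nat.div_pos hd.2 hd.1
      have h9 : N ≤ (N / d) * (2 * d) := by nlinarith
      exact_mod_cast h9
    have hd0 : (0 : ℝ) < d := by exact_mod_cast hd.1
    have h4' : ((cop (N / d)).card : ℝ) ≤ (((Finset.Icc 1 N ×ˢ Finset.Icc 1 N).filter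
      (fun p => Nat.gcd p.1 p.2 = d)).card : ℝ) := by exact_mod_cast h4
    calc (N : ℝ) ^ 2 / 16 * ((d : ℝ))⁻¹ = ((N : ℝ) / (2 * d)) ^ 2 / 4 * d := by
          field_simp; ring
      _ ≤ ((N / d : ℕ) : ℝ) ^ 2 / 4 * d := by gcongr
      _ ≤ ((cop (N / d)).card : ℝ) * d := by gcongr
      _ ≤ _ := by gcongr
  rw [h1]
  push_cast at h2 ⊢
  calc (N : ℝ) ^ 2 / 16 * Real.log (N + 1) ≤ (N : ℝ) ^ 2 / 16 * (harmonic N : ℝ) := by
        gcongr
        have := log_add_one_le_harmonic N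
        exact_mod_cast this
    _ = ∑ d ∈ Finset.Icc 1 N, (N : ℝ) ^ 2 / 16 * ((d : ℝ))⁻¹ := by
        rw [harmonic_eq_sum_Icc, ← Finset.mul_sum]
        push_cast
        rfl
    _ ≤ _ := Finset.sum_le_sum h2

/-- the sum of gcds over nonzero pairs in `[-m,m]²`. -/
noncomputable def U (m : ℕ) : ℕ := ∑ p ∈ (Finset.Icc (-(m : ℤ)) m ×ˢ Finset.Icc (-(m : ℤ)) m).filter
  (fun p => p ≠ (0, 0)), Int.gcd p.1 p.2

lemma card_mult_int (m k : ℕ) (hk : 1 ≤ k) :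
    ((Finset.Icc (-(m : ℤ)) m).filter (fun a => (k : ℤ) ∣ a)).card = 2 * (m / k) + 1 := by
  have h1 : (Finset.Icc (-(m : ℤ)) m).filter (fun a => (k : ℤ) ∣ a) =
      (Finset.Icc (-((m / k : ℕ) : ℤ)) ((m / k : ℕ) : ℤ)).image (fun b => (k : ℤ) * b) := by
    ext a
    simp only [Finset.mem_filter, Finset.mem_Icc, Finset.mem_image]
    have hk0 : (0 : ℤ) < k := by exact_mod_cast hk
    have h2 : (k : ℤ) * ((m / k : ℕ) : ℤ) ≤ m := by exact_mod_cast Nat.mul_div_le m k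
    have h3 : (m : ℤ) < (k : ℤ) * (((m / k : ℕ) : ℤ) + 1) := by
      have := Nat.lt_mul_div_succ m (show 0 < k by omega)
      exact_mod_cast this
    constructor
    · rintro ⟨⟨h4, h5⟩, b, rfl⟩
      refine ⟨b, ⟨?_, ?_⟩, rfl⟩
      · by_contra hlt
        push Not at hlt
        nlinarith
      · by_contra hlt
        push Not at hlt
        nlinarith
    · rintro ⟨b, ⟨h4, h5⟩, rfl⟩
      refine ⟨⟨?_, ?_⟩, dvd_mul_right _ _⟩
      · nlinarith
      · nlinarith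
  rw [h1, Finset.card_image_of_injective, Int.card_Icc]
  · omega
  · intro a b hab
    have hk0 : (k : ℤ) ≠ 0 := by exact_mod_cast (by omega : k ≠ 0)
    exact mul_left_cancel₀ hk0 hab

lemma U_le (m : ℕ) : (U m : ℝ) ≤ 9 * (m : ℝ) ^ 2 * (1 + Real.log m) := by
  have h1 : U m ≤ ∑ d ∈ Finset.Icc 1 m, d * ((2 * (m / d) + 1) * (2 * (m / d) + 1)) := by
    have h2 : ∀ p ∈ (Finset.Icc (-(m : ℤ)) m ×ˢ Finset.Icc (-(m : ℤ)) m).filter
        (fun p => p ≠ (0, 0)), Int.gcd p.1 p.2 ≤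
        ∑ d ∈ Finset.Icc 1 m, if ((d : ℤ) ∣ p.1 ∧ (d : ℤ) ∣ p.2) then d else 0 := by
      intro p hp
      rw [Finset.mem_filter, Finset.mem_product, Finset.mem_Icc, Finset.mem_Icc] at hp
      obtain ⟨⟨⟨h3, h4⟩, h5, h6⟩, h7⟩ := hp
      have h8 : Int.gcd p.1 p.2 ∈ Finset.Icc 1 m := by
        rw [Finset.mem_Icc]
        constructor
        · have : Int.gcd p.1 p.2 ≠ 0 := by
            intro h0
            rw [Int.gcd_eq_zero_iff] at h0
            exact h7 (Prod.ext h0.1 h0.2)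
          omega
        · by_cases h9 : p.1 = 0
          · have h10 : p.2 ≠ 0 := fun h => h7 (Prod.ext h9 h)
            have h11 : Int.gcd p.1 p.2 ≤ p.2.natAbs := Int.gcd_le_natAbs_right _ h10
            omega
          · have h11 : Int.gcd p.1 p.2 ≤ p.1.natAbs := Int.gcd_le_natAbs_left _ h9
            omega
      have h9 := Finset.single_le_sum (f := fun d : ℕ => if ((d : ℤ) ∣ p.1 ∧ (d : ℤ) ∣ p.2) then d else 0)
        (fun i _ => Nat.zero_le _) h8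
      refine le_trans ?_ h9
      rw [if_pos ⟨Int.gcd_dvd_left .., Int.gcd_dvd_right ..⟩]
    rw [U]
    refine (Finset.sum_le_sum h2).trans ?_
    rw [Finset.sum_comm]
    apply Finset.sum_le_sum
    intro d hd
    rw [Finset.mem_Icc] at hd
    rw [← card_mult_int m d hd.1, ← Finset.card_product, ← Finset.sum_filter, Finset.sum_const,
      smul_eq_mul, mul_comm]
    gcongr
    intro p hp
    simp only [Finset.mem_filter, Finset.mem_product] at hp ⊢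
    tauto
  have h3 : ∀ d ∈ Finset.Icc 1 m, ((d * ((2 * (m / d) + 1) * (2 * (m / d) + 1)) : ℕ) : ℝ) ≤
      9 * (m : ℝ) ^ 2 * ((d : ℝ))⁻¹ := by
    intro d hd
    rw [Finset.mem_Icc] at hd
    have hd0 : (0 : ℝ) < d := by exact_mod_cast hd.1
    have h4 : ((m / d : ℕ) : ℝ) ≤ (m : ℝ) / d := Nat.cast_div_le
    have h5 : (1 : ℝ) ≤ (m : ℝ) / d := by
      rw [one_le_div hd0]; exact_mod_cast hd.2
    push_cast
    calc (d : ℝ) * ((2 * ((m / d : ℕ) : ℝ) + 1) * (2 * ((m / d : ℕ) : ℝ) + 1))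
        ≤ (d : ℝ) * ((2 * ((m : ℝ) / d) + (m : ℝ) / d) * (2 * ((m : ℝ) / d) + (m : ℝ) / d)) := by
          gcongr
      _ = 9 * (m : ℝ) ^ 2 * ((d : ℝ))⁻¹ := by field_simp; ring
  calc (U m : ℝ) ≤ ((∑ d ∈ Finset.Icc 1 m, d * ((2 * (m / d) + 1) * (2 * (m / d) + 1)) : ℕ) : ℝ) := by
        exact_mod_cast h1
    _ = ∑ d ∈ Finset.Icc 1 m, ((d * ((2 * (m / d) + 1) * (2 * (m / d) + 1)) : ℕ) : ℝ) := by
        push_cast; rfl
    _ ≤ ∑ d ∈ Finset.Icc 1 m, 9 * (m : ℝ) ^ 2 * ((d : ℝ))⁻¹ := Finset.sum_le_sum h3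
    _ = 9 * (m : ℝ) ^ 2 * (harmonic m : ℝ) := by
        rw [harmonic_eq_sum_Icc, ← Finset.mul_sum]
        push_cast
        rfl
    _ ≤ 9 * (m : ℝ) ^ 2 * (1 + Real.log m) := by
        gcongr
        exact harmonic_le_one_add_log m

end R636.GcdSum
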