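import Mathlib
import Pool.Agent.R636.AutG
import Pool.Agent.R636.GcdSum

open scoped Classical

namespace R636.AutG

section defs
variable {G : Type*} [Group G]

lemma one_mem_ball (T : Set G) : (1 : G) ∈ ball T 0 := ⟨[], by simp, by simp, rfl⟩

lemma mul_mem_ball {T : Set G} {m n : ℕ} {a b : G} (ha : a ∈ ball T m) (hb : b ∈ ball T n) :
    a * b ∈ ball T (m + n) := by
  obtain ⟨l, h1, h2, rfl⟩ := ha
  obtain ⟨l', h1', h2', rfl⟩ := hb
  refine ⟨l ++ l', by simp; omega, ?_, by simp⟩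
  intro s hs
  rcases List.mem_append.mp hs with h | h
  · exact h2 s h
  · exact h2' s h

lemma ball_mono {T : Set G} {m n : ℕ} (h : m ≤ n) : ball T m ⊆ ball T n := by
  rintro g ⟨l, h1, h2, h3⟩
  exact ⟨l, h1.trans h, h2, h3⟩

lemma pow_mem_ball {T : Set G} {m : ℕ} {a : G} (ha : a ∈ ball T m) (k : ℕ) :
    a ^ k ∈ ball T (k * m) := by
  induction k with
  | zero => simpa using one_mem_ball T
  | succ k ih =>
    rw [pow_succ, Nat.succ_mul]
    exact mul_mem_ball ih ha

lemma exists_ball {T : Set G} (hT : Subgroup.closure T = ⊤) (g : G) : ∃ n, g ∈ ball T n := by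
  have : g ∈ (Subgroup.closure T).toSubmonoid := by rw [hT]; trivial
  rw [Subgroup.closure_toSubmonoid] at this
  obtain ⟨l, h1, h2⟩ := Submonoid.exists_list_of_mem_closure this
  refine ⟨l.length, l, le_rfl, fun s hs => ?_, h2⟩
  rcases h1 s hs with h | h
  · exact Or.inl h
  · exact Or.inr (by simpa using h)

lemma ball_finite {T : Set G} (hT : T.Finite) (n : ℕ) : (ball T n).Finite := by
  induction n with
  | zero =>
    refine (Set.finite_singleton (1 : G)).subset ?_
    rintro x ⟨l, h1, -, h3⟩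
    have : l = [] := List.length_eq_zero_iff.mp (Nat.le_zero.mp h1)
    subst this
    simpa using h3.symm
  | succ r ih =>
    have hfin : (T ∪ T⁻¹).Finite := hT.union hT.inv
    refine ((Set.finite_singleton (1 : G)).union
      (Set.Finite.image2 (fun a b => a * b) hfin ih)).subset ?_
    rintro x ⟨l, h1, h2, h3⟩
    cases l with
    | nil => left; simpa using h3.symm
    | cons a l =>
      right
      refine ⟨a, ?_, l.prod, ⟨l, by simpa using h1,
        fun s hs => h2 s (List.mem_cons_of_mem _ hs), rfl⟩, by simpa using h3⟩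
      rcases h2 a List.mem_cons_self with h | h
      · exact Or.inl h
      · exact Or.inr (by simpa using h)

lemma mem_autOrbit_self (g : G) : g ∈ autOrbit g := ⟨MulEquiv.refl G, rfl⟩

lemma autOrbit_eq {g h : G} (hh : h ∈ autOrbit g) : autOrbit h = autOrbit g := by
  obtain ⟨φ, rfl⟩ := hh
  ext k
  constructor
  · rintro ⟨ψ, rfl⟩
    exact ⟨φ.trans ψ, rfl⟩
  · rintro ⟨ψ, rfl⟩
    exact ⟨φ.symm.trans ψ, by simp⟩

lemma autOrbit_conj (g k : G) : autOrbit (k * g * k⁻¹) = autOrbit g :=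
  autOrbit_eq ⟨MulAut.conj k, by simp⟩

lemma autGrowth_eq (T : Set G) (n : ℕ) : autGrowth T n = (autOrbit '' ball T n).ncard := by
  rw [autGrowth]
  congr 1
  ext O
  constructor
  · rintro ⟨⟨g, rfl⟩, h, h1, h2⟩
    exact ⟨h, h2, autOrbit_eq h1⟩
  · rintro ⟨h, h1, rfl⟩
    exact ⟨⟨h, rfl⟩, h, mem_autOrbit_self h, h1⟩

lemma autGrowth_le {T : Set G} (n : ℕ) (R : Finset G)
    (hR : ∀ g ∈ ball T n, ∃ h ∈ R, autOrbit g = autOrbit h) : autGrowth T n ≤ R.card := by
  rw [autGrowth_eq]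
  calc (autOrbit '' ball T n).ncard ≤ ((R.image autOrbit : Finset (Set G)) : Set (Set G)).ncard := by
        apply Set.ncard_le_ncard _ (Finset.finite_toSet _)
        rintro O ⟨g, hg, rfl⟩
        obtain ⟨h, h1, h2⟩ := hR g hg
        rw [h2]
        simp only [Finset.coe_image]
        exact ⟨h, h1, rfl⟩
    _ = (R.image autOrbit).card := Set.ncard_coe_finset _
    _ ≤ R.card := Finset.card_image_le

end defs

namespace E

lemma lower {T : Set E} (hfin : T.Finite) (hT : Subgroup.closure T = ⊤) :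
    ∃ C : ℕ, 1 ≤ C ∧ ∀ N : ℕ, GcdSum.L N ≤ autGrowth T (C * N) := by
  obtain ⟨a, ha⟩ := exists_ball hT (h 1 0 0)
  obtain ⟨b, hb⟩ := exists_ball hT (h 0 1 0)
  obtain ⟨c, hc⟩ := exists_ball hT (h 0 0 1)
  refine ⟨a + b + c + 1, by omega, fun N => ?_⟩
  set F : Finset (Σ _ : ℕ × ℕ, ℕ) :=
    (Finset.Icc 1 N ×ˢ Finset.Icc 1 N).sigma (fun p => Finset.range (Nat.gcd p.1 p.2)) with hF
  have hFc : F.card = GcdSum.L N := by
    rw [hF, Finset.card_sigma]
    simp [GcdSum.L]
  set f : (Σ _ : ℕ × ℕ, ℕ) → Set E := fun q => autOrbit (h q.1.1 q.1.2 q.2) with hf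
  have hinj : Set.InjOn f (F : Set (Σ _ : ℕ × ℕ, ℕ)) := by
    rintro ⟨⟨x, y⟩, z⟩ hq ⟨⟨x', y'⟩, z'⟩ hq' heq
    rw [hF, Finset.mem_coe, Finset.mem_sigma] at hq hq'
    simp only [Finset.mem_product, Finset.mem_Icc, Finset.mem_range] at hq hq'
    simp only [hf] at heq
    have h1 : h x' y' z' ∈ autOrbit (h x y z) := by
      rw [heq]; exact mem_autOrbit_self _
    obtain ⟨φ, hφ⟩ := h1
    obtain ⟨⟨⟨h2, h3⟩, h4, h5⟩, h6⟩ := hq
    obtain ⟨⟨⟨h2', h3'⟩, h4', h5'⟩, h6'⟩ := hq'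
    obtain ⟨h7, h8, h9⟩ := distinct φ x y z x' y' z' (by exact_mod_cast h2) (by exact_mod_cast h4)
      (by positivity) (by rw [Int.gcd_natCast_natCast]; exact_mod_cast h6)
      (by exact_mod_cast h2') (by exact_mod_cast h4')
      (by positivity) (by rw [Int.gcd_natCast_natCast]; exact_mod_cast h6') hφ
    have h7' : x = x' := by exact_mod_cast h7
    have h8' : y = y' := by exact_mod_cast h8
    have h9' : z = z' := by exact_mod_cast h9
    subst h7' h8' h9'
    rfl
  rw [autGrowth_eq, ← hFc, ← Finset.card_image_of_injOn hinj, ← Set.ncard_coe_finset]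
  apply Set.ncard_le_ncard _ ((ball_finite hfin _).image _)
  intro O hO
  simp only [Finset.coe_image, Set.mem_image] at hO
  obtain ⟨⟨⟨x, y⟩, z⟩, hq, rfl⟩ := hO
  rw [hF, Finset.mem_coe, Finset.mem_sigma] at hq
  simp only [Finset.mem_product, Finset.mem_Icc, Finset.mem_range] at hq
  obtain ⟨⟨⟨h2, h3⟩, h4, h5⟩, h6⟩ := hq
  refine ⟨h x y z, ?_, rfl⟩
  have h7 : z ≤ N := by
    have : Nat.gcd x y ≤ x := Nat.gcd_le_left _ (by omega)
    omega
  have h8 : (h x y z : E) = (h 0 1 0) ^ y * (h 1 0 0) ^ x * (h 0 0 1) ^ z := by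
    have := decomp x y z
    rw [this]
    simp only [zpow_natCast]
  rw [h8]
  refine ball_mono ?_ (mul_mem_ball (mul_mem_ball (pow_mem_ball hb y) (pow_mem_ball ha x))
    (pow_mem_ball hc z))
  have e1 : y * b ≤ N * b := Nat.mul_le_mul_right b h5
  have e2 : x * a ≤ N * a := Nat.mul_le_mul_right a h3
  have e3 : z * c ≤ N * c := Nat.mul_le_mul_right c h7
  calc y * b + x * a + z * c ≤ N * b + N * a + N * c := by omega
    _ ≤ (a + b + c + 1) * N := by nlinarith

lemma abs_unit_mul (e : ℤˣ) (x : ℤ) : |(e : ℤ) * x| = |x| := by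
  rcases Int.units_eq_one_or e with h | h <;> simp [h]

lemma coord_bound {T : Set E} (hfin : T.Finite) : ∃ c : ℕ, 1 ≤ c ∧ ∀ n : ℕ, ∀ g ∈ ball T n,
    |g.x| ≤ (c * n : ℕ) ∧ |g.y| ≤ (c * n : ℕ) ∧ |g.z| ≤ ((c * n) ^ 2 : ℕ) := by
  have hfin2 : (T ∪ T⁻¹).Finite := hfin.union hfin.inv
  obtain ⟨c, hc⟩ : ∃ c : ℕ, ∀ s ∈ T ∪ T⁻¹, |s.x| ≤ c ∧ |s.y| ≤ c ∧ |s.z| ≤ c := by
    obtain ⟨M, hM⟩ := (hfin2.image (fun s : E => s.x.natAbs + s.y.natAbs + s.z.natAbs)).bddAbove
    refine ⟨M, fun s hs => ?_⟩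
    have := hM ⟨s, hs, rfl⟩
    simp only at this
    refine ⟨?_, ?_, ?_⟩ <;> rw [Int.abs_eq_natAbs] <;> omega
  refine ⟨c + 1, by omega, ?_⟩
  have key : ∀ l : List E, (∀ s ∈ l, s ∈ T ∨ s⁻¹ ∈ T) →
      |l.prod.x| ≤ ((c + 1) * l.length : ℕ) ∧ |l.prod.y| ≤ ((c + 1) * l.length : ℕ) ∧
      |l.prod.z| ≤ (((c + 1) * l.length) ^ 2 : ℕ) := by
    intro l
    induction l with
    | nil => intro _; simp
    | cons s l ih =>
      intro hl
      obtain ⟨h1, h2, h3⟩ := ih (fun t ht => hl t (List.mem_cons_of_mem _ ht))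
      have hs : s ∈ T ∪ T⁻¹ := by
        rcases hl s List.mem_cons_self with h | h
        · exact Or.inl h
        · exact Or.inr (by simpa using h)
      obtain ⟨h4, h5, h6⟩ := hc s hs
      rw [List.prod_cons, List.length_cons]
      push_cast at h1 h2 h3 ⊢
      have h7 := abs_unit_mul s.e l.prod.x
      have h8 := abs_unit_mul s.e l.prod.z
      refine ⟨?_, ?_, ?_⟩
      · rw [mul_x]
        have := abs_add_le s.x (s.e * l.prod.x)
        nlinarith
      · rw [mul_y]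
        have := abs_add_le s.y l.prod.y
        nlinarith
      · rw [mul_z]
        have h9 := abs_add_three s.z (s.e * l.prod.z) (s.x * l.prod.y)
        have h10 : |s.x * l.prod.y| ≤ c * ((c + 1) * l.length) := by
          rw [abs_mul]
          exact mul_le_mul h4 h2 (abs_nonneg _) (by positivity)
        have h11 : (0 : ℤ) ≤ c := by positivity
        have h12 : (0 : ℤ) ≤ l.length := by positivity
        have h13 : (0 : ℤ) ≤ c * l.length := by positivity
        nlinarith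
  rintro n g ⟨l, h1, h2, rfl⟩
  obtain ⟨h3, h4, h5⟩ := key l h2
  have h6 : (c + 1) * l.length ≤ (c + 1) * n := Nat.mul_le_mul_left _ h1
  have h7 : ((c + 1) * l.length) ^ 2 ≤ ((c + 1) * n) ^ 2 := Nat.pow_le_pow_left h6 2
  refine ⟨h3.trans (by exact_mod_cast h6), h4.trans (by exact_mod_cast h6),
    h5.trans (by exact_mod_cast h7)⟩

/-- representatives. -/
noncomputable def reps (m : ℕ) : Finset E :=
  (Finset.Icc (-((m ^ 2 : ℕ) : ℤ)) ((m ^ 2 : ℕ) : ℤ)).image (fun z => h 0 0 z) ∪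
  (((Finset.Icc (-(m : ℤ)) m ×ˢ Finset.Icc (-(m : ℤ)) m).filter (fun p => p ≠ (0, 0))).sigma
    (fun p => Finset.range (Int.gcd p.1 p.2))).image (fun q => h q.1.1 q.1.2 q.2) ∪
  ((Finset.range 2 ×ˢ Finset.range 2) ×ˢ Finset.Icc (-(m : ℤ)) m).image
    (fun q => (⟨q.1.1, q.2, q.1.2, -1⟩ : E))

lemma reps_card (m : ℕ) : (reps m).card ≤ (2 * m ^ 2 + 1) + GcdSum.U m + 4 * (2 * m + 1) := by
  refine (Finset.card_union_le _ _).trans ?_
  refine Nat.add_le_add ((Finset.card_union_le _ _).trans (Nat.add_le_add ?_ ?_)) ?_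
  · refine Finset.card_image_le.trans ?_
    rw [Int.card_Icc]
    omega
  · refine Finset.card_image_le.trans ?_
    rw [Finset.card_sigma]
    simp [GcdSum.U]
  · refine Finset.card_image_le.trans ?_
    rw [Finset.card_product, Finset.card_product, Int.card_Icc]
    simp
    omega

lemma conj_h (p q x y z : ℤ) : h p q 0 * h x y z * (h p q 0)⁻¹ = h x y (z + p * y - q * x) := by
  ext
  · simp [h]
  · simp [h]
  · simp [h]; ring
  · simp [h]

lemma conj_s (p r x y z : ℤ) : h p 0 r * ⟨x, y, z, -1⟩ * (h p 0 r)⁻¹ =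
    ⟨x + 2 * p, y, z + 2 * r + p * y, -1⟩ := by
  ext
  · simp [h]; ring
  · simp [h]
  · simp [h]; ring
  · simp [h]

lemma reps_spec (m : ℕ) (g : E) (hx : |g.x| ≤ m) (hy : |g.y| ≤ m) (hz : |g.z| ≤ (m ^ 2 : ℕ)) :
    ∃ k ∈ reps m, autOrbit g = autOrbit k := by
  obtain ⟨x, y, z, e⟩ := g
  simp only at hx hy hz
  rcases Int.units_eq_one_or e with he | he
  · subst he
    by_cases h0 : (x, y) = (0, 0)
    · simp only [Prod.mk.injEq] at h0
      obtain ⟨rfl, rfl⟩ := h0
      refine ⟨h 0 0 z, ?_, rfl⟩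
      rw [reps, Finset.mem_union, Finset.mem_union]
      left; left
      rw [Finset.mem_image]
      refine ⟨z, ?_, rfl⟩
      rw [Finset.mem_Icc]
      exact abs_le.mp hz
    · set d := Int.gcd x y with hd
      have hd0 : 0 < (d : ℤ) := by
        have : d ≠ 0 := by
          intro h1
          rw [hd, Int.gcd_eq_zero_iff] at h1
          exact h0 (Prod.ext h1.1 h1.2)
        omega
      set t := z / d
      have hbez : (d : ℤ) = x * Int.gcdA x y + y * Int.gcdB x y := Int.gcd_eq_gcd_ab x y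
      have h1 := conj_h (-(t * Int.gcdB x y)) (t * Int.gcdA x y) x y z
      have h2 : z + -(t * Int.gcdB x y) * y - t * Int.gcdA x y * x = z % d := by
        have h3 := Int.emod_add_mul_ediv z d
        have h4 : z + -(t * Int.gcdB x y) * y - t * Int.gcdA x y * x =
          z - t * (x * Int.gcdA x y + y * Int.gcdB x y) := by ring
        rw [h4, ← hbez]
        simp only [t]
        linarith [mul_comm (z / (d : ℤ)) (d : ℤ)]
      rw [h2] at h1
      have h5 := autOrbit_conj (h x y z) (h (-(t * Int.gcdB x y)) (t * Int.gcdA x y) 0)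
      rw [h1] at h5
      refine ⟨h x y (z % d), ?_, h5.symm⟩
      rw [reps, Finset.mem_union, Finset.mem_union]
      left; right
      rw [Finset.mem_image]
      have h6 : 0 ≤ z % (d : ℤ) := Int.emod_nonneg _ (by omega)
      have h7 : z % (d : ℤ) < d := Int.emod_lt_of_pos _ hd0
      refine ⟨⟨(x, y), (z % (d : ℤ)).toNat⟩, ?_, ?_⟩
      · simp only [Finset.mem_sigma, Finset.mem_filter, Finset.mem_product, Finset.mem_Icc,
          Finset.mem_range]
        refine ⟨⟨⟨abs_le.mp hx, abs_le.mp hy⟩, h0⟩, ?_⟩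
        omega
      · simp only
        rw [Int.toNat_of_nonneg h6]
  · subst he
    set p := -(x / 2)
    set r := -((z + p * y) / 2)
    have h1 := conj_s p r x y z
    have h5 := autOrbit_conj (⟨x, y, z, -1⟩ : E) (h p 0 r)
    rw [h1] at h5
    refine ⟨_, ?_, h5.symm⟩
    rw [reps, Finset.mem_union]
    right
    rw [Finset.mem_image]
    refine ⟨((((x + 2 * p).toNat, (z + 2 * r + p * y).toNat)), y), ?_, ?_⟩
    · simp only [Finset.mem_product, Finset.mem_range, Finset.mem_Icc]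
      refine ⟨⟨?_, ?_⟩, abs_le.mp hy⟩
      · simp only [p]; omega
      · simp only [r]; omega
    · simp only
      have h6 : 0 ≤ x + 2 * p := by simp only [p]; omega
      have h7 : 0 ≤ z + 2 * r + p * y := by simp only [r]; omega
      rw [Int.toNat_of_nonneg h6, Int.toNat_of_nonneg h7]

lemma upper {T : Set E} (hfin : T.Finite) : ∃ c : ℕ, 1 ≤ c ∧ ∀ n : ℕ,
    autGrowth T n ≤ (2 * (c * n) ^ 2 + 1) + GcdSum.U (c * n) + 4 * (2 * (c * n) + 1) := by
  obtain ⟨c, hc1, hc⟩ := coord_bound hfin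
  refine ⟨c, hc1, fun n => ?_⟩
  refine (autGrowth_le n (reps (c * n)) ?_).trans (reps_card _)
  intro g hg
  obtain ⟨h1, h2, h3⟩ := hc n g hg
  exact reps_spec (c * n) g h1 h2 h3

end E
end R636.AutG
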