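import Mathlib
import Pool.Agent.R636.AutG2

open scoped Classical
open Filter Topology

namespace R636.AutG

namespace E

lemma U_le_nat (m : ℕ) : GcdSum.U m ≤ 9 * m ^ 2 * (1 + m) := by
  have h1 := GcdSum.U_le m
  have h2 : Real.log m ≤ m := by
    rcases Nat.eq_zero_or_pos m with rfl | hm
    · simp
    · have := Real.log_le_sub_one_of_pos (show (0 : ℝ) < m by exact_mod_cast hm)
      linarith
  have h3 : (GcdSum.U m : ℝ) ≤ ((9 * m ^ 2 * (1 + m) : ℕ) : ℝ) := by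
    push_cast
    refine h1.trans ?_
    gcongr
  exact_mod_cast h3

lemma polyBounded {T : Set E} (hfin : T.Finite) : Dom (autGrowth T) (fun n => n ^ 3) := by
  obtain ⟨c, hc1, hc⟩ := upper hfin
  refine ⟨24 * c, by omega, fun n => ?_⟩
  refine (hc n).trans ?_
  have h1 := U_le_nat (c * n)
  set m := c * n with hm
  have h2 : 2 * m ^ 2 + 1 + 9 * m ^ 2 * (1 + m) + 4 * (2 * m + 1) ≤ 24 * (m + 1) ^ 3 := by
    nlinarith [sq_nonneg m, Nat.zero_le (m ^ 3)]
  have h3 : m + 1 ≤ 24 * c * n + 24 * c := by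
    have : c * n ≤ 24 * c * n := by nlinarith [Nat.zero_le (c * n)]
    omega
  calc 2 * m ^ 2 + 1 + GcdSum.U m + 4 * (2 * m + 1)
      ≤ 24 * (m + 1) ^ 3 := by omega
    _ ≤ 24 * c * (24 * c * n + 24 * c) ^ 3 := by
        apply Nat.mul_le_mul
        · omega
        · exact Nat.pow_le_pow_left h3 3
    _ ≤ _ := Nat.le_add_right _ _

lemma not_equi_small {T : Set E} (hfin : T.Finite) (hT : Subgroup.closure T = ⊤) (k : ℕ)
    (hk : k ≤ 2) : ¬ Dom (autGrowth T) (fun n => n ^ k) := by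
  rintro ⟨a, ha1, ha⟩
  obtain ⟨C, hC1, hC⟩ := lower hfin hT
  set K : ℝ := 4 * (a : ℝ) ^ 3 * (C : ℝ) ^ 2 + a with hK
  have hbound : ∀ N : ℕ, 1 ≤ N → Real.log (N + 1) ≤ 16 * K := by
    intro N hN
    have h1 := (hC N).trans (ha (C * N))
    have h2 : a * (a * (C * N) + a) ^ k + a ≤ a * (a * (C * N) + a) ^ 2 + a := by
      gcongr
      omega
    have h3 : a * (C * N) + a ≤ 2 * a * (C * N) := by
      have : 1 ≤ C * N := Nat.mul_pos hC1 hN
      nlinarith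
    have h4 : a * (a * (C * N) + a) ^ 2 + a ≤ a * (2 * a * (C * N)) ^ 2 + a * N ^ 2 := by
      have : 1 ≤ N ^ 2 := Nat.one_le_pow _ _ hN
      gcongr
      nlinarith
    have h5 : (GcdSum.L N : ℝ) ≤ ((a * (2 * a * (C * N)) ^ 2 + a * N ^ 2 : ℕ) : ℝ) := by
      exact_mod_cast h1.trans (h2.trans h4)
    have h6 := GcdSum.L_ge N
    have hN0 : (0 : ℝ) < N := by exact_mod_cast hN
    push_cast at h5
    have h7 : (a : ℝ) * (2 * a * (C * N)) ^ 2 + a * N ^ 2 = K * N ^ 2 := by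
      rw [hK]; ring
    rw [h7] at h5
    have h8 : (N : ℝ) ^ 2 / 16 * Real.log (N + 1) ≤ (N : ℝ) ^ 2 / 16 * (16 * K) := by
      calc _ ≤ _ := h6
        _ ≤ _ := h5
        _ = _ := by ring
    exact le_of_mul_le_mul_left h8 (by positivity)
  have h1 : Tendsto (fun N : ℕ => Real.log ((N : ℝ) + 1)) atTop atTop :=
    Real.tendsto_log_atTop.comp (tendsto_natCast_atTop_atTop.atTop_add tendsto_const_nhds)
  obtain ⟨N, hN1, hN2⟩ := ((h1.eventually_gt_atTop (16 * K)).and (eventually_ge_atTop 1)).exists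
  exact absurd (hbound N hN2) (not_le.mpr hN1)

lemma not_equi_large {T : Set E} (hfin : T.Finite) (k : ℕ)
    (hk : 3 ≤ k) : ¬ Dom (fun n => n ^ k) (autGrowth T) := by
  rintro ⟨a, ha1, ha⟩
  obtain ⟨c, hc1, hc⟩ := upper hfin
  have hupper : ∀ n : ℕ, 1 ≤ n → (autGrowth T n : ℝ) ≤
      24 * ((c * n : ℕ) : ℝ) ^ 2 * (1 + Real.log ((c * n : ℕ) : ℝ)) := by
    intro n hn
    have h1 := hc n
    have h2 := GcdSum.U_le (c * n)
    have hm1 : 1 ≤ c * n := Nat.mul_pos hc1 hn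
    set m := c * n with hm
    have h3 : (autGrowth T n : ℝ) ≤ (2 * m ^ 2 + 1) + GcdSum.U m + 4 * (2 * m + 1) := by
      exact_mod_cast h1
    have hm1' : (1 : ℝ) ≤ m := by exact_mod_cast hm1
    have h4 : 0 ≤ Real.log m := Real.log_nonneg hm1'
    nlinarith [mul_nonneg (sq_nonneg (m : ℝ)) h4]
  set D : ℕ := 2 * c * a with hD
  have hD1 : 1 ≤ D := by
    have : 1 ≤ c * a := Nat.mul_pos hc1 ha1
    nlinarith
  set K : ℕ := 24 * a * D ^ 2 + a with hK
  have hmain : ∀ n : ℕ, 1 ≤ n → (n : ℝ) ≤ K * (1 + Real.log ((D : ℝ) * n)) := by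
    intro n hn
    have h1 := ha n
    simp only at h1
    have h2 : n ^ 3 ≤ n ^ k := Nat.pow_le_pow_right hn hk
    have h3 := hupper (a * n + a) (by omega)
    have h4 : c * (a * n + a) ≤ D * n := by
      rw [hD]; nlinarith [Nat.mul_pos hc1 ha1]
    have hpos : 1 ≤ c * (a * n + a) := Nat.mul_pos hc1 (by omega)
    have h5 : (n : ℝ) ^ 3 ≤ a * (autGrowth T (a * n + a) : ℝ) + a := by
      exact_mod_cast h2.trans h1
    have hn0 : (1 : ℝ) ≤ n := by exact_mod_cast hn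
    have hD0 : (1 : ℝ) ≤ D := by exact_mod_cast hD1
    have h6 : (autGrowth T (a * n + a) : ℝ) ≤ 24 * ((D : ℝ) * n) ^ 2 * (1 + Real.log ((D : ℝ) * n)) := by
      refine h3.trans ?_
      have h7 : ((c * (a * n + a) : ℕ) : ℝ) ≤ (D : ℝ) * n := by exact_mod_cast h4
      have h8 : (1 : ℝ) ≤ ((c * (a * n + a) : ℕ) : ℝ) := by exact_mod_cast hpos
      have h9 : 0 ≤ Real.log ((c * (a * n + a) : ℕ) : ℝ) := Real.log_nonneg h8
      gcongr
    have h10 : 0 ≤ Real.log ((D : ℝ) * n) := Real.log_nonneg (by nlinarith)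
    have h11 : (n : ℝ) ^ 3 ≤ (n : ℝ) ^ 2 * (K * (1 + Real.log ((D : ℝ) * n))) := by
      have h12 : (K : ℝ) = 24 * a * D ^ 2 + a := by rw [hK]; push_cast; ring
      rw [h12]
      have ha0 : (0 : ℝ) ≤ a := by positivity
      have h13 : (a : ℝ) ≤ a * (n : ℝ) ^ 2 * (1 + Real.log ((D : ℝ) * n)) := by
        have h14 : (1 : ℝ) ≤ (n : ℝ) ^ 2 := by nlinarith
        have h15 : (1 : ℝ) ≤ (n : ℝ) ^ 2 * (1 + Real.log ((D : ℝ) * n)) := by nlinarith
        nlinarith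
      calc (n : ℝ) ^ 3 ≤ a * (autGrowth T (a * n + a) : ℝ) + a := h5
        _ ≤ a * (24 * ((D : ℝ) * n) ^ 2 * (1 + Real.log ((D : ℝ) * n))) +
            a * (n : ℝ) ^ 2 * (1 + Real.log ((D : ℝ) * n)) := by gcongr
        _ = _ := by ring
    have h16 : (n : ℝ) ^ 2 * n ≤ (n : ℝ) ^ 2 * (K * (1 + Real.log ((D : ℝ) * n))) := by
      calc (n : ℝ) ^ 2 * n = (n : ℝ) ^ 3 := by ring
        _ ≤ _ := h11
    exact le_of_mul_le_mul_left h16 (by positivity)
  -- contradiction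
  set n : ℕ := 9 * K ^ 2 * D + 1 with hn
  have h1 := hmain n (by omega)
  have hD0 : (1 : ℝ) ≤ D := by exact_mod_cast hD1
  have hn0 : (1 : ℝ) ≤ n := by
    have : 1 ≤ n := by omega
    exact_mod_cast this
  have hx : (1 : ℝ) ≤ (D : ℝ) * n := by nlinarith
  have h2 := Real.log_le_rpow_div (show (0 : ℝ) ≤ (D : ℝ) * n by positivity)
    (show (0 : ℝ) < 1 / 2 by norm_num)
  rw [← Real.sqrt_eq_rpow] at h2
  have h3 : 1 ≤ Real.sqrt ((D : ℝ) * n) := by
    rw [Real.one_le_sqrt]; exact hx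
  have h4 : (n : ℝ) ≤ K * (3 * Real.sqrt ((D : ℝ) * n)) := by
    refine h1.trans ?_
    gcongr
    have : Real.sqrt ((D : ℝ) * n) / (1 / 2) = 2 * Real.sqrt ((D : ℝ) * n) := by ring
    linarith
  have h5 : (n : ℝ) ^ 2 ≤ (9 * K ^ 2 * D) * n := by
    calc (n : ℝ) ^ 2 ≤ (K * (3 * Real.sqrt ((D : ℝ) * n))) ^ 2 := by gcongr
      _ = 9 * K ^ 2 * (Real.sqrt ((D : ℝ) * n)) ^ 2 := by ring
      _ = (9 * K ^ 2 * D) * n := by rw [Real.sq_sqrt (by positivity)]; ring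
  have h6 : (n : ℝ) ≤ 9 * K ^ 2 * D := by
    have h7 : (n : ℝ) * n ≤ (9 * K ^ 2 * D) * n := by nlinarith
    exact le_of_mul_le_mul_right h7 (by positivity)
  have h7 : (n : ℝ) = 9 * K ^ 2 * D + 1 := by rw [hn]; push_cast; ring
  linarith

lemma closure_gens : Subgroup.closure ({h 1 0 0, h 0 1 0, s} : Set E) = ⊤ := by
  rw [eq_top_iff]
  rintro g -
  have hX : h 1 0 0 ∈ Subgroup.closure ({h 1 0 0, h 0 1 0, s} : Set E) :=
    Subgroup.subset_closure (by simp)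
  have hY : h 0 1 0 ∈ Subgroup.closure ({h 1 0 0, h 0 1 0, s} : Set E) :=
    Subgroup.subset_closure (by simp)
  have hs : s ∈ Subgroup.closure ({h 1 0 0, h 0 1 0, s} : Set E) :=
    Subgroup.subset_closure (by simp)
  have hZ' : h 0 0 1 ∈ Subgroup.closure ({h 1 0 0, h 0 1 0, s} : Set E) := by
    rw [hZ]
    exact Subgroup.mul_mem _ (Subgroup.mul_mem _ (Subgroup.mul_mem _ hX hY)
      (Subgroup.inv_mem _ hX)) (Subgroup.inv_mem _ hY)
  have hall : ∀ x y z : ℤ, h x y z ∈ Subgroup.closure ({h 1 0 0, h 0 1 0, s} : Set E) := by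
    intro x y z
    rw [decomp x y z]
    exact Subgroup.mul_mem _ (Subgroup.mul_mem _ (Subgroup.zpow_mem _ hY y)
      (Subgroup.zpow_mem _ hX x)) (Subgroup.zpow_mem _ hZ' z)
  obtain ⟨x, y, z, e⟩ := g
  rcases Int.units_eq_one_or e with he | he
  · subst he
    exact hall x y z
  · subst he
    have h1 := Subgroup.mul_mem _ (hall x y z) hs
    have h2 : h x y z * s = ⟨x, y, z, -1⟩ := by
      ext <;> simp [h, s]
    rwa [h2] at h1

instance : Group.FG E := by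
  refine ⟨⟨{h 1 0 0, h 0 1 0, s}, ?_⟩⟩
  rw [← closure_gens]
  simp

end E

/-- There is a finitely generated group whose automorphic growth rate is polynomially bounded but
not polynomial. -/
theorem main : ∃ (G : Type) (_ : Group G), Group.FG G ∧
    ∀ T : Set G, T.Finite → Subgroup.closure T = ⊤ →
      (∃ d : ℕ, Dom (autGrowth T) (fun n => n ^ d)) ∧
      ∀ k : ℕ, ¬ Equi (autGrowth T) (fun n => n ^ k) := by
  refine ⟨E, inferInstance, inferInstance, fun T hfin hT => ⟨⟨3, E.polyBounded hfin⟩, ?_⟩⟩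
  rintro k ⟨h1, h2⟩
  rcases le_or_gt k 2 with hk | hk
  · exact E.not_equi_small hfin hT k hk h1
  · exact E.not_equi_large hfin k hk h2

end R636.AutG
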