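import Mathlib
import Pool.Agent.H931R3.Bal1

/-!
Local modifications of linear extensions of a poset in which every element is incomparable to at most
`K` elements.
-/

set_option autoImplicit false
set_option linter.unusedSectionVars false

open Finset

namespace Pool.Agent.R636.BG

open Pool.Agent.H13R3.WB Pool.Agent.H931R3.Bal

variable {P : Type} [Fintype P] [PartialOrder P] {n : ℕ}

/-- number of linear extensions with a property -/
noncomputable def ct (A : LEn P n → Prop) : ℕ := by
  classical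
  exact (univ.filter A).card

lemma ct_eq (A : LEn P n → Prop) [DecidablePred A] : ct A = (univ.filter A).card := by
  unfold ct
  congr

lemma ct_mono {A B : LEn P n → Prop} (h : ∀ f, A f → B f) : ct A ≤ ct B := by
  classical
  rw [ct_eq, ct_eq]
  exact card_le_card (fun f hf => by
    rw [mem_filter] at hf ⊢
    exact ⟨hf.1, h f hf.2⟩)

lemma ct_split (A B : LEn P n → Prop) : ct A = ct (fun f => A f ∧ B f) + ct (fun f => A f ∧ ¬ B f) := by
  classical
  rw [ct_eq, ct_eq, ct_eq]
  have := card_filter_add_card_filter_not (s := univ.filter A) (p := B)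
  rw [filter_filter, filter_filter] at this
  exact this.symm

lemma ct_or {A B : LEn P n → Prop} : ct (fun f => A f ∨ B f) ≤ ct A + ct B := by
  classical
  rw [ct_eq, ct_eq, ct_eq, filter_or]
  exact card_union_le _ _

/-- the window of places around `i` -/
def win (i : Fin n) (W : ℕ) : Finset (Fin n) :=
  univ.filter (fun j => (j : ℕ) ≤ i + W ∧ (i : ℕ) ≤ j + W)

lemma win_card (i : Fin n) (W : ℕ) : (win i W).card ≤ 2 * W + 1 := by
  have h : (win i W).card ≤ (Finset.Icc ((i : ℕ) - W) (i + W)).card := by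
    apply card_le_card_of_injOn (fun j : Fin n => (j : ℕ))
    · intro j hj
      simp only [win, coe_filter, mem_univ, true_and, Set.mem_ofPred_eq] at hj
      simp only [coe_Icc, Set.mem_Icc]
      omega
    · intro j _ k _ h
      exact Fin.ext h
  rw [Nat.card_Icc] at h
  omega

lemma fiber_card (a : LEn P n) (i : Fin n) (W : ℕ) (S : Finset (LEn P n))
    (hS : ∀ f ∈ S, ∀ p, a.1 p ∉ win i W → f.1 p = a.1 p) :
    S.card ≤ (2 * W + 1) ^ (2 * W + 1) := by
  classical
  let T := win i W
  have h1 : S.card ≤ (Fintype.piFinset (fun _ : {j // j ∈ T} => T)).card := by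
    apply card_le_card_of_injOn (fun f => fun j : {j // j ∈ T} => f.1 (a.1.symm j))
    · intro f hf
      simp only [Fintype.coe_piFinset, Set.mem_pi, Set.mem_univ, mem_coe, forall_const]
      intro j
      by_contra hcon
      have h2 := hS f hf (a.1.symm (f.1 (a.1.symm j))) (by
        rw [Equiv.apply_symm_apply]
        exact hcon)
      rw [Equiv.apply_symm_apply] at h2
      have h3 := f.1.injective h2
      have h4 := a.1.symm.injective h3
      rw [h4] at hcon
      exact hcon j.2
    · intro f hf g hg hfg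
      apply Subtype.ext
      ext1 p
      by_cases hp : a.1 p ∈ T
      · have h2 := congrFun hfg ⟨a.1 p, hp⟩
        simpa using h2
      · rw [hS f hf p hp, hS g hg p hp]
  refine h1.trans ?_
  rw [Fintype.card_piFinset]
  simp only [prod_const, card_univ, Fintype.card_coe]
  calc T.card ^ T.card ≤ (2 * W + 1) ^ T.card := Nat.pow_le_pow_left (win_card i W) _
    _ ≤ (2 * W + 1) ^ (2 * W + 1) := Nat.pow_le_pow_right (by omega) (win_card i W)

/-- the key of the new order -/
noncomputable def key (f : LEn P n) (u v p : P) : ℤ := by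
  classical
  exact if f.1 u < f.1 p ∧ p ≤ v then ((n : ℤ) + 1) * ((f.1 u : ℕ) - 1) + ((f.1 p : ℕ) + 1)
    else ((n : ℤ) + 1) * (f.1 p : ℕ)

lemma key_in {f : LEn P n} {u v p : P} (h : f.1 u < f.1 p ∧ p ≤ v) :
    key f u v p = ((n : ℤ) + 1) * ((f.1 u : ℕ) - 1) + ((f.1 p : ℕ) + 1) := by
  unfold key
  rw [if_pos h]

lemma key_out {f : LEn P n} {u v p : P} (h : ¬ (f.1 u < f.1 p ∧ p ≤ v)) :
    key f u v p = ((n : ℤ) + 1) * (f.1 p : ℕ) := by
  unfold key
  rw [if_neg h]

/-- bounds for the key of a moved element -/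
lemma key_in_bd {f : LEn P n} {u v p : P} (h : f.1 u < f.1 p ∧ p ≤ v) :
    ((n : ℤ) + 1) * ((f.1 u : ℕ) - 1) < key f u v p ∧ key f u v p < ((n : ℤ) + 1) * (f.1 u : ℕ) := by
  rw [key_in h]
  have h1 := (f.1 p).2
  constructor
  · have : (0 : ℤ) < ((f.1 p : ℕ) : ℤ) + 1 := by positivity
    linarith
  · have : (((f.1 p : ℕ) : ℤ)) + 1 < (n : ℤ) + 1 := by exact_mod_cast (by omega)
    nlinarith

lemma mul_lt_iff {a b : ℤ} : ((n : ℤ) + 1) * a < ((n : ℤ) + 1) * b ↔ a < b :=
  mul_lt_mul_iff_right₀ (by positivity)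

lemma mul_le_iff {a b : ℤ} : ((n : ℤ) + 1) * a ≤ ((n : ℤ) + 1) * b ↔ a ≤ b :=
  mul_le_mul_iff_right₀ (by positivity)

/-- an element that is not moved compared with a moved one -/
lemma out_lt_in {f : LEn P n} {u v p q : P} (hp : ¬ (f.1 u < f.1 p ∧ p ≤ v))
    (hq : f.1 u < f.1 q ∧ q ≤ v) : key f u v p < key f u v q ↔ f.1 p < f.1 u := by
  have h1 := key_in_bd hq
  rw [key_out hp, Fin.lt_def]
  constructor
  · intro h
    have h2 : ((n : ℤ) + 1) * ((f.1 p : ℕ) : ℤ) < ((n : ℤ) + 1) * ((f.1 u : ℕ) : ℤ) := h.trans h1.2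
    rw [mul_lt_iff] at h2
    exact_mod_cast h2
  · intro h
    have h2 : ((n : ℤ) + 1) * ((f.1 p : ℕ) : ℤ) ≤ ((n : ℤ) + 1) * (((f.1 u : ℕ) : ℤ) - 1) := by
      rw [mul_le_iff]
      have : ((f.1 p : ℕ) : ℤ) < ((f.1 u : ℕ) : ℤ) := by exact_mod_cast h
      omega
    exact lt_of_le_of_lt h2 h1.1

lemma in_lt_out {f : LEn P n} {u v p q : P} (hp : f.1 u < f.1 p ∧ p ≤ v)
    (hq : ¬ (f.1 u < f.1 q ∧ q ≤ v)) : key f u v p < key f u v q ↔ f.1 u ≤ f.1 q := by
  have h1 := key_in_bd hp
  rw [key_out hq, Fin.le_def]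
  constructor
  · intro h
    have h2 : ((n : ℤ) + 1) * (((f.1 u : ℕ) : ℤ) - 1) < ((n : ℤ) + 1) * ((f.1 q : ℕ) : ℤ) :=
      h1.1.trans h
    rw [mul_lt_iff] at h2
    omega
  · intro h
    have h2 : ((n : ℤ) + 1) * ((f.1 u : ℕ) : ℤ) ≤ ((n : ℤ) + 1) * ((f.1 q : ℕ) : ℤ) := by
      rw [mul_le_iff]
      exact_mod_cast h
    exact lt_of_lt_of_le h1.2 h2

lemma in_lt_in {f : LEn P n} {u v p q : P} (hp : f.1 u < f.1 p ∧ p ≤ v)
    (hq : f.1 u < f.1 q ∧ q ≤ v) : key f u v p < key f u v q ↔ f.1 p < f.1 q := by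
  rw [key_in hp, key_in hq, Fin.lt_def]
  omega

lemma out_lt_out {f : LEn P n} {u v p q : P} (hp : ¬ (f.1 u < f.1 p ∧ p ≤ v))
    (hq : ¬ (f.1 u < f.1 q ∧ q ≤ v)) : key f u v p < key f u v q ↔ f.1 p < f.1 q := by
  rw [key_out hp, key_out hq, Fin.lt_def, mul_lt_iff]
  omega

lemma key_inj (f : LEn P n) (u v : P) : Function.Injective (key f u v) := by
  intro p q h
  by_contra hne
  have hne' : f.1 p ≠ f.1 q := fun h => hne (f.1.injective h)
  have h1 : ¬ key f u v p < key f u v q := by rw [h]; exact lt_irrefl _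
  have h2 : ¬ key f u v q < key f u v p := by rw [h]; exact lt_irrefl _
  by_cases hp : f.1 u < f.1 p ∧ p ≤ v
  · by_cases hq : f.1 u < f.1 q ∧ q ≤ v
    · rw [in_lt_in hp hq] at h1
      rw [in_lt_in hq hp] at h2
      exact hne' (le_antisymm (not_lt.mp h2) (not_lt.mp h1))
    · rw [in_lt_out hp hq] at h1
      rw [out_lt_in hq hp] at h2
      exact h2 (not_le.mp h1)
  · by_cases hq : f.1 u < f.1 q ∧ q ≤ v
    · rw [out_lt_in hp hq] at h1
      rw [in_lt_out hq hp] at h2
      exact h1 (not_le.mp h2)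
    · rw [out_lt_out hp hq] at h1
      rw [out_lt_out hq hp] at h2
      exact hne' (le_antisymm (not_lt.mp h2) (not_lt.mp h1))

/-- moving the elements of the lower set of `v` after `u` to the places just before `u` -/
lemma exists_move (hn : Fintype.card P = n) (f : LEn P n) (u v : P) (h : ¬ u ≤ v) :
    ∃ g : LEn P n, ∀ p q, g.1 p < g.1 q ↔ key f u v p < key f u v q := by
  obtain ⟨σ, hσ⟩ := exists_rank (key f u v) (key_inj f u v) hn
  refine ⟨⟨σ, ?_⟩, hσ⟩
  apply mono_of_lt
  intro p q hpq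
  rw [hσ]
  have hf := lt_of_mono f.2 hpq
  by_cases hp : f.1 u < f.1 p ∧ p ≤ v
  · by_cases hq : f.1 u < f.1 q ∧ q ≤ v
    · rw [in_lt_in hp hq]; exact hf
    · rw [in_lt_out hp hq]
      exact (hp.1.trans hf).le
  · by_cases hq : f.1 u < f.1 q ∧ q ≤ v
    · rw [out_lt_in hp hq]
      have hpv : p ≤ v := hpq.le.trans hq.2
      have h1 : ¬ f.1 u < f.1 p := fun h1 => hp ⟨h1, hpv⟩
      refine lt_of_le_of_ne (not_lt.mp h1) fun h2 => ?_
      exact h (f.1.injective h2 ▸ hpv)
    · rw [out_lt_out hp hq]; exact hf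

open Classical in
/-- the modified linear extension -/
noncomputable def mv (hn : Fintype.card P = n) (u v : P) (f : LEn P n) : LEn P n :=
  if h : ¬ u ≤ v then (exists_move hn f u v h).choose else f

lemma mv_spec (hn : Fintype.card P = n) {u v : P} (h : ¬ u ≤ v) (f : LEn P n) (p q : P) :
    (mv hn u v f).1 p < (mv hn u v f).1 q ↔ key f u v p < key f u v q := by
  unfold mv
  rw [dif_pos h]
  exact (exists_move hn f u v h).choose_spec p q

/-- the rank is the number of smaller elements -/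
lemma rank_card (f : LEn P n) (p : P) :
    (univ.filter (fun q => f.1 q < f.1 p)).card = (f.1 p : ℕ) := by
  classical
  have h : (univ.filter (fun q => f.1 q < f.1 p)).card = (Finset.Iio (f.1 p)).card := by
    apply card_nbij' (fun q => f.1 q) (fun i => f.1.symm i)
    · intro q hq
      simpa using hq
    · intro i hi
      simpa using hi
    · intro q _
      simp
    · intro i _
      simp
  rw [h, Fin.card_Iio]

lemma rank_eq {f g : LEn P n} {p : P} (h : ∀ q, g.1 q < g.1 p ↔ f.1 q < f.1 p) : g.1 p = f.1 p := by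
  apply Fin.ext
  rw [← rank_card g p, ← rank_card f p]
  congr 1
  ext q
  simp [h q]

lemma mv_low (hn : Fintype.card P = n) {u v : P} (h : ¬ u ≤ v) (f : LEn P n) {p : P}
    (hp : f.1 p < f.1 u) : (mv hn u v f).1 p = f.1 p := by
  apply rank_eq
  intro q
  rw [mv_spec hn h]
  have hp' : ¬ (f.1 u < f.1 p ∧ p ≤ v) := fun h1 => absurd hp (not_lt.mpr h1.1.le)
  by_cases hq : f.1 u < f.1 q ∧ q ≤ v
  · rw [in_lt_out hq hp']
    constructor
    · intro h1; exact absurd hp (not_lt.mpr h1)
    · intro h1; exact absurd (h1.trans hp) (not_lt.mpr hq.1.le)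
  · rw [out_lt_out hq hp']

lemma mv_high (hn : Fintype.card P = n) {u v : P} (h : ¬ u ≤ v) (f : LEn P n)
    (huv : f.1 u < f.1 v) {p : P} (hp : f.1 v < f.1 p) : (mv hn u v f).1 p = f.1 p := by
  apply rank_eq
  intro q
  rw [mv_spec hn h]
  have hp' : ¬ (f.1 u < f.1 p ∧ p ≤ v) := fun h1 => absurd (f.2 h1.2) (not_le.mpr hp)
  by_cases hq : f.1 u < f.1 q ∧ q ≤ v
  · rw [in_lt_out hq hp']
    constructor
    · intro _; exact lt_of_le_of_lt (f.2 hq.2) hp
    · intro _; exact (huv.trans hp).le
  · rw [out_lt_out hq hp']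

lemma mv_vu (hn : Fintype.card P = n) {u v : P} (h : ¬ u ≤ v) (f : LEn P n)
    (huv : f.1 u < f.1 v) : (mv hn u v f).1 v < (mv hn u v f).1 u := by
  rw [mv_spec hn h, in_lt_out ⟨huv, le_refl v⟩ (fun h1 => lt_irrefl _ h1.1)]

/-- elements before `u` stay before `v` -/
lemma mv_pv (hn : Fintype.card P = n) {u v p : P} (h : ¬ u ≤ v) (f : LEn P n)
    (huv : f.1 u < f.1 v) (hp : f.1 p < f.1 u) : (mv hn u v f).1 p < (mv hn u v f).1 v := by
  rw [mv_spec hn h, out_lt_in (fun h1 => absurd hp (not_lt.mpr h1.1.le)) ⟨huv, le_refl v⟩]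
  exact hp

/-- `v` stays before the elements after it -/
lemma mv_vp (hn : Fintype.card P = n) {u v p : P} (h : ¬ u ≤ v) (f : LEn P n)
    (huv : f.1 u < f.1 v) (hp : f.1 v < f.1 p) : (mv hn u v f).1 v < (mv hn u v f).1 p := by
  rw [mv_spec hn h, in_lt_out ⟨huv, le_refl v⟩ (fun h1 => absurd (f.2 h1.2) (not_le.mpr hp))]
  exact (huv.trans hp).le

/-- the elements incomparable to `p` -/
noncomputable def inc (p : P) : Finset P := by
  classical
  exact univ.filter (fun q => ¬ p ≤ q ∧ ¬ q ≤ p)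

lemma mem_inc {p q : P} : q ∈ inc p ↔ ¬ p ≤ q ∧ ¬ q ≤ p := by
  unfold inc
  simp

lemma width_bound {K : ℕ} (hK : ∀ p : P, (inc p).card ≤ K) {u v : P} (h : ¬ u ≤ v) (f : LEn P n)
    (huv : f.1 u < f.1 v) : (f.1 v : ℕ) ≤ f.1 u + (2 * K + 1) := by
  classical
  have h1 : (Finset.Ioo (f.1 u) (f.1 v)).card ≤ (inc u ∪ inc v).card := by
    apply card_le_card_of_injOn (fun i => f.1.symm i)
    · intro i hi
      simp only [coe_Ioo, Set.mem_Ioo] at hi
      simp only [coe_union, Set.mem_union, mem_coe, mem_inc]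
      by_contra hcon
      push Not at hcon
      have h3 : ¬ f.1.symm i ≤ u := fun h3 => by
        have := f.2 h3
        rw [Equiv.apply_symm_apply] at this
        exact absurd hi.1 (not_lt.mpr this)
      have h4 : ¬ v ≤ f.1.symm i := fun h4 => by
        have := f.2 h4
        rw [Equiv.apply_symm_apply] at this
        exact absurd hi.2 (not_lt.mpr this)
      have h5 : u ≤ f.1.symm i := by
        by_contra h5
        exact h3 (hcon.1 h5)
      have h6 : f.1.symm i ≤ v := hcon.2 h4
      exact h (h5.trans h6)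
    · intro i _ j _ hij
      exact f.1.symm.injective hij
  rw [Fin.card_Ioo] at h1
  have h2 := card_union_le (inc u) (inc v)
  have h3 := hK u
  have h4 := hK v
  omega

/-- the constant of the local modification -/
def CK (K : ℕ) : ℕ := (2 * (2 * K + 1) + 1) ^ (2 * (2 * K + 1) + 1)

/-- the number of linear extensions with a property is at most `CK K` times the number of those with
another property if the first property is turned into the second one by the modification -/
theorem move_le (hn : Fintype.card P = n) {K : ℕ} (hK : ∀ p : P, (inc p).card ≤ K) {u v : P}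
    (h : ¬ u ≤ v) (A B : LEn P n → Prop) (hA : ∀ f, A f → f.1 u < f.1 v)
    (hB : ∀ f, A f → B (mv hn u v f)) : ct A ≤ CK K * ct B := by
  classical
  have h1 : ct A ≤ CK K * ((univ.filter A).image (mv hn u v)).card := by
    rw [ct_eq]
    apply card_le_mul_card_image
    intro a _
    apply fiber_card a (a.1 u) (2 * K + 1)
    intro f hf p hp
    rw [mem_filter, mem_filter] at hf
    obtain ⟨⟨_, hf1⟩, hf2⟩ := hf
    have huv := hA f hf1
    have hw := width_bound hK h f huv
    rw [← hf2]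
    rcases lt_or_ge (f.1 p) (f.1 u) with h2 | h2
    · exact (mv_low hn h f h2).symm
    rcases lt_or_ge (f.1 v) (f.1 p) with h3 | h3
    · exact (mv_high hn h f huv h3).symm
    exfalso
    apply hp
    -- both `a u` and `a p` are in the window of places
    have hwin : ∀ q : P, f.1 u ≤ f.1 q → f.1 q ≤ f.1 v →
        (f.1 u : ℕ) ≤ (a.1 q : ℕ) ∧ (a.1 q : ℕ) ≤ (f.1 v : ℕ) := by
      intro q hq1 hq2
      rw [← hf2]
      constructor
      · by_contra hcon
        rw [not_le] at hcon
        have hr : f.1 (f.1.symm ((mv hn u v f).1 q)) < f.1 u := by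
          rw [Equiv.apply_symm_apply, Fin.lt_def]; exact hcon
        have h5 := mv_low hn h f hr
        rw [Equiv.apply_symm_apply] at h5
        have h6 := (mv hn u v f).1.injective h5
        rw [h6] at hr
        exact absurd hr (not_lt.mpr hq1)
      · by_contra hcon
        rw [not_le] at hcon
        have hr : f.1 v < f.1 (f.1.symm ((mv hn u v f).1 q)) := by
          rw [Equiv.apply_symm_apply, Fin.lt_def]; exact hcon
        have h5 := mv_high hn h f huv hr
        rw [Equiv.apply_symm_apply] at h5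
        have h6 := (mv hn u v f).1.injective h5
        rw [h6] at hr
        exact absurd hr (not_lt.mpr hq2)
    have h4 := hwin p h2 h3
    have h5 := hwin u (le_refl _) huv.le
    simp only [win, mem_filter, mem_univ, true_and]
    omega
  refine h1.trans (Nat.mul_le_mul_left _ ?_)
  rw [ct_eq]
  apply card_le_card
  intro g hg
  rw [mem_image] at hg
  obtain ⟨f, hf, rfl⟩ := hg
  rw [mem_filter] at hf ⊢
  exact ⟨mem_univ _, hB f hf.2⟩

end Pool.Agent.R636.BG
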