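import Mathlib
import Pool.Agent.H931R3.Bal2
import Pool.Agent.R636.BGap1

/-!
Frequencies of events in the set of linear extensions of a thin poset, majority cycles and
automorphisms.
-/

set_option autoImplicit false
set_option linter.unusedSectionVars false

open Finset

namespace Pool.Agent.R636.BG

open Pool.Agent.H13R3.WB Pool.Agent.H931R3.Bal

variable {P : Type} [Fintype P] [PartialOrder P] {n : ℕ}

/-- the frequency of an event -/
noncomputable def pb (A : LEn P n → Prop) : ℝ := (ct A : ℝ) / Fintype.card (LEn P n)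

lemma pb_nonneg (A : LEn P n → Prop) : 0 ≤ pb A := by
  unfold pb
  positivity

lemma pb_mono {A B : LEn P n → Prop} (h : ∀ f, A f → B f) : pb A ≤ pb B := by
  unfold pb
  gcongr
  exact ct_mono h

lemma pb_congr {A B : LEn P n → Prop} (h : ∀ f, A f ↔ B f) : pb A = pb B :=
  le_antisymm (pb_mono fun f => (h f).1) (pb_mono fun f => (h f).2)

lemma pb_split (A B : LEn P n → Prop) :
    pb A = pb (fun f => A f ∧ B f) + pb (fun f => A f ∧ ¬ B f) := by
  unfold pb
  rw [ct_split A B]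
  push_cast
  ring

/-- an event covered by two events -/
lemma pb_cover {A B C : LEn P n → Prop} (h : ∀ f, A f → B f ∨ C f) : pb A ≤ pb B + pb C := by
  rw [pb_split A B]
  apply add_le_add
  · exact pb_mono fun f hf => hf.2
  · exact pb_mono fun f hf => (h f hf.1).resolve_left hf.2

/-- two disjoint events inside an event -/
lemma pb_disj {A B C : LEn P n → Prop} (hB : ∀ f, B f → A f) (hC : ∀ f, C f → A f)
    (hBC : ∀ f, B f → ¬ C f) : pb B + pb C ≤ pb A := by
  rw [pb_split A B]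
  apply add_le_add
  · exact pb_mono fun f hf => ⟨hB f hf, hf⟩
  · exact pb_mono fun f hf => ⟨hC f hf, fun h => hBC f h hf⟩

lemma pb_true (hn : Fintype.card P = n) {A : LEn P n → Prop} (h : ∀ f, A f) : pb A = 1 := by
  classical
  unfold pb
  rw [ct_eq, filter_true_of_mem (fun f _ => h f), card_univ]
  exact div_self (card_ne hn)

lemma pb_false {A : LEn P n → Prop} (h : ∀ f, ¬ A f) : pb A = 0 := by
  classical
  unfold pb
  rw [ct_eq, filter_false_of_mem (fun f _ => h f)]
  simp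

lemma pb_exists {A : LEn P n → Prop} (h : 0 < pb A) : ∃ f, A f := by
  by_contra hcon
  push Not at hcon
  rw [pb_false hcon] at h
  exact lt_irrefl _ h

lemma pb_compl (hn : Fintype.card P = n) (A : LEn P n → Prop) : pb A + pb (fun f => ¬ A f) = 1 := by
  have h := pb_split (fun _ : LEn P n => True) A
  rw [pb_true hn (fun _ => trivial)] at h
  simp only [true_and] at h
  exact h.symm

lemma pb_lt_add (hn : Fintype.card P = n) {x y : P} (hxy : x ≠ y) :
    pb (fun f : LEn P n => f.1 x < f.1 y) + pb (fun f : LEn P n => f.1 y < f.1 x) = 1 := by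
  rw [← pb_compl hn (fun f : LEn P n => f.1 x < f.1 y)]
  congr 1
  apply pb_congr
  intro f
  constructor
  · intro h; exact not_lt.mpr h.le
  · intro h
    exact lt_of_le_of_ne (not_lt.mp h) fun h1 => hxy (f.1.injective h1).symm

lemma prob_pb (hn : Fintype.card P = n) (x y : P) :
    prob P x y = pb (fun f : LEn P n => f.1 x < f.1 y) := by
  classical
  rw [prob_eq hn]
  unfold pr pb
  rw [sum_boole, ct_eq]

lemma pb_move (hn : Fintype.card P = n) {K : ℕ} (hK : ∀ p : P, (inc p).card ≤ K) {u v : P}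
    (h : ¬ u ≤ v) (A B : LEn P n → Prop) (hA : ∀ f, A f → f.1 u < f.1 v)
    (hB : ∀ f, A f → B (mv hn u v f)) : pb A ≤ CK K * pb B := by
  unfold pb
  rw [← mul_div_assoc]
  gcongr
  exact_mod_cast move_le hn hK h A B hA hB

/-- a relation that does not hold is violated with a frequency bounded from below -/
lemma pb_low (hn : Fintype.card P = n) {K : ℕ} (hK : ∀ p : P, (inc p).card ≤ K) {x y : P}
    (h : ¬ x ≤ y) : 1 ≤ ((CK K : ℝ) + 1) * pb (fun f : LEn P n => f.1 y < f.1 x) := by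
  have h1 := pb_move hn hK h (fun f => f.1 x < f.1 y) (fun f => f.1 y < f.1 x) (fun f hf => hf)
    (fun f hf => mv_vu hn h f hf)
  have h2 := pb_lt_add hn (fun hxy : x = y => h hxy.le)
  nlinarith

/-! ### exact exchange of two elements -/

lemma swap_mono (f : LEn P n) {x y : P} [DecidableEq P] (hxy : f.1 x < f.1 y) (hnc : ¬ x ≤ y)
    (h1 : ∀ w, w < y → f.1 w < f.1 x) (h2 : ∀ w, x < w → f.1 y < f.1 w) :
    Monotone ((Equiv.swap x y).trans f.1) := by
  apply mono_of_lt
  intro p q hpq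
  have hf := lt_of_mono f.2 hpq
  simp only [Equiv.trans_apply]
  by_cases hpx : p = x
  · subst hpx
    have hqy : q ≠ y := fun h => hnc (h ▸ hpq.le)
    rw [Equiv.swap_apply_left, Equiv.swap_apply_of_ne_of_ne hpq.ne' hqy]
    exact h2 q hpq
  by_cases hpy : p = y
  · subst hpy
    rw [Equiv.swap_apply_right]
    have hqx : q ≠ x := by
      rintro rfl
      exact absurd (hxy.trans hf) (lt_irrefl _)
    rw [Equiv.swap_apply_of_ne_of_ne hqx hpq.ne']
    exact hxy.trans hf
  rw [Equiv.swap_apply_of_ne_of_ne hpx hpy]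
  by_cases hqx : q = x
  · subst hqx
    rw [Equiv.swap_apply_left]
    exact hf.trans hxy
  by_cases hqy : q = y
  · subst hqy
    rw [Equiv.swap_apply_right]
    exact h1 p hpq
  rw [Equiv.swap_apply_of_ne_of_ne hqx hqy]
  exact hf

/-- exchanging the places of `x` and `y` injects an event into another one -/
lemma ct_swap (x y : P) (A B : LEn P n → Prop)
    (h : ∀ f, A f → f.1 x < f.1 y ∧ ¬ x ≤ y ∧ (∀ w, w < y → f.1 w < f.1 x) ∧
      (∀ w, x < w → f.1 y < f.1 w))
    (hB : ∀ f g : LEn P n, A f → g.1 x = f.1 y → g.1 y = f.1 x →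
      (∀ w, w ≠ x → w ≠ y → g.1 w = f.1 w) → B g) : ct A ≤ ct B := by
  classical
  rw [ct_eq, ct_eq]
  apply card_le_card_of_injOn (fun f => if hm : Monotone ((Equiv.swap x y).trans f.1) then
    (⟨(Equiv.swap x y).trans f.1, hm⟩ : LEn P n) else f)
  · intro f hf
    rw [mem_coe, mem_filter] at hf
    rw [mem_coe, mem_filter]
    refine ⟨mem_univ _, ?_⟩
    obtain ⟨h1, h2, h3, h4⟩ := h f hf.2
    have hm := swap_mono f h1 h2 h3 h4
    simp only [dif_pos hm]
    refine hB f _ hf.2 ?_ ?_ ?_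
    · simp
    · simp
    · intro w hwx hwy
      simp [Equiv.swap_apply_of_ne_of_ne hwx hwy]
  · intro f hf g hg hfg
    rw [mem_coe, mem_filter] at hf hg
    obtain ⟨h1, h2, h3, h4⟩ := h f hf.2
    have hm := swap_mono f h1 h2 h3 h4
    obtain ⟨g1, g2, g3, g4⟩ := h g hg.2
    have gm := swap_mono g g1 g2 g3 g4
    simp only [dif_pos hm, dif_pos gm] at hfg
    have := congrArg Subtype.val hfg
    apply Subtype.ext
    ext1 p
    have h5 := Equiv.congr_fun this (Equiv.swap x y p)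
    simpa using h5

lemma pb_swap (x y : P) (A B : LEn P n → Prop)
    (h : ∀ f, A f → f.1 x < f.1 y ∧ ¬ x ≤ y ∧ (∀ w, w < y → f.1 w < f.1 x) ∧
      (∀ w, x < w → f.1 y < f.1 w))
    (hB : ∀ f g : LEn P n, A f → g.1 x = f.1 y → g.1 y = f.1 x →
      (∀ w, w ≠ x → w ≠ y → g.1 w = f.1 w) → B g) : pb A ≤ pb B := by
  unfold pb
  gcongr
  exact ct_swap x y A B h hB

/-! ### majority cycles -/

/-- `P` has no balanced pair -/
def Unb (P : Type) [Fintype P] [PartialOrder P] (n : ℕ) (ε : ℝ) : Prop :=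
  ∀ x y : P, min (pb (fun f : LEn P n => f.1 x < f.1 y)) (pb (fun f : LEn P n => f.1 y < f.1 x))
    < 1 / 3 + ε

lemma Unb.lt {ε : ℝ} (h : Unb P n ε) (hn : Fintype.card P = n) {x y : P} (hxy : x ≠ y)
    (h1 : pb (fun f : LEn P n => f.1 x < f.1 y) ≤ 2 / 3 - ε) :
    pb (fun f : LEn P n => f.1 x < f.1 y) < 1 / 3 + ε := by
  have h2 := h x y
  have h3 := pb_lt_add hn hxy
  rcases min_lt_iff.mp h2 with h4 | h4
  · exact h4
  · exfalso
    linarith

lemma Unb.gt {ε : ℝ} (h : Unb P n ε) (hn : Fintype.card P = n) {x y : P} (hxy : x ≠ y)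
    (h1 : 1 / 3 + ε ≤ pb (fun f : LEn P n => f.1 x < f.1 y)) :
    2 / 3 - ε < pb (fun f : LEn P n => f.1 x < f.1 y) := by
  by_contra hcon
  exact absurd (h.lt hn hxy (not_lt.mp hcon)) (not_lt.mpr h1)

lemma cyc_move (hn : Fintype.card P = n) {K : ℕ} (hK : ∀ p : P, (inc p).card ≤ K) {x y z : P}
    (h : ¬ y ≤ z) : pb (fun f : LEn P n => f.1 x < f.1 y ∧ f.1 y < f.1 z) ≤
      CK K * pb (fun f : LEn P n => f.1 x < f.1 z ∧ f.1 z < f.1 y) := by
  apply pb_move hn hK h
  · intro f hf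
    exact hf.2
  · intro f hf
    exact ⟨mv_pv hn h f hf.2 hf.1, mv_vu hn h f hf.2⟩

lemma no_three_cycle (hn : Fintype.card P = n) {K : ℕ} (hK : ∀ p : P, (inc p).card ≤ K) {ε : ℝ}
    (hε : 3 * ε * (3 * CK K + 1) < 1) (hε0 : 0 < ε) (hε1 : ε ≤ 1 / 12) {x y z : P}
    (h1 : 2 / 3 - ε < pb (fun f : LEn P n => f.1 x < f.1 y))
    (h2 : 2 / 3 - ε < pb (fun f : LEn P n => f.1 y < f.1 z))
    (h3 : 2 / 3 - ε < pb (fun f : LEn P n => f.1 z < f.1 x)) : False := by
  -- no relations between the three elements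
  have aux : ∀ p q r : P, 2 / 3 - ε < pb (fun f : LEn P n => f.1 q < f.1 r) →
      2 / 3 - ε < pb (fun f : LEn P n => f.1 r < f.1 p) → ¬ p ≤ q := by
    intro p q r h4 h5 hpq
    have h6 : pb (fun f : LEn P n => f.1 q < f.1 r) + pb (fun f : LEn P n => f.1 r < f.1 p) ≤
        pb (fun _ : LEn P n => True) := by
      apply pb_disj (fun _ _ => trivial) (fun _ _ => trivial)
      intro f hf hf2
      exact absurd (f.2 hpq) (not_le.mpr (hf.trans hf2))
    rw [pb_true hn (fun _ => trivial)] at h6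
    linarith
  have hxy := aux x y z h2 h3
  have hyz := aux y z x h3 h1
  have hzx := aux z x y h1 h2
  have m1 := cyc_move (n := n) hn hK (x := x) hyz
  have m2 := cyc_move (n := n) hn hK (x := y) hzx
  have m3 := cyc_move (n := n) hn hK (x := z) hxy
  have nxy : x ≠ y := fun h => hxy h.le
  have nyz : y ≠ z := fun h => hyz h.le
  have nzx : z ≠ x := fun h => hzx h.le
  -- every order is one of six
  have tot : ∀ (f : LEn P n) (p q : P), p ≠ q → f.1 p < f.1 q ∨ f.1 q < f.1 p := fun f p q h =>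
    lt_or_gt_of_ne fun h1 => h (f.1.injective h1)
  set a1 := pb (fun f : LEn P n => f.1 x < f.1 y ∧ f.1 y < f.1 z)
  set a2 := pb (fun f : LEn P n => f.1 y < f.1 z ∧ f.1 z < f.1 x)
  set a3 := pb (fun f : LEn P n => f.1 z < f.1 x ∧ f.1 x < f.1 y)
  set b1 := pb (fun f : LEn P n => f.1 x < f.1 z ∧ f.1 z < f.1 y)
  set b2 := pb (fun f : LEn P n => f.1 y < f.1 x ∧ f.1 x < f.1 z)
  set b3 := pb (fun f : LEn P n => f.1 z < f.1 y ∧ f.1 y < f.1 x)
  have e1 : pb (fun f : LEn P n => f.1 x < f.1 y) ≤ a1 + a3 + b1 := by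
    have c1 : pb (fun f : LEn P n => f.1 x < f.1 y) ≤ a1 + pb (fun f : LEn P n =>
        (f.1 z < f.1 x ∧ f.1 x < f.1 y) ∨ (f.1 x < f.1 z ∧ f.1 z < f.1 y)) := by
      apply pb_cover
      intro f hf
      rcases tot f y z nyz with h | h
      · exact Or.inl ⟨hf, h⟩
      · rcases tot f z x nzx with h' | h'
        · exact Or.inr (Or.inl ⟨h', hf⟩)
        · exact Or.inr (Or.inr ⟨h', h⟩)
    have c2 : pb (fun f : LEn P n =>
        (f.1 z < f.1 x ∧ f.1 x < f.1 y) ∨ (f.1 x < f.1 z ∧ f.1 z < f.1 y)) ≤ a3 + b1 :=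
      pb_cover fun f hf => hf
    linarith
  have e2 : pb (fun f : LEn P n => f.1 y < f.1 z) ≤ a1 + a2 + b2 := by
    have c1 : pb (fun f : LEn P n => f.1 y < f.1 z) ≤ a1 + pb (fun f : LEn P n =>
        (f.1 y < f.1 z ∧ f.1 z < f.1 x) ∨ (f.1 y < f.1 x ∧ f.1 x < f.1 z)) := by
      apply pb_cover
      intro f hf
      rcases tot f x y nxy with h | h
      · exact Or.inl ⟨h, hf⟩
      · rcases tot f z x nzx with h' | h'
        · exact Or.inr (Or.inl ⟨hf, h'⟩)
        · exact Or.inr (Or.inr ⟨h, h'⟩)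
    have c2 : pb (fun f : LEn P n =>
        (f.1 y < f.1 z ∧ f.1 z < f.1 x) ∨ (f.1 y < f.1 x ∧ f.1 x < f.1 z)) ≤ a2 + b2 :=
      pb_cover fun f hf => hf
    linarith
  have e3 : pb (fun f : LEn P n => f.1 z < f.1 x) ≤ a2 + a3 + b3 := by
    have c1 : pb (fun f : LEn P n => f.1 z < f.1 x) ≤ a2 + pb (fun f : LEn P n =>
        (f.1 z < f.1 x ∧ f.1 x < f.1 y) ∨ (f.1 z < f.1 y ∧ f.1 y < f.1 x)) := by
      apply pb_cover
      intro f hf
      rcases tot f y z nyz with h | h
      · exact Or.inl ⟨h, hf⟩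
      · rcases tot f x y nxy with h' | h'
        · exact Or.inr (Or.inl ⟨hf, h'⟩)
        · exact Or.inr (Or.inr ⟨h, h'⟩)
    have c2 : pb (fun f : LEn P n =>
        (f.1 z < f.1 x ∧ f.1 x < f.1 y) ∨ (f.1 z < f.1 y ∧ f.1 y < f.1 x)) ≤ a3 + b3 :=
      pb_cover fun f hf => hf
    linarith
  have e4 : a1 + a2 + a3 + b1 + b2 + b3 ≤ 1 := by
    have d1 : a1 + b1 ≤ pb (fun f : LEn P n => f.1 x < f.1 y ∧ f.1 x < f.1 z) :=
      pb_disj (fun f hf => ⟨hf.1, hf.1.trans hf.2⟩) (fun f hf => ⟨hf.1.trans hf.2, hf.1⟩)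
        (fun f hf hf2 => absurd (hf.2.trans hf2.2) (lt_irrefl _))
    have d2 : a2 + b2 ≤ pb (fun f : LEn P n => f.1 y < f.1 x ∧ f.1 y < f.1 z) :=
      pb_disj (fun f hf => ⟨hf.1.trans hf.2, hf.1⟩) (fun f hf => ⟨hf.1, hf.1.trans hf.2⟩)
        (fun f hf hf2 => absurd (hf.2.trans hf2.2) (lt_irrefl _))
    have d3 : a3 + b3 ≤ pb (fun f : LEn P n => f.1 z < f.1 x ∧ f.1 z < f.1 y) :=
      pb_disj (fun f hf => ⟨hf.1, hf.1.trans hf.2⟩) (fun f hf => ⟨hf.1.trans hf.2, hf.1⟩)
        (fun f hf hf2 => absurd (hf.2.trans hf2.2) (lt_irrefl _))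
    have d4 : pb (fun f : LEn P n => f.1 x < f.1 y ∧ f.1 x < f.1 z) +
        pb (fun f : LEn P n => f.1 y < f.1 x ∧ f.1 y < f.1 z) ≤
        pb (fun f : LEn P n => ¬ (f.1 z < f.1 x ∧ f.1 z < f.1 y)) :=
      pb_disj (fun f hf hf2 => absurd (hf.2.trans hf2.1) (lt_irrefl _))
        (fun f hf hf2 => absurd (hf.2.trans hf2.2) (lt_irrefl _))
        (fun f hf hf2 => absurd (hf.1.trans hf2.1) (lt_irrefl _))
    have d5 := pb_compl hn (fun f : LEn P n => (f.1 z < f.1 x ∧ f.1 z < f.1 y))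
    linarith
  have hb1 : 0 ≤ b1 := pb_nonneg _
  have hb2 : 0 ≤ b2 := pb_nonneg _
  have hb3 : 0 ≤ b3 := pb_nonneg _
  -- the reversed cyclic orders have small frequency
  have s1 : b1 + b2 + b3 ≤ 3 * ε := by linarith
  have s2 : a1 + a2 + a3 ≤ CK K * (b1 + b2 + b3) := by
    have : CK K * (b1 + b2 + b3) = CK K * b1 + CK K * b2 + CK K * b3 := by ring
    have hm2 : a2 ≤ CK K * b2 := m2
    linarith
  have hC : (0 : ℝ) ≤ CK K := by positivity
  nlinarith

/-- without balanced pairs the majority relation has no cycle -/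
lemma no_cycle (hn : Fintype.card P = n) {K : ℕ} (hK : ∀ p : P, (inc p).card ≤ K) {ε : ℝ}
    (hε : 3 * ε * (3 * CK K + 1) < 1) (hε0 : 0 < ε) (hε1 : ε ≤ 1 / 12) (hU : Unb P n ε) {x : P}
    (h : Relation.TransGen (fun a b : P => 1 / 2 < pb (fun f : LEn P n => f.1 a < f.1 b)) x x) :
    False := by
  have hirr : ∀ a : P, ¬ 1 / 2 < pb (fun f : LEn P n => f.1 a < f.1 a) := by
    intro a ha
    rw [pb_false (fun f => lt_irrefl _)] at ha
    linarith
  have hstr : ∀ a b : P, 1 / 2 < pb (fun f : LEn P n => f.1 a < f.1 b) →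
      2 / 3 - ε < pb (fun f : LEn P n => f.1 a < f.1 b) := by
    intro a b hab
    have hne : a ≠ b := fun h => hirr a (h ▸ hab)
    exact hU.gt hn hne (by linarith)
  have htr : ∀ a b c : P, 1 / 2 < pb (fun f : LEn P n => f.1 a < f.1 b) →
      1 / 2 < pb (fun f : LEn P n => f.1 b < f.1 c) →
      1 / 2 < pb (fun f : LEn P n => f.1 a < f.1 c) := by
    intro a b c hab hbc
    by_contra hcon
    rw [not_lt] at hcon
    have hbb : a ≠ b := fun h => hirr a (h ▸ hab)
    by_cases hac : a = c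
    · subst hac
      have := pb_lt_add hn hbb
      linarith
    have h1 := pb_lt_add hn hac
    have h2 := hU.gt hn (Ne.symm hac) (by linarith)
    exact no_three_cycle hn hK hε hε0 hε1 (hstr a b hab) (hstr b c hbc) h2
  have hall : ∀ y, Relation.TransGen
      (fun a b : P => 1 / 2 < pb (fun f : LEn P n => f.1 a < f.1 b)) x y →
      1 / 2 < pb (fun f : LEn P n => f.1 x < f.1 y) := by
    intro y hy
    induction hy with
    | single h => exact h
    | tail _ h ih => exact htr _ _ _ ih h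
  exact hirr x (hall x h)

lemma pb_iso (hn : Fintype.card P = n) (e : P ≃o P) (x y : P) :
    pb (fun f : LEn P n => f.1 (e x) < f.1 (e y)) = pb (fun f : LEn P n => f.1 x < f.1 y) := by
  rw [← prob_pb hn, ← prob_pb hn, prob_eq hn, prob_eq hn, pr_iso]

/-- an automorphism gives a cycle of the majority relation or a pair with probability one half -/
lemma auto_cycle (hn : Fintype.card P = n) (e : P ≃o P) (he : ∃ x, e x ≠ x) :
    (∃ x y : P, x ≠ y ∧ pb (fun f : LEn P n => f.1 x < f.1 y) = 1 / 2) ∨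
    ∃ x : P, Relation.TransGen
      (fun a b : P => 1 / 2 < pb (fun f : LEn P n => f.1 a < f.1 b)) x x := by
  obtain ⟨x, hx⟩ := he
  have hsum := pb_lt_add hn (Ne.symm hx)
  -- the general statement for an automorphism with a majority step
  have key : ∀ e : P ≃o P, 1 / 2 < pb (fun f : LEn P n => f.1 x < f.1 (e x)) →
      Relation.TransGen
        (fun a b : P => 1 / 2 < pb (fun f : LEn P n => f.1 a < f.1 b)) x x := by
    intro e h
    have hstep : ∀ k : ℕ, 1 / 2 < pb (fun f : LEn P n => f.1 (e^[k] x) < f.1 (e^[k + 1] x)) := by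
      intro k
      induction k with
      | zero => simpa using h
      | succ k ih =>
        rw [Function.iterate_succ_apply', Function.iterate_succ_apply' (e : P → P) (k + 1)]
        rw [pb_iso hn e]
        exact ih
    have hpath : ∀ k : ℕ, Relation.TransGen
        (fun a b : P => 1 / 2 < pb (fun f : LEn P n => f.1 a < f.1 b)) x (e^[k + 1] x) := by
      intro k
      induction k with
      | zero => exact Relation.TransGen.single (by simpa using hstep 0)
      | succ k ih => exact Relation.TransGen.tail ih (hstep (k + 1))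
    obtain ⟨m, hm0, hm⟩ := (Function.Injective.mem_periodicPts e.injective x)
    obtain ⟨k, rfl⟩ : ∃ k, m = k + 1 := ⟨m - 1, by omega⟩
    have := hpath k
    rw [hm.eq] at this
    exact this
  rcases lt_trichotomy (pb (fun f : LEn P n => f.1 x < f.1 (e x))) (1 / 2) with h | h | h
  · right
    refine ⟨x, ?_⟩
    apply key e.symm
    have h1 := pb_iso hn e.symm (e x) x
    rw [OrderIso.symm_apply_apply] at h1
    rw [h1]
    linarith
  · left
    exact ⟨x, e x, Ne.symm hx, h⟩
  · right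
    exact ⟨x, key e h⟩

end Pool.Agent.R636.BG
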