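import Mathlib
import Pool.Agent.R636.BGap2

/-!
Good pairs in the sense of Zaguia: two elements `a`, `b` such that everything below `a` is below `b`,
the elements above `b` and not above `a` form a chain, and `a` comes before `b` with probability at most
one half.
-/

set_option autoImplicit false
set_option linter.unusedSectionVars false

open Finset

namespace Pool.Agent.R636.BG

open Pool.Agent.H13R3.WB Pool.Agent.H931R3.Bal

variable {P : Type} [Fintype P] [PartialOrder P] {n : ℕ}

/-- the data of a good pair -/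
structure GP (P : Type) [Fintype P] [PartialOrder P] (n : ℕ) (a b : P) : Prop where
  card : Fintype.card P = n
  ne : a ≠ b
  down : ∀ w, w < a → w < b
  chain : ∀ w w', b < w → b < w' → ¬ a < w → ¬ a < w' → w ≤ w' ∨ w' ≤ w
  half : pb (fun f : LEn P n => f.1 a < f.1 b) ≤ 1 / 2

namespace GP

variable {a b : P} (h : GP P n a b)

include h

lemma not_le : ¬ a ≤ b := by
  intro hab
  have h1 := pb_lt_add h.card h.ne
  have h2 : pb (fun f : LEn P n => f.1 b < f.1 a) = 0 := pb_false fun f hf =>
    absurd (f.2 hab) (_root_.not_le.mpr hf)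
  have := h.half
  linarith

lemma not_ge : ¬ b ≤ a := fun hba =>
  lt_irrefl b (h.down b (lt_of_le_of_ne hba h.ne.symm))

lemma z_ne_a {z : P} (hz : b < z) : z ≠ a := by
  rintro rfl
  exact h.not_ge hz.le

lemma z_not_le {z : P} (hz : b < z) : ¬ z ≤ a := fun hza => h.not_ge (hz.le.trans hza)

lemma not_le_z {z : P} (hz : b < z) (hz' : ¬ a < z) : ¬ a ≤ z := fun haz =>
  hz' (lt_of_le_of_ne haz (h.z_ne_a hz).symm)

/-- `a` comes after `y` and before the next elements of the chain -/
lemma step (y : P) (hy : y = b ∨ (b < y ∧ ¬ a < y)) :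
    pb (fun f : LEn P n => f.1 y < f.1 a ∧ ∀ z, b < z → ¬ a < z → y < z → f.1 a < f.1 z) ≤
    pb (fun f : LEn P n => f.1 a < f.1 y ∧ ∀ z, (z = b ∨ (b < z ∧ ¬ a < z)) → z < y →
      f.1 z < f.1 a) := by
  have hby : b ≤ y := by
    rcases hy with rfl | hy
    · exact le_rfl
    · exact hy.1.le
  have hya : ¬ y ≤ a := fun h1 => h.not_ge (hby.trans h1)
  apply pb_swap y a
  · intro f hf
    refine ⟨hf.1, hya, ?_, ?_⟩
    · intro w hw
      exact lt_of_mono f.2 ((h.down w hw).trans_le hby)
    · intro w hw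
      by_cases haw : a < w
      · exact lt_of_mono f.2 haw
      · exact hf.2 w (lt_of_le_of_lt hby hw) haw hw
  · intro f g hf g1 g2 g3
    refine ⟨?_, ?_⟩
    · rw [g1, g2]; exact hf.1
    · intro z hz hzy
      have hza : z ≠ a := by
        rcases hz with rfl | hz
        · exact h.ne.symm
        · exact h.z_ne_a hz.1
      rw [g2, g3 z hzy.ne hza]
      exact lt_of_mono f.2 hzy

variable {ε : ℝ} (hU : Unb P n ε) (hε : ε ≤ 1 / 60) (hε0 : 0 < ε)

include hU hε hε0

lemma q0 : pb (fun f : LEn P n => f.1 a < f.1 b) < 1 / 3 + ε :=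
  hU.lt h.card h.ne (by have := h.half; linarith)

/-- the chain has a least element, and `a` is mostly before it -/
lemma jump : ∃ z, b < z ∧ ¬ a < z ∧ (∀ w, b < w → ¬ a < w → z ≤ w) ∧
    2 / 3 - ε < pb (fun f : LEn P n => f.1 a < f.1 z) := by
  classical
  have hq0 := h.q0 hU hε hε0
  have hb := h.step b (Or.inl rfl)
  have hb2 : pb (fun f : LEn P n => f.1 a < f.1 b ∧ ∀ z, (z = b ∨ (b < z ∧ ¬ a < z)) → z < b →
      f.1 z < f.1 a) ≤ pb (fun f : LEn P n => f.1 a < f.1 b) := pb_mono fun f hf => hf.1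
  let Z : Finset P := univ.filter (fun z => b < z ∧ ¬ a < z)
  have memZ : ∀ z, z ∈ Z ↔ (b < z ∧ ¬ a < z) := fun z => by simp [Z]
  -- the chain is not empty
  have hne : Z.Nonempty := by
    by_contra hcon
    rw [not_nonempty_iff_eq_empty] at hcon
    have h1 : pb (fun f : LEn P n => f.1 b < f.1 a) ≤ pb (fun f : LEn P n => f.1 b < f.1 a ∧
        ∀ z, b < z → ¬ a < z → b < z → f.1 a < f.1 z) := by
      apply pb_mono
      intro f hf
      refine ⟨hf, fun z hz hz' _ => ?_⟩
      have : z ∈ Z := (memZ z).2 ⟨hz, hz'⟩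
      rw [hcon] at this
      exact absurd this (notMem_empty z)
    have h2 := pb_lt_add h.card h.ne
    linarith
  obtain ⟨z, hz⟩ := Z.exists_minimal hne
  have hzZ := (memZ z).1 hz.prop
  have hmin : ∀ w, b < w → ¬ a < w → z ≤ w := by
    intro w hw hw'
    rcases h.chain z w hzZ.1 hw hzZ.2 hw' with h1 | h1
    · exact h1
    · exact hz.le_of_le ((memZ w).2 ⟨hw, hw'⟩) h1
  refine ⟨z, hzZ.1, hzZ.2, hmin, ?_⟩
  by_contra hcon
  rw [not_lt] at hcon
  have hz1 := hU.lt h.card (h.z_ne_a hzZ.1).symm hcon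
  -- all elements of the chain
  have key : ∀ w, b < w → ¬ a < w → pb (fun f : LEn P n => f.1 a < f.1 w) < 1 / 3 + ε ∧
      pb (fun f : LEn P n => f.1 a < f.1 w ∧ ∀ z, (z = b ∨ (b < z ∧ ¬ a < z)) → z < w →
        f.1 z < f.1 a) ≤ 1 / 6 + ε / 2 := by
    intro w
    induction w using (wellFounded_lt : WellFounded ((· < ·) : P → P → Prop)).induction with
    | _ w ih =>
      intro hw hw'
      by_cases hwz : w = z
      · subst hwz
        refine ⟨hz1, ?_⟩
        have h1 : pb (fun f : LEn P n => f.1 a < f.1 w ∧ ∀ z, (z = b ∨ (b < z ∧ ¬ a < z)) → z < w →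
            f.1 z < f.1 a) ≤ pb (fun f : LEn P n => f.1 b < f.1 a ∧
            ∀ z, b < z → ¬ a < z → b < z → f.1 a < f.1 z) := by
          apply pb_mono
          intro f hf
          refine ⟨hf.2 b (Or.inl rfl) hw, fun z hz hz' _ => ?_⟩
          exact lt_of_lt_of_le hf.1 (f.2 (hmin z hz hz'))
        have h2 : pb (fun f : LEn P n => f.1 a < f.1 b) + pb (fun f : LEn P n => f.1 a < f.1 w ∧
            ∀ z, (z = b ∨ (b < z ∧ ¬ a < z)) → z < w → f.1 z < f.1 a) ≤
            pb (fun f : LEn P n => f.1 a < f.1 w) := by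
          apply pb_disj
          · intro f hf
            exact hf.trans (lt_of_mono f.2 hw)
          · intro f hf
            exact hf.1
          · intro f hf hf2
            exact absurd (hf.trans (hf2.2 b (Or.inl rfl) hw)) (lt_irrefl _)
        linarith
      · have hzw : z < w := lt_of_le_of_ne (hmin w hw hw') (Ne.symm hwz)
        let Y : Finset P := Z.filter (fun y => y < w)
        have hYne : Y.Nonempty := ⟨z, mem_filter.2 ⟨hz.prop, hzw⟩⟩
        obtain ⟨y, hy⟩ := Y.exists_maximal hYne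
        have hyZ := (memZ y).1 (mem_filter.1 hy.prop).1
        have hyw := (mem_filter.1 hy.prop).2
        obtain ⟨i1, i2⟩ := ih y hyw hyZ.1 hyZ.2
        have hnext : ∀ z', b < z' → ¬ a < z' → y < z' → w ≤ z' := by
          intro z' h1 h2 h3
          rcases h.chain z' w h1 hw h2 hw' with h4 | h4
          · rcases h4.lt_or_eq with h5 | h5
            · exact absurd (hy.le_of_ge (mem_filter.2 ⟨(memZ z').2 ⟨h1, h2⟩, h5⟩) h3.le)
                h3.not_ge
            · exact h5.ge
          · exact h4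
        have hst := h.step y (Or.inr hyZ)
        have c1 : pb (fun f : LEn P n => f.1 a < f.1 w ∧ ∀ z, (z = b ∨ (b < z ∧ ¬ a < z)) → z < w →
            f.1 z < f.1 a) ≤ pb (fun f : LEn P n => f.1 y < f.1 a ∧
            ∀ z, b < z → ¬ a < z → y < z → f.1 a < f.1 z) := by
          apply pb_mono
          intro f hf
          refine ⟨hf.2 y (Or.inr hyZ) hyw, fun z h1 h2 h3 => ?_⟩
          exact lt_of_lt_of_le hf.1 (f.2 (hnext z h1 h2 h3))
        have c2 : pb (fun f : LEn P n => f.1 a < f.1 w) ≤ pb (fun f : LEn P n => f.1 a < f.1 y) +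
            pb (fun f : LEn P n => f.1 y < f.1 a ∧
            ∀ z, b < z → ¬ a < z → y < z → f.1 a < f.1 z) := by
          apply pb_cover
          intro f hf
          by_cases h1 : f.1 a < f.1 y
          · exact Or.inl h1
          · refine Or.inr ⟨lt_of_le_of_ne (not_lt.mp h1) fun h2 =>
              h.z_ne_a hyZ.1 (f.1.injective h2), fun z h1 h2 h3 => ?_⟩
            exact lt_of_lt_of_le hf (f.2 (hnext z h1 h2 h3))
        refine ⟨hU.lt h.card (h.z_ne_a hw).symm (by linarith), by linarith⟩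
  obtain ⟨m, hm⟩ := Z.exists_maximal hne
  have hmZ := (memZ m).1 hm.prop
  obtain ⟨k1, k2⟩ := key m hmZ.1 hmZ.2
  have hst := h.step m (Or.inr hmZ)
  have c3 : pb (fun f : LEn P n => f.1 m < f.1 a) ≤ pb (fun f : LEn P n => f.1 m < f.1 a ∧
      ∀ z, b < z → ¬ a < z → m < z → f.1 a < f.1 z) := by
    apply pb_mono
    intro f hf
    refine ⟨hf, fun z h1 h2 h3 => ?_⟩
    exact absurd (hm.le_of_ge ((memZ z).2 ⟨h1, h2⟩) h3.le) h3.not_ge
  have c4 := pb_lt_add h.card (h.z_ne_a hmZ.1)
  linarith

/-- the exchange of `a` and `b` with an extra condition -/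
lemma q1_le {z : P} (hmin : ∀ w, b < w → ¬ a < w → z ≤ w) (B : LEn P n → Prop)
    (hB : ∀ f g : LEn P n, f.1 b < f.1 a → f.1 a < f.1 z → g.1 b = f.1 a → g.1 a = f.1 b →
      (∀ w, w ≠ b → w ≠ a → g.1 w = f.1 w) → B g) :
    pb (fun f : LEn P n => f.1 b < f.1 a ∧ f.1 a < f.1 z) ≤ pb B := by
  apply pb_swap b a
  · intro f hf
    refine ⟨hf.1, h.not_ge, ?_, ?_⟩
    · intro w hw
      exact lt_of_mono f.2 (h.down w hw)
    · intro w hw
      by_cases haw : a < w
      · exact lt_of_mono f.2 haw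
      · exact lt_of_lt_of_le hf.2 (f.2 (hmin w hw haw))
  · intro f g hf g1 g2 g3
    exact hB f g hf.1 hf.2 g1 g2 g3

end GP

/-- The structure which is not excluded: `a` and `b` have the same lower elements, the elements above
`a` are above `b`, there is a least element `z` above `b` and not above `a`; it is the only such element
if and only if `{a, b, z}` is autonomous. -/
def Exc (P : Type) [PartialOrder P] (a b : P) : Prop :=
  (∀ w, w < b → w < a) ∧ (∀ w, a < w → b < w) ∧
  ∃ z, b < z ∧ ¬ a < z ∧ (∀ w, b < w → ¬ a < w → z ≤ w) ∧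
    ((∀ w, b < w → ¬ a < w → w = z) ↔
      ((∀ w, w < z → w < a ∨ w = b) ∧ (∀ w, a < w → z < w)))

theorem GP.exc {a b : P} (h : GP P n a b) {ε : ℝ} (hU : Unb P n ε) (hε : ε ≤ 1 / 60)
    (hε0 : 0 < ε) {K : ℕ} (hK : ∀ p : P, (inc p).card ≤ K)
    (hεK : 3 * ε * ((CK K + 1) * (CK K + 2)) < 1) : Exc P a b := by
  have hC : (0 : ℝ) ≤ CK K := by positivity
  obtain ⟨z, hz, hz', hmin, hj⟩ := h.jump hU hε hε0
  have hq0 := h.q0 hU hε hε0
  set C : ℝ := (CK K : ℝ) with hCdef
  set q0 := pb (fun f : LEn P n => f.1 a < f.1 b) with hq0def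
  set q1 := pb (fun f : LEn P n => f.1 b < f.1 a ∧ f.1 a < f.1 z) with hq1def
  have hza := pb_lt_add h.card (h.z_ne_a hz)
  have hq1 : pb (fun f : LEn P n => f.1 a < f.1 z) ≤ q0 + q1 := by
    apply pb_cover
    intro f hf
    rcases lt_trichotomy (f.1 a) (f.1 b) with h1 | h1 | h1
    · exact Or.inl h1
    · exact absurd (f.1.injective h1) h.ne
    · exact Or.inr ⟨h1, hf⟩
  have hlow : 1 / 3 - 2 * ε < q1 := by linarith
  have hC1 : 3 * ε * (C + 1) < 1 := by nlinarith
  -- a general contradiction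
  have hcontra : ∀ r : ℝ, 1 ≤ (C + 1) * r → ¬ r ≤ 3 * ε := by
    intro r hr hr2
    nlinarith
  have hcontra2 : ∀ r : ℝ, 1 ≤ (C + 1) * ((C + 2) * r) → ¬ r ≤ 3 * ε := by
    intro r hr hr2
    have h0 : 0 ≤ (C + 1) * (C + 2) := by positivity
    have h1 := mul_le_mul_of_nonneg_left hr2 h0
    have h2 : (C + 1) * ((C + 2) * r) = (C + 1) * (C + 2) * r := by ring
    have h3 : (C + 1) * (C + 2) * (3 * ε) = 3 * ε * ((C + 1) * (C + 2)) := by ring
    linarith
  -- the lower elements
  have T1 : ∀ w, w < b → w < a := by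
    intro w hw
    by_contra hwa
    have hwane : w ≠ a := by
      rintro rfl
      exact h.not_le hw.le
    have h1 : q1 ≤ pb (fun f : LEn P n => f.1 a < f.1 b ∧ f.1 w < f.1 a) := by
      apply h.q1_le hU hε hε0 hmin
      intro f g f1 f2 g1 g2 g3
      rw [g1, g2, g3 w hw.ne hwane]
      exact ⟨f1, lt_of_mono f.2 hw⟩
    have h2 : pb (fun f : LEn P n => f.1 a < f.1 b ∧ f.1 w < f.1 a) +
        pb (fun f : LEn P n => f.1 a < f.1 w) ≤ q0 := by
      apply pb_disj
      · intro f hf; exact hf.1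
      · intro f hf; exact hf.trans (lt_of_mono f.2 hw)
      · intro f hf hf2; exact absurd (hf.2.trans hf2) (lt_irrefl _)
    have h3 := pb_low h.card hK (x := w) (y := a) (fun h1 => hwa (lt_of_le_of_ne h1 hwane))
    exact hcontra _ h3 (by linarith)
  have T2 : ∀ w, a < w → b < w := by
    intro w hw
    by_contra hbw
    have hwbne : w ≠ b := by
      rintro rfl
      exact h.not_le hw.le
    have h1 : q1 ≤ pb (fun f : LEn P n => f.1 a < f.1 b ∧ f.1 b < f.1 w) := by
      apply h.q1_le hU hε hε0 hmin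
      intro f g f1 f2 g1 g2 g3
      rw [g1, g2, g3 w hwbne hw.ne']
      exact ⟨f1, lt_of_mono f.2 hw⟩
    have h2 : pb (fun f : LEn P n => f.1 a < f.1 b ∧ f.1 b < f.1 w) +
        pb (fun f : LEn P n => f.1 w < f.1 b) ≤ q0 := by
      apply pb_disj
      · intro f hf; exact hf.1
      · intro f hf; exact (lt_of_mono f.2 hw).trans hf
      · intro f hf hf2; exact absurd (hf.2.trans hf2) (lt_irrefl _)
    have h3 := pb_low h.card hK (x := b) (y := w) (fun h1 => hbw (lt_of_le_of_ne h1 hwbne.symm))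
    exact hcontra _ h3 (by linarith)
  have hq10 : q1 ≤ q0 := by
    apply h.q1_le hU hε hε0 hmin
    intro f g f1 f2 g1 g2 g3
    rw [g1, g2]
    exact f1
  -- the exchange of `a` and `b` in the other direction
  have sw : ∀ (A B : LEn P n → Prop), (∀ f, A f → f.1 a < f.1 b) →
      (∀ f g : LEn P n, A f → g.1 a = f.1 b → g.1 b = f.1 a →
      (∀ w, w ≠ a → w ≠ b → g.1 w = f.1 w) → B g) → pb A ≤ pb B := by
    intro A B hA hB
    apply pb_swap a b
    · intro f hf
      exact ⟨hA f hf, h.not_le, fun w hw => lt_of_mono f.2 (T1 w hw),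
        fun w hw => lt_of_mono f.2 (T2 w hw)⟩
    · exact hB
  refine ⟨T1, T2, z, hz, hz', hmin, ?_⟩
  constructor
  · -- the case of one element
    intro hone
    have hzw : ∀ w, z < w → a < w := by
      intro w hw
      by_contra haw
      exact absurd (hone w (hz.trans hw) haw) hw.ne'
    -- the exchange of `a` and `z`
    have sz : ∀ (B : LEn P n → Prop), (∀ f g : LEn P n, f.1 z < f.1 a → g.1 z = f.1 a →
        g.1 a = f.1 z → (∀ w, w ≠ z → w ≠ a → g.1 w = f.1 w) → B g) →
        pb (fun f : LEn P n => f.1 z < f.1 a) ≤ pb B := by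
      intro B hB
      apply pb_swap z a
      · intro f hf
        exact ⟨hf, h.z_not_le hz, fun w hw => lt_of_mono f.2 ((h.down w hw).trans hz),
          fun w hw => lt_of_mono f.2 (hzw w hw)⟩
      · intro f g hf g1 g2 g3
        exact hB f g hf g1 g2 g3
    constructor
    · intro w hw
      by_contra hcon
      push Not at hcon
      have hwane : w ≠ a := by
        rintro rfl
        exact hz' hw
      have h1 : pb (fun f : LEn P n => f.1 z < f.1 a) ≤
          pb (fun f : LEn P n => (f.1 b < f.1 a ∧ f.1 a < f.1 z) ∧ f.1 w < f.1 a) := by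
        apply sz
        intro f g f1 g1 g2 g3
        rw [g1, g2, g3 w hw.ne hwane, g3 b hz.ne h.ne.symm]
        exact ⟨⟨lt_of_mono f.2 hz, f1⟩, lt_of_mono f.2 hw⟩
      have h2 : pb (fun f : LEn P n => (f.1 b < f.1 a ∧ f.1 a < f.1 z) ∧ f.1 w < f.1 a) +
          pb (fun f : LEn P n => f.1 b < f.1 a ∧ f.1 a < f.1 w) ≤ q1 := by
        apply pb_disj
        · intro f hf; exact hf.1
        · intro f hf; exact ⟨hf.1, hf.2.trans (lt_of_mono f.2 hw)⟩
        · intro f hf hf2; exact absurd (hf.2.trans hf2.2) (lt_irrefl _)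
      -- the lower bound
      have h3 := pb_low h.card hK (x := w) (y := a) (fun h1 => hcon.1 (lt_of_le_of_ne h1 hwane))
      have hwb : ¬ w ≤ b := fun h1 => hcon.1 (T1 w (lt_of_le_of_ne h1 hcon.2))
      have h4 : pb (fun f : LEn P n => f.1 a < f.1 w) ≤
          pb (fun f : LEn P n => f.1 b < f.1 a ∧ f.1 a < f.1 w) +
          (pb (fun f : LEn P n => f.1 a < f.1 b ∧ f.1 b < f.1 w) +
           pb (fun f : LEn P n => f.1 a < f.1 w ∧ f.1 w < f.1 b)) := by
        have i1 : pb (fun f : LEn P n => f.1 a < f.1 w) ≤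
            pb (fun f : LEn P n => f.1 b < f.1 a ∧ f.1 a < f.1 w) +
            pb (fun f : LEn P n => (f.1 a < f.1 b ∧ f.1 b < f.1 w) ∨
              (f.1 a < f.1 w ∧ f.1 w < f.1 b)) := by
          apply pb_cover
          intro f hf
          rcases lt_trichotomy (f.1 a) (f.1 b) with j | j | j
          · rcases lt_trichotomy (f.1 b) (f.1 w) with k | k | k
            · exact Or.inr (Or.inl ⟨j, k⟩)
            · exact absurd (f.1.injective k).symm hcon.2
            · exact Or.inr (Or.inr ⟨hf, k⟩)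
          · exact absurd (f.1.injective j) h.ne
          · exact Or.inl ⟨j, hf⟩
        have i2 : pb (fun f : LEn P n => (f.1 a < f.1 b ∧ f.1 b < f.1 w) ∨
              (f.1 a < f.1 w ∧ f.1 w < f.1 b)) ≤
            pb (fun f : LEn P n => f.1 a < f.1 b ∧ f.1 b < f.1 w) +
            pb (fun f : LEn P n => f.1 a < f.1 w ∧ f.1 w < f.1 b) := pb_cover fun f hf => hf
        linarith
      have h5 := cyc_move (n := n) h.card hK (x := a) hwb
      have h6 : pb (fun f : LEn P n => f.1 a < f.1 b ∧ f.1 b < f.1 w) ≤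
          pb (fun f : LEn P n => f.1 b < f.1 a ∧ f.1 a < f.1 w) := by
        apply sw
        · intro f hf; exact hf.1
        · intro f g hf g1 g2 g3
          rw [g1, g2, g3 w hwane hcon.2]
          exact hf
      apply hcontra2 (pb (fun f : LEn P n => f.1 b < f.1 a ∧ f.1 a < f.1 w)) _ (by linarith)
      have h7 : pb (fun f : LEn P n => f.1 a < f.1 w) ≤
          (C + 2) * pb (fun f : LEn P n => f.1 b < f.1 a ∧ f.1 a < f.1 w) := by
        nlinarith
      refine h3.trans ?_
      exact mul_le_mul_of_nonneg_left h7 (by linarith)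
    · intro w hw
      by_contra hzw'
      have hwzne : w ≠ z := by
        rintro rfl
        exact hz' hw
      have hwb : w ≠ b := by
        rintro rfl
        exact h.not_le hw.le
      have h1 : pb (fun f : LEn P n => f.1 z < f.1 a) ≤
          pb (fun f : LEn P n => (f.1 b < f.1 a ∧ f.1 a < f.1 z) ∧ f.1 z < f.1 w) := by
        apply sz
        intro f g f1 g1 g2 g3
        rw [g1, g2, g3 w hwzne hw.ne', g3 b hz.ne h.ne.symm]
        exact ⟨⟨lt_of_mono f.2 hz, f1⟩, lt_of_mono f.2 hw⟩
      have h2 : pb (fun f : LEn P n => (f.1 b < f.1 a ∧ f.1 a < f.1 z) ∧ f.1 z < f.1 w) +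
          pb (fun f : LEn P n => f.1 b < f.1 a ∧ f.1 w < f.1 z) ≤ q1 := by
        apply pb_disj
        · intro f hf; exact hf.1
        · intro f hf; exact ⟨hf.1, (lt_of_mono f.2 hw).trans hf.2⟩
        · intro f hf hf2; exact absurd (hf.2.trans hf2.2) (lt_irrefl _)
      have h3 := pb_low h.card hK (x := z) (y := w)
        (fun h1 => hzw' (lt_of_le_of_ne h1 hwzne.symm))
      have h4 : pb (fun f : LEn P n => f.1 w < f.1 z) ≤
          pb (fun f : LEn P n => f.1 b < f.1 a ∧ f.1 w < f.1 z) +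
          pb (fun f : LEn P n => f.1 a < f.1 b ∧ f.1 w < f.1 z) := by
        apply pb_cover
        intro f hf
        rcases lt_trichotomy (f.1 a) (f.1 b) with j | j | j
        · exact Or.inr ⟨j, hf⟩
        · exact absurd (f.1.injective j) h.ne
        · exact Or.inl ⟨j, hf⟩
      have h6 : pb (fun f : LEn P n => f.1 a < f.1 b ∧ f.1 w < f.1 z) ≤
          pb (fun f : LEn P n => f.1 b < f.1 a ∧ f.1 w < f.1 z) := by
        apply sw
        · intro f hf; exact hf.1
        · intro f g hf g1 g2 g3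
          rw [g1, g2, g3 w hw.ne' hwb, g3 z (h.z_ne_a hz) hz.ne']
          exact hf
      apply hcontra2 (pb (fun f : LEn P n => f.1 b < f.1 a ∧ f.1 w < f.1 z)) _ (by linarith)
      have h7 : pb (fun f : LEn P n => f.1 w < f.1 z) ≤
          (C + 2) * pb (fun f : LEn P n => f.1 b < f.1 a ∧ f.1 w < f.1 z) := by
        have := pb_nonneg (fun f : LEn P n => f.1 b < f.1 a ∧ f.1 w < f.1 z)
        nlinarith
      refine h3.trans ?_
      exact mul_le_mul_of_nonneg_left h7 (by linarith)
  · -- the case of two elements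
    rintro ⟨c1, c2⟩ w hw hw'
    by_contra hwz
    have hzw : z < w := lt_of_le_of_ne (hmin w hw hw') (Ne.symm hwz)
    have h1 : q1 ≤ pb (fun f : LEn P n => f.1 z < f.1 a ∧ f.1 a < f.1 w) := by
      apply pb_swap a z
      · intro f hf
        refine ⟨hf.2, h.not_le_z hz hz', ?_, ?_⟩
        · intro v hv
          rcases c1 v hv with h2 | h2
          · exact lt_of_mono f.2 h2
          · rw [h2]; exact hf.1
        · intro v hv
          exact lt_of_mono f.2 (c2 v hv)
      · intro f g hf g1 g2 g3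
        rw [g1, g2, g3 w (h.z_ne_a hw) hzw.ne']
        exact ⟨hf.2, lt_of_mono f.2 hzw⟩
    have h2 : pb (fun f : LEn P n => f.1 z < f.1 a ∧ f.1 a < f.1 w) +
        pb (fun f : LEn P n => f.1 w < f.1 a) ≤ pb (fun f : LEn P n => f.1 z < f.1 a) := by
      apply pb_disj
      · intro f hf; exact hf.1
      · intro f hf; exact (lt_of_mono f.2 hzw).trans hf
      · intro f hf hf2; exact absurd (hf.2.trans hf2) (lt_irrefl _)
    have h3 := pb_low h.card hK (x := a) (y := w) (h.not_le_z hw hw')
    exact hcontra _ h3 (by linarith)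

end Pool.Agent.R636.BG
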