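import Mathlib
import Pool.Agent.R636.BGap3

/-!
Three elements with the same lower elements whose sets of upper elements differ by chains.
-/

set_option autoImplicit false
set_option linter.unusedSectionVars false

open Finset

namespace Pool.Agent.R636.BG

open Pool.Agent.H13R3.WB Pool.Agent.H931R3.Bal

variable {P : Type} [Fintype P] [PartialOrder P] {n : ℕ}

/-- the facts about a good pair in an unbalanced poset -/
lemma GP.facts {a b : P} (h : GP P n a b) {ε : ℝ} (hU : Unb P n ε) (hε : ε ≤ 1 / 60)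
    (hε0 : 0 < ε) {K : ℕ} (hK : ∀ p : P, (inc p).card ≤ K)
    (hεK : 3 * ε * ((CK K + 1) * (CK K + 2)) < 1) :
    pb (fun f : LEn P n => f.1 a < f.1 b) < 1 / 3 + ε ∧
    1 / 3 - 2 * ε < pb (fun f : LEn P n => f.1 a < f.1 b) ∧
    (∀ w, w < b → w < a) ∧ (∀ w, a < w → b < w) ∧ ∃ z, b < z ∧ ¬ a < z := by
  obtain ⟨z, hz, hz', hmin, hj⟩ := h.jump hU hε hε0
  have hq0 := h.q0 hU hε hε0
  obtain ⟨T1, T2, -⟩ := h.exc hU hε hε0 hK hεK
  refine ⟨hq0, ?_, T1, T2, z, hz, hz'⟩
  have hq1 : pb (fun f : LEn P n => f.1 a < f.1 z) ≤ pb (fun f : LEn P n => f.1 a < f.1 b) +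
      pb (fun f : LEn P n => f.1 b < f.1 a ∧ f.1 a < f.1 z) := by
    apply pb_cover
    intro f hf
    rcases lt_trichotomy (f.1 a) (f.1 b) with h1 | h1 | h1
    · exact Or.inl h1
    · exact absurd (f.1.injective h1) h.ne
    · exact Or.inr ⟨h1, hf⟩
  have hq10 : pb (fun f : LEn P n => f.1 b < f.1 a ∧ f.1 a < f.1 z) ≤
      pb (fun f : LEn P n => f.1 a < f.1 b) := by
    apply h.q1_le hU hε hε0 hmin
    intro f g f1 f2 g1 g2 g3
    rw [g1, g2]
    exact f1
  linarith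

/-- three elements in a transitive position -/
lemma triple_main {w y x : P} (hwy : GP P n w y) (hyx : GP P n y x) (hwx : GP P n w x) {ε : ℝ}
    (hU : Unb P n ε) (hε : ε ≤ 1 / 60) (hε0 : 0 < ε) {K : ℕ} (hK : ∀ p : P, (inc p).card ≤ K)
    (hεK : 6 * ε * ((CK K + 1) * (CK K + 2)) < 1) : False := by
  have hn := hwy.card
  have hC : (0 : ℝ) ≤ CK K := by positivity
  have hεK' : 3 * ε * ((CK K + 1) * (CK K + 2)) < 1 := by
    have : 0 ≤ 3 * ε * (((CK K : ℝ) + 1) * (CK K + 2)) := by positivity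
    linarith
  obtain ⟨a1, -, D1, U1, -⟩ := hwy.facts hU hε hε0 hK hεK'
  obtain ⟨a2, -, D2, U2, -⟩ := hyx.facts hU hε hε0 hK hεK'
  obtain ⟨-, a3, D3, U3, z, hz, hz'⟩ := hwx.facts hU hε hε0 hK hεK'
  set C : ℝ := (CK K : ℝ) with hCdef
  have tot : ∀ (f : LEn P n) (p q : P), p ≠ q → f.1 p < f.1 q ∨ f.1 q < f.1 p := fun f p q h =>
    lt_or_gt_of_ne fun h1 => h (f.1.injective h1)
  -- the exact exchange of `w` and `x`
  have sw : ∀ (A B : LEn P n → Prop), (∀ f, A f → f.1 w < f.1 x) →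
      (∀ f g : LEn P n, A f → g.1 w = f.1 x → g.1 x = f.1 w →
      (∀ v, v ≠ w → v ≠ x → g.1 v = f.1 v) → B g) → pb A ≤ pb B := by
    intro A B hA hB
    apply pb_swap w x
    · intro f hf
      exact ⟨hA f hf, hwx.not_le, fun v hv => lt_of_mono f.2 (D3 v hv),
        fun v hv => lt_of_mono f.2 (U3 v hv)⟩
    · exact hB
  set α2 := pb (fun f : LEn P n => f.1 x < f.1 w ∧ f.1 w < f.1 y)
  set α3 := pb (fun f : LEn P n => f.1 w < f.1 x ∧ f.1 x < f.1 y)
  set α4 := pb (fun f : LEn P n => f.1 y < f.1 x ∧ f.1 x < f.1 w)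
  set α5 := pb (fun f : LEn P n => f.1 y < f.1 w ∧ f.1 w < f.1 x)
  set α6 := pb (fun f : LEn P n => f.1 w < f.1 y ∧ f.1 y < f.1 x)
  set c := pb (fun f : LEn P n => f.1 y < f.1 x ∧ f.1 z < f.1 w)
  have i1 : α3 ≤ α2 := by
    apply sw
    · intro f hf; exact hf.1
    · intro f g hf g1 g2 g3
      rw [g1, g2, g3 y hwy.ne.symm hyx.ne]
      exact hf
  have hzw : z ≠ w := by
    rintro rfl
    exact hwx.not_ge hz.le
  have i2 : α5 ≤ pb (fun f : LEn P n => (f.1 y < f.1 x ∧ f.1 x < f.1 w) ∧ f.1 w < f.1 z) := by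
    apply sw
    · intro f hf; exact hf.2
    · intro f g hf g1 g2 g3
      rw [g1, g2, g3 y hwy.ne.symm hyx.ne, g3 z hzw hz.ne']
      exact ⟨hf, lt_of_mono f.2 hz⟩
  have i3 : pb (fun f : LEn P n => (f.1 y < f.1 x ∧ f.1 x < f.1 w) ∧ f.1 w < f.1 z) + c ≤ α4 := by
    apply pb_disj
    · intro f hf; exact hf.1
    · intro f hf; exact ⟨hf.1, (lt_of_mono f.2 hz).trans hf.2⟩
    · intro f hf hf2; exact absurd (hf.2.trans hf2.2) (lt_irrefl _)
  -- the lower bound for `c`
  have j1 := pb_low hn hK (x := w) (y := z) (fun h1 => hz' (lt_of_le_of_ne h1 hzw.symm))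
  have j2 : pb (fun f : LEn P n => f.1 z < f.1 w) ≤ c +
      pb (fun f : LEn P n => f.1 x < f.1 y ∧ f.1 z < f.1 w) := by
    apply pb_cover
    intro f hf
    rcases tot f y x hyx.ne with h | h
    · exact Or.inl ⟨h, hf⟩
    · exact Or.inr ⟨h, hf⟩
  have j3 : pb (fun f : LEn P n => f.1 x < f.1 y ∧ f.1 z < f.1 w) ≤ C * c := by
    apply pb_move hn hK hyx.not_ge
    · intro f hf; exact hf.1
    · intro f hf
      refine ⟨mv_vu hn hyx.not_ge f hf.1, ?_⟩
      rw [mv_spec hn hyx.not_ge, out_lt_out]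
      · exact hf.2
      · intro h1
        exact hyx.not_ge (hz.le.trans h1.2)
      · intro h1
        exact hwy.not_le h1.2
  -- the sums
  have s1 : α2 + (α3 + α6) ≤ pb (fun f : LEn P n => f.1 w < f.1 y) := by
    have t1 : α3 + α6 ≤ pb (fun f : LEn P n => f.1 w < f.1 y ∧ f.1 w < f.1 x) := by
      apply pb_disj
      · intro f hf; exact ⟨hf.1.trans hf.2, hf.1⟩
      · intro f hf; exact ⟨hf.1, hf.1.trans hf.2⟩
      · intro f hf hf2; exact absurd (hf.2.trans hf2.2) (lt_irrefl _)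
    have t2 : α2 + pb (fun f : LEn P n => f.1 w < f.1 y ∧ f.1 w < f.1 x) ≤
        pb (fun f : LEn P n => f.1 w < f.1 y) := by
      apply pb_disj
      · intro f hf; exact hf.2
      · intro f hf; exact hf.1
      · intro f hf hf2; exact absurd (hf.1.trans hf2.2) (lt_irrefl _)
    linarith
  have s2 : α4 + (α5 + α6) ≤ pb (fun f : LEn P n => f.1 y < f.1 x) := by
    have t1 : α5 + α6 ≤ pb (fun f : LEn P n => f.1 y < f.1 x ∧ f.1 w < f.1 x) := by
      apply pb_disj
      · intro f hf; exact ⟨hf.1.trans hf.2, hf.2⟩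
      · intro f hf; exact ⟨hf.2, hf.1.trans hf.2⟩
      · intro f hf hf2; exact absurd (hf.1.trans hf2.1) (lt_irrefl _)
    have t2 : α4 + pb (fun f : LEn P n => f.1 y < f.1 x ∧ f.1 w < f.1 x) ≤
        pb (fun f : LEn P n => f.1 y < f.1 x) := by
      apply pb_disj
      · intro f hf; exact hf.1
      · intro f hf; exact hf.1
      · intro f hf hf2; exact absurd (hf.2.trans hf2.2) (lt_irrefl _)
    linarith
  have s3 : pb (fun f : LEn P n => f.1 w < f.1 x) ≤ α3 + (α5 + α6) := by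
    have t1 : pb (fun f : LEn P n => f.1 w < f.1 x ∧ f.1 y < f.1 x) ≤ α5 + α6 := by
      apply pb_cover
      intro f hf
      rcases tot f w y hwy.ne with h | h
      · exact Or.inr ⟨h, hf.2⟩
      · exact Or.inl ⟨h, hf.1⟩
    have t2 : pb (fun f : LEn P n => f.1 w < f.1 x) ≤ α3 +
        pb (fun f : LEn P n => f.1 w < f.1 x ∧ f.1 y < f.1 x) := by
      apply pb_cover
      intro f hf
      rcases tot f x y hyx.ne.symm with h | h
      · exact Or.inl ⟨hf, h⟩
      · exact Or.inr ⟨hf, h⟩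
    linarith
  have hc : c ≤ 6 * ε := by linarith
  have hc0 : 0 ≤ c := pb_nonneg _
  have hc1 : 1 ≤ (C + 1) * ((C + 1) * c) := by
    refine j1.trans (mul_le_mul_of_nonneg_left ?_ (by linarith))
    linarith
  have h1 : (C + 1) * ((C + 1) * c) ≤ (C + 1) * ((C + 2) * c) := by
    apply mul_le_mul_of_nonneg_left _ (by linarith)
    apply mul_le_mul_of_nonneg_right _ hc0
    linarith
  have h2 : (C + 1) * ((C + 2) * c) ≤ (C + 1) * ((C + 2) * (6 * ε)) := by
    apply mul_le_mul_of_nonneg_left _ (by linarith)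
    apply mul_le_mul_of_nonneg_left hc (by linarith)
  have h3 : (C + 1) * ((C + 2) * (6 * ε)) = 6 * ε * ((C + 1) * (C + 2)) := by ring
  linarith

/-- two elements with the same lower elements and chains as differences -/
def Near (P : Type) [PartialOrder P] (x y : P) : Prop :=
  x ≠ y ∧ (∀ w, w < x ↔ w < y) ∧
  (∀ w w', x < w → x < w' → ¬ y < w → ¬ y < w' → w ≤ w' ∨ w' ≤ w) ∧
  (∀ w w', y < w → y < w' → ¬ x < w → ¬ x < w' → w ≤ w' ∨ w' ≤ w)

lemma Near.gp (hn : Fintype.card P = n) {x y : P} (h : Near P x y) : GP P n x y ∨ GP P n y x := by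
  obtain ⟨h1, h2, h3, h4⟩ := h
  have h5 := pb_lt_add hn h1
  rcases le_total (pb (fun f : LEn P n => f.1 x < f.1 y)) (1 / 2) with h6 | h6
  · left
    exact ⟨hn, h1, fun w hw => (h2 w).1 hw, h4, h6⟩
  · right
    exact ⟨hn, h1.symm, fun w hw => (h2 w).2 hw, h3, by linarith⟩

/-- three elements with the same lower elements and chains as differences -/
theorem triple (hn : Fintype.card P = n) {x y z : P} (hxy : Near P x y) (hyz : Near P y z)
    (hxz : Near P x z) {ε : ℝ}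
    (hU : Unb P n ε) (hε : ε ≤ 1 / 60) (hε0 : 0 < ε) {K : ℕ} (hK : ∀ p : P, (inc p).card ≤ K)
    (hεK : 6 * ε * ((CK K + 1) * (CK K + 2)) < 1) : False := by
  have hεK' : 3 * ε * ((CK K + 1) * (CK K + 2)) < 1 := by
    have : 0 ≤ 3 * ε * (((CK K : ℝ) + 1) * (CK K + 2)) := by positivity
    linarith
  have cyc : ∀ a b c : P, GP P n a b → GP P n b c → GP P n c a → False := by
    intro a b c hab hbc hca
    obtain ⟨-, -, -, U1, z1, k1, k2⟩ := hab.facts hU hε hε0 hK hεK'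
    obtain ⟨-, -, -, U2, -⟩ := hbc.facts hU hε hε0 hK hεK'
    obtain ⟨-, -, -, U3, -⟩ := hca.facts hU hε hε0 hK hεK'
    exact k2 (U3 z1 (U2 z1 k1))
  have tri : ∀ a b c : P, GP P n a b → GP P n b c → GP P n a c → False :=
    fun a b c hab hbc hac => triple_main hab hbc hac hU hε hε0 hK hεK
  rcases hxy.gp hn with h1 | h1 <;> rcases hyz.gp hn with h2 | h2 <;>
    rcases hxz.gp hn with h3 | h3
  · exact tri x y z h1 h2 h3
  · exact cyc x y z h1 h2 h3
  · exact tri x z y h3 h2 h1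
  · exact tri z x y h3 h1 h2
  · exact tri y x z h1 h3 h2
  · exact tri y z x h2 h3 h1
  · exact cyc x z y h3 h2 h1
  · exact tri z y x h2 h1 h3

end Pool.Agent.R636.BG
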