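import Mathlib
import Pool.Agent.H931R3.Bal13
import Pool.Agent.TH153.WQ.Dil
import Pool.Agent.R636.BGap4

/-!
Posets without an induced copy of the four-element poset with the relations `x < w`, `x < w'` and an
isolated element, and Young diagrams.
-/

set_option autoImplicit false
set_option linter.unusedSectionVars false

open Finset

namespace Pool.Agent.R636.BG

open Pool.Agent.H13R3.WB Pool.Agent.H931R3.Bal

/-! ### duality -/

lemma InD_dual {P : Type} [PartialOrder P] (h : InD P) : InD Pᵒᵈ := by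
  induction h with
  | one P e =>
    obtain ⟨e⟩ := e
    exact InD.one _ ⟨e.dual.trans Fin.revOrderIso⟩
  | three P e =>
    obtain ⟨e⟩ := e
    exact InD.three _ ⟨e.dual.trans ((OrderIso.sumDualDistrib _ _).trans
      (OrderIso.sumCongr Fin.revOrderIso Fin.revOrderIso))⟩
  | sum P Q R _ _ e ihP ihQ =>
    obtain ⟨e⟩ := e
    exact InD.sum _ _ _ ihQ ihP ⟨e.dual.trans (OrderIso.sumLexDualAntidistrib _ _)⟩

lemma InD_of_dual {P : Type} [PartialOrder P] (h : InD Pᵒᵈ) : InD P :=
  InD.iso (InD_dual h) (OrderIso.dualDual P).symm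

lemma prob_dual {P : Type} [Fintype P] [PartialOrder P] (x y : P) :
    prob Pᵒᵈ (OrderDual.toDual x) (OrderDual.toDual y) = prob P y x := by
  have hn : Fintype.card Pᵒᵈ = Fintype.card P := Fintype.card_congr OrderDual.ofDual
  rw [prob_eq hn, prob_eq rfl]
  let E : LEn P (Fintype.card P) ≃ LEn Pᵒᵈ (Fintype.card P) :=
    { toFun := fun f => ⟨(OrderDual.ofDual.trans f.1).trans Fin.revPerm, fun a b hab => by
        simp only [Equiv.trans_apply, Fin.revPerm_apply]
        rw [Fin.rev_le_rev]
        exact f.2 hab⟩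
      invFun := fun f => ⟨(OrderDual.toDual.trans f.1).trans Fin.revPerm, fun a b hab => by
        simp only [Equiv.trans_apply, Fin.revPerm_apply]
        rw [Fin.rev_le_rev]
        exact f.2 hab⟩
      left_inv := fun f => by ext x; simp
      right_inv := fun f => by ext x; simp }
  unfold pr
  rw [Fintype.card_congr E]
  congr 1
  symm
  apply Fintype.sum_equiv E
  intro f
  have h : ∀ z : P, (E f).1 (OrderDual.toDual z) = Fin.rev (f.1 z) := fun z => by simp [E]
  simp only [h, Fin.rev_lt_rev]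

lemma balance_dual (P : Type) [Fintype P] [PartialOrder P] [Nonempty P] :
    balance Pᵒᵈ = balance P := by
  have key : ∀ (Q : Type) [Fintype Q] [PartialOrder Q] [Nonempty Q], balance Q ≤ balance Qᵒᵈ := by
    intro Q _ _ _
    unfold balance
    apply ciSup_le
    intro p
    have h := le_ciSup (f := fun p : Qᵒᵈ × Qᵒᵈ => min (prob Qᵒᵈ p.1 p.2) (prob Qᵒᵈ p.2 p.1))
      (Set.finite_range _).bddAbove (OrderDual.toDual p.2, OrderDual.toDual p.1)
    simp only [prob_dual] at h
    exact h
  apply le_antisymm _ (key P)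
  exact (key Pᵒᵈ).trans (balance_iso (OrderIso.dualDual P).symm)

/-! ### posets without `V + 1` -/

/-- There is no induced copy of the poset with the four elements `x`, `w`, `w'`, `y` and the relations
`x < w`, `x < w'`. -/
def VOneFree (P : Type) [PartialOrder P] : Prop :=
  ∀ x w w' y : P, x < w → x < w' → ¬ w ≤ w' → ¬ w' ≤ w → ¬ x ≤ y → ¬ y ≤ x →
    ¬ w ≤ y → ¬ y ≤ w → ¬ w' ≤ y → ¬ y ≤ w' → False

/-- minimal elements of a poset without `V + 1` -/
lemma VOneFree.near {P : Type} [PartialOrder P] (h : VOneFree P) {x y : P} (hne : x ≠ y)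
    (hx : ∀ w, ¬ w < x) (hy : ∀ w, ¬ w < y) : Near P x y := by
  have hxy : ¬ x ≤ y := fun h1 => hy x (lt_of_le_of_ne h1 hne)
  have hyx : ¬ y ≤ x := fun h1 => hx y (lt_of_le_of_ne h1 hne.symm)
  have key : ∀ x y : P, ¬ x ≤ y → ¬ y ≤ x → (∀ w, ¬ w < y) → ∀ w w', x < w → x < w' → ¬ y < w →
      ¬ y < w' → w ≤ w' ∨ w' ≤ w := by
    intro x y hxy hyx hy w w' h1 h2 h3 h4
    by_contra hcon
    push Not at hcon
    have hn : ∀ w, x < w → ¬ y < w → ¬ w ≤ y ∧ ¬ y ≤ w := by
      intro w h1 h2
      constructor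
      · intro h3; exact hy x (h1.trans_le h3)
      · intro h3
        rcases h3.lt_or_eq with h4 | h4
        · exact h2 h4
        · exact hy x (h4 ▸ h1)
    exact h x w w' y h1 h2 hcon.1 hcon.2 hxy hyx (hn w h1 h3).1 (hn w h1 h3).2 (hn w' h2 h4).1
      (hn w' h2 h4).2
  exact ⟨hne, fun w => ⟨fun h1 => absurd h1 (hx w), fun h1 => absurd h1 (hy w)⟩,
    key x y hxy hyx hy, key y x hyx hxy hx⟩

lemma exists_min_le {P : Type} [Finite P] [PartialOrder P] (u : P) :
    ∃ m, m ≤ u ∧ ∀ w, ¬ w < m := by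
  obtain ⟨m, hm, hmin⟩ := WellFounded.has_min (wellFounded_lt : WellFounded ((· < ·) : P → P → Prop))
    {x | x ≤ u} ⟨u, le_rfl⟩
  refine ⟨m, hm, fun w hw => hmin w ?_ hw⟩
  exact hw.le.trans hm

/-- a poset without `V + 1` which is not a direct sum and has an antichain with three elements has
three minimal elements -/
lemma VOneFree.three {P : Type} [Fintype P] [PartialOrder P] (h : VOneFree P)
    (hirr : ∀ S : Set P, S.Nonempty → Sᶜ.Nonempty → ¬ (∀ s ∈ S, ∀ t ∉ S, s ≤ t))
    (A : Finset P) (hA : IsAntichain (· ≤ ·) (A : Set P)) (h3 : 2 < A.card) :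
    ∃ x y z : P, Near P x y ∧ Near P y z ∧ Near P x z := by
  classical
  obtain ⟨M, hM, hMmax⟩ := exists_max_image
    (univ.filter (fun s : Finset P => IsAntichain (· ≤ ·) (s : Set P))) card
    ⟨A, by rw [mem_filter]; exact ⟨mem_univ _, hA⟩⟩
  rw [mem_filter] at hM
  have hMA := hM.2
  have hM3 : 2 < M.card := by
    have := hMmax A (by rw [mem_filter]; exact ⟨mem_univ _, hA⟩)
    omega
  have anti : ∀ u ∈ M, ∀ v ∈ M, u ≤ v → u = v := by
    intro u hu v hv huv
    by_contra hne
    exact hMA (mem_coe.2 hu) (mem_coe.2 hv) hne huv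
  -- every element is comparable with an element of `M`
  have comp : ∀ y : P, ∃ u ∈ M, y ≤ u ∨ u ≤ y := by
    intro y
    by_contra hcon
    push Not at hcon
    have hy : y ∉ M := fun hy => (hcon y hy).1 le_rfl
    have h1 : IsAntichain (· ≤ ·) ((insert y M : Finset P) : Set P) := by
      intro p hp q hq hpq hle
      rw [mem_coe, mem_insert] at hp hq
      rcases hp with rfl | hp
      · rcases hq with rfl | hq
        · exact hpq rfl
        · exact (hcon q hq).1 hle
      · rcases hq with rfl | hq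
        · exact (hcon p hp).2 hle
        · exact hpq (anti p hp q hq hle)
    have h2 := hMmax (insert y M) (by rw [mem_filter]; exact ⟨mem_univ _, h1⟩)
    rw [card_insert_of_notMem hy] at h2
    omega
  have noTwo : ∀ y u v, u ∈ M → v ∈ M → u ≠ v → y < u → y < v → ∀ w ∈ M, y < w := by
    intro y u v hu hv huv hyu hyv w hw
    by_contra hyw
    have hwu : ¬ w ≤ y := fun h1 => by
      have h2 := anti w hw u hu (h1.trans hyu.le)
      have h3 := anti w hw v hv (h1.trans hyv.le)
      exact huv (h2.symm.trans h3)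
    have hyw' : ¬ y ≤ w := fun h1 => by
      rcases h1.lt_or_eq with h2 | h2
      · exact hyw h2
      · exact hwu h2.ge
    have hne1 : w ≠ u := by rintro rfl; exact hyw hyu
    have hne2 : w ≠ v := by rintro rfl; exact hyw hyv
    exact h y u v w hyu hyv (fun h1 => huv (anti u hu v hv h1))
      (fun h1 => huv (anti v hv u hu h1).symm) hyw' hwu (fun h1 => hne1 (anti u hu w hw h1).symm)
      (fun h1 => hne1 (anti w hw u hu h1)) (fun h1 => hne2 (anti v hv w hw h1).symm)
      (fun h1 => hne2 (anti w hw v hv h1))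
  -- no element is below all elements of `M`
  have noC : ∀ c, ¬ ∀ u ∈ M, c < u := by
    intro c0 hc0
    obtain ⟨u0, hu0⟩ : M.Nonempty := card_pos.1 (by omega)
    apply hirr {c | ∀ u ∈ M, c < u} ⟨c0, hc0⟩ ⟨u0, fun h1 => lt_irrefl _ (h1 u0 hu0)⟩
    intro s hs t ht
    obtain ⟨u, hu, hut⟩ := comp t
    rcases hut with htu | hut
    · by_cases heq : t = u
      · rw [heq]; exact (hs u hu).le
      · have htu' : t < u := lt_of_le_of_ne htu heq
        have hcard : 1 < (M.erase u).card := by rw [card_erase_of_mem hu]; omega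
        obtain ⟨v, hv, w, hw, hvw⟩ := one_lt_card.1 hcard
        rw [mem_erase] at hv hw
        have hnot : ∀ v, v ≠ u → v ∈ M → ¬ t ≤ v ∧ ¬ v ≤ t := by
          intro v hvu hvM
          constructor
          · intro h1
            rcases h1.lt_or_eq with h2 | h2
            · exact ht (noTwo t u v hu hvM hvu.symm htu' h2)
            · exact hvu (anti v hvM u hu (h2 ▸ htu))
          · intro h1
            exact hvu (anti v hvM u hu (h1.trans htu))
        by_contra hst
        have hts : ¬ t ≤ s := fun h1 => (hnot v hv.1 hv.2).1 (h1.trans (hs v hv.2).le)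
        exact h s v w t (hs v hv.2) (hs w hw.2) (fun h1 => hvw (anti v hv.2 w hw.2 h1))
          (fun h1 => hvw (anti w hw.2 v hv.2 h1).symm) hst hts (hnot v hv.1 hv.2).2
          (hnot v hv.1 hv.2).1 (hnot w hw.1 hw.2).2 (hnot w hw.1 hw.2).1
    · exact (hs u hu).le.trans hut
  obtain ⟨u1, u2, u3, hu1, hu2, hu3, h12, h13, h23⟩ := two_lt_card_iff.1 hM3
  obtain ⟨m1, hm1, hm1'⟩ := exists_min_le u1
  obtain ⟨m2, hm2, hm2'⟩ := exists_min_le u2
  obtain ⟨m3, hm3, hm3'⟩ := exists_min_le u3
  have hd : ∀ m u v, m ≤ u → m ≤ v → u ∈ M → v ∈ M → u ≠ v → False := by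
    intro m u v hmu hmv hu hv huv
    have h1 : m < u := lt_of_le_of_ne hmu (by rintro rfl; exact huv (anti m hu v hv hmv))
    have h2 : m < v := lt_of_le_of_ne hmv (by rintro rfl; exact huv (anti m hv u hu hmu).symm)
    exact noC m (noTwo m u v hu hv huv h1 h2)
  have n12 : m1 ≠ m2 := by rintro rfl; exact hd m1 u1 u2 hm1 hm2 hu1 hu2 h12
  have n13 : m1 ≠ m3 := by rintro rfl; exact hd m1 u1 u3 hm1 hm3 hu1 hu3 h13
  have n23 : m2 ≠ m3 := by rintro rfl; exact hd m2 u2 u3 hm2 hm3 hu2 hu3 h23
  exact ⟨m1, m2, m3, h.near n12 hm1' hm2', h.near n23 hm2' hm3', h.near n13 hm1' hm3'⟩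

/-- the gap for posets without `V + 1` -/
theorem VOneFree.gap {K : ℕ} {ε : ℝ} (hε0 : 0 < ε) (hε : ε ≤ 1 / 200)
    (hεK : 6 * ε * ((CK K + 1) * (CK K + 2)) < 1)
    (hK : ∀ (P : Type) [Fintype P] [PartialOrder P] [Nonempty P], 1 / 3 + ε ≤ balance P ∨
      (Unb P (Fintype.card P) ε ∧ ∀ p : P, (inc p).card ≤ K)) :
    ∀ (P : Type) [Fintype P] [PartialOrder P] [Nonempty P], VOneFree P →
      InD P ∨ 1 / 3 + ε ≤ balance P := by
  have key : ∀ (N : ℕ) (P : Type) [Fintype P] [PartialOrder P] [Nonempty P], VOneFree P →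
      Fintype.card P = N → InD P ∨ 1 / 3 + ε ≤ balance P := by
    intro N
    induction N using Nat.strong_induction_on with
    | _ N ih =>
      intro P _ _ _ hP hN
      by_cases hS : ∃ S : Set P, S.Nonempty ∧ Sᶜ.Nonempty ∧ ∀ s ∈ S, ∀ t ∉ S, s ≤ t
      · obtain ⟨S, hS, hS', hst⟩ := hS
        obtain ⟨e⟩ := Pool.Agent.TH153.WQ.lex_of_set S hst
        have fS : Finite S := inferInstance
        have fS' : Finite (Sᶜ : Set P) := inferInstance
        have := Fintype.ofFinite S
        have := Fintype.ofFinite (Sᶜ : Set P)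
        have : Nonempty S := hS.to_subtype
        have : Nonempty (Sᶜ : Set P) := hS'.to_subtype
        have hc2 := card_of_iso_sum (P := P) (A := S) (B := (Sᶜ : Set P)) e.toEquiv
        rw [Nat.card_eq_fintype_card, Nat.card_eq_fintype_card] at hc2
        have pA : 0 < Fintype.card S := Fintype.card_pos
        have pB : 0 < Fintype.card (Sᶜ : Set P) := Fintype.card_pos
        have sub : ∀ T : Set P, VOneFree T := by
          intro T x w w' y h1 h2 h3 h4 h5 h6 h7 h8 h9 h10
          exact hP x w w' y h1 h2 h3 h4 h5 h6 h7 h8 h9 h10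
        have g1 := ih (Fintype.card S) (by omega) S (sub S) rfl
        have g2 := ih (Fintype.card (Sᶜ : Set P)) (by omega) (Sᶜ : Set P) (sub _) rfl
        have hne : Nonempty (S ⊕ₗ (Sᶜ : Set P)) := ⟨toLex (Sum.inl (Classical.arbitrary S))⟩
        rcases gap_lex g1 g2 with h3 | h3
        · exact Or.inl (InD.iso h3 e.symm)
        · exact Or.inr (h3.trans (balance_iso e.symm))
      · push Not at hS
        by_cases hw : ∀ s : Finset P, IsAntichain (· ≤ ·) (s : Set P) → s.card ≤ 2
        · rcases Pool.Agent.TH153.WQ.width_two_gap P hw with h1 | h1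
          · exact Or.inl h1
          · right
            refine le_trans ?_ h1
            unfold Pool.Agent.TH153.WQ.cR
            linarith
        · push Not at hw
          obtain ⟨A, hA, hA3⟩ := hw
          obtain ⟨x, y, z, n1, n2, n3⟩ := hP.three (fun S h1 h2 h3 => by
            obtain ⟨s, hs, t, ht, hst⟩ := hS S h1 h2
            exact hst (h3 s hs t ht)) A hA hA3
          rcases hK P with h1 | ⟨hU, hK'⟩
          · exact Or.inr h1
          · exact (triple rfl n1 n2 n3 hU (by linarith) hε0 hK' hεK).elim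
  intro P _ _ _ hP
  exact key _ P hP rfl

end Pool.Agent.R636.BG
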