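import Mathlib
import Pool.Agent.Y491.ID.Main
import Pool.Agent.H931R3.Bal11
import Pool.Agent.R636.BGap5

/-!
The gap for Young diagrams, and the choice of the constants.
-/

set_option autoImplicit false
set_option linter.unusedSectionVars false

open Finset

namespace Pool.Agent.R636.BG

open Pool.Agent.H13R3.WB Pool.Agent.H931R3.Bal

lemma unb_of_lt {P : Type} [Fintype P] [PartialOrder P] {n : ℕ} (hn : Fintype.card P = n) {ε : ℝ}
    (h : balance P < 1 / 3 + ε) : Unb P n ε := by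
  intro x y
  have h1 := le_ciSup (f := fun p : P × P => min (prob P p.1 p.2) (prob P p.2 p.1))
    (Set.finite_range _).bddAbove (x, y)
  simp only [prob_pb hn] at h1
  refine lt_of_le_of_lt h1 ?_
  unfold balance at h
  simp only [prob_pb hn] at h
  exact h

/-- the choice of the constants -/
theorem setup : ∃ (K : ℕ) (ε : ℝ), 0 < ε ∧ ε ≤ 1 / 200 ∧
    6 * ε * ((CK K + 1) * (CK K + 2)) < 1 ∧ 3 * ε * (3 * CK K + 1) < 1 ∧
    ∀ (P : Type) [Fintype P] [PartialOrder P], 1 / 3 + ε ≤ balance P ∨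
      (Unb P (Fintype.card P) ε ∧ ∀ p : P, (inc p).card ≤ K) := by
  obtain ⟨B, hB, h⟩ := Pool.Agent.Y491.ID.incomparable_balance
  let K : ℕ := ⌈Real.exp (B * Real.log (2 / (1 / 12)) ^ 3 / (1 / 12) ^ 4)⌉₊
  have hC : (0 : ℝ) ≤ CK K := by positivity
  refine ⟨K, 1 / (100 * ((CK K + 1) * (CK K + 2))), by positivity, ?_, ?_, ?_, ?_⟩
  · apply one_div_le_one_div_of_le (by norm_num)
    nlinarith
  · have h1 : (0 : ℝ) < (CK K + 1) * (CK K + 2) := by positivity
    rw [mul_one_div, div_mul_eq_mul_div, div_lt_one (by positivity)]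
    linarith
  · have h1 : (0 : ℝ) < (CK K + 1) * (CK K + 2) := by positivity
    rw [mul_one_div, div_mul_eq_mul_div, div_lt_one (by positivity)]
    nlinarith
  · intro P _ _
    set ε : ℝ := 1 / (100 * ((CK K + 1) * (CK K + 2))) with hεdef
    have hε : ε ≤ 1 / 12 := by
      apply one_div_le_one_div_of_le (by norm_num)
      nlinarith
    by_cases hb : 1 / 3 + ε ≤ balance P
    · exact Or.inl hb
    · right
      rw [not_le] at hb
      refine ⟨unb_of_lt rfl hb, ?_⟩
      intro p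
      by_contra hcon
      rw [not_le] at hcon
      have h1 := h (1 / 12) (by norm_num) (by norm_num) P p (by
        have h2 : (Nat.card {y : P // ¬ p ≤ y ∧ ¬ y ≤ p} : ℝ) = (inc p).card := by
          classical
          rw [Nat.card_eq_fintype_card, Fintype.card_subtype]
          unfold inc
          congr
        rw [h2]
        have h3 : Real.exp (B * Real.log (2 / (1 / 12)) ^ 3 / (1 / 12) ^ 4) ≤ (K : ℝ) :=
          Nat.le_ceil _
        refine h3.trans ?_
        exact_mod_cast hcon.le)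
      linarith

/-- Young diagrams with two rows or two columns have width at most two -/
lemma young_width (μ : YoungDiagram) (h : (2, 0) ∉ μ ∨ (0, 2) ∉ μ) :
    ∀ s : Finset μ.cells, IsAntichain (· ≤ ·) (s : Set μ.cells) → s.card ≤ 2 := by
  intro s hs
  rcases h with h | h
  · have h1 : s.card ≤ (Finset.range 2).card := by
      apply card_le_card_of_injOn (fun c => c.1.1)
      · intro c _
        rw [mem_coe, mem_range]
        by_contra hcon
        apply h
        have hcon' : 2 ≤ c.1.1 := not_lt.1 hcon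
        have hc : (c.1.1, c.1.2) ∈ μ := (YoungDiagram.mem_cells _).1 c.2
        exact μ.up_left_mem hcon' (Nat.zero_le _) hc
      · intro c hc d hd hcd
        by_contra hne
        rcases le_total c.1.2 d.1.2 with h2 | h2
        · exact hs hc hd hne (show c.1 ≤ d.1 from ⟨le_of_eq hcd, h2⟩)
        · exact hs hd hc (Ne.symm hne) (show d.1 ≤ c.1 from ⟨le_of_eq hcd.symm, h2⟩)
    simpa using h1
  · have h1 : s.card ≤ (Finset.range 2).card := by
      apply card_le_card_of_injOn (fun c => c.1.2)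
      · intro c _
        rw [mem_coe, mem_range]
        by_contra hcon
        apply h
        have hcon' : 2 ≤ c.1.2 := not_lt.1 hcon
        have hc : (c.1.1, c.1.2) ∈ μ := (YoungDiagram.mem_cells _).1 c.2
        exact μ.up_left_mem (Nat.zero_le _) hcon' hc
      · intro c hc d hd hcd
        by_contra hne
        rcases le_total c.1.1 d.1.1 with h2 | h2
        · exact hs hc hd hne (show c.1 ≤ d.1 from ⟨h2, le_of_eq hcd⟩)
        · exact hs hd hc (Ne.symm hne) (show d.1 ≤ c.1 from ⟨h2, le_of_eq hcd.symm⟩)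
    simpa using h1

/-- the two cells next to the corner -/
lemma young_near (μ : YoungDiagram) (h1 : (1, 0) ∈ μ.cells) (h2 : (0, 1) ∈ μ.cells) :
    Near μ.cells ⟨(1, 0), h1⟩ ⟨(0, 1), h2⟩ := by
  have hlt : ∀ c d : μ.cells, c < d ↔ (c.1 ≤ d.1 ∧ c.1 ≠ d.1) := by
    intro c d
    rw [← Subtype.coe_lt_coe, lt_iff_le_and_ne]
  have hle : ∀ c d : μ.cells, c ≤ d ↔ (c.1.1 ≤ d.1.1 ∧ c.1.2 ≤ d.1.2) := fun c d => Iff.rfl
  refine ⟨?_, ?_, ?_, ?_⟩
  · intro h
    have := congrArg (fun c : μ.cells => c.1.1) h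
    simp at this
  · rintro ⟨⟨i, j⟩, hij⟩
    simp only [hlt, Prod.mk_le_mk, ne_eq, Prod.mk.injEq]
    omega
  · rintro ⟨⟨i, j⟩, hij⟩ ⟨⟨i', j'⟩, hij'⟩
    simp only [hlt, hle, Prod.mk_le_mk, ne_eq, Prod.mk.injEq]
    omega
  · rintro ⟨⟨i, j⟩, hij⟩ ⟨⟨i', j'⟩, hij'⟩
    simp only [hlt, hle, Prod.mk_le_mk, ne_eq, Prod.mk.injEq]
    omega

/-- two elements with the same lower elements, chains as differences, both of them not empty -/
theorem near_two {P : Type} [Fintype P] [PartialOrder P] {n : ℕ} (hn : Fintype.card P = n)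
    {x y z z' : P} (hxy : Near P x y) (hz : x < z) (hz' : ¬ y < z) (hw : y < z') (hw' : ¬ x < z')
    {ε : ℝ} (hU : Unb P n ε) (hε : ε ≤ 1 / 60) (hε0 : 0 < ε) {K : ℕ}
    (hK : ∀ p : P, (inc p).card ≤ K)
    (hεK : 3 * ε * ((CK K + 1) * (CK K + 2)) < 1) : False := by
  rcases hxy.gp hn with h | h
  · obtain ⟨-, -, -, U, -⟩ := h.facts hU hε hε0 hK hεK
    exact hz' (U z hz)
  · obtain ⟨-, -, -, U, -⟩ := h.facts hU hε hε0 hK hεK
    exact hw' (U z' hw)

theorem young_gap {K : ℕ} {ε : ℝ} (hε0 : 0 < ε) (hε : ε ≤ 1 / 200)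
    (hεK : 6 * ε * ((CK K + 1) * (CK K + 2)) < 1)
    (hK : ∀ (P : Type) [Fintype P] [PartialOrder P], 1 / 3 + ε ≤ balance P ∨
      (Unb P (Fintype.card P) ε ∧ ∀ p : P, (inc p).card ≤ K))
    (μ : YoungDiagram) (hμ : Nonempty μ.cells) :
    InD μ.cells ∨ 1 / 3 + ε ≤ balance μ.cells := by
  by_cases h : (2, 0) ∉ μ ∨ (0, 2) ∉ μ
  · rcases Pool.Agent.TH153.WQ.width_two_gap μ.cells (young_width μ h) with h1 | h1
    · exact Or.inl h1
    · right
      refine le_trans ?_ h1
      unfold Pool.Agent.TH153.WQ.cR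
      linarith
  · push Not at h
    right
    have h10 : (1, 0) ∈ μ.cells := (YoungDiagram.mem_cells _).2
      (μ.up_left_mem (by norm_num) le_rfl h.1)
    have h01 : (0, 1) ∈ μ.cells := (YoungDiagram.mem_cells _).2
      (μ.up_left_mem le_rfl (by norm_num) h.2)
    have h20 : (2, 0) ∈ μ.cells := (YoungDiagram.mem_cells _).2 h.1
    have h02 : (0, 2) ∈ μ.cells := (YoungDiagram.mem_cells _).2 h.2
    have hC : (0 : ℝ) ≤ CK K := by positivity
    have hεK' : 3 * ε * ((CK K + 1) * (CK K + 2)) < 1 := by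
      have : 0 ≤ 3 * ε * (((CK K : ℝ) + 1) * (CK K + 2)) := by positivity
      linarith
    have hlt : ∀ c d : μ.cells, c < d ↔ (c.1 ≤ d.1 ∧ c.1 ≠ d.1) := by
      intro c d
      rw [← Subtype.coe_lt_coe, lt_iff_le_and_ne]
    rcases hK μ.cells with h1 | ⟨hU, hK'⟩
    · exact h1
    · exfalso
      refine near_two rfl (young_near μ h10 h01) (z := ⟨(2, 0), h20⟩) (z' := ⟨(0, 2), h02⟩)
        ?_ ?_ ?_ ?_ hU (by linarith) hε0 hK' hεK'
      all_goals
        simp only [hlt, Prod.mk_le_mk, ne_eq, Prod.mk.injEq]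
        omega

end Pool.Agent.R636.BG
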