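import Mathlib
import Pool.Agent.R636.BGap6

/-! The final statements on the gap above `1/3`. -/

set_option autoImplicit false

open Finset

namespace Pool.Agent.R636.BG

open Pool.Agent.H13R3.WB Pool.Agent.H931R3.Bal

/-- `(a, b)` is a good pair: everything below `a` is below `b`, the elements above `b` which are not
above `a` form a chain, and `a` comes before `b` with probability at most one half. -/
def GoodPair (P : Type) [Fintype P] [PartialOrder P] (a b : P) : Prop :=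
  a ≠ b ∧ (∀ w, w < a → w < b) ∧
  (∀ w w', b < w → b < w' → ¬ a < w → ¬ a < w' → w ≤ w' ∨ w' ≤ w) ∧ prob P a b ≤ 1 / 2

lemma card_dual {P : Type} [Fintype P] : Fintype.card Pᵒᵈ = Fintype.card P :=
  Fintype.card_congr OrderDual.ofDual

/-- majority cycles and automorphisms -/
theorem cycle_gap : ∃ ε : ℝ, 0 < ε ∧ ∀ (P : Type) [Fintype P] [PartialOrder P],
    ((∃ x : P, Relation.TransGen (fun a b : P => 1 / 2 < prob P a b) x x) ∨
      (∃ e : P ≃o P, e ≠ OrderIso.refl P)) → 1 / 3 + ε ≤ balance P := by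
  obtain ⟨K, ε, h0, h1, h2, h3, h4⟩ := setup
  refine ⟨ε, h0, fun P _ _ h => ?_⟩
  rcases h4 P with h5 | ⟨hU, hK⟩
  · exact h5
  exfalso
  simp only [prob_pb rfl] at h
  have hcyc : ∀ x : P, Relation.TransGen (fun a b : P => 1 / 2 <
      pb (fun f : LEn P (Fintype.card P) => f.1 a < f.1 b)) x x → False := fun x hx =>
    no_cycle rfl hK h3 h0 (by linarith) hU hx
  rcases h with ⟨x, hx⟩ | ⟨e, he⟩
  · exact hcyc x hx
  · have h6 : ∃ x, e x ≠ x := by
      by_contra hcon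
      push Not at hcon
      exact he (by ext x; exact hcon x)
    rcases auto_cycle rfl e h6 with ⟨x, y, hxy, h7⟩ | ⟨x, hx⟩
    · have h8 := hU.lt rfl hxy (by rw [h7]; linarith)
      linarith
    · exact hcyc x hx

/-- good pairs and triples -/
theorem pair_gap : ∃ ε : ℝ, 0 < ε ∧ ∀ (P : Type) [Fintype P] [PartialOrder P],
    (∀ a b : P, GoodPair P a b → Exc P a b ∨ 1 / 3 + ε ≤ balance P) ∧
    (∀ a b : Pᵒᵈ, GoodPair Pᵒᵈ a b → Exc Pᵒᵈ a b ∨ 1 / 3 + ε ≤ balance P) ∧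
    (∀ x y z : P, Near P x y → Near P y z → Near P x z → 1 / 3 + ε ≤ balance P) ∧
    (∀ x y z : Pᵒᵈ, Near Pᵒᵈ x y → Near Pᵒᵈ y z → Near Pᵒᵈ x z → 1 / 3 + ε ≤ balance P) := by
  obtain ⟨K, ε, h0, h1, h2, h3, h4⟩ := setup
  have hC : (0 : ℝ) ≤ CK K := by positivity
  have h2' : 3 * ε * ((CK K + 1) * (CK K + 2)) < 1 := by
    have : 0 ≤ 3 * ε * (((CK K : ℝ) + 1) * (CK K + 2)) := by positivity
    linarith
  have good : ∀ (P : Type) [Fintype P] [PartialOrder P] (a b : P), GoodPair P a b →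
      Exc P a b ∨ 1 / 3 + ε ≤ balance P := by
    intro P _ _ a b hab
    rcases h4 P with h5 | ⟨hU, hK⟩
    · exact Or.inr h5
    · left
      obtain ⟨g1, g2, g3, g4⟩ := hab
      rw [prob_pb rfl] at g4
      exact GP.exc ⟨rfl, g1, g2, g3, g4⟩ hU (by linarith) h0 hK h2'
  have trip : ∀ (P : Type) [Fintype P] [PartialOrder P] (x y z : P), Near P x y → Near P y z →
      Near P x z → 1 / 3 + ε ≤ balance P := by
    intro P _ _ x y z h5 h6 h7
    rcases h4 P with h8 | ⟨hU, hK⟩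
    · exact h8
    · exact (triple rfl h5 h6 h7 hU (by linarith) h0 hK h2).elim
  refine ⟨ε, h0, fun P _ _ => ⟨good P, ?_, trip P, ?_⟩⟩
  · intro a b hab
    have : Nonempty P := ⟨OrderDual.ofDual a⟩
    rw [← balance_dual P]
    exact good Pᵒᵈ a b hab
  · intro x y z h5 h6 h7
    have : Nonempty P := ⟨OrderDual.ofDual x⟩
    rw [← balance_dual P]
    exact trip Pᵒᵈ x y z h5 h6 h7

/-- classes of posets -/
theorem class_gap : ∃ ε : ℝ, 0 < ε ∧ ∀ (R : Type) [Fintype R] [PartialOrder R],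
    Built (fun P _ => Nonempty P ∧ (VOneFree P ∨ VOneFree Pᵒᵈ ∨
      ∃ μ : YoungDiagram, Nonempty (P ≃o μ.cells))) R → InD R ∨ 1 / 3 + ε ≤ balance R := by
  obtain ⟨K, ε, h0, h1, h2, h3, h4⟩ := setup
  refine ⟨ε, h0, fun R _ _ hR => ?_⟩
  refine (Built.gap (c := 1 / 3 + ε) (by linarith) ?_ hR).2
  intro P _ _ hP
  obtain ⟨hne, hP⟩ := hP
  refine ⟨hne, ?_⟩
  rcases hP with hP | hP | ⟨μ, ⟨e⟩⟩
  · exact VOneFree.gap h0 h1 h2 (fun P _ _ _ => h4 P) P hP
  · have : Nonempty Pᵒᵈ := hne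
    rcases VOneFree.gap h0 h1 h2 (fun P _ _ _ => h4 P) Pᵒᵈ hP with h5 | h5
    · exact Or.inl (InD_of_dual h5)
    · right
      rw [← balance_dual P]
      exact h5
  · have hμ : Nonempty μ.cells := ⟨e (Classical.arbitrary P)⟩
    rcases young_gap h0 h1 h2 (fun P _ _ => h4 P) μ hμ with h5 | h5
    · exact Or.inl (InD.iso h5 e.symm)
    · exact Or.inr (h5.trans (balance_iso e.symm))

end Pool.Agent.R636.BG
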