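import Mathlib
import Pool.Agent.R636.BGap7

/-!
Posets with a maximal antichain of at least three elements, each incomparable to at most one element
outside the antichain; posets in which every element is incomparable to at most three elements.
-/

set_option autoImplicit false
set_option linter.unusedSectionVars false

open Finset

namespace Pool.Agent.R636.BG

open Pool.Agent.H13R3.WB Pool.Agent.H931R3.Bal

/-- `A` is a maximal antichain, and every element of `A` is incomparable to at most one element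
outside `A`. -/
def ThinAnti (P : Type) [PartialOrder P] (A : Finset P) : Prop :=
  IsAntichain (· ≤ ·) (A : Set P) ∧ (∀ y : P, ∃ a ∈ A, a ≤ y ∨ y ≤ a) ∧
  ∀ a ∈ A, ∀ y y' : P, y ∉ A → y' ∉ A → ¬ a ≤ y → ¬ y ≤ a → ¬ a ≤ y' → ¬ y' ≤ a → y = y'

lemma ThinAnti.dual {P : Type} [PartialOrder P] {A : Finset P} (h : ThinAnti P A) :
    ThinAnti Pᵒᵈ (A.map OrderDual.toDual.toEmbedding) := by
  obtain ⟨h1, h2, h3⟩ := h
  have mem : ∀ y : Pᵒᵈ, y ∈ A.map OrderDual.toDual.toEmbedding ↔ OrderDual.ofDual y ∈ A := by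
    intro y
    rw [mem_map]
    constructor
    · rintro ⟨a, ha, rfl⟩; exact ha
    · intro hy; exact ⟨OrderDual.ofDual y, hy, rfl⟩
  refine ⟨?_, ?_, ?_⟩
  · intro x hx y hy hxy hle
    rw [mem_coe, mem] at hx hy
    exact h1 hy hx (fun h => hxy h.symm) hle
  · intro y
    obtain ⟨a, ha, h4⟩ := h2 (OrderDual.ofDual y)
    exact ⟨OrderDual.toDual a, (mem _).2 ha, h4.symm⟩
  · intro a ha y y' hy hy' k1 k2 k3 k4
    rw [mem] at ha hy hy'
    exact h3 _ ha _ _ hy hy' k2 k1 k4 k3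

variable {P : Type} [Fintype P] [PartialOrder P]

/-- the case of two elements with all outside incomparable elements above -/
lemma ThinAnti.upper {A : Finset P} (h : ThinAnti P A) (h3 : 2 < A.card) {u v : P} (hu : u ∈ A)
    (hv : v ∈ A) (huv : u ≠ v)
    (nu : ∀ y, y ∉ A → ¬ u ≤ y → ¬ y ≤ u → ∃ a ∈ A, a < y)
    (nv : ∀ y, y ∉ A → ¬ v ≤ y → ¬ y ≤ v → ∃ a ∈ A, a < y)
    {ε : ℝ} (hU : Unb P (Fintype.card P) ε) (hε : ε ≤ 1 / 60) (hε0 : 0 < ε) {K : ℕ}
    (hK : ∀ p : P, (inc p).card ≤ K)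
    (hεK : 3 * ε * ((CK K + 1) * (CK K + 2)) < 1) : False := by
  classical
  obtain ⟨h1, h2, h4⟩ := h
  have anti : ∀ a ∈ A, ∀ b ∈ A, a ≤ b → a = b := by
    intro a ha b hb hab
    by_contra hne
    exact h1 (mem_coe.2 ha) (mem_coe.2 hb) hne hab
  -- elements below some element of `A` are not above an element of `A`
  have notA : ∀ w a, a ∈ A → w < a → w ∉ A := by
    intro w a ha hwa hw
    exact hwa.ne (anti w hw a ha hwa.le)
  have notA' : ∀ w a, a ∈ A → a < w → w ∉ A := by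
    intro w a ha hwa hw
    exact hwa.ne (anti a ha w hw hwa.le)
  -- the lower elements agree
  have low : ∀ u ∈ A, ∀ v ∈ A, (∀ y, y ∉ A → ¬ u ≤ y → ¬ y ≤ u → ∃ a ∈ A, a < y) →
      ∀ w, w < v → w < u := by
    intro u hu v hv nu w hw
    by_contra hwu
    have hwA := notA w v hv hw
    have k1 : ¬ u ≤ w := fun h5 => (h5.trans_lt hw).ne (anti u hu v hv (h5.trans hw.le))
    have k2 : ¬ w ≤ u := by
      intro h5
      rcases h5.lt_or_eq with h6 | h6
      · exact hwu h6
      · exact k1 h6.ge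
    obtain ⟨a, ha, haw⟩ := nu w hwA k1 k2
    exact (haw.trans hw).ne (anti a ha v hv (haw.trans hw).le)
  -- elements above `u` and not above `v` are incomparable to `v`
  have upp : ∀ u ∈ A, ∀ v ∈ A, ∀ w, u < w → ¬ v < w → w ∉ A ∧ ¬ v ≤ w ∧ ¬ w ≤ v := by
    intro u hu v hv w hw hvw
    have hwA := notA' w u hu hw
    refine ⟨hwA, ?_, ?_⟩
    · intro h5
      rcases h5.lt_or_eq with h6 | h6
      · exact hvw h6
      · exact hwA (h6 ▸ hv)
    · intro h5
      exact (hw.trans_le h5).ne (anti u hu v hv (hw.trans_le h5).le)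
  have near : ∀ u ∈ A, ∀ v ∈ A, u ≠ v →
      (∀ y, y ∉ A → ¬ u ≤ y → ¬ y ≤ u → ∃ a ∈ A, a < y) →
      (∀ y, y ∉ A → ¬ v ≤ y → ¬ y ≤ v → ∃ a ∈ A, a < y) → Near P u v := by
    intro u hu v hv huv nu nv
    refine ⟨huv, fun w => ⟨fun h5 => low v hv u hu nv w h5, fun h5 => low u hu v hv nu w h5⟩, ?_, ?_⟩
    · intro w w' k1 k2 k3 k4
      obtain ⟨l1, l2, l3⟩ := upp u hu v hv w k1 k3
      obtain ⟨m1, m2, m3⟩ := upp u hu v hv w' k2 k4
      exact Or.inl (h4 v hv w w' l1 m1 l2 l3 m2 m3).le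
    · intro w w' k1 k2 k3 k4
      obtain ⟨l1, l2, l3⟩ := upp v hv u hu w k1 k3
      obtain ⟨m1, m2, m3⟩ := upp v hv u hu w' k2 k4
      exact Or.inl (h4 u hu w w' l1 m1 l2 l3 m2 m3).le
  -- the contradiction for an oriented pair
  have main : ∀ a ∈ A, ∀ b ∈ A, (∀ y, y ∉ A → ¬ a ≤ y → ¬ y ≤ a → ∃ c ∈ A, c < y) →
      GP P (Fintype.card P) a b → False := by
    intro a ha b hb na hab
    obtain ⟨E1, E2, z, hz, hz', hmin, hiff⟩ := hab.exc hU hε hε0 hK hεK
    obtain ⟨z1, z2, z3⟩ := upp b hb a ha z hz hz'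
    have hone : ∀ w, b < w → ¬ a < w → w = z := by
      intro w hw hw'
      obtain ⟨w1, w2, w3⟩ := upp b hb a ha w hw hw'
      exact h4 a ha w z w1 z1 w2 w3 z2 z3
    obtain ⟨c1, c2⟩ := hiff.1 hone
    -- a third element of the antichain
    obtain ⟨t, ht, hta, htb⟩ : ∃ t ∈ A, t ≠ a ∧ t ≠ b := by
      by_contra hcon
      push Not at hcon
      have h5 : A ⊆ {a, b} := by
        intro t ht
        rw [mem_insert, mem_singleton]
        by_cases h6 : t = a
        · exact Or.inl h6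
        · exact Or.inr (hcon t ht h6)
      have := card_le_card h5
      have := card_le_two (a := a) (b := b)
      omega
    have k1 : ¬ t ≤ z := by
      intro h5
      rcases h5.lt_or_eq with h6 | h6
      · rcases c1 t h6 with h7 | h7
        · exact h7.ne (anti t ht a ha h7.le)
        · exact htb h7
      · exact z1 (h6 ▸ ht)
    have k2 : ¬ z ≤ t := fun h5 =>
      (hz.trans_le h5).ne (anti b hb t ht (hz.trans_le h5).le)
    -- all outside incomparable elements of `t` equal `z`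
    have nt : ∀ y, y ∉ A → ¬ t ≤ y → ¬ y ≤ t → ∃ c ∈ A, c < y := by
      intro y hy l1 l2
      have : y = z := h4 t ht y z hy z1 l1 l2 k1 k2
      exact ⟨b, hb, this ▸ hz⟩
    have hnear := near t ht a ha hta nt na
    have hup : ∀ w, t < w ↔ a < w := by
      intro w
      constructor
      · intro h5
        by_contra h6
        obtain ⟨w1, w2, w3⟩ := upp t ht a ha w h5 h6
        have : w = z := h4 a ha w z w1 z1 w2 w3 z2 z3
        exact k1 (this ▸ h5.le)
      · intro h5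
        by_contra h6
        obtain ⟨w1, w2, w3⟩ := upp a ha t ht w h5 h6
        have : w = z := h4 t ht w z w1 z1 w2 w3 k1 k2
        exact hz' (this ▸ h5)
    rcases hnear.gp rfl with h5 | h5
    · obtain ⟨-, -, -, -, y, hy, hy'⟩ := h5.facts hU hε hε0 hK hεK
      exact hy' ((hup y).2 hy)
    · obtain ⟨-, -, -, -, y, hy, hy'⟩ := h5.facts hU hε hε0 hK hεK
      exact hy' ((hup y).1 hy)
  rcases (near u hu v hv huv nu nv).gp rfl with h5 | h5
  · exact main u hu v hv nu h5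
  · exact main v hv u hu nv h5

/-- the gap for posets with a thin maximal antichain -/
theorem thin_anti {K : ℕ} {ε : ℝ} (hε0 : 0 < ε) (hε : ε ≤ 1 / 200)
    (hεK : 6 * ε * ((CK K + 1) * (CK K + 2)) < 1)
    (hK : ∀ (P : Type) [Fintype P] [PartialOrder P], 1 / 3 + ε ≤ balance P ∨
      (Unb P (Fintype.card P) ε ∧ ∀ p : P, (inc p).card ≤ K))
    (P : Type) [Fintype P] [PartialOrder P] (A : Finset P) (hA : ThinAnti P A)
    (h3 : 2 < A.card) : 1 / 3 + ε ≤ balance P := by
  classical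
  have hC : (0 : ℝ) ≤ CK K := by positivity
  have hεK' : 3 * ε * ((CK K + 1) * (CK K + 2)) < 1 := by
    have : 0 ≤ 3 * ε * (((CK K : ℝ) + 1) * (CK K + 2)) := by positivity
    linarith
  obtain ⟨h1, h2, h4⟩ := hA
  let A0 := A.filter (fun u => ∀ y, y ∉ A → ¬ u ≤ y → ¬ y ≤ u → ∃ a ∈ A, a < y)
  let A1 := A.filter (fun u => ∀ y, y ∉ A → ¬ u ≤ y → ¬ y ≤ u → ∃ a ∈ A, y < a)
  have hcov : A ⊆ A0 ∪ A1 := by
    intro u hu
    rw [mem_union, mem_filter, mem_filter]
    by_contra hcon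
    push Not at hcon
    obtain ⟨y, hy1, hy2, hy3, hy4⟩ := hcon.1 hu
    obtain ⟨y', hy1', hy2', hy3', hy4'⟩ := hcon.2 hu
    have heq := h4 u hu y y' hy1 hy1' hy2 hy3 hy2' hy3'
    subst heq
    obtain ⟨a, ha, h5⟩ := h2 y
    rcases h5 with h5 | h5
    · rcases h5.lt_or_eq with h6 | h6
      · exact hy4 a ha h6
      · exact hy1 (h6 ▸ ha)
    · rcases h5.lt_or_eq with h6 | h6
      · exact hy4' a ha h6
      · exact hy1 (h6 ▸ ha)
  have hcard : A.card ≤ A0.card + A1.card := (card_le_card hcov).trans (card_union_le _ _)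
  have hP : Nonempty P := by
    obtain ⟨x, -⟩ := card_pos.1 (by omega : 0 < A.card)
    exact ⟨x⟩
  rcases Nat.lt_or_ge 1 A0.card with h5 | h5
  · obtain ⟨u, hu, v, hv, huv⟩ := one_lt_card.1 h5
    rw [mem_filter] at hu hv
    rcases hK P with h6 | ⟨hU, hK'⟩
    · exact h6
    · exact (ThinAnti.upper ⟨h1, h2, h4⟩ h3 hu.1 hv.1 huv hu.2 hv.2 hU (by linarith) hε0 hK'
        hεK').elim
  · obtain ⟨u, hu, v, hv, huv⟩ := one_lt_card.1 (by omega : 1 < A1.card)
    rw [mem_filter] at hu hv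
    rw [← balance_dual P]
    rcases hK Pᵒᵈ with h6 | ⟨hU, hK'⟩
    · exact h6
    · exfalso
      have mem : ∀ y : P, OrderDual.toDual y ∈ A.map OrderDual.toDual.toEmbedding ↔ y ∈ A := by
        intro y
        rw [mem_map]
        constructor
        · rintro ⟨a, ha, h7⟩
          have : a = y := OrderDual.toDual.injective h7
          exact this ▸ ha
        · intro hy; exact ⟨y, hy, rfl⟩
      have tr : ∀ u : P, (∀ y, y ∉ A → ¬ u ≤ y → ¬ y ≤ u → ∃ a ∈ A, y < a) →
          ∀ y : Pᵒᵈ, y ∉ A.map OrderDual.toDual.toEmbedding → ¬ OrderDual.toDual u ≤ y →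
          ¬ y ≤ OrderDual.toDual u → ∃ a ∈ A.map OrderDual.toDual.toEmbedding, a < y := by
        intro u hu y hy k1 k2
        obtain ⟨a, ha, h7⟩ := hu (OrderDual.ofDual y) (fun h8 => hy ((mem _).2 h8)) k2 k1
        exact ⟨OrderDual.toDual a, (mem a).2 ha, h7⟩
      exact ThinAnti.upper (ThinAnti.dual ⟨h1, h2, h4⟩) (by rw [card_map]; exact h3)
        ((mem u).2 hu.1) ((mem v).2 hv.1) (fun h => huv (OrderDual.toDual.injective h))
        (tr u hu.2) (tr v hv.2) hU (by linarith) hε0 hK' hεK'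

/-- a maximum antichain -/
lemma exists_max_anti (P : Type) [Fintype P] [PartialOrder P] (A : Finset P)
    (hA : IsAntichain (· ≤ ·) (A : Set P)) : ∃ M : Finset P, IsAntichain (· ≤ ·) (M : Set P) ∧
      A.card ≤ M.card ∧ (∀ s : Finset P, IsAntichain (· ≤ ·) (s : Set P) → s.card ≤ M.card) ∧
      ∀ y : P, ∃ a ∈ M, a ≤ y ∨ y ≤ a := by
  classical
  obtain ⟨M, hM, hMmax⟩ := exists_max_image
    (univ.filter (fun s : Finset P => IsAntichain (· ≤ ·) (s : Set P))) card
    ⟨A, by rw [mem_filter]; exact ⟨mem_univ _, hA⟩⟩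
  rw [mem_filter] at hM
  have hmax : ∀ s : Finset P, IsAntichain (· ≤ ·) (s : Set P) → s.card ≤ M.card := fun s hs =>
    hMmax s (by rw [mem_filter]; exact ⟨mem_univ _, hs⟩)
  refine ⟨M, hM.2, hmax A hA, hmax, ?_⟩
  intro y
  by_contra hcon
  push Not at hcon
  have hy : y ∉ M := fun hy => (hcon y hy).1 le_rfl
  have h1 : IsAntichain (· ≤ ·) ((insert y M : Finset P) : Set P) := by
    intro p hp q hq hpq hle
    rw [mem_coe, mem_insert] at hp hq
    rcases hp with rfl | hp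
    · rcases hq with rfl | hq
      · exact hpq rfl
      · exact (hcon q hq).2 hle
    · rcases hq with rfl | hq
      · exact (hcon p hp).1 hle
      · exact hM.2 (mem_coe.2 hp) (mem_coe.2 hq) hpq hle
  have h2 := hmax (insert y M) h1
  rw [card_insert_of_notMem hy] at h2
  omega

/-- an antichain with `m` elements, each incomparable to at most `m` elements -/
lemma thin_of_card (P : Type) [Fintype P] [PartialOrder P] (M : Finset P)
    (h1 : IsAntichain (· ≤ ·) (M : Set P)) (h2 : ∀ y : P, ∃ a ∈ M, a ≤ y ∨ y ≤ a)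
    (h3 : ∀ a ∈ M, Nat.card {y : P // ¬ a ≤ y ∧ ¬ y ≤ a} ≤ M.card) : ThinAnti P M := by
  classical
  refine ⟨h1, h2, ?_⟩
  intro a ha y y' hy hy' k1 k2 k3 k4
  by_contra hne
  have h4 := h3 a ha
  rw [Nat.card_eq_fintype_card, Fintype.card_subtype] at h4
  have h5 : insert y (insert y' (M.erase a)) ⊆ univ.filter (fun y => ¬ a ≤ y ∧ ¬ y ≤ a) := by
    intro w hw
    rw [mem_filter]
    rw [mem_insert, mem_insert, mem_erase] at hw
    rcases hw with rfl | rfl | ⟨hwa, hw⟩
    · exact ⟨mem_univ _, k1, k2⟩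
    · exact ⟨mem_univ _, k3, k4⟩
    · exact ⟨mem_univ _, fun h => h1 (mem_coe.2 ha) (mem_coe.2 hw) hwa.symm h,
        fun h => h1 (mem_coe.2 hw) (mem_coe.2 ha) hwa h⟩
  have h6 := card_le_card h5
  rw [card_insert_of_notMem, card_insert_of_notMem, card_erase_of_mem ha] at h6
  · have : 0 < M.card := card_pos.2 ⟨a, ha⟩
    omega
  · intro h; exact hy' (mem_of_mem_erase h)
  · rw [mem_insert]
    rintro (h | h)
    · exact hne h
    · exact hy (mem_of_mem_erase h)

/-- maximal antichains with few outside incomparable elements, and posets in which every element is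
incomparable to at most three elements -/
theorem thin_gap : ∃ ε : ℝ, 0 < ε ∧ ∀ (P : Type) [Fintype P] [PartialOrder P] [Nonempty P],
    (∀ A : Finset P, ThinAnti P A → 3 ≤ A.card → 1 / 3 + ε ≤ balance P) ∧
    ((∀ x : P, Nat.card {y : P // ¬ x ≤ y ∧ ¬ y ≤ x} ≤ 3) → InD P ∨ 1 / 3 + ε ≤ balance P) := by
  obtain ⟨K, ε, h0, h1, h2, h3, h4⟩ := setup
  refine ⟨ε, h0, fun P _ _ _ => ⟨fun A hA hA3 => thin_anti h0 h1 h2 h4 P A hA hA3, ?_⟩⟩
  intro hthin
  by_cases hw : ∀ s : Finset P, IsAntichain (· ≤ ·) (s : Set P) → s.card ≤ 2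
  · rcases Pool.Agent.TH153.WQ.width_two_gap P hw with h5 | h5
    · exact Or.inl h5
    · right
      refine le_trans ?_ h5
      unfold Pool.Agent.TH153.WQ.cR
      linarith
  · push Not at hw
    obtain ⟨A, hA, hA3⟩ := hw
    obtain ⟨M, m1, m2, m3, m4⟩ := exists_max_anti P A hA
    right
    exact thin_anti h0 h1 h2 h4 P M (thin_of_card P M m1 m4 (fun a _ => (hthin a).trans (by omega)))
      (by omega)

/-- the closure of the class of these posets under sums -/
theorem thin_class : ∃ ε : ℝ, 0 < ε ∧ ∀ (R : Type) [Fintype R] [PartialOrder R],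
    Built (fun P _ => Nonempty P ∧ ((∃ A : Finset P, ThinAnti P A ∧ 3 ≤ A.card) ∨
      ∀ x : P, Nat.card {y : P // ¬ x ≤ y ∧ ¬ y ≤ x} ≤ 3)) R → InD R ∨ 1 / 3 + ε ≤ balance R := by
  obtain ⟨ε, h0, h1⟩ := thin_gap
  refine ⟨min ε (1 / 200), lt_min h0 (by norm_num), fun R _ _ hR => ?_⟩
  have hm1 := min_le_left ε (1 / 200)
  have hm2 := min_le_right ε (1 / 200 : ℝ)
  refine (Built.gap (c := 1 / 3 + min ε (1 / 200)) (by linarith) ?_ hR).2
  intro P _ _ hP
  obtain ⟨hne, hP⟩ := hP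
  refine ⟨hne, ?_⟩
  rcases hP with ⟨A, hA, hA3⟩ | hP
  · right
    linarith [(h1 P).1 A hA hA3]
  · rcases (h1 P).2 hP with h5 | h5
    · exact Or.inl h5
    · right; linarith

end Pool.Agent.R636.BG
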