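import Pool.Agent.R636.FLat

/-!
# Union-closed families whose order is dual to a given lattice
-/

set_option autoImplicit false
set_option linter.unusedSectionVars false

namespace Pool.Agent.R636.FL

section fam

variable {α : Type*} [DecidableEq α] (A : Finset (Finset α))
  (hA : ∀ X ∈ A, ∀ Y ∈ A, X ∪ Y ∈ A)
  {L : Type*} [Lattice L] [OrderBot L] [Finite L] (e : {X // X ∈ A} ≃o Lᵒᵈ)

include e in
theorem fam_card : Nat.card L = A.card := by
  have h1 : Nat.card L = Nat.card {X // X ∈ A} := Nat.card_congr
    ((e.toEquiv.trans OrderDual.ofDual).symm)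
  rw [h1]; simp

/-- the element of the lattice that corresponds to the member `X` -/
def lat (X : {X // X ∈ A}) : L := OrderDual.ofDual (e X)

theorem lat_le {X Y : {X // X ∈ A}} : lat A e X ≤ lat A e Y ↔ Y.1 ⊆ X.1 := by
  change OrderDual.toDual (lat A e Y) ≤ OrderDual.toDual (lat A e X) ↔ _
  change e Y ≤ e X ↔ _
  rw [e.le_iff_le]
  rfl

theorem lat_surj (J : L) : ∃ X, lat A e X = J :=
  ⟨e.symm (OrderDual.toDual J), by simp [lat]⟩

theorem lat_inj {X Y : {X // X ∈ A}} (h : lat A e X = lat A e Y) : X = Y :=
  e.injective (OrderDual.ofDual.injective h)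

/-- the members contained in `X` correspond to the elements above `lat X` -/
theorem card_le_lat (X : {X // X ∈ A}) :
    (A.filter fun Y => Y ⊆ X.1).card = Nat.card {U : L // lat A e X ≤ U} := by
  classical
  have h1 : (A.filter fun Y => Y ⊆ X.1).card = Nat.card {Y // Y ∈ A.filter fun Y => Y ⊆ X.1} := by
    rw [Nat.card_eq_fintype_card, Fintype.card_coe]
  rw [h1]
  refine Nat.card_congr ⟨fun Y => ⟨lat A e ⟨Y.1, (Finset.mem_filter.1 Y.2).1⟩, ?_⟩,
    fun U => ⟨(e.symm (OrderDual.toDual U.1)).1, ?_⟩, ?_, ?_⟩
  · rw [lat_le]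
    exact (Finset.mem_filter.1 Y.2).2
  · rw [Finset.mem_filter]
    refine ⟨(e.symm (OrderDual.toDual U.1)).2, ?_⟩
    have h2 : lat A e X ≤ lat A e (e.symm (OrderDual.toDual U.1)) := by
      have := U.2
      simpa [lat] using this
    exact (lat_le A e).1 h2
  · intro Y; apply Subtype.ext; simp [lat]
  · intro U; apply Subtype.ext; simp [lat]

include hA e in
/-- a join-irreducible element `J` comes from an element `i` of the ground set: the members that
do not contain `i` are contained in the member that corresponds to `J` -/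
theorem exists_point {J : L} (hJ : SupIrred J) :
    ∃ i ∈ A.sup id, A.card ≤ (A.filter fun X => i ∈ X).card + Nat.card {U : L // J ≤ U} := by
  classical
  have := Fintype.ofFinite L
  obtain ⟨X, rfl⟩ := lat_surj A e J
  -- the largest element strictly below `J`
  set J' : L := (Finset.univ.filter fun b : L => b < lat A e X).sup id with hJ'
  have h1 : J' ≤ lat A e X := Finset.sup_le (fun b hb => by
    simp only [Finset.mem_filter, Finset.mem_univ, true_and] at hb
    exact hb.le)
  have h2 : J' ≠ lat A e X := by
    intro h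
    obtain ⟨b, hb, hb'⟩ := hJ.finset_sup_eq h
    simp only [Finset.mem_filter, Finset.mem_univ, true_and] at hb
    simp only [id] at hb'
    exact hb.ne hb'
  have h3 : ∀ b, b < lat A e X → b ≤ J' := fun b hb =>
    Finset.le_sup (f := id) (by simp [hb])
  obtain ⟨X', hX'⟩ := lat_surj A e J'
  have h4 : X.1 ⊆ X'.1 := (lat_le A e).1 (by rw [hX']; exact h1)
  obtain ⟨i, hi, hiX⟩ : ∃ i ∈ X'.1, i ∉ X.1 := by
    by_contra hno
    push Not at hno
    apply h2
    rw [← hX']
    congr 1
    exact Subtype.ext (Finset.Subset.antisymm hno h4)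
  refine ⟨i, ?_, ?_⟩
  · rw [Finset.mem_sup]
    exact ⟨X'.1, X'.2, hi⟩
  · have h5 : (A.filter fun Y => ¬ i ∈ Y).card ≤ (A.filter fun Y => Y ⊆ X.1).card := by
      apply Finset.card_le_card
      intro Y hY
      rw [Finset.mem_filter] at hY ⊢
      refine ⟨hY.1, ?_⟩
      have hZ : Y ∪ X.1 ∈ A := hA _ hY.1 _ X.2
      have hiZ : i ∉ Y ∪ X.1 := by
        rw [Finset.mem_union, not_or]
        exact ⟨hY.2, hiX⟩
      by_contra hYX
      have h6 : lat A e ⟨Y ∪ X.1, hZ⟩ < lat A e X := by
        refine lt_of_le_of_ne ((lat_le A e).2 Finset.subset_union_right) (fun h7 => hYX ?_)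
        have h8 := congrArg Subtype.val (lat_inj A e h7)
        simp only at h8
        rw [← h8]
        exact Finset.subset_union_left
      have h7 := h3 _ h6
      rw [← hX', lat_le] at h7
      exact hiZ (h7 hi)
    have h6 := Finset.card_filter_add_card_filter_not (s := A) (fun Y => i ∈ Y)
    rw [card_le_lat A e X] at h5
    omega

include hA e in
/-- the averaging form: an element in at least half of the members -/
theorem frankl_of_supIrred {J : L} (hJ : SupIrred J)
    (h : 2 * Nat.card {U : L // J ≤ U} ≤ Nat.card L) :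
    ∃ i, A.card ≤ 2 * (A.filter fun X => i ∈ X).card := by
  obtain ⟨i, -, hi⟩ := exists_point A hA e hJ
  refine ⟨i, ?_⟩
  rw [fam_card A e] at h
  omega

include hA e in
/-- the union-closed sets conjecture for families whose order is dual to a good lattice -/
theorem frankl_of_good (h : Good L) (hne : A ≠ {∅}) :
    ∃ i, A.card ≤ 2 * (A.filter fun X => i ∈ X).card := by
  classical
  rcases subsingleton_or_nontrivial L with hL | hL
  · have h1 : A.card = 1 := by
      rw [← fam_card A e]
      have : Nonempty L := ⟨⊥⟩
      simp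
    obtain ⟨X, hX⟩ := Finset.card_eq_one.1 h1
    have h2 : X.Nonempty := by
      rw [Finset.nonempty_iff_ne_empty]
      rintro rfl
      exact hne hX
    obtain ⟨i, hi⟩ := h2
    refine ⟨i, ?_⟩
    have h3 : A.filter (fun X => i ∈ X) = A := by
      apply Finset.filter_true_of_mem
      intro Y hY
      rw [hX, Finset.mem_singleton] at hY
      rw [hY]; exact hi
    rw [h3]
    omega
  · obtain ⟨J, hJ, hc⟩ := h.weak
    exact frankl_of_supIrred A hA e hJ hc

include hA e in
/-- Poonen's form -/
theorem poonen_of_good (h : Good L) (hne : A.Nonempty)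
    (hsep : ∀ x ∈ A.sup id, ∀ y ∈ A.sup id, x ≠ y → ∃ S ∈ A, (x ∈ S ∧ y ∉ S) ∨ (y ∈ S ∧ x ∉ S))
    (hpow : A ≠ (A.sup id).powerset) :
    ∃ x ∈ A.sup id, 2 * (A.filter fun S => x ∈ S).card > A.card := by
  classical
  have := Fintype.ofFinite L
  rcases h with ⟨J, hJ, hc⟩ | ⟨⟨n, h1, h2⟩, -⟩
  · obtain ⟨i, hi, hi'⟩ := exists_point A hA e hJ
    refine ⟨i, hi, ?_⟩
    rw [fam_card A e] at hc
    omega
  · by_contra hno
    push Not at hno
    apply hpow
    have htop : A.sup id ∈ A := by
      have : ∀ B : Finset (Finset α), B ⊆ A → B.Nonempty → B.sup id ∈ A := by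
        intro B
        induction B using Finset.induction_on with
        | empty => intro _ h; exact absurd h (by simp)
        | insert X B hX ih =>
          intro hB _
          by_cases hBe : B.Nonempty
          · rw [Finset.sup_insert]
            exact hA _ (hB (Finset.mem_insert_self _ _)) _
              (ih (fun Y hY => hB (Finset.mem_insert_of_mem hY)) hBe)
          · rw [Finset.not_nonempty_iff_eq_empty.1 hBe, Finset.sup_insert, Finset.sup_empty]
            simpa using hB (Finset.mem_insert_self _ _)
      exact this A (Finset.Subset.refl A) hne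
    -- the largest member without `i`
    have hM : ∀ i ∈ A.sup id, ∃ X : {X // X ∈ A}, ∀ Y ∈ A, i ∉ Y ↔ Y ⊆ X.1 := by
      intro i hi
      have h3 : (A.filter fun Y => i ∉ Y).Nonempty := by
        rw [Finset.nonempty_iff_ne_empty]
        intro h4
        have h5 := Finset.card_filter_add_card_filter_not (s := A) (fun Y => i ∈ Y)
        rw [h4, Finset.card_empty] at h5
        have h6 := hno i hi
        have := hne.card_pos
        omega
      have h4 : ∀ B : Finset (Finset α), B ⊆ (A.filter fun Y => i ∉ Y) → B.Nonempty →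
          B.sup id ∈ (A.filter fun Y => i ∉ Y) := by
        intro B
        induction B using Finset.induction_on with
        | empty => intro _ h; exact absurd h (by simp)
        | insert X B hX ih =>
          intro hB _
          by_cases hBe : B.Nonempty
          · rw [Finset.sup_insert]
            have h5 := hB (Finset.mem_insert_self _ _)
            have h6 := ih (fun Y hY => hB (Finset.mem_insert_of_mem hY)) hBe
            rw [Finset.mem_filter] at h5 h6 ⊢
            refine ⟨hA _ h5.1 _ h6.1, ?_⟩
            simp only [id, Finset.sup_eq_union, Finset.mem_union, not_or]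
            exact ⟨h5.2, h6.2⟩
          · rw [Finset.not_nonempty_iff_eq_empty.1 hBe, Finset.sup_insert, Finset.sup_empty]
            simpa using hB (Finset.mem_insert_self _ _)
      have h5 := h4 _ (Finset.Subset.refl _) h3
      rw [Finset.mem_filter] at h5
      refine ⟨⟨_, h5.1⟩, fun Y hY => ⟨fun h6 => ?_, fun h6 h7 => h5.2 (h6 h7)⟩⟩
      exact Finset.le_sup (f := id) (Finset.mem_filter.2 ⟨hY, h6⟩)
    have hneA : Nonempty {X // X ∈ A} := ⟨⟨_, htop⟩⟩
    choose! M hM using hM
    have hcard : ((A.sup id).card : ℕ) ≤ n := by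
      refine le_trans ?_ h2
      have h3 : (A.sup id).card = Nat.card {i // i ∈ A.sup id} := by
        rw [Nat.card_eq_fintype_card, Fintype.card_coe]
      rw [h3]
      have hkey : ∀ i ∈ A.sup id, lat A e (M i) ≠ ⊥ ∧
          Nat.card L ≤ 2 * Nat.card {V : L // lat A e (M i) ≤ V} := by
        intro i hi
        constructor
        · intro h4
          obtain ⟨X, hX⟩ : ∃ X : {X // X ∈ A}, X = ⟨A.sup id, htop⟩ := ⟨_, rfl⟩
          have h5 : lat A e (M i) ≤ lat A e X := by rw [h4]; exact bot_le
          rw [lat_le, hX] at h5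
          have h6 := (hM i hi (M i).1 (M i).2).2 (Finset.Subset.refl _)
          exact h6 (h5 hi)
        · rw [← card_le_lat A e (M i), fam_card A e]
          have h5 := Finset.card_filter_add_card_filter_not (s := A) (fun Y => i ∈ Y)
          have h6 := hno i hi
          have h7 : (A.filter fun Y => i ∉ Y) = (A.filter fun Y => Y ⊆ (M i).1) := by
            apply Finset.filter_congr
            intro Y hY
            exact hM i hi Y hY
          rw [h7] at h5
          omega
      refine Nat.card_le_card_of_injective (fun i => ⟨lat A e (M i.1), hkey i.1 i.2⟩) ?_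
      intro i j hij
      have h4 := lat_inj A e (congrArg Subtype.val hij)
      by_contra hne'
      have hne'' : i.1 ≠ j.1 := fun h => hne' (Subtype.ext h)
      obtain ⟨Y, hY, h5⟩ := hsep i.1 i.2 j.1 j.2 hne''
      have h6 := hM i.1 i.2 Y hY
      have h7 := hM j.1 j.2 Y hY
      rw [h4] at h6
      have h8 : i.1 ∉ Y ↔ j.1 ∉ Y := h6.trans h7.symm
      tauto
    have h4 : A ⊆ (A.sup id).powerset := by
      intro Y hY
      rw [Finset.mem_powerset]
      exact Finset.le_sup (f := id) hY
    apply Finset.eq_of_subset_of_card_le h4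
    rw [Finset.card_powerset, ← fam_card A e, h1]
    exact Nat.pow_le_pow_right (by norm_num) hcard

end fam

end Pool.Agent.R636.FL
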