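import Mathlib

/-!
# The subfields of a finite field form a modular lattice
-/

set_option autoImplicit false

namespace Pool.Agent.R636.FL

theorem mod_sub {G : Type*} [Group G] [IsCyclic G] (A B C : Subgroup G) (h : A ≤ C) :
    (A ⊔ B) ⊓ C ≤ A ⊔ (B ⊓ C) := by
  letI := IsCyclic.commGroup (α := G)
  exact IsModularLattice.sup_inf_le_assoc_of_le B h

theorem int_modular {k F : Type*} [Field k] [Field F] [Finite F] [Algebra k F]
    (K N V : IntermediateField k F) (hKV : K ≤ V) (hKN : K ⊔ N = ⊤) : V ≤ K ⊔ (V ⊓ N) := by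
  have : FiniteDimensional k F := Module.Finite.of_finite
  let e := IsGalois.intermediateFieldEquivSubgroup (F := k) (E := F)
  have h1 := mod_sub (OrderDual.ofDual (e V)) (OrderDual.ofDual (e N)) (OrderDual.ofDual (e K))
    (e.monotone hKV)
  have h2 : OrderDual.ofDual (e N) ⊓ OrderDual.ofDual (e K) = ⊥ := by
    have h3 : e (K ⊔ N) = ⊤ := by rw [hKN, e.map_top]
    rw [e.map_sup] at h3
    have h4 := congrArg OrderDual.ofDual h3
    rw [ofDual_sup] at h4
    rw [inf_comm]
    exact h4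
  rw [h2, sup_bot_eq] at h1
  rw [← e.le_iff_le, e.map_sup, e.map_inf]
  have h5 : OrderDual.ofDual (e K ⊔ e V ⊓ e N) ≤ OrderDual.ofDual (e V) := by
    rw [ofDual_sup, ofDual_inf, inf_comm]
    exact h1
  exact h5

theorem subfield_modular {F : Type*} [Field F] [Finite F] (K N V : Subfield F) (hKV : K ≤ V)
    (hKN : K ⊔ N = ⊤) : V ≤ K ⊔ (V ⊓ N) := by
  have hm : ∀ (E : Subfield F) (x : (⊥ : Subfield F)), algebraMap (⊥ : Subfield F) F x ∈ E :=
    fun E x => (bot_le : (⊥ : Subfield F) ≤ E) x.2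
  let T : Subfield F → IntermediateField (⊥ : Subfield F) F := fun E => E.toIntermediateField (hm E)
  have hT : ∀ (E : Subfield F) (x : F), x ∈ T E ↔ x ∈ E := fun E x => Iff.rfl
  have h1 : T K ≤ T V := fun x hx => hKV hx
  have h2 : T K ⊔ T N = ⊤ := by
    rw [eq_top_iff]
    intro x _
    have h3 : K ⊔ N ≤ (T K ⊔ T N).toSubfield := by
      apply sup_le
      · intro y hy
        exact (le_sup_left : T K ≤ T K ⊔ T N) hy
      · intro y hy
        exact (le_sup_right : T N ≤ T K ⊔ T N) hy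
    rw [hKN] at h3
    exact h3 (show x ∈ (⊤ : Subfield F) from trivial)
  have h3 := int_modular (T K) (T N) (T V) h1 h2
  have h4 : T K ⊔ (T V ⊓ T N) ≤ T (K ⊔ (V ⊓ N)) := by
    apply sup_le
    · intro y hy
      exact (le_sup_left : K ≤ K ⊔ (V ⊓ N)) hy
    · intro y hy
      exact (le_sup_right : (V ⊓ N) ≤ K ⊔ (V ⊓ N)) hy
  intro x hx
  exact h4 (h3 hx)

end Pool.Agent.R636.FL
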