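import Pool.Agent.R636.FNil
import Pool.Agent.R636.FMod
import Pool.Agent.R636.FFam

/-!
# Subalgebra lattices of finite algebras
-/

set_option autoImplicit false
set_option linter.unusedSectionVars false

namespace Pool.Agent.R636.FL

open Matrix Polynomial Pool.Agent.Y396.Frankl

universe u v

theorem inv_mem_of_finite {F : Type*} [Field F] [Finite F] (F₀ : Subring F) {c : F} (hc : c ∈ F₀) :
    c⁻¹ ∈ F₀ := by
  have := Fintype.ofFinite F
  by_cases h0 : c = 0
  · rw [h0, _root_.inv_zero]; exact F₀.zero_mem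
  · have h1 : c ^ (Fintype.card F - 1) = 1 := FiniteField.pow_card_sub_one_eq_one c h0
    have h2 : 2 ≤ Fintype.card F := Fintype.one_lt_card
    have h3 : c⁻¹ = c ^ (Fintype.card F - 2) := by
      have h4 : c ^ (Fintype.card F - 2) * c = 1 := by
        rw [← pow_succ, ← h1]
        congr 1
        omega
      exact (eq_inv_of_mul_eq_one_left h4).symm
    rw [h3]
    exact F₀.pow_mem hc _

variable (S : Type v) [CommRing S] {R : Type u} [NonUnitalRing R] [Module S R]
  [IsScalarTower S R R] [SMulCommClass S R R]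

/-- the scalars act on the matrix ring through a homomorphism into the field -/
theorem exists_phi {n : ℕ} {F : Type*} [Field F]
    (π : R →ₙ+* Matrix (Fin (n + 1)) (Fin (n + 1)) F) (hπ : Function.Surjective π) :
    ∃ φ : S →+* F, ∀ s r, π (s • r) = φ s • π r := by
  obtain ⟨e, he⟩ := hπ 1
  have h1 : ∀ (s : S) (r : R), π (s • r) = π r * π (s • e) := by
    intro s r
    calc π (s • r) = π (s • r) * π e := by rw [he, mul_one]
      _ = π (r * (s • e)) := by rw [← map_mul, smul_mul_assoc, mul_smul_comm]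
      _ = π r * π (s • e) := map_mul _ _ _
  have h2 : ∀ (s : S) (r : R), π (s • r) = π (s • e) * π r := by
    intro s r
    calc π (s • r) = π e * π (s • r) := by rw [he, one_mul]
      _ = π ((s • e) * r) := by rw [← map_mul, mul_smul_comm, smul_mul_assoc]
      _ = π (s • e) * π r := map_mul _ _ _
  have h3 : ∀ s : S, ∃ c : F, π (s • e) = c • (1 : Matrix (Fin (n + 1)) (Fin (n + 1)) F) := by
    intro s
    have h4 : π (s • e) ∈ Set.range (Matrix.scalar (Fin (n + 1))) := by
      apply Matrix.mem_range_scalar_of_commute_single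
      intro i j _
      obtain ⟨r, hr⟩ := hπ (Matrix.single i j 1)
      rw [← hr]
      change π r * π (s • e) = π (s • e) * π r
      rw [← h1, ← h2]
    obtain ⟨c, hc⟩ := h4
    exact ⟨c, by rw [← hc, Matrix.scalar_apply, ← Matrix.diagonal_one, ← Matrix.diagonal_smul]; congr 1; ext; simp⟩
  choose f hf using h3
  have hinj : ∀ c d : F, c • (1 : Matrix (Fin (n + 1)) (Fin (n + 1)) F) = d • 1 → c = d := by
    intro c d h
    have := congrFun (congrFun h 0) 0
    simpa using this
  have h5 : ∀ s r, π (s • r) = f s • π r := by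
    intro s r
    rw [h2, hf, smul_mul_assoc, one_mul]
  refine ⟨{ toFun := f, map_one' := ?_, map_mul' := ?_, map_zero' := ?_, map_add' := ?_ }, h5⟩
  · apply hinj
    rw [← hf, one_smul, he, one_smul]
  · intro s t
    apply hinj
    rw [← hf, mul_smul, h5, hf, smul_smul]
  · apply hinj
    rw [← hf, zero_smul, map_zero, zero_smul]
  · intro s t
    apply hinj
    rw [← hf, add_smul, map_add, hf, hf, add_smul]

section nil

variable {H F : Type*} [Field F] [Finite F] [Ring H] [Algebra F H] (π : R →ₙ+* H) (φ : S →+* F)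
  (hφ : ∀ s r, π (s • r) = φ s • π r)

/-- polynomials with coefficients in the image of the scalars -/
noncomputable def P0 : Subring F[X] := (Polynomial.mapRingHom φ).range

theorem P0_coeff {g : F[X]} (hg : g ∈ P0 S φ) (k : ℕ) : g.coeff k ∈ φ.range := by
  obtain ⟨q, rfl⟩ := hg
  exact ⟨q.coeff k, by simp⟩

theorem P0_C {c : F} (hc : c ∈ φ.range) : C c ∈ P0 S φ := by
  obtain ⟨s, rfl⟩ := hc
  exact ⟨C s, by simp⟩

theorem P0_X : (X : F[X]) ∈ P0 S φ := ⟨X, by simp⟩

include hφ in
theorem struct {a : H} {x : R} (hx : π x = a) {r : R} (hr : r ∈ NonUnitalAlgebra.adjoin S {x}) :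
    ∃ c ∈ φ.range, ∃ g ∈ P0 S φ, π r = aeval a (C c * X + X ^ 2 * g) := by
  induction hr using NonUnitalAlgebra.adjoin_induction with
  | mem y hy =>
    rw [Set.mem_singleton_iff.1 hy]
    exact ⟨1, φ.range.one_mem, 0, (P0 S φ).zero_mem, by simp [hx]⟩
  | add y z _ _ hy hz =>
    obtain ⟨c, hc, g, hg, h⟩ := hy
    obtain ⟨c', hc', g', hg', h'⟩ := hz
    refine ⟨c + c', φ.range.add_mem hc hc', g + g', (P0 S φ).add_mem hg hg', ?_⟩
    rw [map_add, h, h', ← map_add]
    congr 1
    rw [C_add]; ring
  | zero => exact ⟨0, φ.range.zero_mem, 0, (P0 S φ).zero_mem, by simp⟩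
  | mul y z _ _ hy hz =>
    obtain ⟨c, hc, g, hg, h⟩ := hy
    obtain ⟨c', hc', g', hg', h'⟩ := hz
    refine ⟨0, φ.range.zero_mem, (C c + X * g) * (C c' + X * g'), ?_, ?_⟩
    · exact (P0 S φ).mul_mem ((P0 S φ).add_mem (P0_C S φ hc) ((P0 S φ).mul_mem (P0_X S φ) hg))
        ((P0 S φ).add_mem (P0_C S φ hc') ((P0 S φ).mul_mem (P0_X S φ) hg'))
    · rw [map_mul, h, h', ← map_mul]
      congr 1
      rw [C_0]; ring
  | smul s y _ hy =>
    obtain ⟨c, hc, g, hg, h⟩ := hy
    refine ⟨φ s * c, φ.range.mul_mem ⟨s, rfl⟩ hc, C (φ s) * g,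
      (P0 S φ).mul_mem (P0_C S φ ⟨s, rfl⟩) hg, ?_⟩
    rw [hφ, h, ← map_smul]
    congr 1
    rw [smul_eq_C_mul, C_mul]; ring

/-- a nonzero nilpotent element of the image lies in the image of a join-irreducible subalgebra -/
theorem nil_lift [Finite R] (hπ : Function.Surjective π) (hφ : ∀ s r, π (s • r) = φ s • π r)
    {a : H} (ha : IsNilpotent a) (ha0 : a ≠ 0) :
    ∃ J : NonUnitalSubalgebra S R, SupIrred J ∧ ∃ r ∈ J, π r = a := by
  have hfin : Finite (NonUnitalSubalgebra S R) :=
    Finite.of_injective (fun H : NonUnitalSubalgebra S R => (H : Set R)) SetLike.coe_injective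
  obtain ⟨x, hx⟩ := hπ a
  set T := NonUnitalAlgebra.adjoin S {x} with hT
  obtain ⟨J, hJ, hJs⟩ := exists_minimal_not_le (L := NonUnitalSubalgebra S R)
    (fun U => U ≤ T ∧ ∃ r ∈ U, π r = a)
    ⟨T, le_refl _, x, NonUnitalAlgebra.subset_adjoin S (by simp), hx⟩
    (by
      rintro ⟨-, r, hr, hra⟩
      have h1 : r = 0 := NonUnitalAlgebra.mem_bot.1 hr
      rw [h1, map_zero] at hra
      exact ha0 hra.symm)
    (by
      intro A B hA hB hAB
      have hAT : A ≤ T := le_sup_left.trans hAB.1
      have hBT : B ≤ T := le_sup_right.trans hAB.1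
      have key : ∀ U : NonUnitalSubalgebra S R, U ≤ T → (¬ ∃ r ∈ U, π r = a) → ∀ r ∈ U,
          ∃ g ∈ P0 S φ, π r = aeval a (X ^ 2 * g) := by
        intro U hU hno r hr
        obtain ⟨c, hc, g, hg, h⟩ := struct S π φ hφ hx (hU hr)
        by_cases hc0 : c = 0
        · exact ⟨g, hg, by rw [h, hc0, C_0, zero_mul, zero_add]⟩
        · exfalso
          apply hno
          let Y : AddSubgroup H :=
            { carrier := {h | ∃ r ∈ U, π r = h}
              add_mem' := by
                rintro _ _ ⟨p, hp, rfl⟩ ⟨q, hq, rfl⟩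
                exact ⟨p + q, U.add_mem hp hq, map_add _ _ _⟩
              zero_mem' := ⟨0, U.zero_mem, map_zero _⟩
              neg_mem' := by
                rintro _ ⟨p, hp, rfl⟩
                exact ⟨-p, neg_mem hp, map_neg _ _⟩ }
          have hinv := inv_mem_of_finite φ.range hc
          have h1 : a ∈ Y := by
            refine nil_gen (F₀ := φ.range) Y ?_ ?_ ha (-(C c⁻¹ * g)) ?_ ?_
            · rintro _ ⟨p, hp, rfl⟩ _ ⟨q, hq, rfl⟩
              exact ⟨p * q, U.mul_mem hp hq, map_mul _ _ _⟩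
            · rintro _ ⟨s, rfl⟩ _ ⟨q, hq, rfl⟩
              exact ⟨s • q, SMulMemClass.smul_mem s hq, hφ _ _⟩
            · intro k
              exact P0_coeff S φ ((P0 S φ).neg_mem ((P0 S φ).mul_mem (P0_C S φ hinv) hg)) k
            · obtain ⟨s, hs⟩ := hinv
              refine ⟨s • r, SMulMemClass.smul_mem s hr, ?_⟩
              rw [hφ, h, hs, ← map_smul]
              have h2 : a - a ^ 2 * aeval a (-(C c⁻¹ * g)) = aeval a (X - X ^ 2 * (-(C c⁻¹ * g))) := by
                simp
              rw [h2]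
              congr 1
              have h3 : C c⁻¹ * C c = (1 : F[X]) := by
                rw [← C_mul, inv_mul_cancel₀ hc0, C_1]
              rw [smul_eq_C_mul]
              linear_combination X * h3
          exact h1
      let W : NonUnitalSubalgebra S R :=
        { carrier := {r | ∃ g ∈ P0 S φ, π r = aeval a (X ^ 2 * g)}
          add_mem' := by
            rintro p q ⟨g, hg, h⟩ ⟨g', hg', h'⟩
            refine ⟨g + g', (P0 S φ).add_mem hg hg', ?_⟩
            rw [map_add, h, h', ← map_add]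
            congr 1
            ring
          zero_mem' := ⟨0, (P0 S φ).zero_mem, by simp⟩
          mul_mem' := by
            rintro p q ⟨g, hg, h⟩ ⟨g', hg', h'⟩
            refine ⟨g * (X ^ 2 * g'), (P0 S φ).mul_mem hg ((P0 S φ).mul_mem
              ((P0 S φ).pow_mem (P0_X S φ) 2) hg'), ?_⟩
            rw [map_mul, h, h', ← map_mul]
            congr 1
            ring
          smul_mem' := by
            rintro s p ⟨g, hg, h⟩
            refine ⟨C (φ s) * g, (P0 S φ).mul_mem (P0_C S φ ⟨s, rfl⟩) hg, ?_⟩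
            rw [hφ, h, ← map_smul]
            congr 1
            rw [smul_eq_C_mul]; ring }
      have hAW : A ≤ W := fun r hr => key A hAT (fun h => hA ⟨hAT, h⟩) r hr
      have hBW : B ≤ W := fun r hr => key B hBT (fun h => hB ⟨hBT, h⟩) r hr
      obtain ⟨r, hr, hra⟩ := hAB.2
      obtain ⟨g, -, hg⟩ := (sup_le hAW hBW) hr
      rw [hra] at hg
      have h1 : a * (1 - aeval a (X * g)) = 0 := by
        have h3 : a * (1 - aeval a (X * g)) = a - aeval a (X ^ 2 * g) := by
          simp only [map_mul, map_pow, aeval_X]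
          noncomm_ring
        rw [h3, ← hg, sub_self]
      have h2 : IsNilpotent (aeval a (X * g)) := by
        obtain ⟨m, hm⟩ := ha
        refine ⟨m, ?_⟩
        rw [← map_pow, mul_pow, map_mul, map_pow, aeval_X, hm, zero_mul]
      have h3 := h2.isUnit_one_sub
      exact ha0 (h3.mul_left_eq_zero.1 h1))
  exact ⟨J, hJs, hJ.2⟩

end nil

end Pool.Agent.R636.FL
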