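import Pool.Agent.R636.FAlg

/-!
# Subalgebra lattices of finite algebras, the two kinds of quotients
-/

set_option autoImplicit false
set_option linter.unusedSectionVars false

namespace Pool.Agent.R636.FL

open Pool.Agent.Y396.Frankl

universe u v

theorem finSub (S : Type v) [CommRing S] (R : Type u) [NonUnitalRing R] [Module S R] [Finite R] :
    Finite (NonUnitalSubalgebra S R) :=
  Finite.of_injective (fun H : NonUnitalSubalgebra S R => (H : Set R)) SetLike.coe_injective

variable (S : Type v) [CommRing S] {R : Type u} [NonUnitalRing R] [Module S R]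
  [IsScalarTower S R R] [SMulCommClass S R R] [Finite R]

/-- a quotient that is a matrix ring of degree at least two -/
theorem matrix_case {n : ℕ} (hn : 1 ≤ n) {F : Type*} [Field F] [Finite F]
    (π : R →ₙ+* Matrix (Fin (n + 1)) (Fin (n + 1)) F) (hπ : Function.Surjective π) :
    Strong (NonUnitalSubalgebra S R) := by
  classical
  have := finSub S R
  obtain ⟨φ, hφ⟩ := exists_phi S π hπ
  obtain ⟨a, b, ha, hb, ⟨i₁, j₁, hij₁, ha'⟩, ⟨i₂, j₂, hij₂, hb'⟩, hgen⟩ := nil_mat_gen hn (F := F)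
  have ha0 : a ≠ 0 := by rintro rfl; exact ha' rfl
  have hb0 : b ≠ 0 := by rintro rfl; exact hb' rfl
  obtain ⟨J₁, hJ₁, r₁, hr₁, hra⟩ := nil_lift S π φ hπ hφ ha ha0
  obtain ⟨J₂, hJ₂, r₂, hr₂, hrb⟩ := nil_lift S π φ hπ hφ hb hb0
  let M : NonUnitalSubalgebra S R :=
    { carrier := {x | π x = 0}
      add_mem' := fun {x y} hx hy => by
        change π (x + y) = 0
        rw [map_add, (hx : π x = 0), (hy : π y = 0), add_zero]
      zero_mem' := map_zero π
      smul_mem' := fun s {x} hx => by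
        change π (s • x) = 0
        rw [hφ, (hx : π x = 0), smul_zero]
      mul_mem' := fun {x y} hx hy => by
        change π (x * y) = 0
        rw [map_mul, (hx : π x = 0), zero_mul] }
  let D : NonUnitalSubalgebra S R :=
    { carrier := {x | ∀ i j, i ≠ j → π x i j = 0}
      add_mem' := fun {x y} hx hy i j hij => by
        rw [map_add, Matrix.add_apply, hx i j hij, hy i j hij, add_zero]
      zero_mem' := fun i j _ => by rw [map_zero]; rfl
      smul_mem' := fun s {x} hx i j hij => by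
        rw [hφ, Matrix.smul_apply, hx i j hij, smul_zero]
      mul_mem' := fun {x y} hx hy i j hij => by
        rw [map_mul, Matrix.mul_apply]
        apply Finset.sum_eq_zero
        intro k _
        by_cases hk : i = k
        · rw [← hk, hy i j hij, mul_zero]
        · rw [hx i k hk, zero_mul] }
  have hJ₁M : ¬ J₁ ≤ M := fun h => ha0 (by rw [← hra]; exact h hr₁)
  have hJ₂M : ¬ J₂ ≤ M := fun h => hb0 (by rw [← hrb]; exact h hr₂)
  have hJ₁D : ¬ J₁ ≤ D := fun h => ha' (by rw [← hra]; exact h hr₁ i₁ j₁ hij₁)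
  have hJ₂D : ¬ J₂ ≤ D := fun h => hb' (by rw [← hrb]; exact h hr₂ i₂ j₂ hij₂)
  -- every element is congruent to one of `J₁ ⊔ J₂`
  have hcong : ∀ x : R, ∃ w ∈ J₁ ⊔ J₂, π x = π w := by
    intro x
    have h3 : NonUnitalSubring.closure {a, b} ≤
        ((J₁ ⊔ J₂).toNonUnitalSubring).map π := by
      rw [NonUnitalSubring.closure_le]
      rintro y (rfl | rfl)
      · exact ⟨r₁, (le_sup_left : J₁ ≤ J₁ ⊔ J₂) hr₁, hra⟩
      · exact ⟨r₂, (le_sup_right : J₂ ≤ J₁ ⊔ J₂) hr₂, hrb⟩
    rw [hgen] at h3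
    obtain ⟨w, hw, hwx⟩ := h3 (show π x ∈ (⊤ : NonUnitalSubring _) from trivial)
    exact ⟨w, hw, hwx.symm⟩
  have key : ∀ H K : NonUnitalSubalgebra S R, J₁ ≤ H → J₂ ≤ H → J₁ ≤ K → J₂ ≤ K →
      H ⊓ M ≤ K → H ≤ K := by
    intro H K h1 h2 h3 h4 h5 x hx
    obtain ⟨w, hw, hxw⟩ := hcong x
    have h6 : w ∈ H := (sup_le h1 h2) hw
    have h7 : w ∈ K := (sup_le h3 h4) hw
    have h8 : x - w ∈ K := h5 ⟨sub_mem hx h6, show π (x - w) = 0 by rw [map_sub, hxw, sub_self]⟩
    have h9 := K.add_mem h8 h7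
    rwa [sub_add_cancel] at h9
  rcases crit_card_lt (𝓗 := NonUnitalSubalgebra S R) (fun H => J₁ ≤ H) (fun H => J₂ ≤ H)
    (fun H => H ⊓ M) (by
      intro H K h1 h2 h3 h4 h
      have h' : H ⊓ M = K ⊓ M := h
      exact le_antisymm (key H K h1 h2 h3 h4 (by rw [h']; exact inf_le_left))
        (key K H h3 h4 h1 h2 (by rw [← h']; exact inf_le_left))) (by
      intro H _ _
      exact ⟨fun h => hJ₁M (h.trans inf_le_right), fun h => hJ₂M (h.trans inf_le_right)⟩)
    ⟨D, hJ₁D, hJ₂D, fun H _ _ h => by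
      obtain ⟨e, he⟩ := hπ 1
      have h1 : e ∈ D := fun i j hij => by rw [he, Matrix.one_apply_ne hij]
      have h' : H ⊓ M = D := h
      rw [← h'] at h1
      have h2 : π e = 0 := h1.2
      rw [he] at h2
      have h3 := congrFun (congrFun h2 0) 0
      simp at h3⟩ with h | h
  · exact ⟨J₁, hJ₁, h⟩
  · exact ⟨J₂, hJ₂, h⟩

/-- a maximal subalgebra modulo which every other subalgebra is everything -/
theorem ideal_case (M : NonUnitalSubalgebra S R) (hM : M ≠ ⊤)
    (h : ∀ J : NonUnitalSubalgebra S R, ¬ J ≤ M → ∀ x, ∃ j ∈ J, x - j ∈ M)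
    (hG : Good (Set.Iic M)) : Good (NonUnitalSubalgebra S R) := by
  have := finSub S R
  obtain ⟨J, hJ, hJs⟩ := exists_minimal_not_le (L := NonUnitalSubalgebra S R)
    (fun U => ¬ U ≤ M) ⟨⊤, fun h => hM (top_le_iff.1 h)⟩ (fun h => h bot_le)
    (fun A B hA hB hAB => hAB (sup_le (not_not.1 hA) (not_not.1 hB)))
  have h1 : ∀ U, J ≤ U → J ⊔ (U ⊓ M) = U := by
    intro U hU
    apply le_antisymm (sup_le hU inf_le_left)
    intro x hx
    obtain ⟨j, hj, hxj⟩ := h J hJ x
    have h2 : x - j ∈ U ⊓ M := ⟨sub_mem hx (hU hj), hxj⟩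
    have h3 := (J ⊔ (U ⊓ M)).add_mem ((le_sup_right : U ⊓ M ≤ J ⊔ (U ⊓ M)) h2)
      ((le_sup_left : J ≤ J ⊔ (U ⊓ M)) hj)
    rwa [sub_add_cancel] at h3
  rcases one_crit hJ h1 with h2 | h2
  · exact good_of_split hJ h1 h2 hG
  · exact Or.inl ⟨J, hJs, h2⟩

/-- a quotient that is a field -/
theorem field_case {F : Type*} [Field F] [Finite F] (π : R →ₙ+* F) (hπ : Function.Surjective π)
    (φ : S →+* F) (hφ : ∀ s r, π (s • r) = φ s • π r)
    (hG : ∀ M : NonUnitalSubalgebra S R, M ≠ ⊤ → Good (Set.Iic M)) :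
    Good (NonUnitalSubalgebra S R) := by
  classical
  have := finSub S R
  let M : NonUnitalSubalgebra S R :=
    { carrier := {x | π x = 0}
      add_mem' := fun {x y} hx hy => by
        change π (x + y) = 0
        rw [map_add, (hx : π x = 0), (hy : π y = 0), add_zero]
      zero_mem' := map_zero π
      smul_mem' := fun s {x} hx => by
        change π (s • x) = 0
        rw [hφ, (hx : π x = 0), smul_zero]
      mul_mem' := fun {x y} hx hy => by
        change π (x * y) = 0
        rw [map_mul, (hx : π x = 0), zero_mul] }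
  have hM : M ≠ ⊤ := by
    intro h
    obtain ⟨e, he⟩ := hπ 1
    have h1 : e ∈ M := by rw [h]; trivial
    have h2 : π e = 0 := h1
    rw [he] at h2
    exact one_ne_zero h2
  have hMi : ∀ {x y : R}, π (x - y) = 0 ↔ π x = π y := by
    intro x y
    rw [map_sub, sub_eq_zero]
  -- the subfields that come from the subalgebras not contained in the kernel
  have hpow : ∀ (U : NonUnitalSubalgebra S R) (r : R), r ∈ U → ∀ k : ℕ, ∃ t ∈ U,
      π t = π r ^ (k + 1) := by
    intro U r hr k
    induction k with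
    | zero => exact ⟨r, hr, by rw [zero_add, pow_one]⟩
    | succ k ih =>
      obtain ⟨t, ht, ht'⟩ := ih
      exact ⟨t * r, U.mul_mem ht hr, by rw [map_mul, ht', ← pow_succ]⟩
  have hF := Fintype.ofFinite F
  have hone : ∀ U : NonUnitalSubalgebra S R, ¬ U ≤ M → ∃ t ∈ U, π t = 1 := by
    intro U hU
    obtain ⟨r, hr, hr0⟩ : ∃ r ∈ U, π r ≠ 0 := by
      by_contra hno
      push Not at hno
      exact hU (fun r hr => hno r hr)
    obtain ⟨t, ht, ht'⟩ := hpow U r hr (Fintype.card F - 2)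
    refine ⟨t, ht, ?_⟩
    rw [ht']
    have h2 : 2 ≤ Fintype.card F := Fintype.one_lt_card
    have h3 : Fintype.card F - 2 + 1 = Fintype.card F - 1 := by omega
    rw [h3]
    exact FiniteField.pow_card_sub_one_eq_one _ hr0
  let sf : ∀ U : NonUnitalSubalgebra S R, ¬ U ≤ M → Subfield F := fun U hU =>
    { carrier := {f | ∃ r ∈ U, π r = f}
      mul_mem' := by
        rintro _ _ ⟨p, hp, rfl⟩ ⟨q, hq, rfl⟩
        exact ⟨p * q, U.mul_mem hp hq, map_mul _ _ _⟩
      one_mem' := hone U hU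
      add_mem' := by
        rintro _ _ ⟨p, hp, rfl⟩ ⟨q, hq, rfl⟩
        exact ⟨p + q, U.add_mem hp hq, map_add _ _ _⟩
      zero_mem' := ⟨0, U.zero_mem, map_zero _⟩
      neg_mem' := by
        rintro _ ⟨p, hp, rfl⟩
        exact ⟨-p, neg_mem hp, map_neg _ _⟩
      inv_mem' := by
        rintro _ ⟨p, hp, rfl⟩
        by_cases h0 : π p = 0
        · exact ⟨0, U.zero_mem, by rw [h0, inv_zero, map_zero]⟩
        · have h2 : 2 ≤ Fintype.card F := Fintype.one_lt_card
          by_cases h3 : Fintype.card F = 2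
          · have h4 : π p ^ (Fintype.card F - 1) = 1 := FiniteField.pow_card_sub_one_eq_one _ h0
            rw [h3] at h4
            have h5 : π p = 1 := by simpa using h4
            exact ⟨p, hp, by rw [h5, inv_one]⟩
          · obtain ⟨t, ht, ht'⟩ := hpow U p hp (Fintype.card F - 3)
            refine ⟨t, ht, ?_⟩
            rw [ht']
            apply eq_inv_of_mul_eq_one_left
            rw [← pow_succ]
            have h6 : Fintype.card F - 3 + 1 + 1 = Fintype.card F - 1 := by omega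
            rw [h6]
            exact FiniteField.pow_card_sub_one_eq_one _ h0 }
  have hsf : ∀ (U : NonUnitalSubalgebra S R) (hU : ¬ U ≤ M) (f : F),
      f ∈ sf U hU ↔ ∃ r ∈ U, π r = f := fun U hU f => Iff.rfl
  obtain ⟨N, hN, hMN⟩ := (eq_top_or_exists_le_coatom M).resolve_left hM
  by_cases hNM : N ≤ M
  · -- the kernel is maximal
    have hNeq : N = M := le_antisymm hNM hMN
    refine ideal_case S M hM ?_ (hG M hM)
    intro J hJ x
    let W : NonUnitalSubalgebra S R :=
      { carrier := {r | ∃ j ∈ J, r - j ∈ M}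
        add_mem' := by
          rintro p q ⟨i, hi, h1⟩ ⟨j, hj, h2⟩
          refine ⟨i + j, J.add_mem hi hj, ?_⟩
          have := M.add_mem h1 h2
          rwa [show p + q - (i + j) = p - i + (q - j) by abel]
        zero_mem' := ⟨0, J.zero_mem, by rw [sub_zero]; exact M.zero_mem⟩
        mul_mem' := by
          rintro p q ⟨i, hi, h1⟩ ⟨j, hj, h2⟩
          refine ⟨i * j, J.mul_mem hi hj, hMi.2 ?_⟩
          rw [map_mul, map_mul, hMi.1 h1, hMi.1 h2]
        smul_mem' := by
          rintro s p ⟨i, hi, h1⟩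
          refine ⟨s • i, SMulMemClass.smul_mem s hi, ?_⟩
          rw [← smul_sub]
          exact SMulMemClass.smul_mem s h1 }
    have h1 : M ≤ W := fun r hr => ⟨0, J.zero_mem, by rwa [sub_zero]⟩
    have h2 : J ≤ W := fun r hr => ⟨r, hr, by rw [sub_self]; exact M.zero_mem⟩
    have h3 : W = ⊤ := by
      rw [hNeq] at hN
      apply hN.2
      exact lt_of_le_of_ne h1 (fun h => hJ (by rw [h]; exact h2))
    have h4 : x ∈ W := by rw [h3]; trivial
    exact h4
  · -- the kernel is not maximal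
    obtain ⟨J, hJ, hJs⟩ := exists_minimal_not_le (L := NonUnitalSubalgebra S R)
      (fun U => ¬ U ≤ N) ⟨⊤, fun h => hN.1 (top_le_iff.1 h)⟩ (fun h => h bot_le)
      (fun A B hA hB hAB => hAB (sup_le (not_not.1 hA) (not_not.1 hB)))
    have hJM : ¬ J ≤ M := fun h => hJ (h.trans hMN)
    have hJN : J ⊔ N = ⊤ := by
      apply hN.2
      exact lt_of_le_of_ne le_sup_right (fun h => hJ (by rw [h]; exact le_sup_left))
    have hsup : sf J hJM ⊔ sf N hNM = ⊤ := by
      have hφK : ∀ s, φ s ∈ sf J hJM := by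
        intro s
        obtain ⟨t, ht, ht1⟩ := hone J hJM
        exact ⟨s • t, SMulMemClass.smul_mem s ht, by rw [hφ, ht1, smul_eq_mul, mul_one]⟩
      let W : NonUnitalSubalgebra S R :=
        { carrier := {r | π r ∈ sf J hJM ⊔ sf N hNM}
          add_mem' := by
            intro p q hp hq
            change π (p + q) ∈ sf J hJM ⊔ sf N hNM
            rw [map_add]
            exact add_mem hp hq
          zero_mem' := by
            change π 0 ∈ sf J hJM ⊔ sf N hNM
            rw [map_zero]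
            exact zero_mem _
          mul_mem' := by
            intro p q hp hq
            change π (p * q) ∈ sf J hJM ⊔ sf N hNM
            rw [map_mul]
            exact mul_mem hp hq
          smul_mem' := by
            intro s p hp
            change π (s • p) ∈ sf J hJM ⊔ sf N hNM
            rw [hφ, smul_eq_mul]
            exact mul_mem ((le_sup_left : sf J hJM ≤ sf J hJM ⊔ sf N hNM) (hφK s)) hp }
      have h1 : J ≤ W := fun r hr =>
        (le_sup_left : sf J hJM ≤ sf J hJM ⊔ sf N hNM) ⟨r, hr, rfl⟩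
      have h2 : N ≤ W := fun r hr =>
        (le_sup_right : sf N hNM ≤ sf J hJM ⊔ sf N hNM) ⟨r, hr, rfl⟩
      have h3 : W = ⊤ := by
        rw [eq_top_iff, ← hJN]
        exact sup_le h1 h2
      rw [eq_top_iff]
      intro f _
      obtain ⟨r, rfl⟩ := hπ f
      have h4 : r ∈ W := by rw [h3]; trivial
      exact h4
    have h1 : ∀ U, J ≤ U → J ⊔ (U ⊓ N) = U := by
      intro U hU
      apply le_antisymm (sup_le hU inf_le_left)
      intro x hx
      have hUM : ¬ U ≤ M := fun h => hJM (hU.trans h)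
      have hEM : ¬ (J ⊔ (U ⊓ N)) ≤ M := fun h => hJM (le_sup_left.trans h)
      have h2 := subfield_modular (sf J hJM) (sf N hNM) (sf U hUM)
        (by rintro f ⟨r, hr, rfl⟩; exact ⟨r, hU hr, rfl⟩) hsup
      have h3 : sf J hJM ⊔ (sf U hUM ⊓ sf N hNM) ≤ sf (J ⊔ (U ⊓ N)) hEM := by
        apply sup_le
        · rintro f ⟨r, hr, rfl⟩
          exact ⟨r, (le_sup_left : J ≤ J ⊔ (U ⊓ N)) hr, rfl⟩
        · rintro f ⟨⟨u, hu, rfl⟩, ⟨m, hm, hmu⟩⟩
          have h4 : u - m ∈ N := hMN (hMi.2 hmu.symm)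
          have h5 : u ∈ N := by
            have := N.add_mem h4 hm
            rwa [sub_add_cancel] at this
          exact ⟨u, (le_sup_right : U ⊓ N ≤ J ⊔ (U ⊓ N)) ⟨hu, h5⟩, rfl⟩
      obtain ⟨w, hw, hwx⟩ := h3 (h2 ⟨x, hx, rfl⟩)
      have h4 : w ∈ U := (sup_le hU inf_le_left : J ⊔ (U ⊓ N) ≤ U) hw
      have h5 : x - w ∈ U ⊓ N := ⟨sub_mem hx h4, hMN (hMi.2 hwx.symm)⟩
      have h6 := (J ⊔ (U ⊓ N)).add_mem ((le_sup_right : U ⊓ N ≤ J ⊔ (U ⊓ N)) h5) hw
      rwa [sub_add_cancel] at h6
    rcases one_crit hJ h1 with h2 | h2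
    · exfalso
      rcases h2 M with h3 | ⟨-, h3⟩
      · exact hJM h3
      · obtain ⟨j, hj, hj1⟩ := hone J hJM
        obtain ⟨m, hm, hm1⟩ := hone N hNM
        have h4 : m - j ∈ M := hMi.2 (by rw [hm1, hj1])
        have h5 : m ∈ J ⊔ M := by
          have := (J ⊔ M).add_mem ((le_sup_right : M ≤ J ⊔ M) h4) ((le_sup_left : J ≤ J ⊔ M) hj)
          rwa [sub_add_cancel] at this
        have h6 : m ∈ (J ⊔ M) ⊓ N := ⟨h5, hm⟩
        rw [h3] at h6
        have h7 : π m = 0 := h6
        rw [hm1] at h7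
        exact one_ne_zero h7
    · exact Or.inl ⟨J, hJs, h2⟩

end Pool.Agent.R636.FL
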