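import Pool.Agent.R636.FAlg2

/-!
# Subalgebra lattices of finite algebras, conclusion
-/

set_option autoImplicit false
set_option linter.unusedSectionVars false

namespace Pool.Agent.R636.FL

open Pool.Agent.Y396.Frankl

universe u v

variable (S : Type v) [CommRing S]

/-- the subalgebras of a subalgebra are the subalgebras contained in it -/
def subIso {R : Type u} [NonUnitalRing R] [Module S R]
    [IsScalarTower S R R] [SMulCommClass S R R] (M : NonUnitalSubalgebra S R) :
    NonUnitalSubalgebra S M ≃o Set.Iic M where
  toFun V := ⟨{ carrier := {r | ∃ h : r ∈ M, (⟨r, h⟩ : M) ∈ V}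
                add_mem' := by
                  rintro p q ⟨h1, h2⟩ ⟨h3, h4⟩
                  exact ⟨M.add_mem h1 h3, V.add_mem h2 h4⟩
                zero_mem' := ⟨M.zero_mem, V.zero_mem⟩
                mul_mem' := by
                  rintro p q ⟨h1, h2⟩ ⟨h3, h4⟩
                  exact ⟨M.mul_mem h1 h3, V.mul_mem h2 h4⟩
                smul_mem' := by
                  rintro s p ⟨h1, h2⟩
                  exact ⟨SMulMemClass.smul_mem s h1, SMulMemClass.smul_mem s h2⟩ },
    fun r hr => hr.1⟩
  invFun U :=
    { carrier := {r | r.1 ∈ U.1}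
      add_mem' := fun {p q} hp hq => U.1.add_mem hp hq
      zero_mem' := U.1.zero_mem
      mul_mem' := fun {p q} hp hq => U.1.mul_mem hp hq
      smul_mem' := fun s {p} hp => by
        change s • p.1 ∈ U.1
        exact SMulMemClass.smul_mem s hp }
  left_inv V := by
    ext ⟨r, hr⟩
    exact ⟨fun h => h.2, fun h => ⟨hr, h⟩⟩
  right_inv U := by
    apply Subtype.ext
    ext r
    exact ⟨fun h => h.2, fun h => ⟨U.2 h, h⟩⟩
  map_rel_iff' := by
    intro V W
    constructor
    · intro h r hr
      exact (h (show r.1 ∈ _ from ⟨r.2, hr⟩)).2
    · rintro h r ⟨h1, h2⟩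
      exact ⟨h1, h h2⟩

theorem good_all (n : ℕ) : ∀ (R : Type u) [NonUnitalRing R] [Module S R]
    [IsScalarTower S R R] [SMulCommClass S R R] [Finite R], Nat.card R ≤ n →
    Good (NonUnitalSubalgebra S R) := by
  induction n with
  | zero =>
    intro R _ _ _ _ _ h
    have : 0 < Nat.card R := Nat.card_pos
    omega
  | succ n ih =>
    intro R _ _ _ _ _ h
    have hfin := finSub S R
    by_cases hR : Subsingleton R
    · exact good_of_subsingleton
    have hR' : Nontrivial R := not_subsingleton_iff_nontrivial.1 hR
    have hG : ∀ M : NonUnitalSubalgebra S R, M ≠ ⊤ → Good (Set.Iic M) := by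
      intro M hM
      refine (ih M ?_).congr (subIso S M)
      have h1 : Nat.card M < Nat.card R := by
        have h2 : (M : Set R) ≠ Set.univ := by
          intro h3
          apply hM
          ext x
          have : x ∈ (M : Set R) := by rw [h3]; trivial
          exact ⟨fun _ => trivial, fun _ => this⟩
        have h3 := Set.ncard_lt_ncard (Set.ssubset_univ_iff.2 h2) (Set.toFinite _)
        rw [Set.ncard_univ] at h3
        exact h3
      omega
    by_cases h2 : AddSubgroup.closure {z : R | ∃ x y, x * y = z} = ⊤
    · obtain ⟨m, hm, F, _, _, π, hπ⟩ := exists_onto h2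
      obtain ⟨k, rfl⟩ := Nat.exists_eq_succ_of_ne_zero (NeZero.ne m)
      by_cases hk : 1 ≤ k
      · exact Or.inl (matrix_case S hk π hπ)
      · have hk0 : k = 0 := by omega
        subst hk0
        obtain ⟨φ, hφ⟩ := exists_phi S π hπ
        let ρ : R →ₙ+* F :=
          { toFun := fun r => π r 0 0
            map_mul' := fun x y => by rw [map_mul, Matrix.mul_apply]; simp
            map_zero' := by rw [map_zero]; rfl
            map_add' := fun x y => by rw [map_add]; rfl }
        refine field_case S ρ ?_ φ ?_ hG
        · intro f
          obtain ⟨r, hr⟩ := hπ (Matrix.of fun _ _ => f)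
          exact ⟨r, by change π r 0 0 = f; rw [hr]; rfl⟩
        · intro s r
          change π (s • r) 0 0 = φ s • π r 0 0
          rw [hφ]; rfl
    · let N : Submodule S R :=
        { AddSubgroup.closure {z : R | ∃ x y, x * y = z} with
          smul_mem' := fun s {x} hx => smul_mem_products S s x hx }
      have hN : N ≠ ⊤ := by
        intro h
        apply h2
        rw [AddSubgroup.eq_top_iff']
        intro x
        have : x ∈ N := by rw [h]; trivial
        exact this
      have hfinS : Finite (Submodule S R) :=
        Finite.of_injective (fun H : Submodule S R => (H : Set R)) SetLike.coe_injective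
      obtain ⟨P, hP, hNP⟩ := (eq_top_or_exists_le_coatom N).resolve_left hN
      let M : NonUnitalSubalgebra S R :=
        { P with
          mul_mem' := fun {x y} _ _ => hNP (AddSubgroup.subset_closure ⟨x, y, rfl⟩ :
            x * y ∈ AddSubgroup.closure {z : R | ∃ x y, x * y = z}) }
      have hMP : ∀ x, x ∈ M ↔ x ∈ P := fun x => Iff.rfl
      have hM : M ≠ ⊤ := by
        intro h
        apply hP.1
        rw [Submodule.eq_top_iff']
        intro x
        have : x ∈ M := by rw [h]; trivial
        exact this
      refine ideal_case S M hM ?_ (hG M hM)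
      intro J hJ x
      have h3 : J.toSubmodule ⊔ P = ⊤ := by
        apply hP.2
        refine lt_of_le_of_ne le_sup_right (fun h => hJ (fun r hr => ?_))
        rw [hMP, h]
        exact (le_sup_left : J.toSubmodule ≤ J.toSubmodule ⊔ P) hr
      have h4 : x ∈ J.toSubmodule ⊔ P := by rw [h3]; trivial
      obtain ⟨j, hj, p, hp, rfl⟩ := Submodule.mem_sup.1 h4
      exact ⟨j, hj, by rw [hMP, add_sub_cancel_left]; exact hp⟩

theorem good_alg (R : Type u) [NonUnitalRing R] [Module S R]
    [IsScalarTower S R R] [SMulCommClass S R R] [Finite R] : Good (NonUnitalSubalgebra S R) :=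
  good_all S (Nat.card R) R le_rfl

/-- subrings are subalgebras over the integers -/
def subringIso (R : Type u) [NonUnitalRing R] : NonUnitalSubalgebra ℤ R ≃o NonUnitalSubring R where
  toEquiv := (subringEquiv R).symm
  map_rel_iff' := by
    intro V W
    exact Iff.rfl

theorem good_ring (R : Type u) [NonUnitalRing R] [Finite R] : Good (NonUnitalSubring R) :=
  (good_alg ℤ R).congr (subringIso R)

end Pool.Agent.R636.FL
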