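import Mathlib

/-!
# Join-irreducible elements below few members of a finite lattice

Abstract part of the lattice form of the union-closed sets conjecture for subring lattices.
-/

set_option autoImplicit false

namespace Pool.Agent.R636.FL

/-- some join-irreducible element lies below less than half of the elements -/
def Strong (L : Type*) [Lattice L] : Prop :=
  ∃ J : L, SupIrred J ∧ 2 * Nat.card {U : L // J ≤ U} < Nat.card L

/-- as for a Boolean lattice: `2 ^ n` elements and at most `n` nonzero elements lie below at least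
half of the elements -/
def BoolLike (L : Type*) [Lattice L] [OrderBot L] : Prop :=
  ∃ n : ℕ, Nat.card L = 2 ^ n ∧
    Nat.card {U : L // U ≠ ⊥ ∧ Nat.card L ≤ 2 * Nat.card {V : L // U ≤ V}} ≤ n

/-- some join-irreducible element lies below at most half of the elements -/
def Weak (L : Type*) [Lattice L] : Prop :=
  ∃ J : L, SupIrred J ∧ 2 * Nat.card {U : L // J ≤ U} ≤ Nat.card L

def Good (L : Type*) [Lattice L] [OrderBot L] : Prop :=
  Strong L ∨ (BoolLike L ∧ (Nontrivial L → Weak L))

theorem Good.weak {L : Type*} [Lattice L] [OrderBot L] [Nontrivial L] (h : Good L) : Weak L := by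
  rcases h with ⟨J, hJ, h⟩ | ⟨-, h⟩
  · exact ⟨J, hJ, h.le⟩
  · exact h inferInstance

theorem supIrred_map {L K : Type*} [Lattice L] [Lattice K] (e : L ≃o K) {J : L}
    (h : SupIrred J) : SupIrred (e J) := by
  refine ⟨fun hmin => h.1 ?_, ?_⟩
  · intro b hb
    have := hmin (e.monotone hb)
    exact e.le_iff_le.1 this
  · intro b c hbc
    have h1 : e.symm b ⊔ e.symm c = J := by
      rw [← e.symm.map_sup, hbc, e.symm_apply_apply]
    rcases h.2 h1 with h2 | h2
    · left; rw [← h2, e.apply_symm_apply]
    · right; rw [← h2, e.apply_symm_apply]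

theorem card_ge_map {L K : Type*} [Lattice L] [Lattice K] (e : L ≃o K) (J : L) :
    Nat.card {U : L // J ≤ U} = Nat.card {U : K // e J ≤ U} := by
  refine Nat.card_congr ⟨fun U => ⟨e U.1, e.monotone U.2⟩,
    fun U => ⟨e.symm U.1, by rw [← e.le_iff_le, e.apply_symm_apply]; exact U.2⟩, ?_, ?_⟩
  · intro U; simp
  · intro U; simp

theorem Strong.congr {L K : Type*} [Lattice L] [Lattice K] (e : L ≃o K) (h : Strong L) :
    Strong K := by
  obtain ⟨J, hJ, hc⟩ := h
  refine ⟨e J, supIrred_map e hJ, ?_⟩
  rw [← card_ge_map e J, ← Nat.card_congr e.toEquiv]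
  exact hc

theorem BoolLike.congr {L K : Type*} [Lattice L] [Lattice K] [OrderBot L] [OrderBot K]
    (e : L ≃o K) (h : BoolLike L) : BoolLike K := by
  obtain ⟨n, h1, h2⟩ := h
  refine ⟨n, ?_, ?_⟩
  · rw [← Nat.card_congr e.toEquiv]; exact h1
  · refine le_trans (le_of_eq ?_) h2
    have hc : Nat.card K = Nat.card L := (Nat.card_congr e.toEquiv).symm
    refine Nat.card_congr ⟨fun U => ⟨e.symm U.1, fun h3 => U.2.1 ?_, ?_⟩,
      fun U => ⟨e U.1, fun h3 => U.2.1 ?_, ?_⟩, ?_, ?_⟩
    · apply e.symm.injective
      rw [h3, e.symm.map_bot]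
    · rw [← card_ge_map e.symm, ← hc]
      exact U.2.2
    · apply e.injective
      rw [h3, e.map_bot]
    · rw [← card_ge_map e, hc]
      exact U.2.2
    · intro U; apply Subtype.ext; simp
    · intro U; apply Subtype.ext; simp

theorem Weak.congr {L K : Type*} [Lattice L] [Lattice K] (e : L ≃o K) (h : Weak L) :
    Weak K := by
  obtain ⟨J, hJ, hc⟩ := h
  refine ⟨e J, supIrred_map e hJ, ?_⟩
  rw [← card_ge_map e J, ← Nat.card_congr e.toEquiv]
  exact hc

theorem Good.congr {L K : Type*} [Lattice L] [Lattice K] [OrderBot L] [OrderBot K]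
    (e : L ≃o K) (h : Good L) : Good K :=
  h.elim (fun h => Or.inl (h.congr e)) (fun h => Or.inr ⟨h.1.congr e, fun _ =>
    (h.2 e.toEquiv.nontrivial).congr e⟩)

theorem card_prod_bool {K : Type*} [Finite K] : Nat.card (K × Bool) = 2 * Nat.card K := by
  rw [Nat.card_prod]; simp [mul_comm]

theorem card_ge_false {K : Type*} [Lattice K] [Finite K] (V : K) :
    Nat.card {U : K × Bool // (V, false) ≤ U} = 2 * Nat.card {U : K // V ≤ U} := by
  rw [← card_prod_bool]
  refine Nat.card_congr ⟨fun U => (⟨U.1.1, U.2.1⟩, U.1.2), fun U => ⟨(U.1.1, U.2), U.1.2, by simp⟩,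
    ?_, ?_⟩
  · intro U; rfl
  · intro U; rfl

theorem card_ge_true {K : Type*} [Lattice K] [Finite K] (V : K) :
    Nat.card {U : K × Bool // (V, true) ≤ U} = Nat.card {U : K // V ≤ U} := by
  refine Nat.card_congr ⟨fun U => ⟨U.1.1, U.2.1⟩, fun U => ⟨(U.1, true), U.2, le_refl _⟩,
    ?_, ?_⟩
  · intro U
    apply Subtype.ext
    apply Prod.ext
    · rfl
    · have := U.2.2
      cases h : U.1.2
      · rw [h] at this
        have h9 : (true : Bool) ≤ false := this
        exact absurd h9 (by decide)
      · rfl
  · intro U; rfl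

theorem Good.prod {K : Type*} [Lattice K] [OrderBot K] [Finite K] (h : Good K) :
    Good (K × Bool) := by
  rcases h with ⟨J, hJ, hc⟩ | ⟨⟨n, h1, h2⟩, -⟩
  · left
    refine ⟨(J, false), ⟨?_, ?_⟩, ?_⟩
    · intro hmin
      apply hJ.1
      intro b hb
      have h1 : ((b, false) : K × Bool) ≤ (J, false) := ⟨hb, le_refl _⟩
      exact (hmin h1).1
    · rintro ⟨b, x⟩ ⟨c, y⟩ hbc
      have h1 := congrArg Prod.fst hbc
      have h2 := congrArg Prod.snd hbc
      simp only [Prod.mk_sup_mk] at h1 h2
      have hx : x = false := by cases x <;> simp_all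
      have hy : y = false := by cases y <;> simp_all
      subst hx hy
      rcases hJ.2 h1 with h3 | h3
      · left; rw [h3]
      · right; rw [h3]
    · rw [card_ge_false, card_prod_bool]
      omega
  · right
    refine ⟨⟨n + 1, by rw [card_prod_bool, h1, pow_succ, mul_comm], ?_⟩, fun _ => ?_⟩
    swap
    · refine ⟨(⊥, true), ⟨?_, ?_⟩, ?_⟩
      · intro hmin
        have h3 : ((⊥, false) : K × Bool) ≤ (⊥, true) := ⟨le_refl _, by simp⟩
        have h4 : (true : Bool) ≤ false := (hmin h3).2
        exact absurd h4 (by decide)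
      · rintro ⟨b, x⟩ ⟨c, y⟩ hbc
        have h3 := congrArg Prod.fst hbc
        have h4 := congrArg Prod.snd hbc
        simp only [Prod.mk_sup_mk] at h3 h4
        rw [sup_eq_bot_iff] at h3
        cases x
        · right
          cases y
          · simp at h4
          · rw [h3.2]
        · left; rw [h3.1]
      · rw [card_ge_true, card_prod_bool]
        have h3 : Nat.card {U : K // ⊥ ≤ U} ≤ Nat.card K :=
          Nat.card_le_card_of_injective _ Subtype.val_injective
        omega
    have hf : Finite {U : K // U ≠ ⊥ ∧ Nat.card K ≤ 2 * Nat.card {V : K // U ≤ V}} := inferInstance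
    have hle : Nat.card {U : K × Bool // U ≠ ⊥ ∧ Nat.card (K × Bool) ≤
        2 * Nat.card {V : K × Bool // U ≤ V}} ≤
        Nat.card (Option {U : K // U ≠ ⊥ ∧ Nat.card K ≤ 2 * Nat.card {V : K // U ≤ V}}) := by
      have key : ∀ U : {U : K × Bool // U ≠ ⊥ ∧ Nat.card (K × Bool) ≤
          2 * Nat.card {V : K × Bool // U ≤ V}}, (U.1.2 = false → U.1.1 ≠ ⊥ ∧
            Nat.card K ≤ 2 * Nat.card {V : K // U.1.1 ≤ V}) ∧ (U.1.2 = true → U.1.1 = ⊥) := by
        rintro ⟨⟨V, x⟩, h3, h4⟩
        rw [card_prod_bool] at h4
        refine ⟨?_, ?_⟩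
        · intro hx
          simp only at hx
          subst hx
          rw [card_ge_false] at h4
          refine ⟨fun h5 => h3 ?_, ?_⟩
          · simp only at h5; rw [h5]; rfl
          · change Nat.card K ≤ 2 * Nat.card {W : K // V ≤ W}
            omega
        · intro hx
          simp only at hx
          subst hx
          rw [card_ge_true] at h4
          have h5 : Nat.card {U : K // V ≤ U} = Nat.card K :=
            le_antisymm (Nat.card_le_card_of_injective _ Subtype.val_injective) (by omega)
          have h6 : Function.Surjective (Subtype.val : {U : K // V ≤ U} → K) := by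
            have := (Nat.bijective_iff_injective_and_card
              (Subtype.val : {U : K // V ≤ U} → K)).2 ⟨Subtype.val_injective, h5⟩
            exact this.2
          obtain ⟨W, hW⟩ := h6 ⊥
          have := W.2
          rw [hW] at this
          exact le_bot_iff.1 this
      refine Nat.card_le_card_of_injective
        (fun U => if hx : U.1.2 = false then some ⟨U.1.1, (key U).1 hx⟩ else none) ?_
      intro U V hUV
      have hU := key U
      have hV := key V
      simp only at hUV
      by_cases hx : U.1.2 = false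
      · by_cases hy : V.1.2 = false
        · rw [dif_pos hx, dif_pos hy] at hUV
          have h3 := congrArg Subtype.val (Option.some.inj hUV)
          apply Subtype.ext
          apply Prod.ext
          · exact h3
          · rw [hx, hy]
        · rw [dif_pos hx, dif_neg hy] at hUV
          exact absurd hUV (by simp)
      · by_cases hy : V.1.2 = false
        · rw [dif_neg hx, dif_pos hy] at hUV
          exact absurd hUV (by simp)
        · have hx' : U.1.2 = true := by simpa using hx
          have hy' : V.1.2 = true := by simpa using hy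
          apply Subtype.ext
          apply Prod.ext
          · rw [hU.2 hx', hV.2 hy']
          · rw [hx', hy']
    have h3 : Nat.card (Option {U : K // U ≠ ⊥ ∧ Nat.card K ≤ 2 * Nat.card {V : K // U ≤ V}}) =
      Nat.card {U : K // U ≠ ⊥ ∧ Nat.card K ≤ 2 * Nat.card {V : K // U ≤ V}} + 1 :=
      Finite.card_option
    omega

/-- the criterion with one element: `U ↦ U ⊓ N` recovers the elements above `J` -/
theorem one_crit {L : Type*} [Lattice L] [Finite L] {N J : L} (hJN : ¬ J ≤ N)
    (h : ∀ U, J ≤ U → J ⊔ (U ⊓ N) = U) :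
    (∀ V, J ≤ V ∨ (V ≤ N ∧ (J ⊔ V) ⊓ N = V)) ∨
      2 * Nat.card {U : L // J ≤ U} < Nat.card L := by
  classical
  have := Fintype.ofFinite L
  by_cases hex : ∃ V, ¬ J ≤ V ∧ ∀ U, J ≤ U → U ⊓ N ≠ V
  · right
    obtain ⟨V₀, hV₀, hV₁⟩ := hex
    have h1 : (Finset.univ.filter fun U : L => J ≤ U).card <
        (Finset.univ.filter fun U : L => ¬ J ≤ U).card := by
      have h0 : (Finset.univ.filter fun U : L => J ≤ U).card ≤
          ((Finset.univ.filter fun U : L => ¬ J ≤ U).erase V₀).card := by
        refine Finset.card_le_card_of_injOn (fun U => U ⊓ N) ?_ ?_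
        · intro H hH
          simp only [Finset.coe_filter, Finset.mem_univ, true_and, Set.mem_ofPred_eq] at hH
          rw [Finset.mem_coe, Finset.mem_erase]
          refine ⟨hV₁ H hH, ?_⟩
          simp only [Finset.mem_filter, Finset.mem_univ, true_and]
          exact fun h3 => hJN (h3.trans inf_le_right)
        · intro H hH K hK h3
          simp only [Finset.coe_filter, Finset.mem_univ, true_and, Set.mem_ofPred_eq] at hH hK
          simp only at h3
          rw [← h H hH, h3, h K hK]
      refine lt_of_le_of_lt h0 (Finset.card_erase_lt_of_mem ?_)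
      simp only [Finset.mem_filter, Finset.mem_univ, true_and]
      exact hV₀
    have h2 := Finset.card_filter_add_card_filter_not (s := (Finset.univ : Finset L))
      (fun U : L => J ≤ U)
    rw [Nat.card_eq_fintype_card, Nat.card_eq_fintype_card, Fintype.card_subtype]
    rw [Finset.card_univ] at h2
    omega
  · left
    push Not at hex
    intro V
    by_cases hV : J ≤ V
    · exact Or.inl hV
    · right
      obtain ⟨U, hU, hUV⟩ := hex V hV
      have h1 : J ⊔ V = U := by rw [← hUV, h U hU]
      exact ⟨by rw [← hUV]; exact inf_le_right, by rw [h1, hUV]⟩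

/-- the lattice is the product of an interval and a two-element chain -/
theorem good_of_split {L : Type*} [Lattice L] [OrderBot L] [Finite L] {N J : L} (hJN : ¬ J ≤ N)
    (h : ∀ U, J ≤ U → J ⊔ (U ⊓ N) = U) (h' : ∀ V, J ≤ V ∨ (V ≤ N ∧ (J ⊔ V) ⊓ N = V))
    (hN : Good (Set.Iic N)) : Good L := by
  classical
  have h3 : ∀ V, V ≤ N → (J ⊔ V) ⊓ N = V := fun V hV => ((h' V).resolve_left
    (fun h4 => hJN (h4.trans hV))).2
  let e : (Set.Iic N) × Bool ≃o L :=
    { toFun := fun p => if p.2 = true then J ⊔ p.1.1 else p.1.1
      invFun := fun U => (⟨U ⊓ N, inf_le_right⟩, decide (J ≤ U))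
      left_inv := by
        rintro ⟨⟨V, hV⟩, b⟩
        cases b
        · have h4 : ¬ J ≤ V := fun h4 => hJN (h4.trans hV)
          simp only [Bool.false_eq_true, if_false]
          apply Prod.ext
          · apply Subtype.ext
            exact inf_eq_left.2 hV
          · simp [h4]
        · simp only [if_true]
          apply Prod.ext
          · apply Subtype.ext
            exact h3 V hV
          · simp
      right_inv := by
        intro U
        by_cases hU : J ≤ U
        · simp [hU, h U hU]
        · have h4 := ((h' U).resolve_left hU).1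
          simp [hU, h4]
      map_rel_iff' := by
        rintro ⟨⟨V, hV⟩, b⟩ ⟨⟨W, hW⟩, c⟩
        have h4 : ¬ J ≤ W := fun h4 => hJN (h4.trans hW)
        simp only [Equiv.coe_fn_mk, Prod.mk_le_mk, Subtype.mk_le_mk]
        cases b <;> cases c
        · simp
        · simp only [Bool.false_eq_true, if_false, if_true]
          constructor
          · intro h5
            refine ⟨?_, by simp⟩
            calc V = V ⊓ N := (inf_eq_left.2 hV).symm
              _ ≤ (J ⊔ W) ⊓ N := inf_le_inf_right _ h5
              _ = W := h3 W hW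
          · rintro ⟨h5, -⟩
            exact h5.trans le_sup_right
        · simp only [Bool.false_eq_true, if_false, if_true]
          constructor
          · intro h5
            exact absurd (le_sup_left.trans h5) h4
          · rintro ⟨-, h5⟩
            exact absurd h5 (by decide)
        · simp only [if_true]
          constructor
          · intro h5
            refine ⟨?_, le_refl _⟩
            calc V = (J ⊔ V) ⊓ N := (h3 V hV).symm
              _ ≤ (J ⊔ W) ⊓ N := inf_le_inf_right _ h5
              _ = W := h3 W hW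
          · rintro ⟨h5, -⟩
            exact sup_le_sup_left h5 _ }
  exact (hN.prod).congr e

theorem good_of_subsingleton {L : Type*} [Lattice L] [OrderBot L] [Finite L] [Subsingleton L] :
    Good L := by
  right
  refine ⟨⟨0, ?_, ?_⟩, fun h => absurd h (not_nontrivial L)⟩
  · have : Nonempty L := ⟨⊥⟩
    simp
  · have : IsEmpty {U : L // U ≠ ⊥ ∧ Nat.card L ≤ 2 * Nat.card {V : L // U ≤ V}} :=
      ⟨fun U => U.2.1 (Subsingleton.elim _ _)⟩
    exact le_of_eq Nat.card_of_isEmpty

/-- a minimal element not below `N` is join-irreducible -/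
theorem exists_minimal_not_le {L : Type*} [Lattice L] [OrderBot L] [Finite L] (P : L → Prop)
    (hP : ∃ U, P U) (hbot : ¬ P ⊥) (hsup : ∀ A B, ¬ P A → ¬ P B → ¬ P (A ⊔ B)) :
    ∃ J, P J ∧ SupIrred J := by
  obtain ⟨J, hJ⟩ := (Set.toFinite {U : L | P U}).exists_minimal hP
  refine ⟨J, hJ.1, ?_, ?_⟩
  · intro hmin
    have : J = ⊥ := le_bot_iff.1 (hmin bot_le)
    rw [this] at hJ
    exact hbot hJ.1
  · intro b c hbc
    by_contra hno
    push Not at hno
    have hb : ¬ P b := fun h => hno.1 (le_antisymm (by rw [← hbc]; exact le_sup_left)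
      (hJ.2 h (by rw [← hbc]; exact le_sup_left)))
    have hc : ¬ P c := fun h => hno.2 (le_antisymm (by rw [← hbc]; exact le_sup_right)
      (hJ.2 h (by rw [← hbc]; exact le_sup_right)))
    exact hsup b c hb hc (by rw [hbc]; exact hJ.1)

end Pool.Agent.R636.FL
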