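import Pool.Agent.Y396.Frankl.StrictAlg

/-!
# Nilpotent generators of matrix rings
-/

set_option autoImplicit false

namespace Pool.Agent.R636.FL

open Matrix Polynomial

/-- the nilpotent Jordan block -/
def jb (n : ℕ) (F : Type*) [Field F] : Matrix (Fin (n + 1)) (Fin (n + 1)) F :=
  Matrix.of fun i j => if (i : ℕ) = j + 1 then 1 else 0

theorem jb_mul {n : ℕ} {F : Type*} [Field F] (i j i' : Fin (n + 1)) (h : (i' : ℕ) = i + 1) (c : F) :
    jb n F * Matrix.single i j c = Matrix.single i' j c := by
  ext p q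
  rw [Matrix.mul_apply, Finset.sum_eq_single i]
  · simp only [jb, Matrix.of_apply, Matrix.single_apply]
    by_cases hp : p = i'
    · subst hp; simp [h]
    · have h1 : ¬ (i' = p) := fun h => hp h.symm
      have h2 : ¬ ((p : ℕ) = i + 1) := fun h3 => hp (Fin.ext (by omega))
      simp [h1, h2]
  · intro k _ hk
    have : ¬ (i = k) := fun h => hk h.symm
    simp [this]
  · intro h; exact absurd (Finset.mem_univ _) h

theorem mul_jb {n : ℕ} {F : Type*} [Field F] (i j j' : Fin (n + 1)) (h : (j : ℕ) = j' + 1) (c : F) :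
    Matrix.single i j c * jb n F = Matrix.single i j' c := by
  ext p q
  rw [Matrix.mul_apply, Finset.sum_eq_single j]
  · simp only [jb, Matrix.of_apply, Matrix.single_apply]
    by_cases hq : q = j'
    · subst hq; simp [h]
    · have h1 : ¬ (j' = q) := fun h => hq h.symm
      have h2 : ¬ ((j : ℕ) = q + 1) := fun h3 => hq (Fin.ext (by omega))
      simp [h1, h2]
  · intro k _ hk
    have : ¬ (j = k) := fun h => hk h.symm
    simp [this]
  · intro h; exact absurd (Finset.mem_univ _) h

theorem jb_pow {n : ℕ} {F : Type*} [Field F] (k : ℕ) (i j : Fin (n + 1)) (h : (i : ℕ) < j + k) :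
    (jb n F ^ k) i j = 0 := by
  induction k generalizing j with
  | zero =>
    rw [pow_zero, Matrix.one_apply_ne]
    intro hij
    rw [hij] at h
    omega
  | succ k ih =>
    rw [pow_succ, Matrix.mul_apply]
    apply Finset.sum_eq_zero
    intro m _
    by_cases hm : (m : ℕ) = j + 1
    · rw [ih m (by omega), zero_mul]
    · have : jb n F m j = 0 := by simp [jb, hm]
      rw [this, mul_zero]

theorem jb_nilpotent {n : ℕ} {F : Type*} [Field F] : IsNilpotent (jb n F) := by
  refine ⟨n + 1, ?_⟩
  ext i j
  rw [jb_pow (n + 1) i j (by omega)]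
  rfl

/-- two nilpotent generators of the matrix ring of degree at least two, neither of them diagonal -/
theorem nil_mat_gen {n : ℕ} (hn : 1 ≤ n) {F : Type*} [Field F] [Finite F] :
    ∃ a b : Matrix (Fin (n + 1)) (Fin (n + 1)) F, IsNilpotent a ∧ IsNilpotent b ∧
      (∃ i j, i ≠ j ∧ a i j ≠ 0) ∧ (∃ i j, i ≠ j ∧ b i j ≠ 0) ∧
      NonUnitalSubring.closure {a, b} = ⊤ := by
  classical
  obtain ⟨ω, hω⟩ := IsCyclic.exists_generator (α := Fˣ)
  set a : Matrix (Fin (n + 1)) (Fin (n + 1)) F := Matrix.single 0 (Fin.last n) (ω : F) with ha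
  set b := jb n F with hb
  have h0n : (0 : Fin (n + 1)) ≠ Fin.last n := by
    intro h
    have := congrArg Fin.val h
    simp at this
    omega
  set C := NonUnitalSubring.closure {a, b} with hC
  have haC : a ∈ C := NonUnitalSubring.subset_closure (by simp)
  have hbC : b ∈ C := NonUnitalSubring.subset_closure (by simp)
  -- descending along a row
  have hrow : ∀ (i : Fin (n + 1)) (c : F), Matrix.single i (Fin.last n) c ∈ C →
      ∀ j : Fin (n + 1), Matrix.single i j c ∈ C := by
    intro i c h
    have h2 : ∀ k : ℕ, ∀ j : Fin (n + 1), (j : ℕ) + k = n → Matrix.single i j c ∈ C := by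
      intro k
      induction k with
      | zero =>
        intro j hj
        have : j = Fin.last n := Fin.ext (by simpa using hj)
        rw [this]; exact h
      | succ k ih =>
        intro j hj
        have h3 := ih ⟨j + 1, by omega⟩ (by simp only; omega)
        have h4 := C.mul_mem h3 hbC
        rwa [hb, mul_jb i ⟨j + 1, by omega⟩ j rfl] at h4
    intro j
    exact h2 (n - j) j (by omega)
  have h00' : Matrix.single 0 0 (ω : F) ∈ C := hrow 0 _ haC 0
  have hpow : ∀ k : ℕ, Matrix.single 0 0 ((ω : F) ^ (k + 1)) ∈ C := by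
    intro k
    induction k with
    | zero => simpa using h00'
    | succ k ih =>
      have h1 := C.mul_mem ih h00'
      rw [Matrix.single_mul_single_same, ← pow_succ] at h1
      exact h1
  have h00 : ∀ c : F, Matrix.single 0 0 c ∈ C := by
    intro c
    by_cases hc : c = 0
    · rw [hc, Matrix.single_zero]
      exact C.zero_mem
    · obtain ⟨k, hk⟩ := (mem_powers_iff_mem_zpowers.2 (hω (Units.mk0 c hc)) :
        Units.mk0 c hc ∈ Submonoid.powers ω)
      have h1 : (ω : F) ^ k = c := by
        have := congrArg Units.val hk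
        simpa using this
      have h2 : (ω : F) ^ (k + orderOf ω) = c := by
        rw [pow_add, ← Units.val_pow_eq_pow_val ω (orderOf ω), pow_orderOf_eq_one]
        simpa using h1
      have h3 := hpow (k + orderOf ω - 1)
      have h4 : k + orderOf ω - 1 + 1 = k + orderOf ω := by
        have := orderOf_pos ω
        omega
      rwa [h4, h2] at h3
  have hi0 : ∀ (i : Fin (n + 1)) (c : F), Matrix.single i 0 c ∈ C := by
    have h2 : ∀ k : ℕ, ∀ i : Fin (n + 1), (i : ℕ) = k → ∀ c : F, Matrix.single i 0 c ∈ C := by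
      intro k
      induction k with
      | zero =>
        intro i hi c
        have : i = 0 := Fin.ext hi
        rw [this]; exact h00 c
      | succ k ih =>
        intro i hi c
        have h3 := ih ⟨k, by omega⟩ rfl c
        have h4 := C.mul_mem hbC h3
        rwa [hb, jb_mul ⟨k, by omega⟩ 0 i hi] at h4
    intro i c
    exact h2 i i rfl c
  have hin : ∀ (i : Fin (n + 1)) (c : F), Matrix.single i (Fin.last n) c ∈ C := by
    intro i c
    have h1 := C.mul_mem (hi0 i (c * (ω : F)⁻¹)) haC
    rw [ha, Matrix.single_mul_single_same, mul_assoc, inv_mul_cancel₀ ω.ne_zero, mul_one] at h1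
    exact h1
  refine ⟨a, b, ?_, jb_nilpotent, ⟨0, Fin.last n, h0n, ?_⟩, ⟨⟨1, by omega⟩, ⟨0, by omega⟩, ?_, ?_⟩, ?_⟩
  · refine ⟨2, ?_⟩
    rw [pow_two, ha, Matrix.single_mul_single_of_ne]
    exact h0n.symm
  · rw [ha, Matrix.single_apply_same]
    exact ω.ne_zero
  · intro h
    have := congrArg Fin.val h
    simp at this
  · rw [hb]
    simp [jb]
  · rw [eq_top_iff]
    intro m _
    rw [Matrix.matrix_eq_sum_single m]
    exact sum_mem fun i _ => sum_mem fun j _ => hrow i _ (hin i _) j

/-- a nonconstant power series without constant term in a nilpotent element generates it -/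
theorem nil_gen {F H : Type*} [Field F] [Ring H] [Algebra F H] {F₀ : Subring F}
    (Y : AddSubgroup H) (hmul : ∀ x ∈ Y, ∀ y ∈ Y, x * y ∈ Y) (hsm : ∀ c ∈ F₀, ∀ y ∈ Y, c • y ∈ Y)
    {a : H} (ha : IsNilpotent a) (g : F[X]) (hg : ∀ k, g.coeff k ∈ F₀)
    (hy : a - a ^ 2 * aeval a g ∈ Y) : a ∈ Y := by
  -- `z ^ 2 * g(z)` stays in `Y`
  have hcl : ∀ z ∈ Y, z ^ 2 * aeval z g ∈ Y := by
    intro z hz
    have hp : ∀ k : ℕ, z ^ (k + 1) ∈ Y := by
      intro k
      induction k with
      | zero => simpa using hz
      | succ k ih => rw [pow_succ]; exact hmul _ ih _ hz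
    rw [aeval_eq_sum_range, Finset.mul_sum]
    refine Y.sum_mem fun k _ => ?_
    rw [mul_smul_comm, ← pow_add]
    apply hsm _ (hg k)
    have := hp (1 + k)
    rwa [show 1 + k + 1 = 2 + k by ring] at this
  set p : F[X] := X - X ^ 2 * g with hp
  let t : ℕ → F[X] := fun k => Nat.rec 0 (fun _ q => p + q ^ 2 * g.comp q) k
  have ht0 : t 0 = 0 := rfl
  have hts : ∀ k, t (k + 1) = p + t k ^ 2 * g.comp (t k) := fun k => rfl
  have hmem : ∀ k, aeval a (t k) ∈ Y := by
    intro k
    induction k with
    | zero => rw [ht0, map_zero]; exact Y.zero_mem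
    | succ k ih =>
      rw [hts, map_add, map_mul, map_pow, aeval_comp]
      refine Y.add_mem ?_ (hcl _ ih)
      rw [hp, map_sub, map_mul, map_pow, aeval_X]
      exact hy
  have hdvd : ∀ k, X ^ (k + 1) ∣ X - t k := by
    intro k
    induction k with
    | zero => rw [ht0]; simp
    | succ k ih =>
      have hXt : (X : F[X]) ∣ t k := by
        have h1 : (X : F[X]) ∣ X - t k := dvd_trans (dvd_pow_self X (by omega)) ih
        have h2 := dvd_sub (dvd_refl (X : F[X])) h1
        rwa [sub_sub_cancel] at h2
      have h1 : X - t (k + 1) = X ^ 2 * (g - g.comp (t k)) + (X - t k) * ((X + t k) * g.comp (t k)) := by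
        rw [hts, hp]; ring
      have h2 : X - t k ∣ g - g.comp (t k) := by
        have h3 := sub_dvd_eval_sub (X : F[X]) (t k) (g.map C)
        rw [eval_map, eval_map] at h3
        have h4 : eval₂ C X g = g := eval₂_C_X
        rw [h4] at h3
        exact h3
      rw [h1]
      apply dvd_add
      · have h3 : (X : F[X]) ^ (k + 1 + 1) ∣ X ^ 2 * X ^ (k + 1) := by
          rw [← pow_add]
          exact pow_dvd_pow X (by omega)
        exact dvd_trans h3 (mul_dvd_mul_left _ (ih.trans h2))
      · rw [pow_succ]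
        refine mul_dvd_mul ih (dvd_mul_of_dvd_left (dvd_add (dvd_refl _) hXt) _)
  obtain ⟨m, hm⟩ := ha
  obtain ⟨q, hq⟩ := hdvd m
  have h1 : a - aeval a (t m) = 0 := by
    have h2 := congrArg (aeval a) hq
    rw [map_sub, map_mul, map_pow, aeval_X, pow_succ, hm, zero_mul, zero_mul] at h2
    exact h2
  rw [sub_eq_zero.1 h1]
  exact hmem m

end Pool.Agent.R636.FL
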