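import Pool.Agent.R636.FAlg2

/-!
# Unital subalgebras of finite unital algebras: nilpotent elements and matrix quotients
-/

set_option autoImplicit false
set_option linter.unusedSectionVars false

namespace Pool.Agent.R636.FL

open Polynomial Pool.Agent.Y396.Frankl

universe u v

theorem finSubU (S : Type v) [CommRing S] (R : Type u) [Ring R] [Algebra S R] [Finite R] :
    Finite (Subalgebra S R) :=
  Finite.of_injective (fun H : Subalgebra S R => (H : Set R)) SetLike.coe_injective

variable (S : Type v) [CommRing S] {R : Type u} [Ring R] [Algebra S R]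

section nil

variable {H F : Type*} [Field F] [Finite F] [Ring H] [Algebra F H] (π : R →+* H) (φ : S →+* F)
  (hφ : ∀ s r, π (s • r) = φ s • π r)

include hφ in
theorem structU {a : H} {x : R} (hx : π x = a) {r : R} (hr : r ∈ Algebra.adjoin S {x}) :
    ∃ d ∈ φ.range, ∃ c ∈ φ.range, ∃ g ∈ P0 S φ, π r = aeval a (C d + (C c * X + X ^ 2 * g)) := by
  induction hr using Algebra.adjoin_induction with
  | mem y hy =>
    rw [Set.mem_singleton_iff.1 hy]
    exact ⟨0, φ.range.zero_mem, 1, φ.range.one_mem, 0, (P0 S φ).zero_mem, by simp [hx]⟩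
  | algebraMap s =>
    refine ⟨φ s, ⟨s, rfl⟩, 0, φ.range.zero_mem, 0, (P0 S φ).zero_mem, ?_⟩
    rw [Algebra.algebraMap_eq_smul_one, hφ, map_one]
    simp [Algebra.algebraMap_eq_smul_one]
  | add y z _ _ hy hz =>
    obtain ⟨d, hd, c, hc, g, hg, h⟩ := hy
    obtain ⟨d', hd', c', hc', g', hg', h'⟩ := hz
    refine ⟨d + d', φ.range.add_mem hd hd', c + c', φ.range.add_mem hc hc', g + g',
      (P0 S φ).add_mem hg hg', ?_⟩
    rw [map_add, h, h', ← map_add]
    congr 1
    rw [C_add, C_add]; ring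
  | mul y z _ _ hy hz =>
    obtain ⟨d, hd, c, hc, g, hg, h⟩ := hy
    obtain ⟨d', hd', c', hc', g', hg', h'⟩ := hz
    refine ⟨d * d', φ.range.mul_mem hd hd', d * c' + c * d',
      φ.range.add_mem (φ.range.mul_mem hd hc') (φ.range.mul_mem hc hd'),
      C d * g' + g * C d' + (C c + X * g) * (C c' + X * g'), ?_, ?_⟩
    · refine (P0 S φ).add_mem ((P0 S φ).add_mem ((P0 S φ).mul_mem (P0_C S φ hd) hg')
        ((P0 S φ).mul_mem hg (P0_C S φ hd'))) ?_
      exact (P0 S φ).mul_mem ((P0 S φ).add_mem (P0_C S φ hc) ((P0 S φ).mul_mem (P0_X S φ) hg))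
        ((P0 S φ).add_mem (P0_C S φ hc') ((P0 S φ).mul_mem (P0_X S φ) hg'))
    · rw [map_mul, h, h', ← map_mul]
      congr 1
      rw [C_add, C_mul, C_mul, C_mul]; ring

/-- a nonzero nilpotent element of the image lies in the image of a join-irreducible subalgebra -/
theorem nil_liftU [Finite R] [Nontrivial H] (hπ : Function.Surjective π)
    (hφ : ∀ s r, π (s • r) = φ s • π r)
    {a : H} (ha : IsNilpotent a) (ha0 : a ≠ 0) :
    ∃ J : Subalgebra S R, SupIrred J ∧ ∃ r ∈ J, π r = a := by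
  have hfin := finSubU S R
  obtain ⟨x, hx⟩ := hπ a
  have hscal : ∀ d : F, ∀ G : F[X], a = aeval a (C d + X ^ 2 * G) → False := by
    intro d G hG
    have hnilp : ∀ g : F[X], IsNilpotent (aeval a (X * g)) := by
      intro g
      obtain ⟨m, hm⟩ := ha
      refine ⟨m, ?_⟩
      rw [← map_pow, mul_pow, map_mul, map_pow, aeval_X, hm, zero_mul]
    have h1 : aeval a (C d) = aeval a (X * (1 - X * G)) := by
      have h2 : aeval a (X : F[X]) = aeval a (C d + X ^ 2 * G) := (aeval_X a).trans hG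
      have h3 : aeval a (X * (1 - X * G)) = aeval a (X : F[X]) - aeval a (X ^ 2 * G) := by
        rw [← map_sub]; congr 1; ring
      rw [h3, h2, ← map_sub]
      congr 1; ring
    have h2 : d = 0 := by
      obtain ⟨m, hm⟩ := hnilp (1 - X * G)
      rw [← h1, ← map_pow, ← C_pow, aeval_C] at hm
      have h3 : d ^ m = 0 := (map_eq_zero (algebraMap F H)).1 hm
      by_contra h4
      exact (pow_ne_zero m h4) h3
    rw [h2, C_0, map_zero, map_mul, aeval_X, map_sub, map_one] at h1
    have h3 := (hnilp G).isUnit_one_sub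
    exact ha0 (h3.mul_left_eq_zero.1 h1.symm)
  set T := Algebra.adjoin S {x} with hT
  obtain ⟨J, hJ, hJs⟩ := exists_minimal_not_le (L := Subalgebra S R)
    (fun U => U ≤ T ∧ ∃ r ∈ U, π r = a)
    ⟨T, le_refl _, x, Algebra.subset_adjoin (by simp), hx⟩
    (by
      rintro ⟨-, r, hr, hra⟩
      obtain ⟨s, hs⟩ := Algebra.mem_bot.1 hr
      apply hscal (φ s) 0
      rw [← hra, ← hs, Algebra.algebraMap_eq_smul_one, hφ, map_one]
      simp [Algebra.algebraMap_eq_smul_one])
    (by
      intro A B hA hB hAB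
      have hAT : A ≤ T := le_sup_left.trans hAB.1
      have hBT : B ≤ T := le_sup_right.trans hAB.1
      have key : ∀ U : Subalgebra S R, U ≤ T → (¬ ∃ r ∈ U, π r = a) → ∀ r ∈ U,
          ∃ d ∈ φ.range, ∃ g ∈ P0 S φ, π r = aeval a (C d + X ^ 2 * g) := by
        intro U hU hno r hr
        obtain ⟨d, hd, c, hc, g, hg, h⟩ := structU S π φ hφ hx (hU hr)
        by_cases hc0 : c = 0
        · exact ⟨d, hd, g, hg, by rw [h, hc0, C_0, zero_mul, zero_add]⟩
        · exfalso
          apply hno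
          let Y : AddSubgroup H :=
            { carrier := {h | ∃ r ∈ U, π r = h}
              add_mem' := by
                rintro _ _ ⟨p, hp, rfl⟩ ⟨q, hq, rfl⟩
                exact ⟨p + q, U.add_mem hp hq, map_add _ _ _⟩
              zero_mem' := ⟨0, U.zero_mem, map_zero _⟩
              neg_mem' := by
                rintro _ ⟨p, hp, rfl⟩
                exact ⟨-p, neg_mem hp, map_neg _ _⟩ }
          have hinv := inv_mem_of_finite φ.range hc
          have h1 : a ∈ Y := by
            refine nil_gen (F₀ := φ.range) Y ?_ ?_ ha (-(C c⁻¹ * g)) ?_ ?_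
            · rintro _ ⟨p, hp, rfl⟩ _ ⟨q, hq, rfl⟩
              exact ⟨p * q, U.mul_mem hp hq, map_mul _ _ _⟩
            · rintro _ ⟨s, rfl⟩ _ ⟨q, hq, rfl⟩
              exact ⟨s • q, SMulMemClass.smul_mem s hq, hφ _ _⟩
            · intro k
              exact P0_coeff S φ ((P0 S φ).neg_mem ((P0 S φ).mul_mem (P0_C S φ hinv) hg)) k
            · obtain ⟨s, hs⟩ := hinv
              obtain ⟨t, ht⟩ := hd
              refine ⟨s • (r - t • 1), SMulMemClass.smul_mem s
                (sub_mem hr (SMulMemClass.smul_mem t U.one_mem)), ?_⟩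
              rw [hφ, map_sub, hφ, map_one, h, hs, ht]
              have h2 : a - a ^ 2 * aeval a (-(C c⁻¹ * g)) = aeval a (X - X ^ 2 * (-(C c⁻¹ * g))) := by
                simp
              have h4 : d • (1 : H) = aeval a (C d) := by
                rw [aeval_C, Algebra.algebraMap_eq_smul_one]
              rw [h2, h4, ← map_sub, ← map_smul]
              congr 1
              have h3 : C c⁻¹ * C c = (1 : F[X]) := by
                rw [← C_mul, inv_mul_cancel₀ hc0, C_1]
              rw [smul_eq_C_mul]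
              linear_combination X * h3
          exact h1
      let W : Subalgebra S R :=
        { carrier := {r | ∃ d ∈ φ.range, ∃ g ∈ P0 S φ, π r = aeval a (C d + X ^ 2 * g)}
          add_mem' := by
            rintro p q ⟨d, hd, g, hg, h⟩ ⟨d', hd', g', hg', h'⟩
            refine ⟨d + d', φ.range.add_mem hd hd', g + g', (P0 S φ).add_mem hg hg', ?_⟩
            rw [map_add, h, h', ← map_add]
            congr 1
            rw [C_add]; ring
          mul_mem' := by
            rintro p q ⟨d, hd, g, hg, h⟩ ⟨d', hd', g', hg', h'⟩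
            refine ⟨d * d', φ.range.mul_mem hd hd', C d * g' + g * C d' + g * (X ^ 2 * g'), ?_, ?_⟩
            · exact (P0 S φ).add_mem ((P0 S φ).add_mem ((P0 S φ).mul_mem (P0_C S φ hd) hg')
                ((P0 S φ).mul_mem hg (P0_C S φ hd'))) ((P0 S φ).mul_mem hg ((P0 S φ).mul_mem
                ((P0 S φ).pow_mem (P0_X S φ) 2) hg'))
            · rw [map_mul, h, h', ← map_mul]
              congr 1
              rw [C_mul]; ring
          algebraMap_mem' := by
            intro s
            refine ⟨φ s, ⟨s, rfl⟩, 0, (P0 S φ).zero_mem, ?_⟩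
            rw [Algebra.algebraMap_eq_smul_one, hφ, map_one]
            simp [Algebra.algebraMap_eq_smul_one] }
      have hAW : A ≤ W := fun r hr => key A hAT (fun h => hA ⟨hAT, h⟩) r hr
      have hBW : B ≤ W := fun r hr => key B hBT (fun h => hB ⟨hBT, h⟩) r hr
      obtain ⟨r, hr, hra⟩ := hAB.2
      obtain ⟨d, -, g, -, hg⟩ := (sup_le hAW hBW) hr
      rw [hra] at hg
      exact hscal d g hg)
  exact ⟨J, hJs, hJ.2⟩

end nil

variable [Finite R]

/-- a quotient that is a matrix ring of degree at least two -/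
theorem matrix_caseU {n : ℕ} (hn : 1 ≤ n) {F : Type*} [Field F] [Finite F]
    (π : R →+* Matrix (Fin (n + 1)) (Fin (n + 1)) F) (hπ : Function.Surjective π) :
    Strong (Subalgebra S R) := by
  classical
  have := finSubU S R
  obtain ⟨φ, hφ⟩ := exists_phi S (π : R →ₙ+* Matrix (Fin (n + 1)) (Fin (n + 1)) F) hπ
  have hφ' : ∀ s r, π (s • r) = φ s • π r := hφ
  obtain ⟨a, b, ha, hb, ⟨i₁, j₁, hij₁, ha'⟩, ⟨i₂, j₂, hij₂, hb'⟩, hgen⟩ := nil_mat_gen hn (F := F)
  have ha0 : a ≠ 0 := by rintro rfl; exact ha' rfl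
  have hb0 : b ≠ 0 := by rintro rfl; exact hb' rfl
  obtain ⟨J₁, hJ₁, r₁, hr₁, hra⟩ := nil_liftU S π φ hπ hφ' ha ha0
  obtain ⟨J₂, hJ₂, r₂, hr₂, hrb⟩ := nil_liftU S π φ hπ hφ' hb hb0
  -- scalars modulo the kernel
  let M : Subalgebra S R :=
    { carrier := {x | ∃ s : S, π x = φ s • (1 : Matrix (Fin (n + 1)) (Fin (n + 1)) F)}
      add_mem' := by
        rintro x y ⟨s, hs⟩ ⟨t, ht⟩
        exact ⟨s + t, by rw [map_add, hs, ht, map_add, add_smul]⟩
      mul_mem' := by
        rintro x y ⟨s, hs⟩ ⟨t, ht⟩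
        exact ⟨s * t, by rw [map_mul, hs, ht, map_mul, smul_mul_smul_comm, one_mul]⟩
      algebraMap_mem' := fun s => ⟨s, by
        rw [Algebra.algebraMap_eq_smul_one, hφ', map_one]⟩ }
  let D : Subalgebra S R :=
    { carrier := {x | ∀ i j, i ≠ j → π x i j = 0}
      add_mem' := fun {x y} hx hy i j hij => by
        rw [map_add, Matrix.add_apply, hx i j hij, hy i j hij, add_zero]
      mul_mem' := fun {x y} hx hy i j hij => by
        rw [map_mul, Matrix.mul_apply]
        apply Finset.sum_eq_zero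
        intro k _
        by_cases hk : i = k
        · rw [← hk, hy i j hij, mul_zero]
        · rw [hx i k hk, zero_mul]
      algebraMap_mem' := fun s i j hij => by
        rw [Algebra.algebraMap_eq_smul_one, hφ', map_one, Matrix.smul_apply,
          Matrix.one_apply_ne hij, smul_zero] }
  have hMD : M ≤ D := by
    rintro x ⟨s, hs⟩ i j hij
    rw [hs, Matrix.smul_apply, Matrix.one_apply_ne hij, smul_zero]
  have hJ₁D : ¬ J₁ ≤ D := fun h => ha' (by rw [← hra]; exact h hr₁ i₁ j₁ hij₁)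
  have hJ₂D : ¬ J₂ ≤ D := fun h => hb' (by rw [← hrb]; exact h hr₂ i₂ j₂ hij₂)
  have hJ₁M : ¬ J₁ ≤ M := fun h => hJ₁D (h.trans hMD)
  have hJ₂M : ¬ J₂ ≤ M := fun h => hJ₂D (h.trans hMD)
  have hcong : ∀ x : R, ∃ w ∈ J₁ ⊔ J₂, π x = π w := by
    intro x
    have h3 : NonUnitalSubring.closure {a, b} ≤
        ((J₁ ⊔ J₂).toSubring.toNonUnitalSubring).map (π : R →ₙ+* _) := by
      rw [NonUnitalSubring.closure_le]
      rintro y (rfl | rfl)
      · exact ⟨r₁, (le_sup_left : J₁ ≤ J₁ ⊔ J₂) hr₁, hra⟩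
      · exact ⟨r₂, (le_sup_right : J₂ ≤ J₁ ⊔ J₂) hr₂, hrb⟩
    rw [hgen] at h3
    obtain ⟨w, hw, hwx⟩ := h3 (show π x ∈ (⊤ : NonUnitalSubring _) from trivial)
    exact ⟨w, hw, hwx.symm⟩
  have key : ∀ H K : Subalgebra S R, J₁ ≤ H → J₂ ≤ H → J₁ ≤ K → J₂ ≤ K →
      H ⊓ M ≤ K → H ≤ K := by
    intro H K h1 h2 h3 h4 h5 x hx
    obtain ⟨w, hw, hxw⟩ := hcong x
    have h6 : w ∈ H := (sup_le h1 h2) hw
    have h7 : w ∈ K := (sup_le h3 h4) hw
    have h8 : x - w ∈ K := h5 ⟨sub_mem hx h6, ⟨0, by rw [map_sub, hxw, sub_self, map_zero,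
      zero_smul]⟩⟩
    have h9 := K.add_mem h8 h7
    rwa [sub_add_cancel] at h9
  rcases crit_card_lt (𝓗 := Subalgebra S R) (fun H => J₁ ≤ H) (fun H => J₂ ≤ H)
    (fun H => H ⊓ M) (by
      intro H K h1 h2 h3 h4 h
      have h' : H ⊓ M = K ⊓ M := h
      exact le_antisymm (key H K h1 h2 h3 h4 (by rw [h']; exact inf_le_left))
        (key K H h3 h4 h1 h2 (by rw [← h']; exact inf_le_left))) (by
      intro H _ _
      exact ⟨fun h => hJ₁M (h.trans inf_le_right), fun h => hJ₂M (h.trans inf_le_right)⟩)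
    ⟨D, hJ₁D, hJ₂D, fun H _ _ h => by
      have h' : H ⊓ M = D := h
      obtain ⟨e, he⟩ := hπ (Matrix.single 0 0 1)
      have h1 : e ∈ D := fun i j hij => by
        rw [he, Matrix.single_apply]
        split_ifs with h2
        · exact absurd (h2.1.symm.trans h2.2) hij
        · rfl
      rw [← h'] at h1
      obtain ⟨s, hs⟩ := h1.2
      rw [he] at hs
      have h3 := congrFun (congrFun hs 0) 0
      have h4 := congrFun (congrFun hs (Fin.last n)) (Fin.last n)
      have h5 : (0 : Fin (n + 1)) ≠ Fin.last n := by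
        intro h
        have := congrArg Fin.val h
        simp at this
        omega
      simp [h5] at h3 h4
      rw [← h4] at h3
      exact one_ne_zero h3⟩ with h | h
  · exact ⟨J₁, hJ₁, h⟩
  · exact ⟨J₂, hJ₂, h⟩

/-- a maximal subalgebra modulo which every other subalgebra is everything -/
theorem ideal_caseU (M : Subalgebra S R) (hM : M ≠ ⊤)
    (h : ∀ J : Subalgebra S R, ¬ J ≤ M → ∀ x, ∃ j ∈ J, x - j ∈ M)
    (hG : Good (Set.Iic M)) : Good (Subalgebra S R) := by
  have := finSubU S R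
  obtain ⟨J, hJ, hJs⟩ := exists_minimal_not_le (L := Subalgebra S R)
    (fun U => ¬ U ≤ M) ⟨⊤, fun h => hM (top_le_iff.1 h)⟩ (fun h => h bot_le)
    (fun A B hA hB hAB => hAB (sup_le (not_not.1 hA) (not_not.1 hB)))
  have h1 : ∀ U, J ≤ U → J ⊔ (U ⊓ M) = U := by
    intro U hU
    apply le_antisymm (sup_le hU inf_le_left)
    intro x hx
    obtain ⟨j, hj, hxj⟩ := h J hJ x
    have h2 : x - j ∈ U ⊓ M := ⟨sub_mem hx (hU hj), hxj⟩
    have h3 := (J ⊔ (U ⊓ M)).add_mem ((le_sup_right : U ⊓ M ≤ J ⊔ (U ⊓ M)) h2)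
      ((le_sup_left : J ≤ J ⊔ (U ⊓ M)) hj)
    rwa [sub_add_cancel] at h3
  rcases one_crit hJ h1 with h2 | h2
  · exact good_of_split hJ h1 h2 hG
  · exact Or.inl ⟨J, hJs, h2⟩

end Pool.Agent.R636.FL
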