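import Pool.Agent.R636.FUni
import Pool.Agent.R636.FFin

/-!
# Unital subalgebras of finite unital algebras: commutative quotients, conclusion
-/

set_option autoImplicit false
set_option linter.unusedSectionVars false

namespace Pool.Agent.R636.FL

open Pool.Agent.Y396.Frankl

universe u v

variable (S : Type v) [CommRing S] {R : Type u} [Ring R] [Algebra S R] [Finite R]

/-- a quotient that is a field larger than the image of the scalars -/
theorem field_caseU {F : Type*} [Field F] [Finite F] (π : R →+* F) (hπ : Function.Surjective π)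
    (φ : S →+* F) (hφ : ∀ s r, π (s • r) = φ s * π r) (hns : ¬ Function.Surjective φ)
    (hG : ∀ M : Subalgebra S R, M ≠ ⊤ → Good (Set.Iic M)) :
    Good (Subalgebra S R) := by
  classical
  have := finSubU S R
  have halg : ∀ s : S, π (algebraMap S R s) = φ s := by
    intro s
    rw [Algebra.algebraMap_eq_smul_one, hφ, map_one, mul_one]
  let M : Subalgebra S R :=
    { carrier := {x | ∃ s : S, π x = φ s}
      add_mem' := by
        rintro x y ⟨s, hs⟩ ⟨t, ht⟩
        exact ⟨s + t, by rw [map_add, hs, ht, map_add]⟩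
      mul_mem' := by
        rintro x y ⟨s, hs⟩ ⟨t, ht⟩
        exact ⟨s * t, by rw [map_mul, hs, ht, map_mul]⟩
      algebraMap_mem' := fun s => ⟨s, halg s⟩ }
  have hM : M ≠ ⊤ := by
    intro h
    apply hns
    intro f
    obtain ⟨r, rfl⟩ := hπ f
    have h1 : r ∈ M := by rw [h]; trivial
    obtain ⟨s, hs⟩ := h1
    exact ⟨s, hs.symm⟩
  have hker : ∀ {x y : R}, π x = π y → x - y ∈ M := by
    intro x y h
    exact ⟨0, by rw [map_sub, h, sub_self, map_zero]⟩
  have hpow : ∀ (U : Subalgebra S R) (r : R), r ∈ U → ∀ k : ℕ, ∃ t ∈ U, π t = π r ^ k :=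
    fun U r hr k => ⟨r ^ k, U.pow_mem hr k, map_pow _ _ _⟩
  have hF := Fintype.ofFinite F
  let sf : Subalgebra S R → Subfield F := fun U =>
    { carrier := {f | ∃ r ∈ U, π r = f}
      mul_mem' := by
        rintro _ _ ⟨p, hp, rfl⟩ ⟨q, hq, rfl⟩
        exact ⟨p * q, U.mul_mem hp hq, map_mul _ _ _⟩
      one_mem' := ⟨1, U.one_mem, map_one _⟩
      add_mem' := by
        rintro _ _ ⟨p, hp, rfl⟩ ⟨q, hq, rfl⟩
        exact ⟨p + q, U.add_mem hp hq, map_add _ _ _⟩
      zero_mem' := ⟨0, U.zero_mem, map_zero _⟩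
      neg_mem' := by
        rintro _ ⟨p, hp, rfl⟩
        exact ⟨-p, neg_mem hp, map_neg _ _⟩
      inv_mem' := by
        rintro _ ⟨p, hp, rfl⟩
        by_cases h0 : π p = 0
        · exact ⟨0, U.zero_mem, by rw [h0, inv_zero, map_zero]⟩
        · have h2 : 2 ≤ Fintype.card F := Fintype.one_lt_card
          obtain ⟨t, ht, ht'⟩ := hpow U p hp (Fintype.card F - 2)
          refine ⟨t, ht, ?_⟩
          rw [ht']
          apply eq_inv_of_mul_eq_one_left
          rw [← pow_succ]
          have h6 : Fintype.card F - 2 + 1 = Fintype.card F - 1 := by omega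
          rw [h6]
          exact FiniteField.pow_card_sub_one_eq_one _ h0 }
  obtain ⟨N, hN, hMN⟩ := (eq_top_or_exists_le_coatom M).resolve_left hM
  by_cases hNM : N ≤ M
  · have hNeq : N = M := le_antisymm hNM hMN
    refine ideal_caseU S M hM ?_ (hG M hM)
    intro J hJ x
    let W : Subalgebra S R :=
      { carrier := {r | ∃ j ∈ J, π r = π j}
        add_mem' := by
          rintro p q ⟨i, hi, h1⟩ ⟨j, hj, h2⟩
          exact ⟨i + j, J.add_mem hi hj, by rw [map_add, map_add, h1, h2]⟩
        mul_mem' := by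
          rintro p q ⟨i, hi, h1⟩ ⟨j, hj, h2⟩
          exact ⟨i * j, J.mul_mem hi hj, by rw [map_mul, map_mul, h1, h2]⟩
        algebraMap_mem' := fun s => ⟨algebraMap S R s, J.algebraMap_mem s, rfl⟩ }
    have h1 : M ≤ W := by
      rintro r ⟨s, hs⟩
      exact ⟨algebraMap S R s, J.algebraMap_mem s, by rw [hs, halg]⟩
    have h2 : J ≤ W := fun r hr => ⟨r, hr, rfl⟩
    have h3 : W = ⊤ := by
      rw [hNeq] at hN
      apply hN.2
      exact lt_of_le_of_ne h1 (fun h => hJ (by rw [h]; exact h2))
    have h4 : x ∈ W := by rw [h3]; trivial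
    obtain ⟨j, hj, hjx⟩ := h4
    exact ⟨j, hj, hker hjx⟩
  · obtain ⟨J, hJ, hJs⟩ := exists_minimal_not_le (L := Subalgebra S R)
      (fun U => ¬ U ≤ N) ⟨⊤, fun h => hN.1 (top_le_iff.1 h)⟩ (fun h => h bot_le)
      (fun A B hA hB hAB => hAB (sup_le (not_not.1 hA) (not_not.1 hB)))
    have hJN : J ⊔ N = ⊤ := by
      apply hN.2
      exact lt_of_le_of_ne le_sup_right (fun h => hJ (by rw [h]; exact le_sup_left))
    have hsup : sf J ⊔ sf N = ⊤ := by
      let W : Subalgebra S R :=
        { carrier := {r | π r ∈ sf J ⊔ sf N}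
          add_mem' := by
            intro p q hp hq
            change π (p + q) ∈ sf J ⊔ sf N
            rw [map_add]
            exact add_mem hp hq
          mul_mem' := by
            intro p q hp hq
            change π (p * q) ∈ sf J ⊔ sf N
            rw [map_mul]
            exact mul_mem hp hq
          algebraMap_mem' := by
            intro s
            change π (algebraMap S R s) ∈ sf J ⊔ sf N
            exact (le_sup_left : sf J ≤ sf J ⊔ sf N) ⟨_, J.algebraMap_mem s, rfl⟩ }
      have h1 : J ≤ W := fun r hr => (le_sup_left : sf J ≤ sf J ⊔ sf N) ⟨r, hr, rfl⟩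
      have h2 : N ≤ W := fun r hr => (le_sup_right : sf N ≤ sf J ⊔ sf N) ⟨r, hr, rfl⟩
      have h3 : W = ⊤ := by
        rw [eq_top_iff, ← hJN]
        exact sup_le h1 h2
      rw [eq_top_iff]
      intro f _
      obtain ⟨r, rfl⟩ := hπ f
      have h4 : r ∈ W := by rw [h3]; trivial
      exact h4
    have h1 : ∀ U, J ≤ U → J ⊔ (U ⊓ N) = U := by
      intro U hU
      apply le_antisymm (sup_le hU inf_le_left)
      intro x hx
      have h2 := subfield_modular (sf J) (sf N) (sf U)
        (by rintro f ⟨r, hr, rfl⟩; exact ⟨r, hU hr, rfl⟩) hsup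
      have h3 : sf J ⊔ (sf U ⊓ sf N) ≤ sf (J ⊔ (U ⊓ N)) := by
        apply sup_le
        · rintro f ⟨r, hr, rfl⟩
          exact ⟨r, (le_sup_left : J ≤ J ⊔ (U ⊓ N)) hr, rfl⟩
        · rintro f ⟨⟨u, hu, rfl⟩, ⟨m, hm, hmu⟩⟩
          have h4 : u - m ∈ N := hMN (hker hmu.symm)
          have h5 : u ∈ N := by
            have := N.add_mem h4 hm
            rwa [sub_add_cancel] at this
          exact ⟨u, (le_sup_right : U ⊓ N ≤ J ⊔ (U ⊓ N)) ⟨hu, h5⟩, rfl⟩
      obtain ⟨w, hw, hwx⟩ := h3 (h2 ⟨x, hx, rfl⟩)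
      have h4 : w ∈ U := (sup_le hU inf_le_left : J ⊔ (U ⊓ N) ≤ U) hw
      have h5 : x - w ∈ U ⊓ N := ⟨sub_mem hx h4, hMN (hker hwx.symm)⟩
      have h6 := (J ⊔ (U ⊓ N)).add_mem ((le_sup_right : U ⊓ N ≤ J ⊔ (U ⊓ N)) h5) hw
      rwa [sub_add_cancel] at h6
    rcases one_crit hJ h1 with h2 | h2
    · exact good_of_split hJ h1 h2 (hG N hN.1)
    · exact Or.inl ⟨J, hJs, h2⟩

/-- two maximal ideals of a residue field equal to the image of the scalars that have the same
trace on the scalars -/
theorem two_case {F₁ F₂ : Type*} [Field F₁] [Field F₂] (π₁ : R →+* F₁) (π₂ : R →+* F₂)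
    (h₁ : ∀ r, ∃ s : S, π₁ (algebraMap S R s) = π₁ r)
    (h₂ : ∀ r, ∃ s : S, π₂ (algebraMap S R s) = π₂ r)
    (hs₂ : Function.Surjective π₂)
    (hker : ∀ s : S, π₁ (algebraMap S R s) = 0 ↔ π₂ (algebraMap S R s) = 0)
    (hr : ∃ r, π₁ r = 1 ∧ π₂ r = 0)
    (hG : ∀ M : Subalgebra S R, M ≠ ⊤ → Good (Set.Iic M)) : Good (Subalgebra S R) := by
  let M : Subalgebra S R :=
    { carrier := {x | ∃ s : S, π₁ x = π₁ (algebraMap S R s) ∧ π₂ x = π₂ (algebraMap S R s)}
      add_mem' := by
        rintro x y ⟨s, hs, hs'⟩ ⟨t, ht, ht'⟩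
        exact ⟨s + t, by rw [map_add, hs, ht, map_add, map_add],
          by rw [map_add, hs', ht', map_add, map_add]⟩
      mul_mem' := by
        rintro x y ⟨s, hs, hs'⟩ ⟨t, ht, ht'⟩
        exact ⟨s * t, by rw [map_mul, hs, ht, map_mul, map_mul],
          by rw [map_mul, hs', ht', map_mul, map_mul]⟩
      algebraMap_mem' := fun s => ⟨s, rfl, rfl⟩ }
  have hM : M ≠ ⊤ := by
    intro h
    obtain ⟨r, hr1, hr2⟩ := hr
    have h3 : r ∈ M := by rw [h]; trivial
    obtain ⟨s, hs, hs'⟩ := h3
    rw [hr2] at hs'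
    have h4 := (hker s).2 hs'.symm
    rw [h4, hr1] at hs
    exact one_ne_zero hs
  refine ideal_caseU S M hM ?_ (hG M hM)
  intro J hJ x
  obtain ⟨v, hv, hvM⟩ : ∃ v ∈ J, v ∉ M := by
    by_contra hno
    push Not at hno
    exact hJ hno
  obtain ⟨s, hs⟩ := h₁ v
  set v' := v - algebraMap S R s with hv'
  have hv'J : v' ∈ J := sub_mem hv (J.algebraMap_mem s)
  have hv'1 : π₁ v' = 0 := by rw [hv', map_sub, hs, sub_self]
  have hv'2 : π₂ v' ≠ 0 := by
    intro h
    apply hvM
    refine ⟨s, hs.symm, ?_⟩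
    rw [hv', map_sub, sub_eq_zero] at h
    exact h
  obtain ⟨r₀, hr₀⟩ := hs₂ (π₂ v')⁻¹
  obtain ⟨t, ht⟩ := h₂ r₀
  rw [hr₀] at ht
  obtain ⟨β, hβ⟩ := h₁ x
  obtain ⟨γ, hγ⟩ := h₂ (x - algebraMap S R β)
  refine ⟨algebraMap S R β + algebraMap S R γ * (algebraMap S R t * v'), ?_, 0, ?_, ?_⟩
  · exact J.add_mem (J.algebraMap_mem β) (J.mul_mem (J.algebraMap_mem γ)
      (J.mul_mem (J.algebraMap_mem t) hv'J))
  · rw [map_sub, map_add, map_mul, map_mul, hv'1, hβ]
    simp
  · rw [map_sub, map_add, map_mul, map_mul, ht, inv_mul_cancel₀ hv'2, hγ, map_sub]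
    simp

/-- if the image of the scalars and the Jacobson radical span the algebra, then the image and the
square of the radical do not -/
theorem jac_sq (hne : (⊥ : Subalgebra S R) ≠ ⊤)
    (I : Ideal R) (hI : I = Ring.jacobson R)
    (hB : ∀ x : R, ∃ s : S, x - algebraMap S R s ∈ I) :
    ∃ P : Submodule S R, IsCoatom P ∧ (∀ s : S, algebraMap S R s ∈ P) ∧
      ∀ u ∈ I, ∀ v ∈ I, u * v ∈ P := by
  classical
  -- products of two elements of the radical
  let Q : Submodule S R := Submodule.span S {z | ∃ u ∈ I, ∃ v ∈ I, u * v = z}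
  let P₀ : Submodule S R := Subalgebra.toSubmodule (⊥ : Subalgebra S R) ⊔ Q
  have hP₀ : P₀ ≠ ⊤ := by
    intro htop
    obtain ⟨n, hn⟩ := IsSemiprimaryRing.isNilpotent (R := R)
    rw [← hI] at hn
    have key : ∀ k : ℕ, ∀ x : R, ∃ s : S, x - algebraMap S R s ∈ I ^ (k + 1) := by
      intro k
      induction k with
      | zero =>
        intro x
        obtain ⟨s, hs⟩ := hB x
        exact ⟨s, by rw [zero_add, Submodule.pow_one]; exact hs⟩
      | succ k ih =>
        intro x
        have hle : ∀ z ∈ I ^ (k + 1), z ∈ I := by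
          intro z hz
          exact Ideal.pow_le_self (by omega) hz
        have hQ : ∀ q ∈ Q, ∃ s : S, q - algebraMap S R s ∈ I ^ (k + 1 + 1) := by
          intro q hq
          induction hq using Submodule.span_induction with
          | mem z hz =>
            obtain ⟨u, hu, v, hv, rfl⟩ := hz
            obtain ⟨s, hs⟩ := ih u
            obtain ⟨t, ht⟩ := ih v
            have hsI : algebraMap S R s ∈ I := by
              have := I.sub_mem hu (hle _ hs)
              rwa [sub_sub_cancel] at this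
            have htI : algebraMap S R t ∈ I := by
              have := I.sub_mem hv (hle _ ht)
              rwa [sub_sub_cancel] at this
            refine ⟨s * t, ?_⟩
            set u' := u - algebraMap S R s with hu'
            set v' := v - algebraMap S R t with hv'
            have h1 : u * v - algebraMap S R (s * t) =
                v' * algebraMap S R s + u' * algebraMap S R t + u' * v' := by
              have h2 : u = algebraMap S R s + u' := by rw [hu']; abel
              have h3 : v = algebraMap S R t + v' := by rw [hv']; abel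
              rw [h2, h3, map_mul, ← Algebra.commutes s v']
              noncomm_ring
            rw [h1, Submodule.pow_succ]
            exact Submodule.add_mem _ (Submodule.add_mem _ (Ideal.mul_mem_mul ht hsI)
              (Ideal.mul_mem_mul hs htI)) (Ideal.mul_mem_mul hs (hle _ ht))
          | zero => exact ⟨0, by rw [map_zero, sub_zero]; exact Submodule.zero_mem _⟩
          | add y z _ _ hy hz =>
            obtain ⟨s, hs⟩ := hy
            obtain ⟨t, ht⟩ := hz
            refine ⟨s + t, ?_⟩
            have h1 : y + z - algebraMap S R (s + t) =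
                (y - algebraMap S R s) + (z - algebraMap S R t) := by rw [map_add]; abel
            rw [h1]
            exact Submodule.add_mem _ hs ht
          | smul a y _ hy =>
            obtain ⟨s, hs⟩ := hy
            refine ⟨a * s, ?_⟩
            have h1 : a • y - algebraMap S R (a * s) =
                algebraMap S R a * (y - algebraMap S R s) := by
              rw [Algebra.smul_def, map_mul, mul_sub]
            rw [h1]
            exact Ideal.mul_mem_left _ _ hs
        have hx : x ∈ P₀ := by rw [htop]; trivial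
        obtain ⟨b, hb, q, hq, rfl⟩ := Submodule.mem_sup.1 hx
        obtain ⟨s, rfl⟩ := Algebra.mem_bot.1 hb
        obtain ⟨t, ht⟩ := hQ q hq
        refine ⟨s + t, ?_⟩
        have h1 : algebraMap S R s + q - algebraMap S R (s + t) = q - algebraMap S R t := by
          rw [map_add]; abel
        rw [h1]
        exact ht
    apply hne
    rw [eq_top_iff]
    intro x _
    obtain ⟨s, hs⟩ := key n x
    have h1 : x - algebraMap S R s ∈ I ^ n := Ideal.pow_le_pow_right (Nat.le_succ n) hs
    rw [hn] at h1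
    have h2 : x - algebraMap S R s = 0 := h1
    rw [sub_eq_zero.1 h2]
    exact Subalgebra.algebraMap_mem _ s
  have hfinS : Finite (Submodule S R) :=
    Finite.of_injective (fun H : Submodule S R => (H : Set R)) SetLike.coe_injective
  obtain ⟨P, hP, hNP⟩ := (eq_top_or_exists_le_coatom P₀).resolve_left hP₀
  have hBP : ∀ s : S, algebraMap S R s ∈ P := fun s => hNP
    ((le_sup_left : Subalgebra.toSubmodule (⊥ : Subalgebra S R) ≤ P₀)
      (Subalgebra.algebraMap_mem _ s))
  have hQP : ∀ u ∈ I, ∀ v ∈ I, u * v ∈ P := fun u hu v hv => hNP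
    ((le_sup_right : Q ≤ P₀) (Submodule.subset_span ⟨u, hu, v, hv, rfl⟩))
  exact ⟨P, hP, hBP, hQP⟩

/-- the image of the scalars and the Jacobson radical span the algebra -/
theorem jac_case (hne : (⊥ : Subalgebra S R) ≠ ⊤)
    (hB : ∀ x : R, ∃ s : S, x - algebraMap S R s ∈ Ring.jacobson R)
    (hG : ∀ M : Subalgebra S R, M ≠ ⊤ → Good (Set.Iic M)) : Good (Subalgebra S R) := by
  classical
  obtain ⟨I, hI⟩ : ∃ I, I = Ring.jacobson R := ⟨_, rfl⟩
  rw [← hI] at hB
  obtain ⟨P, hP, hBP, hQP⟩ := jac_sq S hne I hI hB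
  let M : Subalgebra S R :=
    { carrier := {x | x ∈ P}
      add_mem' := fun {x y} hx hy => P.add_mem hx hy
      algebraMap_mem' := hBP
      mul_mem' := by
        intro x y hx hy
        change x * y ∈ P
        obtain ⟨s, hs⟩ := hB x
        obtain ⟨t, ht⟩ := hB y
        set u := x - algebraMap S R s with hu
        set v := y - algebraMap S R t with hv
        have h1 : x * y = algebraMap S R (s * t) + s • v + t • u + u * v := by
          have h2 : x = algebraMap S R s + u := by rw [hu]; abel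
          have h3 : y = algebraMap S R t + v := by rw [hv]; abel
          rw [h2, h3, map_mul, Algebra.smul_def, Algebra.smul_def, Algebra.commutes t u]
          noncomm_ring
        rw [h1]
        exact P.add_mem (P.add_mem (P.add_mem (hBP _) (P.smul_mem s (P.sub_mem hy (hBP t))))
          (P.smul_mem t (P.sub_mem hx (hBP s)))) (hQP u hs v ht) }
  have hMP : ∀ x, x ∈ M ↔ x ∈ P := fun x => Iff.rfl
  have hM : M ≠ ⊤ := by
    intro h
    apply hP.1
    rw [Submodule.eq_top_iff']
    intro x
    have : x ∈ M := by rw [h]; trivial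
    exact this
  refine ideal_caseU S M hM ?_ (hG M hM)
  intro J hJ x
  have h3 : Subalgebra.toSubmodule J ⊔ P = ⊤ := by
    apply hP.2
    refine lt_of_le_of_ne le_sup_right (fun h => hJ (fun r hr => ?_))
    rw [hMP, h]
    exact (le_sup_left : Subalgebra.toSubmodule J ≤ Subalgebra.toSubmodule J ⊔ P) hr
  have h4 : x ∈ Subalgebra.toSubmodule J ⊔ P := by rw [h3]; trivial
  obtain ⟨j, hj, p, hp, rfl⟩ := Submodule.mem_sup.1 h4
  exact ⟨j, hj, by rw [hMP, add_sub_cancel_left]; exact hp⟩

end Pool.Agent.R636.FL
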