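import Pool.Agent.R636.FUni2

/-!
# Unital subalgebras of finite unital algebras: conclusion
-/

set_option autoImplicit false
set_option linter.unusedSectionVars false

namespace Pool.Agent.R636.FL

open Pool.Agent.Y396.Frankl

universe u v

/-- the unital subalgebras of a unital subalgebra are the ones contained in it -/
def subIsoU (S : Type v) [CommRing S] {R : Type u} [Ring R] [Algebra S R] (M : Subalgebra S R) :
    Subalgebra S M ≃o Set.Iic M where
  toFun V := ⟨{ carrier := {r | ∃ h : r ∈ M, (⟨r, h⟩ : M) ∈ V}
                add_mem' := by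
                  rintro p q ⟨h1, h2⟩ ⟨h3, h4⟩
                  exact ⟨M.add_mem h1 h3, V.add_mem h2 h4⟩
                mul_mem' := by
                  rintro p q ⟨h1, h2⟩ ⟨h3, h4⟩
                  exact ⟨M.mul_mem h1 h3, V.mul_mem h2 h4⟩
                algebraMap_mem' := fun s => ⟨M.algebraMap_mem s, V.algebraMap_mem s⟩ },
    fun r hr => hr.1⟩
  invFun U :=
    { carrier := {r | r.1 ∈ U.1}
      add_mem' := fun {p q} hp hq => U.1.add_mem hp hq
      mul_mem' := fun {p q} hp hq => U.1.mul_mem hp hq
      algebraMap_mem' := fun s => U.1.algebraMap_mem s }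
  left_inv V := by
    ext ⟨r, hr⟩
    exact ⟨fun h => h.2, fun h => ⟨hr, h⟩⟩
  right_inv U := by
    apply Subtype.ext
    ext r
    exact ⟨fun h => h.2, fun h => ⟨U.2 h, h⟩⟩
  map_rel_iff' := by
    intro V W
    constructor
    · intro h r hr
      exact (h (show r.1 ∈ _ from ⟨r.2, hr⟩)).2
    · rintro h r ⟨h1, h2⟩
      exact ⟨h1, h h2⟩

theorem matrix_caseU' (S : Type v) [CommRing S] {R : Type u} [Ring R] [Algebra S R] [Finite R]
    {m : ℕ} (hm : 2 ≤ m) {F : Type*} [Field F] [Finite F]
    (π : R →+* Matrix (Fin m) (Fin m) F) (hπ : Function.Surjective π) :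
    Strong (Subalgebra S R) := by
  obtain ⟨k, rfl⟩ : ∃ k, m = k + 1 := ⟨m - 1, by omega⟩
  exact matrix_caseU S (by omega) π hπ

theorem exists_theta (m : ℕ) (hm : m = 1) (D : Type*) [DivisionRing D] :
    Nonempty (Matrix (Fin m) (Fin m) D ≃+* D) := by
  subst hm
  exact ⟨Matrix.uniqueRingEquiv⟩

theorem good_allU (S : Type v) [CommRing S] (n : ℕ) : ∀ (R : Type u) [Ring R] [Algebra S R]
    [Finite R], Nat.card R ≤ n → Good (Subalgebra S R) := by
  induction n with
  | zero =>
    intro R _ _ _ h
    have : 0 < Nat.card R := Nat.card_pos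
    omega
  | succ n ih =>
    intro R _ _ _ h
    have hfin := finSubU S R
    by_cases hR : (⊥ : Subalgebra S R) = ⊤
    · have : Subsingleton (Subalgebra S R) := subsingleton_of_bot_eq_top hR
      exact good_of_subsingleton
    have hG : ∀ M : Subalgebra S R, M ≠ ⊤ → Good (Set.Iic M) := by
      intro M hM
      refine (ih M ?_).congr (subIsoU S M)
      have h1 : Nat.card M < Nat.card R := by
        have h2 : (M : Set R) ≠ Set.univ := by
          intro h3
          apply hM
          ext x
          have : x ∈ (M : Set R) := by rw [h3]; trivial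
          exact ⟨fun _ => trivial, fun _ => this⟩
        have h3 := Set.ncard_lt_ncard (Set.ssubset_univ_iff.2 h2) (Set.toFinite _)
        rw [Set.ncard_univ] at h3
        exact h3
      omega
    obtain ⟨m, D, d, hD, hd, ⟨e⟩⟩ :=
      IsSemisimpleRing.exists_ringEquiv_pi_matrix_divisionRing (R ⧸ Ring.jacobson R)
    let q : R →+* (R ⧸ Ring.jacobson R) := Ideal.Quotient.mk (Ring.jacobson R)
    have hq : Function.Surjective q := Ideal.Quotient.mk_surjective
    let ev : ∀ i, R →+* Matrix (Fin (d i)) (Fin (d i)) (D i) := fun i =>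
      (Pi.evalRingHom _ i).comp (e.toRingHom.comp q)
    have hev : ∀ f : (∀ i, Matrix (Fin (d i)) (Fin (d i)) (D i)), ∃ r, ∀ i, ev i r = f i := by
      intro f
      obtain ⟨r, hr⟩ := hq (e.symm f)
      refine ⟨r, fun i => ?_⟩
      change e (q r) i = f i
      rw [hr, RingEquiv.apply_symm_apply]
    have hevs : ∀ i, Function.Surjective (ev i) := by
      intro i x
      obtain ⟨r, hr⟩ := hev (Pi.single i x)
      exact ⟨r, by rw [hr, Pi.single_eq_same]⟩
    have hfinD : ∀ i, Finite (D i) := by
      intro i
      have hfinM : Finite (Matrix (Fin (d i)) (Fin (d i)) (D i)) :=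
        Finite.of_surjective (ev i) (hevs i)
      have := hd i
      exact Finite.of_injective
        (fun x : D i => (Matrix.single 0 0 x : Matrix (Fin (d i)) (Fin (d i)) (D i)))
        (fun x y h => by simpa using congrFun (congrFun h 0) 0)
    by_cases h2 : ∃ i, 2 ≤ d i
    · obtain ⟨i, hi⟩ := h2
      have := hfinD i
      letI := littleWedderburn (D i)
      exact Or.inl (matrix_caseU' S hi (ev i) (hevs i))
    push Not at h2
    have hd1 : ∀ i, d i = 1 := by
      intro i
      have h3 := h2 i
      have h4 := (hd i).out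
      omega
    have θ : ∀ i, Matrix (Fin (d i)) (Fin (d i)) (D i) ≃+* D i := fun i =>
      Classical.choice (exists_theta (d i) (hd1 i) (D i))
    let ρ : ∀ i, R →+* D i := fun i => (θ i).toRingHom.comp (ev i)
    have hρ : ∀ f : (∀ i, D i), ∃ r, ∀ i, ρ i r = f i := by
      intro f
      obtain ⟨r, hr⟩ := hev (fun i => (θ i).symm (f i))
      refine ⟨r, fun i => ?_⟩
      change θ i (ev i r) = f i
      rw [hr, RingEquiv.apply_symm_apply]
    have hρs : ∀ i, Function.Surjective (ρ i) := by
      intro i x
      obtain ⟨r, hr⟩ := hρ (Pi.single i x)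
      exact ⟨r, by rw [hr, Pi.single_eq_same]⟩
    have hρ0 : ∀ r, (∀ i, ρ i r = 0) → r ∈ Ring.jacobson R := by
      intro r hr
      rw [← Ideal.Quotient.eq_zero_iff_mem]
      apply e.injective
      rw [map_zero]
      funext i
      have h3 : θ i (ev i r) = 0 := hr i
      have h4 : ev i r = 0 := (map_eq_zero_iff (θ i) (θ i).injective).1 h3
      exact h4
    have hcomm : ∀ i, ∀ x y : D i, x * y = y * x := fun i x y => by
      have := hfinD i
      exact (littleWedderburn (D i)).mul_comm x y
    by_cases h3 : ∃ i, ∃ r, ∀ s : S, ρ i (algebraMap S R s) ≠ ρ i r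
    · obtain ⟨i, r, hr⟩ := h3
      have := hfinD i
      letI := littleWedderburn (D i)
      refine field_caseU S (ρ i) (hρs i) ((ρ i).comp (algebraMap S R)) ?_ ?_ hG
      · intro s r
        rw [Algebra.smul_def, map_mul]
        rfl
      · intro hsurj
        obtain ⟨s, hs⟩ := hsurj (ρ i r)
        exact hr s hs
    push Not at h3
    by_cases h4 : ∃ i j, i ≠ j ∧ ∀ s : S, ρ i (algebraMap S R s) = 0 ↔ ρ j (algebraMap S R s) = 0
    · obtain ⟨i, j, hij, hk⟩ := h4
      have := hfinD i
      have := hfinD j
      letI := littleWedderburn (D i)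
      letI := littleWedderburn (D j)
      refine two_case S (ρ i) (ρ j) (h3 i) (h3 j) (hρs j) hk ?_ hG
      obtain ⟨r, hr⟩ := hρ (Pi.single i 1)
      exact ⟨r, by rw [hr, Pi.single_eq_same], by rw [hr, Pi.single_eq_of_ne hij.symm]⟩
    · push Not at h4
      refine jac_case S hR ?_ hG
      intro x
      let K : Fin m → Ideal S := fun i => RingHom.ker ((ρ i).comp (algebraMap S R))
      have hK : ∀ i, (K i).IsMaximal := by
        intro i
        have := hfinD i
        letI := littleWedderburn (D i)
        apply RingHom.ker_isMaximal_of_surjective ((ρ i).comp (algebraMap S R))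
        intro f
        obtain ⟨r, hr⟩ := hρs i f
        obtain ⟨s, hs⟩ := h3 i r
        exact ⟨s, hs.trans hr⟩
      have hcop : Pairwise (Function.onFun IsCoprime K) := by
        intro i j hij
        have := hK i
        have := hK j
        apply Ideal.isCoprime_of_isMaximal
        intro h5
        obtain ⟨s, hs⟩ := h4 i j hij
        have h6 : s ∈ K i ↔ s ∈ K j := by rw [h5]
        rw [RingHom.mem_ker, RingHom.mem_ker] at h6
        change (ρ i (algebraMap S R s) = 0 ↔ ρ j (algebraMap S R s) = 0) at h6
        tauto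
      choose t ht using fun i => h3 i x
      obtain ⟨s, hs⟩ := Ideal.exists_forall_sub_mem_ideal hcop t
      refine ⟨s, hρ0 _ fun i => ?_⟩
      have h5 := hs i
      rw [RingHom.mem_ker, map_sub, sub_eq_zero] at h5
      change ρ i (algebraMap S R s) = ρ i (algebraMap S R (t i)) at h5
      rw [map_sub, h5, ht, sub_self]

theorem good_algU (S : Type v) [CommRing S] (R : Type u) [Ring R] [Algebra S R] [Finite R] :
    Good (Subalgebra S R) :=
  good_allU S (Nat.card R) R le_rfl

theorem good_ringU (R : Type u) [Ring R] [Finite R] : Good (Subring R) :=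
  (good_algU ℤ R).congr
    { toEquiv := ⟨fun V => V.toSubring, fun V => subalgebraOfSubring V, fun V => by ext; rfl, fun V => by ext; rfl⟩
      map_rel_iff' := by intro V W; exact Iff.rfl }

end Pool.Agent.R636.FL
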