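import Mathlib

/-!
Definitions for the Folner function problem and the key inequality
`2 n |D| ≥ γ(m-1) (2n - m)`.
-/

open scoped Classical

namespace R636.Fol

variable {Γ : Type*} [Group Γ]

/-- The ball `B_S(r)`: the elements which are a product of at most `r` elements of `S`. -/
def ball (S : Set Γ) (r : ℕ) : Set Γ :=
  {x | ∃ l : List Γ, l.length ≤ r ∧ (∀ s ∈ l, s ∈ S) ∧ l.prod = x}

/-- The growth function `γ_S(r) = |B_S(r)|`. -/
noncomputable def growth (S : Set Γ) (r : ℕ) : ℕ := (ball S r).ncard

/-- The inner boundary `∂_S D = {x ∈ D : s x ∉ D for some s ∈ S}`. -/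
def innerBoundary (S : Set Γ) (D : Finset Γ) : Set Γ :=
  {x | x ∈ D ∧ ∃ s ∈ S, s * x ∉ D}

/-- The Folner function: the least `|D|` over the finite nonempty `D` with
`|∂_S D| / |D| ≤ 1 / n`, and `⊤` if there is none. -/
noncomputable def Fol (S : Set Γ) (n : ℕ) : ℕ∞ :=
  ⨅ (D : Finset Γ) (_ : D.Nonempty ∧
    ((innerBoundary S D).ncard : ℝ) / (D.card : ℝ) ≤ 1 / (n : ℝ)), (D.card : ℕ∞)

/-- The inverse of `g(x) = 2^(x-1)`, i.e. `t ↦ 1 + log_2 t`, with value `⊤` at `⊤`. -/
noncomputable def gInv : ℕ∞ → EReal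
  | ⊤ => ⊤
  | (t : ℕ) => ((1 + Real.logb 2 (t : ℝ) : ℝ) : EReal)

/-- The constant `K_g` for `g(x) = 2^(x-1)`: the infimum of `liminf g⁻¹(Føl(n)) / n` over the
groups `Γ` with a finite symmetric generating set `S` such that `γ_S(n-1) ≥ 2^(n-1)` for all
`n ≥ 1`. -/
noncomputable def K : EReal :=
  sInf {c : EReal | ∃ (Γ : Type) (_ : Group Γ) (S : Set Γ), S.Finite ∧ (∀ s ∈ S, s⁻¹ ∈ S) ∧
    Subgroup.closure S = ⊤ ∧ (∀ n : ℕ, 1 ≤ n → 2 ^ (n - 1) ≤ growth S (n - 1)) ∧
    c = Filter.liminf (fun n : ℕ => gInv (Fol S n) / (n : EReal)) Filter.atTop}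

lemma innerBoundary_finite (S : Set Γ) (D : Finset Γ) : (innerBoundary S D).Finite :=
  D.finite_toSet.subset (fun _ hx => hx.1)

/-- The inner boundary as a finset. -/
noncomputable def bd (S : Set Γ) (D : Finset Γ) : Finset Γ :=
  D.filter (fun x => ∃ s ∈ S, s * x ∉ D)

lemma bd_card (S : Set Γ) (D : Finset Γ) : (bd S D).card = (innerBoundary S D).ncard := by
  rw [← Set.ncard_coe_finset]
  congr 1
  ext x
  simp [bd, innerBoundary]

lemma cover (S : Set Γ) (hS : ∀ s ∈ S, s⁻¹ ∈ S) (D : Finset Γ) (l : List Γ) (hl : ∀ s ∈ l, s ∈ S) :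
    ∃ V : Finset Γ, V.card ≤ (l.length + 1) * (bd S D).card ∧
      (∀ x, l.prod * x ∈ bd S D → x ∈ V) ∧
      (∀ x, (x ∈ D ∧ l.prod * x ∉ D) ∨ (x ∉ D ∧ l.prod * x ∈ D) → x ∈ V) := by
  induction l with
  | nil =>
    refine ⟨bd S D, by simp, by simp, ?_⟩
    intro x hx
    simp at hx
  | cons s l ih =>
    obtain ⟨V, hV1, hV2, hV3⟩ := ih (fun t ht => hl t (List.mem_cons_of_mem _ ht))
    have hs : s ∈ S := hl s List.mem_cons_self
    refine ⟨V ∪ (bd S D).image (fun y => (s * l.prod)⁻¹ * y), ?_, ?_, ?_⟩
    · refine (Finset.card_union_le _ _).trans ?_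
      have h := Finset.card_image_le (s := bd S D) (f := fun y => (s * l.prod)⁻¹ * y)
      rw [List.length_cons]
      calc V.card + ((bd S D).image (fun y => (s * l.prod)⁻¹ * y)).card
          ≤ (l.length + 1) * (bd S D).card + (bd S D).card := add_le_add hV1 h
        _ = (l.length + 1 + 1) * (bd S D).card := by ring
    · intro x hx
      rw [Finset.mem_union]
      right
      rw [Finset.mem_image]
      exact ⟨_, hx, by simp [mul_assoc]⟩
    · intro x hx
      rw [Finset.mem_union]
      by_cases hw : l.prod * x ∈ D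
      · by_cases hx0 : x ∈ D
        · -- then s w x ∉ D
          rcases hx with hx | hx
          · left
            apply hV2
            simp only [bd, Finset.mem_filter]
            exact ⟨hw, s, hs, by simpa [mul_assoc] using hx.2⟩
          · exact absurd hx0 hx.1
        · left
          exact hV3 x (Or.inr ⟨hx0, hw⟩)
      · by_cases hx0 : x ∈ D
        · left
          exact hV3 x (Or.inl ⟨hx0, hw⟩)
        · rcases hx with hx | hx
          · exact absurd hx.1 hx0
          · right
            rw [Finset.mem_image]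
            refine ⟨(s :: l).prod * x, ?_, by simp [mul_assoc]⟩
            simp only [bd, Finset.mem_filter]
            refine ⟨hx.2, s⁻¹, hS s hs, ?_⟩
            simpa [mul_assoc] using hw

/-- For `w` of length at most `r` and finite `D`, `2 |{x ∈ D : w x ∉ D}| ≤ (r + 1) |∂ D|`. -/
lemma key (S : Set Γ) (hS : ∀ s ∈ S, s⁻¹ ∈ S) (D : Finset Γ) (r : ℕ) (w : Γ)
    (hw : w ∈ ball S r) :
    2 * (D.filter (fun x => w * x ∉ D)).card ≤ (r + 1) * (bd S D).card := by
  obtain ⟨l, hlr, hlS, rfl⟩ := hw
  obtain ⟨V, hV1, -, hV3⟩ := cover S hS D l hlS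
  set w := l.prod
  set A := D.filter (fun x => w * x ∉ D)
  set C := (D.image (fun y => w⁻¹ * y)).filter (fun x => x ∉ D)
  have hAC : Disjoint A C := by
    rw [Finset.disjoint_left]
    intro x hx hx'
    simp only [A, C, Finset.mem_filter] at hx hx'
    exact hx'.2 hx.1
  have hsub : A ∪ C ⊆ V := by
    intro x hx
    rw [Finset.mem_union] at hx
    rcases hx with hx | hx
    · simp only [A, Finset.mem_filter] at hx
      exact hV3 x (Or.inl hx)
    · simp only [C, Finset.mem_filter, Finset.mem_image] at hx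
      obtain ⟨⟨y, hy, rfl⟩, hx2⟩ := hx
      exact hV3 _ (Or.inr ⟨hx2, by simpa using hy⟩)
  have hcard : A.card = C.card := by
    have h1 : (D.image (fun y => w⁻¹ * y)).card = D.card :=
      Finset.card_image_of_injective _ (fun a b h => by simpa using h)
    have h2 := Finset.card_filter_add_card_filter_not (s := D) (fun x => w * x ∈ D)
    have h3 := Finset.card_filter_add_card_filter_not (s := D.image (fun y => w⁻¹ * y))
      (fun x => x ∈ D)
    have h4 : (D.image (fun y => w⁻¹ * y)).filter (fun x => x ∈ D) =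
        D.filter (fun x => w * x ∈ D) := by
      ext x
      simp only [Finset.mem_filter, Finset.mem_image]
      constructor
      · rintro ⟨⟨y, hy, rfl⟩, h⟩
        exact ⟨h, by simpa using hy⟩
      · rintro ⟨h, h'⟩
        exact ⟨⟨w * x, h', by simp⟩, h⟩
    rw [h4, h1] at h3
    have h5 : (D.filter (fun x => w * x ∈ D)).card + A.card = D.card := h2
    have h6 : (D.filter (fun x => w * x ∈ D)).card + C.card = D.card := h3
    omega
  calc 2 * A.card = A.card + C.card := by rw [← hcard]; ring
    _ = (A ∪ C).card := (Finset.card_union_of_disjoint hAC).symm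
    _ ≤ V.card := Finset.card_le_card hsub
    _ ≤ (l.length + 1) * (bd S D).card := hV1
    _ ≤ (r + 1) * (bd S D).card := by gcongr

lemma ball_finite (S : Set Γ) (hS : S.Finite) (r : ℕ) : (ball S r).Finite := by
  induction r with
  | zero =>
    refine (Set.finite_singleton (1 : Γ)).subset ?_
    rintro x ⟨l, h1, -, h3⟩
    have : l = [] := List.length_eq_zero_iff.mp (Nat.le_zero.mp h1)
    subst this
    simpa using h3.symm
  | succ r ih =>
    refine ((Set.finite_singleton (1 : Γ)).union (Set.Finite.image2 (fun a b => a * b) hS ih)).subset ?_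
    rintro x ⟨l, h1, h2, h3⟩
    cases l with
    | nil => left; simpa using h3.symm
    | cons a l =>
      right
      refine ⟨a, h2 a List.mem_cons_self, l.prod, ⟨l, by simpa using h1,
        fun s hs => h2 s (List.mem_cons_of_mem _ hs), rfl⟩, by simpa using h3⟩

/-- The averaged inequality: `γ(m - 1) (2 n - m) ≤ 2 n |D|` if `|∂ D| ≤ |D| / n`. -/
lemma averaged (S : Set Γ) (hfin : S.Finite) (hS : ∀ s ∈ S, s⁻¹ ∈ S) (D : Finset Γ)
    (hD : D.Nonempty) (n : ℕ) (hn : n * (bd S D).card ≤ D.card) (m : ℕ) :
    growth S m * (2 * n) ≤ 2 * n * D.card + growth S m * (m + 1) := by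
  classical
  have hB := ball_finite S hfin m
  set B : Finset Γ := hB.toFinset with hBdef
  have hBcard : B.card = growth S m := by
    rw [growth, Set.ncard_eq_toFinset_card _ hB]
  -- double counting
  have h1 : ∑ w ∈ B, (D.filter (fun x => w * x ∈ D)).card ≤ D.card * D.card := by
    have : ∑ w ∈ B, (D.filter (fun x => w * x ∈ D)).card =
        ∑ x ∈ D, (B.filter (fun w => w * x ∈ D)).card := by
      simp only [Finset.card_filter]
      exact Finset.sum_comm
    rw [this]
    calc ∑ x ∈ D, (B.filter (fun w => w * x ∈ D)).card ≤ ∑ x ∈ D, D.card := by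
          apply Finset.sum_le_sum
          intro x _
          refine Finset.card_le_card_of_injOn (fun w => w * x) ?_ ?_
          · intro w hw
            exact (Finset.mem_filter.mp hw).2
          · intro a _ b _ h
            simpa using h
      _ = D.card * D.card := by simp
  have h2 : ∀ w ∈ B, 2 * D.card ≤ 2 * (D.filter (fun x => w * x ∈ D)).card +
      (m + 1) * (bd S D).card := by
    intro w hw
    have hw' : w ∈ ball S m := by simpa [hBdef] using hw
    have h3 := key S hS D m w hw'
    have h4 := Finset.card_filter_add_card_filter_not (s := D) (fun x => w * x ∈ D)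
    omega
  have h3 : B.card * (2 * D.card) ≤ 2 * (D.card * D.card) + B.card * ((m + 1) * (bd S D).card) := by
    calc B.card * (2 * D.card) = ∑ w ∈ B, 2 * D.card := by simp
      _ ≤ ∑ w ∈ B, (2 * (D.filter (fun x => w * x ∈ D)).card + (m + 1) * (bd S D).card) :=
          Finset.sum_le_sum h2
      _ = 2 * ∑ w ∈ B, (D.filter (fun x => w * x ∈ D)).card +
            B.card * ((m + 1) * (bd S D).card) := by
          rw [Finset.sum_add_distrib, ← Finset.mul_sum]; simp
      _ ≤ _ := by gcongr
  have hpos : 0 < D.card := hD.card_pos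
  rw [hBcard] at h3
  have h5 : growth S m * (2 * n) * D.card ≤
      (2 * n * D.card + growth S m * (m + 1)) * D.card := by
    calc growth S m * (2 * n) * D.card = n * (growth S m * (2 * D.card)) := by ring
      _ ≤ n * (2 * (D.card * D.card) + growth S m * ((m + 1) * (bd S D).card)) := by gcongr
      _ = 2 * n * D.card * D.card + growth S m * (m + 1) * (n * (bd S D).card) := by ring
      _ ≤ 2 * n * D.card * D.card + growth S m * (m + 1) * D.card := by gcongr
      _ = _ := by ring
  exact Nat.le_of_mul_le_mul_right h5 hpos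

end R636.Fol
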