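import Mathlib
import Pool.Agent.R636.Fol

open scoped Classical symmDiff

namespace R636.Fol

/-- The lamplighter group, with lamps a finite subset of `ℤ` and a position in `ℤ`. -/
@[ext] structure Lamp : Type where
  lamps : Finset ℤ
  pos : ℤ

namespace Lamp

/-- shift a finset of integers -/
def sh (k : ℤ) (A : Finset ℤ) : Finset ℤ := A.map (addRightEmbedding k)

lemma mem_sh (k : ℤ) (A : Finset ℤ) (x : ℤ) : x ∈ sh k A ↔ x - k ∈ A := by
  simp only [sh, Finset.mem_map, addRightEmbedding_apply]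
  constructor
  · rintro ⟨a, ha, rfl⟩; simpa using ha
  · intro h; exact ⟨x - k, h, by ring⟩

noncomputable instance : Mul Lamp := ⟨fun x y => ⟨y.lamps ∆ sh y.pos x.lamps, x.pos + y.pos⟩⟩
noncomputable instance : One Lamp := ⟨⟨∅, 0⟩⟩
noncomputable instance : Inv Lamp := ⟨fun x => ⟨sh (-x.pos) x.lamps, -x.pos⟩⟩

@[simp] lemma mul_lamps (x y : Lamp) : (x * y).lamps = y.lamps ∆ sh y.pos x.lamps := rfl
@[simp] lemma mul_pos' (x y : Lamp) : (x * y).pos = x.pos + y.pos := rfl
@[simp] lemma one_lamps : (1 : Lamp).lamps = ∅ := rfl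
@[simp] lemma one_pos : (1 : Lamp).pos = 0 := rfl
@[simp] lemma inv_lamps (x : Lamp) : (x⁻¹).lamps = sh (-x.pos) x.lamps := rfl
@[simp] lemma inv_pos' (x : Lamp) : (x⁻¹).pos = -x.pos := rfl

noncomputable instance : Group Lamp :=
  Group.ofLeftAxioms
    (by
      intro x y z
      ext a
      · simp only [mul_lamps, mul_pos', Finset.mem_symmDiff, mem_sh]
        have : a - (y.pos + z.pos) = a - z.pos - y.pos := by ring
        rw [this]
        tauto
      · simp [add_assoc])
    (by
      intro x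
      ext a
      · simp [Finset.mem_symmDiff, mem_sh]
      · simp)
    (by
      intro x
      ext a
      · simp only [mul_lamps, inv_lamps, Finset.mem_symmDiff, mem_sh, one_lamps]
        have : a - x.pos - -x.pos = a := by ring
        rw [this]
        simp
      · simp)

/-- Move right. -/
def t : Lamp := ⟨∅, 1⟩
/-- Switch the lamp at the current position and move right. -/
def u : Lamp := ⟨{0}, 1⟩

/-- The generating set `{t, u, t⁻¹, u⁻¹}`. -/
noncomputable def S : Set Lamp := {t, u, t⁻¹, u⁻¹}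

lemma S_fin : S.Finite := by simp [S]

lemma S_symm : ∀ s ∈ S, s⁻¹ ∈ S := by
  intro s hs
  simp only [S, Set.mem_insert_iff, Set.mem_singleton_iff] at hs ⊢
  rcases hs with rfl | rfl | rfl | rfl <;> simp

lemma gen_t : t ∈ Subgroup.closure S := Subgroup.subset_closure (by simp [S])
lemma gen_u : u ∈ Subgroup.closure S := Subgroup.subset_closure (by simp [S])

lemma gen_pos (k : ℤ) : (⟨∅, k⟩ : Lamp) ∈ Subgroup.closure S := by
  have h : ∀ n : ℕ, (⟨∅, n⟩ : Lamp) ∈ Subgroup.closure S := by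
    intro n
    induction n with
    | zero => exact Subgroup.one_mem _
    | succ n ih =>
      have := Subgroup.mul_mem _ gen_t ih
      have h2 : t * ⟨∅, (n : ℤ)⟩ = (⟨∅, ((n + 1 : ℕ) : ℤ)⟩ : Lamp) := by
        ext a
        · simp [t, Finset.mem_symmDiff, mem_sh]
        · simp [t]; ring
      rwa [h2] at this
  rcases le_or_gt 0 k with hk | hk
  · obtain ⟨n, rfl⟩ := Int.eq_ofNat_of_zero_le hk
    exact h n
  · obtain ⟨n, hn⟩ := Int.eq_ofNat_of_zero_le (show 0 ≤ -k by omega)
    have := Subgroup.inv_mem _ (h n)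
    have h2 : (⟨∅, (n : ℤ)⟩ : Lamp)⁻¹ = ⟨∅, k⟩ := by
      ext a
      · simp [mem_sh]
      · simp; omega
    rwa [h2] at this

lemma gen_single (j : ℤ) : (⟨{j}, 0⟩ : Lamp) ∈ Subgroup.closure S := by
  have h1 := Subgroup.mul_mem _ (Subgroup.mul_mem _ (gen_pos (-j - 1)) gen_u) (gen_pos j)
  have h2 : (⟨∅, -j - 1⟩ : Lamp) * u * ⟨∅, j⟩ = ⟨{j}, 0⟩ := by
    ext a
    · simp [u, Finset.mem_symmDiff, mem_sh, sub_eq_zero]
    · simp [u]
  rwa [h2] at h1

lemma gen_lamps (A : Finset ℤ) : (⟨A, 0⟩ : Lamp) ∈ Subgroup.closure S := by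
  induction A using Finset.induction_on with
  | empty => exact Subgroup.one_mem _
  | insert j A hj ih =>
    have h1 := Subgroup.mul_mem _ (gen_single j) ih
    have h2 : (⟨{j}, 0⟩ : Lamp) * ⟨A, 0⟩ = ⟨insert j A, 0⟩ := by
      ext a
      · simp only [mul_lamps, Finset.mem_symmDiff, mem_sh, sub_zero, Finset.mem_singleton,
          Finset.mem_insert]
        constructor
        · rintro (h | h)
          · exact Or.inr h.1
          · exact Or.inl h.1
        · rintro (rfl | h)
          · exact Or.inr ⟨rfl, hj⟩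
          · exact Or.inl ⟨h, fun h' => hj (h' ▸ h)⟩
      · simp
    rwa [h2] at h1

lemma S_gen : Subgroup.closure S = ⊤ := by
  rw [eq_top_iff]
  rintro ⟨A, k⟩ -
  have h1 := Subgroup.mul_mem _ (gen_pos k) (gen_lamps A)
  have h2 : (⟨∅, k⟩ : Lamp) * ⟨A, 0⟩ = ⟨A, k⟩ := by
    ext a
    · simp [Finset.mem_symmDiff, mem_sh]
    · simp
  rwa [h2] at h1

/-- Elements with lamps in `[0, r)` and position `r` are in the ball of radius `r`. -/
lemma mem_ball (r : ℕ) : ∀ A ⊆ Finset.Ico (0 : ℤ) r, (⟨A, r⟩ : Lamp) ∈ ball S r := by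
  induction r with
  | zero =>
    intro A hA
    have : A = ∅ := by simpa using hA
    subst this
    exact ⟨[], by simp, by simp, rfl⟩
  | succ r ih =>
    intro A hA
    obtain ⟨l, h1, h2, h3⟩ := ih (A.erase r) (by
      intro x hx
      have hx2 := hA (Finset.mem_of_mem_erase hx)
      have hx3 := Finset.ne_of_mem_erase hx
      simp only [Finset.mem_Ico] at hx2 ⊢
      push_cast at hx2
      omega)
    by_cases hr : (r : ℤ) ∈ A
    · refine ⟨u :: l, by simpa using h1, ?_, ?_⟩
      · intro s hs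
        rcases List.mem_cons.mp hs with rfl | hs
        · simp [S]
        · exact h2 s hs
      · rw [List.prod_cons, h3]
        ext a
        · simp only [u, mul_lamps, Finset.mem_symmDiff, mem_sh, Finset.mem_erase,
            Finset.mem_singleton]
          constructor
          · rintro (⟨⟨h4, h5⟩, h6⟩ | ⟨h4, h5⟩)
            · exact h5
            · have : a = r := by omega
              rw [this]; exact hr
          · intro ha
            by_cases har : a = r
            · right; exact ⟨by omega, by tauto⟩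
            · left; exact ⟨⟨har, ha⟩, by omega⟩
        · simp [u]; ring
    · refine ⟨t :: l, by simpa using h1, ?_, ?_⟩
      · intro s hs
        rcases List.mem_cons.mp hs with rfl | hs
        · simp [S]
        · exact h2 s hs
      · rw [List.prod_cons, h3, Finset.erase_eq_of_notMem hr]
        ext a
        · simp [t, Finset.mem_symmDiff, mem_sh]
        · simp [t]; ring

lemma growth_ge (r : ℕ) : 2 ^ r ≤ growth S r := by
  have h1 : ((Finset.Ico (0 : ℤ) r).powerset.image (fun A => (⟨A, r⟩ : Lamp))).card = 2 ^ r := by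
    rw [Finset.card_image_of_injective, Finset.card_powerset]
    · simp
    · intro A B h
      simpa using congrArg Lamp.lamps h
  rw [← h1, growth, ← Set.ncard_coe_finset]
  refine Set.ncard_le_ncard ?_ (ball_finite S S_fin r)
  intro x hx
  simp only [Finset.coe_image, Set.mem_image, Finset.mem_coe, Finset.mem_powerset] at hx
  obtain ⟨A, hA, rfl⟩ := hx
  exact mem_ball r A hA

/-- The Folner sets. -/
noncomputable def Dset (n : ℕ) : Finset Lamp :=
  ((Finset.Ico (0 : ℤ) (2 * n - 1)).powerset ×ˢ Finset.Ico (0 : ℤ) (2 * n)).image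
    (fun p => (⟨p.1, p.2⟩ : Lamp))

lemma mem_Dset (n : ℕ) (x : Lamp) :
    x ∈ Dset n ↔ x.lamps ⊆ Finset.Ico (0 : ℤ) (2 * n - 1) ∧ 0 ≤ x.pos ∧ x.pos < 2 * n := by
  simp only [Dset, Finset.mem_image, Finset.mem_product, Finset.mem_powerset, Finset.mem_Ico,
    Prod.exists]
  constructor
  · rintro ⟨A, k, ⟨h1, h2⟩, rfl⟩
    exact ⟨h1, h2⟩
  · intro h
    exact ⟨x.lamps, x.pos, h, rfl⟩

lemma Dset_card (n : ℕ) (hn : 1 ≤ n) : (Dset n).card = n * 4 ^ n := by
  rw [Dset, Finset.card_image_of_injective, Finset.card_product, Finset.card_powerset]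
  · simp only [Int.card_Ico]
    have h1 : ((2 : ℤ) * n - 1 - 0).toNat = 2 * n - 1 := by omega
    have h2 : ((2 : ℤ) * n - 0).toNat = 2 * n := by omega
    rw [h1, h2]
    obtain ⟨m, rfl⟩ : ∃ m, n = m + 1 := ⟨n - 1, by omega⟩
    have h3 : 2 * (m + 1) - 1 = 2 * m + 1 := by omega
    rw [h3, pow_succ, pow_mul, pow_succ]
    norm_num
    ring
  · rintro ⟨A, k⟩ ⟨B, l⟩ h
    have h1 := congrArg Lamp.lamps h
    have h2 := congrArg Lamp.pos h
    simp at h1 h2
    rw [h1, h2]

lemma bd_sub (n : ℕ) (hn : 1 ≤ n) :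
    bd S (Dset n) ⊆ ((Finset.Ico (0 : ℤ) (2 * n - 1)).powerset ×ˢ ({0, 2 * (n : ℤ) - 1} : Finset ℤ)).image
    (fun p => (⟨p.1, p.2⟩ : Lamp)) := by
  rintro ⟨A, k⟩ hx
  simp only [bd, Finset.mem_filter, mem_Dset] at hx
  obtain ⟨⟨hA, hk0, hk1⟩, s, hs, hns⟩ := hx
  simp only [Finset.mem_image, Finset.mem_product, Finset.mem_powerset, Finset.mem_insert,
    Finset.mem_singleton, Prod.exists]
  refine ⟨A, k, ⟨hA, ?_⟩, rfl⟩
  by_contra hk
  push Not at hk
  obtain ⟨hk2, hk3⟩ := hk
  apply hns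
  have hsub : ∀ B : Finset ℤ, B ⊆ Finset.Ico (0 : ℤ) (2 * n - 1) →
      (A ∆ B) ⊆ Finset.Ico (0 : ℤ) (2 * n - 1) := by
    intro B hB x hx
    rcases Finset.mem_symmDiff.mp hx with h | h
    · exact hA h.1
    · exact hB h.1
  simp only [S, Set.mem_insert_iff, Set.mem_singleton_iff] at hs
  rcases hs with rfl | rfl | rfl | rfl
  · refine ⟨?_, by simp [t]; omega, by simp [t]; omega⟩
    simp only [mul_lamps, t]
    exact hsub _ (by simp [sh])
  · refine ⟨?_, by simp [u]; omega, by simp [u]; omega⟩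
    simp only [mul_lamps, u]
    refine hsub _ ?_
    intro x hx
    rw [mem_sh, Finset.mem_singleton] at hx
    rw [Finset.mem_Ico]
    omega
  · refine ⟨?_, by simp [t]; omega, by simp [t]; omega⟩
    simp only [mul_lamps, t, inv_lamps]
    exact hsub _ (by simp [sh])
  · refine ⟨?_, by simp [u]; omega, by simp [u]; omega⟩
    simp only [mul_lamps, u, inv_lamps]
    refine hsub _ ?_
    intro x hx
    rw [mem_sh, mem_sh, Finset.mem_singleton] at hx
    rw [Finset.mem_Ico]
    omega

lemma bd_card_le (n : ℕ) (hn : 1 ≤ n) : n * (bd S (Dset n)).card ≤ (Dset n).card := by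
  have h1 := Finset.card_le_card (bd_sub n hn)
  have h2 : (((Finset.Ico (0 : ℤ) (2 * n - 1)).powerset ×ˢ ({0, 2 * (n : ℤ) - 1} : Finset ℤ)).image
    (fun p => (⟨p.1, p.2⟩ : Lamp))).card ≤ 4 ^ n := by
    refine Finset.card_image_le.trans ?_
    rw [Finset.card_product, Finset.card_powerset, Int.card_Ico]
    have h1 : ((2 : ℤ) * n - 1 - 0).toNat = 2 * n - 1 := by omega
    rw [h1]
    have h4 : ({0, 2 * (n : ℤ) - 1} : Finset ℤ).card ≤ 2 := Finset.card_le_two
    obtain ⟨m, rfl⟩ : ∃ m, n = m + 1 := ⟨n - 1, by omega⟩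
    have h3 : 2 * (m + 1) - 1 = 2 * m + 1 := by omega
    rw [h3]
    calc 2 ^ (2 * m + 1) * _ ≤ 2 ^ (2 * m + 1) * 2 := by gcongr
      _ = 4 ^ (m + 1) := by rw [pow_succ, pow_mul, pow_succ]; norm_num; ring
  rw [Dset_card n hn]
  gcongr
  exact h1.trans h2

end Lamp

end R636.Fol
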