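import Mathlib
import Pool.Agent.R636.FolLamp

open scoped Classical
open Filter Topology

namespace R636.Fol

lemma ratio_iff {Γ : Type*} [Group Γ] (S : Set Γ) (D : Finset Γ) (hD : D.Nonempty) (n : ℕ)
    (hn : 1 ≤ n) :
    ((innerBoundary S D).ncard : ℝ) / (D.card : ℝ) ≤ 1 / (n : ℝ) ↔ n * (bd S D).card ≤ D.card := by
  rw [bd_card]
  have h1 : (0 : ℝ) < D.card := by exact_mod_cast hD.card_pos
  have h2 : (0 : ℝ) < n := by exact_mod_cast hn
  rw [div_le_div_iff₀ h1 h2]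
  constructor
  · intro h
    have : ((n * (innerBoundary S D).ncard : ℕ) : ℝ) ≤ (D.card : ℝ) := by
      push_cast; linarith
    exact_mod_cast this
  · intro h
    have : ((n * (innerBoundary S D).ncard : ℕ) : ℝ) ≤ (D.card : ℝ) := by exact_mod_cast h
    push_cast at this
    linarith

lemma lower {Γ : Type*} [Group Γ] (S : Set Γ) (hfin : S.Finite) (hS : ∀ s ∈ S, s⁻¹ ∈ S)
    (hg : ∀ n : ℕ, 1 ≤ n → 2 ^ (n - 1) ≤ growth S (n - 1)) (n : ℕ) (hn : 1 ≤ n) (k : ℕ)
    (hk : Fol S n = k) : 2 ^ (2 * n - 2) ≤ 2 * n * k := by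
  by_contra hlt
  push Not at hlt
  have h1 : ((k + 1 : ℕ) : ℕ∞) ≤ Fol S n := by
    refine le_iInf₂ ?_
    intro D hD
    have h2 := (ratio_iff S D hD.1 n hn).mp hD.2
    have h3 := averaged S hfin hS D hD.1 n h2 (2 * n - 2)
    have h4 := hg (2 * n - 1) (by omega)
    have h5 : 2 * n - 1 - 1 = 2 * n - 2 := by omega
    rw [h5] at h4
    have h6 : growth S (2 * n - 2) ≤ 2 * n * D.card := by
      have h7 : 2 * n - 2 + 1 = 2 * n - 1 := by omega
      rw [h7] at h3
      have h8 : growth S (2 * n - 2) * (2 * n) =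
          growth S (2 * n - 2) * (2 * n - 1) + growth S (2 * n - 2) := by
        obtain ⟨m, hm⟩ : ∃ m, 2 * n = m + 1 := ⟨2 * n - 1, by omega⟩
        rw [hm]
        simp
        ring
      omega
    have h9 : 2 * n * k < 2 * n * D.card := lt_of_lt_of_le hlt (h4.trans h6)
    have h10 : k < D.card := lt_of_mul_lt_mul_left h9 (Nat.zero_le _)
    exact_mod_cast h10
  rw [hk] at h1
  have : k + 1 ≤ k := by exact_mod_cast h1
  omega

lemma tendsto_aux : Tendsto (fun n : ℕ => Real.logb 2 (n : ℝ) / n) atTop (𝓝 0) := by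
  have h1 := Real.tendsto_pow_log_div_mul_add_atTop 1 0 1 one_ne_zero
  have h2 := (h1.comp tendsto_natCast_atTop_atTop).div_const (Real.log 2)
  simp only [zero_div] at h2
  refine h2.congr (fun n => ?_)
  simp [Function.comp, Real.logb]
  ring

lemma tendsto_lower :
    Tendsto (fun n : ℕ => ((2 * n - 1 - Real.logb 2 (2 * n)) / n : ℝ)) atTop (𝓝 2) := by
  have h1 : Tendsto (fun n : ℕ => (2 - 2 * ((n : ℝ))⁻¹ - Real.logb 2 (n : ℝ) / n : ℝ)) atTop
      (𝓝 (2 - 2 * 0 - 0)) :=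
    (tendsto_const_nhds.sub (tendsto_inv_atTop_nhds_zero_nat.const_mul 2)).sub tendsto_aux
  simp only [mul_zero, sub_zero] at h1
  refine h1.congr' ?_
  filter_upwards [eventually_ge_atTop 1] with n hn
  have h2 : (n : ℝ) ≠ 0 := by positivity
  rw [Real.logb_mul (by norm_num) h2, Real.logb_self_eq_one (by norm_num)]
  field_simp
  ring

lemma tendsto_upper :
    Tendsto (fun n : ℕ => ((1 + Real.logb 2 (n * 4 ^ n)) / n : ℝ)) atTop (𝓝 2) := by
  have h1 : Tendsto (fun n : ℕ => (2 + ((n : ℝ))⁻¹ + Real.logb 2 (n : ℝ) / n : ℝ)) atTop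
      (𝓝 (2 + 0 + 0)) :=
    (tendsto_const_nhds.add tendsto_inv_atTop_nhds_zero_nat).add tendsto_aux
  simp only [add_zero] at h1
  refine h1.congr' ?_
  filter_upwards [eventually_ge_atTop 1] with n hn
  have h2 : (n : ℝ) ≠ 0 := by positivity
  rw [Real.logb_mul h2 (by positivity)]
  have h3 : Real.logb 2 ((4 : ℝ) ^ n) = 2 * n := by
    have : (4 : ℝ) ^ n = 2 ^ ((2 * n : ℕ) : ℝ) := by
      rw [Real.rpow_natCast, pow_mul]; norm_num
    rw [this, Real.logb_rpow (by norm_num) (by norm_num)]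
    push_cast; ring
  rw [h3]
  field_simp
  ring

lemma gInv_coe (k : ℕ) : gInv (k : ℕ∞) = ((1 + Real.logb 2 (k : ℝ) : ℝ) : EReal) := rfl

lemma div_coe (a : ℝ) (n : ℕ) : ((a : ℝ) : EReal) / (n : EReal) = ((a / n : ℝ) : EReal) := by
  rw [EReal.coe_div]
  norm_cast

lemma liminf_ge {Γ : Type*} [Group Γ] (S : Set Γ) (hfin : S.Finite) (hS : ∀ s ∈ S, s⁻¹ ∈ S)
    (hg : ∀ n : ℕ, 1 ≤ n → 2 ^ (n - 1) ≤ growth S (n - 1)) :
    (2 : EReal) ≤ liminf (fun n : ℕ => gInv (Fol S n) / (n : EReal)) atTop := by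
  have h1 : Tendsto (fun n : ℕ => (((2 * n - 1 - Real.logb 2 (2 * n)) / n : ℝ) : EReal)) atTop
      (𝓝 ((2 : ℝ) : EReal)) := (continuous_coe_real_ereal.tendsto _).comp tendsto_lower
  have h2 : ((2 : ℝ) : EReal) = 2 := rfl
  rw [← h2, ← h1.liminf_eq]
  refine liminf_le_liminf ?_
  filter_upwards [eventually_ge_atTop 1] with n hn
  have hn0 : (0 : ℝ) < n := by exact_mod_cast hn
  rcases h3 : Fol S n with _ | k
  · have h4 : gInv none = ⊤ := rfl
    have : gInv none / (n : EReal) = ⊤ := by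
      rw [h4]
      exact EReal.top_div_of_pos_ne_top (by exact_mod_cast hn) (by exact_mod_cast EReal.coe_ne_top (n : ℝ))
    rw [this]
    exact le_top
  · have h5 : gInv (some k) = ((1 + Real.logb 2 (k : ℝ) : ℝ) : EReal) := rfl
    rw [h5, div_coe]
    rw [EReal.coe_le_coe_iff]
    have h6 := lower S hfin hS hg n hn k h3
    have h7 : (2 : ℝ) ^ ((2 * n - 2 : ℝ)) ≤ 2 * n * k := by
      have : ((2 ^ (2 * n - 2) : ℕ) : ℝ) ≤ ((2 * n * k : ℕ) : ℝ) := by exact_mod_cast h6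
      push_cast at this
      have h8 : (2 * (n : ℝ) - 2) = ((2 * n - 2 : ℕ) : ℝ) := by
        rw [Nat.cast_sub (by omega)]; push_cast; ring
      rw [h8, Real.rpow_natCast]
      exact this
    have hk0 : (0 : ℝ) < k := by
      have h9 : (0 : ℝ) < 2 * n * k := lt_of_lt_of_le (by positivity) h7
      rcases Nat.eq_zero_or_pos k with rfl | hk
      · simp at h9
      · exact_mod_cast hk
    have h9 := Real.logb_le_logb_of_le (b := 2) (by norm_num) (by positivity) h7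
    rw [Real.logb_rpow (by norm_num) (by norm_num),
      Real.logb_mul (by positivity) (by positivity)] at h9
    gcongr
    linarith

lemma Fol_lamp_le (n : ℕ) (hn : 1 ≤ n) : Fol Lamp.S n ≤ ((n * 4 ^ n : ℕ) : ℕ∞) := by
  rw [← Lamp.Dset_card n hn]
  have hne : (Lamp.Dset n).Nonempty := by
    rw [← Finset.card_pos, Lamp.Dset_card n hn]
    positivity
  refine iInf₂_le (Lamp.Dset n) ⟨hne, ?_⟩
  rw [ratio_iff _ _ hne n hn]
  exact Lamp.bd_card_le n hn

lemma liminf_lamp_le :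
    liminf (fun n : ℕ => gInv (Fol Lamp.S n) / (n : EReal)) atTop ≤ (2 : EReal) := by
  have h1 : Tendsto (fun n : ℕ => (((1 + Real.logb 2 (n * 4 ^ n)) / n : ℝ) : EReal)) atTop
      (𝓝 ((2 : ℝ) : EReal)) := (continuous_coe_real_ereal.tendsto _).comp tendsto_upper
  have h2 : ((2 : ℝ) : EReal) = 2 := rfl
  rw [← h2, ← h1.liminf_eq]
  refine liminf_le_liminf ?_
  filter_upwards [eventually_ge_atTop 1] with n hn
  have hn0 : (0 : ℝ) < n := by exact_mod_cast hn
  have h4 := Fol_lamp_le n hn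
  rcases h3 : Fol Lamp.S n with _ | k
  · rw [h3] at h4
    exact absurd h4 (by exact not_le_of_gt (ENat.coe_lt_top _))
  · rw [h3] at h4
    have h5 : gInv (some k) = ((1 + Real.logb 2 (k : ℝ) : ℝ) : EReal) := rfl
    rw [h5, div_coe, EReal.coe_le_coe_iff]
    have h6 : k ≤ n * 4 ^ n := by
      have : ((k : ℕ) : ℕ∞) ≤ ((n * 4 ^ n : ℕ) : ℕ∞) := h4
      exact_mod_cast this
    have h7 : Real.logb 2 (k : ℝ) ≤ Real.logb 2 ((n : ℝ) * 4 ^ n) := by
      rcases Nat.eq_zero_or_pos k with rfl | hk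
      · simp only [Nat.cast_zero, Real.logb_zero]
        apply Real.logb_nonneg (by norm_num)
        have : 1 ≤ n * 4 ^ n := Nat.mul_pos hn (by positivity)
        exact_mod_cast this
      · apply Real.logb_le_logb_of_le (by norm_num) (by exact_mod_cast hk)
        exact_mod_cast h6
    gcongr

/-- `K_g = 2` for `g(x) = 2^(x-1)`. -/
theorem K_eq_two : K = 2 := by
  apply le_antisymm
  · refine (sInf_le ?_).trans liminf_lamp_le
    refine ⟨Lamp, inferInstance, Lamp.S, Lamp.S_fin, Lamp.S_symm, Lamp.S_gen, ?_, rfl⟩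
    intro n _
    exact Lamp.growth_ge (n - 1)
  · refine le_sInf ?_
    rintro c ⟨Γ, hΓ, S, h1, h2, -, h3, rfl⟩
    exact liminf_ge S h1 h2 h3

end R636.Fol
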