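import Pool.Agent.H665Simp.P_pres_fam
import Pool.Agent.H665Simp.P_faithful
import Pool.Agent.H665Simp.P_model_fam
import Pool.Agent.H665Simp.P_seq_exists

/-!
The Higman-Thompson group on four letters: finite presentability.
-/

set_option autoImplicit false

namespace Pool.Agent.R636.HT

open Pool.Agent.H665Simp

/-- trivial label data -/
def D0 : LD Unit 3 where
  rel := {FreeGroup.of ()}
  rel_fin := Set.finite_singleton _
  act := fun _ => 1
  sec := fun _ _ => 1
  pt := ()

theorem D0_triv (g : D0.Gp) : g = 1 := by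
  have h1 : ∀ s : Unit, (PresentedGroup.of s : D0.Gp) = 1 := by
    intro s
    exact PresentedGroup.one_of_mem (rels := D0.rel) (x := FreeGroup.of ()) rfl
  have h2 : (⊤ : Subgroup D0.Gp) ≤ ⊥ := by
    rw [← PresentedGroup.closure_range_of, Subgroup.closure_le]
    rintro _ ⟨s, rfl⟩
    rw [h1]
    exact Subgroup.one_mem _
  exact Subgroup.mem_bot.1 (h2 (Subgroup.mem_top g))

/-- trivial self-similar action -/
def S0 : SS D0.Gp (3 + 1) where
  act := 1
  sec := fun _ _ => 1
  sec_mul := fun _ _ _ => by rw [one_mul]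

theorem S0_isSS : D0.IsSS 0 S0 := by
  refine ⟨fun s => rfl, fun s c => ?_⟩
  show (1 : D0.Gp) = evO _ _ (1 : FreeGroup (Option Unit))
  rw [map_one]

/-- Cantor space -/
abbrev W0 := ℕ → Fin (3 + 1)

/-- the group generated by the families -/
def VG (F : Fam S0 (Equiv.Perm W0)) : Subgroup (Equiv.Perm W0) :=
  Subgroup.closure (Set.range F.x ∪ Set.range F.p ∪ Set.range F.t)

theorem main_fp : ∃ (Ws : SSet S0 W0) (F0 : Fam S0 (Equiv.Perm W0)), Tab Ws F0 ∧
    ∃ (n : ℕ) (rels : Finset (FreeGroup (Fin n))),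
      Nonempty (VG F0 ≃* PresentedGroup (rels : Set (FreeGroup (Fin n)))) := by
  classical
  obtain ⟨Ws, -⟩ := seq_exists S0
  obtain ⟨F0, T⟩ := model_fam Ws (le_refl 3)
  refine ⟨Ws, F0, T, ?_⟩
  obtain ⟨R, hR, h⟩ := pres_fam D0 (le_refl 3)
  have h' := h 0 S0 S0_isSS
  have hR'f : (R ∪ {(FreeGroup.of Gn.y)⁻¹ * (FreeGroup.of (Gn.g D0.pt)) ^ 0}).Finite :=
    hR.union (Set.finite_singleton _)
  generalize (R ∪ {(FreeGroup.of Gn.y)⁻¹ * (FreeGroup.of (Gn.g D0.pt)) ^ 0}) = R' at h' hR'f
  obtain ⟨F, hgen, huniv⟩ := h'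
  obtain ⟨α, hα⟩ := huniv (Equiv.Perm W0) F0
  have hinj : Function.Injective α := by
    rw [injective_iff_map_eq_one]
    intro q hq
    refine faithful Ws (le_refl 3) F hgen F0 T α hα ?_ q hq
    intro g _
    rw [D0_triv g]
    exact SS.Dies.one
  have hrange : α.range = VG F0 := by
    have h1 : α.range = Subgroup.map α ⊤ := MonoidHom.range_eq_map α
    have h2 : Subgroup.closure (Set.range F.x ∪ Set.range F.p ∪ Set.range F.t ∪ Set.range F.l) = ⊤ :=
      hgen
    rw [h1, ← h2, MonoidHom.map_closure, VG]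
    have hx : α '' Set.range F.x = Set.range F0.x := by
      rw [← Set.range_comp]; congr 1; funext i; exact hα.x i
    have hp : α '' Set.range F.p = Set.range F0.p := by
      rw [← Set.range_comp]; congr 1; funext i; exact hα.p i
    have ht : α '' Set.range F.t = Set.range F0.t := by
      rw [← Set.range_comp]; congr 1; funext i; exact hα.t i
    have hl : α '' Set.range F.l = {1} := by
      rw [← Set.range_comp]
      ext y
      constructor
      · rintro ⟨g, rfl⟩
        rw [D0_triv g]
        simp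
      · intro hy
        exact ⟨1, by rw [Set.mem_singleton_iff.1 hy]; simp⟩
    rw [Set.image_union, Set.image_union, Set.image_union, hx, hp, ht, hl, Set.union_comm _ {1},
      ← Set.insert_eq, Subgroup.closure_insert_one]
  have e1 : PresentedGroup R' ≃* α.range := MonoidHom.ofInjective hinj
  have e2 : PresentedGroup R' ≃* VG F0 := e1.trans (MulEquiv.subgroupCongr hrange)
  have : Finite (Gn Unit 3) := by
    have : Function.Injective (fun g : Gn Unit 3 => (match g with
        | .x c => Sum.inl (Sum.inl c)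
        | .p c => Sum.inl (Sum.inr c)
        | .t => Sum.inr (Sum.inl ())
        | .g s => Sum.inr (Sum.inr (some s))
        | .y => Sum.inr (Sum.inr none) :
          (Fin (3 + 1) ⊕ Fin (3 + 1)) ⊕ (Unit ⊕ Option Unit))) := by
      intro g h hgh
      cases g <;> cases h <;> simp_all
    exact Finite.of_injective _ this
  obtain ⟨e⟩ : Nonempty (Gn Unit 3 ≃ Fin (Nat.card (Gn Unit 3))) := ⟨Finite.equivFin _⟩
  have hf : ((FreeGroup.freeGroupCongr e) '' R').Finite := hR'f.image _
  refine ⟨Nat.card (Gn Unit 3), hf.toFinset, ⟨?_⟩⟩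
  rw [hf.coe_toFinset]
  exact e2.symm.trans (PresentedGroup.equivPresentedGroup R' e)

end Pool.Agent.R636.HT
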