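import Pool.Agent.R636.HTA
import Pool.Agent.H665Simp.P_leaf_basic

/-!
Swaps of cones and generation.
-/

set_option autoImplicit false

namespace Pool.Agent.R636.HT

open Pool.Agent.H665Simp

/-- `s` exchanges the ranges of `f` and `h` and fixes all other points -/
structure IsSw (f h : W0 → W0) (s : Equiv.Perm W0) : Prop where
  l : ∀ w, s (f w) = h w
  r : ∀ w, s (h w) = f w
  o : ∀ z, z ∉ Set.range f → z ∉ Set.range h → s z = z

theorem IsSw.symm {f h : W0 → W0} {s : Equiv.Perm W0} (H : IsSw f h s) : IsSw h f s :=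
  ⟨H.r, H.l, fun z h1 h2 => H.o z h2 h1⟩

theorem IsSw.uniq {f h : W0 → W0} {s s' : Equiv.Perm W0} (H : IsSw f h s) (H' : IsSw f h s') :
    s = s' := by
  apply Equiv.ext
  intro z
  by_cases h1 : z ∈ Set.range f
  · obtain ⟨w, rfl⟩ := h1
    rw [H.l, H'.l]
  · by_cases h2 : z ∈ Set.range h
    · obtain ⟨w, rfl⟩ := h2
      rw [H.r, H'.r]
    · rw [H.o z h1 h2, H'.o z h1 h2]

theorem IsSw.sq {f h : W0 → W0} {s : Equiv.Perm W0} (H : IsSw f h s) : s * s = 1 := by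
  apply Equiv.ext
  intro z
  rw [Equiv.Perm.mul_apply, Equiv.Perm.one_apply]
  by_cases h1 : z ∈ Set.range f
  · obtain ⟨w, rfl⟩ := h1
    rw [H.l, H.r]
  · by_cases h2 : z ∈ Set.range h
    · obtain ⟨w, rfl⟩ := h2
      rw [H.r, H.l]
    · rw [H.o z h1 h2, H.o z h1 h2]

theorem IsSw.inv {f h : W0 → W0} {s : Equiv.Perm W0} (H : IsSw f h s) : s⁻¹ = s :=
  inv_eq_of_mul_eq_one_left H.sq

theorem inv_app (g : Equiv.Perm W0) (w : W0) : g⁻¹ (g w) = w := g.symm_apply_apply w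

theorem app_inv (g : Equiv.Perm W0) (w : W0) : g (g⁻¹ w) = w := g.apply_symm_apply w

theorem IsSw.conj {f h f' h' : W0 → W0} {s g : Equiv.Perm W0} (H : IsSw f h s)
    (hf : ∀ w, g (f w) = f' w) (hh : ∀ w, g (h w) = h' w) : IsSw f' h' (g * s * g⁻¹) := by
  refine ⟨fun w => ?_, fun w => ?_, fun z h1 h2 => ?_⟩
  · rw [← hf, Equiv.Perm.mul_apply, Equiv.Perm.mul_apply, inv_app, H.l, hh]
  · rw [← hh, Equiv.Perm.mul_apply, Equiv.Perm.mul_apply, inv_app, H.r, hf]
  · rw [Equiv.Perm.mul_apply, Equiv.Perm.mul_apply, H.o, app_inv]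
    · rintro ⟨w, hw⟩
      apply h1
      refine ⟨w, ?_⟩
      rw [← hf, hw, app_inv]
    · rintro ⟨w, hw⟩
      apply h2
      refine ⟨w, ?_⟩
      rw [← hh, hw, app_inv]

variable (Ws : SSet S0 W0) (F : Fam S0 (Equiv.Perm W0))

theorem leaf_lt (M k : ℕ) (h : k < (M + 1) * 3) (w : W0) : Ws.leaf M k w = Ws.lam k w := by
  unfold SSet.leaf
  rw [if_pos h]

theorem leaf_last (M : ℕ) (w : W0) : Ws.leaf M ((M + 1) * 3) w = Ws.spine (M + 1) w := by
  unfold SSet.leaf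
  rw [if_neg (lt_irrefl _)]

variable {Ws F}

theorem p_sw (T : Tab Ws F) (k : ℕ) : IsSw (Ws.lam k) (Ws.lam (k + 1)) (F.p k) := by
  refine ⟨fun w => T.p1 k w, fun w => T.p2 k w, fun z h1 h2 => ?_⟩
  obtain ⟨j, w, hj, rfl⟩ := leaf_cover Ws (by norm_num) (k + 1) z
  rcases lt_or_eq_of_le hj with h | h
  · rw [leaf_lt Ws _ _ h] at h1 h2 ⊢
    apply T.p3
    · rintro rfl; exact h1 ⟨w, rfl⟩
    · rintro rfl; exact h2 ⟨w, rfl⟩
  · rw [h, leaf_last]
    apply T.p4
    omega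

theorem t_sw (T : Tab Ws F) (M : ℕ) :
    IsSw (Ws.lam ((M + 1) * 3 - 1)) (Ws.spine (M + 1)) (F.t M) := by
  refine ⟨fun w => T.t1 M w, fun w => T.t2 M w, fun z h1 h2 => ?_⟩
  obtain ⟨j, w, hj, rfl⟩ := leaf_cover Ws (by norm_num) M z
  rcases lt_or_eq_of_le hj with h | h
  · rw [leaf_lt Ws _ _ h] at h1 h2 ⊢
    apply T.t3
    have : j ≠ (M + 1) * 3 - 1 := by rintro rfl; exact h1 ⟨w, rfl⟩
    omega
  · exfalso
    apply h2
    exact ⟨w, by rw [h, leaf_last]⟩

/-- adjacent swaps of leaves of level `M` -/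
def sg (F : Fam S0 (Equiv.Perm W0)) (M k : ℕ) : Equiv.Perm W0 :=
  if k + 1 < (M + 1) * 3 then F.p k else F.t M

theorem sg_sw (T : Tab Ws F) (M k : ℕ) (hk : k < (M + 1) * 3) :
    IsSw (Ws.leaf M k) (Ws.leaf M (k + 1)) (sg F M k) := by
  unfold sg
  by_cases h : k + 1 < (M + 1) * 3
  · rw [if_pos h]
    have h1 : Ws.leaf M k = Ws.lam k := by funext w; exact leaf_lt Ws _ _ hk w
    have h2 : Ws.leaf M (k + 1) = Ws.lam (k + 1) := by funext w; exact leaf_lt Ws _ _ h w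
    rw [h1, h2]
    exact p_sw T k
  · rw [if_neg h]
    have h0 : k + 1 = (M + 1) * 3 := by omega
    have h1 : Ws.leaf M k = Ws.lam ((M + 1) * 3 - 1) := by
      funext w; rw [leaf_lt Ws _ _ hk w]; congr 1; omega
    have h2 : Ws.leaf M (k + 1) = Ws.spine (M + 1) := by
      funext w; rw [h0, leaf_last]
    rw [h1, h2]
    exact t_sw T M

/-- disjoint leaves -/
theorem leaf_notin (M i j : ℕ) (hi : i ≤ (M + 1) * 3) (hj : j ≤ (M + 1) * 3) (hij : i ≠ j)
    (w : W0) : Ws.leaf M i w ∉ Set.range (Ws.leaf M j) := by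
  rintro ⟨w', h⟩
  exact hij ((leaf_inj Ws (by norm_num) M j i hj hi w' w h).1).symm

theorem sg_fix (T : Tab Ws F) (M k i : ℕ) (hk : k < (M + 1) * 3) (hi : i ≤ (M + 1) * 3)
    (h1 : i ≠ k) (h2 : i ≠ k + 1) (w : W0) : sg F M k (Ws.leaf M i w) = Ws.leaf M i w :=
  (sg_sw T M k hk).o _ (leaf_notin M i k hi hk.le h1 w) (leaf_notin M i (k + 1) hi hk h2 w)

/-- the group of permutations of leaves of level `M` -/
def PM (F : Fam S0 (Equiv.Perm W0)) (M : ℕ) : Subgroup (Equiv.Perm W0) :=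
  Subgroup.closure {s | ∃ k, k < (M + 1) * 3 ∧ s = sg F M k}

theorem sw_exists (T : Tab Ws F) (M i j : ℕ) (hij : i < j) (hj : j ≤ (M + 1) * 3) :
    ∃ q ∈ PM F M, IsSw (Ws.leaf M i) (Ws.leaf M j) q := by
  induction j with
  | zero => omega
  | succ j ih =>
    rcases Nat.lt_succ_iff_lt_or_eq.1 hij with h | h
    · obtain ⟨q, hq, hs⟩ := ih h (by omega)
      have hsg : sg F M j ∈ PM F M := Subgroup.subset_closure ⟨j, by omega, rfl⟩
      refine ⟨sg F M j * q * (sg F M j)⁻¹,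
        (PM F M).mul_mem ((PM F M).mul_mem hsg hq) ((PM F M).inv_mem hsg), ?_⟩
      refine hs.conj (fun w => ?_) (fun w => (sg_sw T M j (by omega)).l w)
      exact sg_fix T M j i (by omega) (by omega) (by omega) (by omega) w
    · subst h
      exact ⟨sg F M i, Subgroup.subset_closure ⟨i, by omega, rfl⟩, sg_sw T M i (by omega)⟩

theorem sw_exists' (T : Tab Ws F) (M i j : ℕ) (hij : i ≠ j) (hi : i ≤ (M + 1) * 3)
    (hj : j ≤ (M + 1) * 3) : ∃ q ∈ PM F M, IsSw (Ws.leaf M i) (Ws.leaf M j) q := by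
  rcases lt_or_gt_of_ne hij with h | h
  · exact sw_exists T M i j h hj
  · obtain ⟨q, hq, hs⟩ := sw_exists T M j i h hi
    exact ⟨q, hq, hs.symm⟩

theorem x_mem_VG (i : ℕ) : F.x i ∈ VG F := Subgroup.subset_closure (Or.inl (Or.inl ⟨i, rfl⟩))
theorem p_mem_VG (i : ℕ) : F.p i ∈ VG F := Subgroup.subset_closure (Or.inl (Or.inr ⟨i, rfl⟩))
theorem t_mem_VG (i : ℕ) : F.t i ∈ VG F := Subgroup.subset_closure (Or.inr ⟨i, rfl⟩)

theorem sg_mem_VG (M k : ℕ) : sg F M k ∈ VG F := by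
  unfold sg
  split_ifs
  · exact p_mem_VG k
  · exact t_mem_VG M

theorem PM_le (M : ℕ) : PM F M ≤ VG F := by
  rw [PM, Subgroup.closure_le]
  rintro _ ⟨k, -, rfl⟩
  exact sg_mem_VG M k

/-- the swap of a sub-cone of the first leaf with the last leaf -/
theorem v_exists (T : Tab Ws F) (M : ℕ) : ∃ v ∈ VG F,
    IsSw (fun w => Ws.leaf M 0 (Ws.cn 0 w)) (Ws.leaf M ((M + 1) * 3)) v := by
  obtain ⟨q, hq, hs⟩ := sw_exists T (M + 1) 0 ((M + 1 + 1) * 3) (by omega) le_rfl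
  refine ⟨F.x 0 * q * (F.x 0)⁻¹, (VG F).mul_mem ((VG F).mul_mem (x_mem_VG 0) (PM_le _ hq))
    ((VG F).inv_mem (x_mem_VG 0)), ?_⟩
  refine hs.conj (fun w => ?_) (fun w => ?_)
  · rw [leaf_lt Ws _ _ (by omega), leaf_lt Ws _ _ (by omega)]
    exact T.x2 0 0 w (by norm_num)
  · rw [leaf_last, leaf_last]
    exact T.x4 0 M w (by omega)

theorem u_exists (T : Tab Ws F) (M m c : ℕ) (hm : m < (M + 1) * 3) (hc : c < 3) : ∃ u ∈ VG F,
    IsSw (fun w => Ws.leaf M m (Ws.cn c w)) (fun w => Ws.leaf M m (Ws.cn (c + 1) w)) u := by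
  refine ⟨F.x m * F.p (m + c) * (F.x m)⁻¹, (VG F).mul_mem ((VG F).mul_mem (x_mem_VG m)
    (p_mem_VG _)) ((VG F).inv_mem (x_mem_VG m)), ?_⟩
  refine (p_sw T (m + c)).conj (fun w => ?_) (fun w => ?_)
  · rw [leaf_lt Ws _ _ hm]
    exact T.x2 m c w (by omega)
  · rw [leaf_lt Ws _ _ hm]
    have := T.x2 m (c + 1) w (by omega)
    rwa [← add_assoc] at this

/-- generation -/
theorem gen_aux (T : Tab Ws F) (M m : ℕ) (hM : 1 ≤ M) (hm : m < (M + 1) * 3)
    (E : Subgroup (Equiv.Perm W0)) (hP : PM F M ≤ E)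
    (hv : ∃ v ∈ E, IsSw (fun w => Ws.leaf M 0 (Ws.cn 0 w)) (Ws.leaf M ((M + 1) * 3)) v)
    (hu : ∀ c, c < 3 → ∃ u ∈ E,
      IsSw (fun w => Ws.leaf M m (Ws.cn c w)) (fun w => Ws.leaf M m (Ws.cn (c + 1) w)) u) :
    VG F ≤ E := by
  have conj_mem : ∀ g s, g ∈ E → s ∈ E → g * s * g⁻¹ ∈ E := fun g s hg hs =>
    E.mul_mem (E.mul_mem hg hs) (E.inv_mem hg)
  have hp1 : ∀ k, k + 1 < (M + 1) * 3 → F.p k ∈ E := by
    intro k hk
    apply hP
    apply Subgroup.subset_closure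
    refine ⟨k, by omega, ?_⟩
    unfold sg
    rw [if_pos hk]
  have htM : F.t M ∈ E := by
    apply hP
    apply Subgroup.subset_closure
    refine ⟨(M + 1) * 3 - 1, by omega, ?_⟩
    unfold sg
    rw [if_neg (by omega)]
  -- swaps of children of the last leaf
  have hu2 : ∀ c, c < 3 → ∃ u ∈ E,
      IsSw (fun w => Ws.spine (M + 1) (Ws.cn c w)) (fun w => Ws.spine (M + 1) (Ws.cn (c + 1) w)) u := by
    intro c hc
    obtain ⟨u, huE, hs⟩ := hu c hc
    obtain ⟨q, hq, hqs⟩ := sw_exists T M m ((M + 1) * 3) hm le_rfl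
    refine ⟨q * u * q⁻¹, conj_mem q u (hP hq) huE, hs.conj (fun w => ?_) (fun w => ?_)⟩
    · rw [hqs.l, leaf_last]
    · rw [hqs.l, leaf_last]
  have hp2 : ∀ c, c < 2 → F.p ((M + 1) * 3 + c) ∈ E := by
    intro c hc
    obtain ⟨u, huE, hs⟩ := hu2 c (by omega)
    have h1 : (fun w => Ws.spine (M + 1) (Ws.cn c w)) = Ws.lam ((M + 1) * 3 + c) := by
      funext w
      exact spine_cn Ws (by norm_num) M c (by omega) w
    have h2 : (fun w => Ws.spine (M + 1) (Ws.cn (c + 1) w)) = Ws.lam ((M + 1) * 3 + c + 1) := by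
      funext w
      exact spine_cn Ws (by norm_num) M (c + 1) (by omega) w
    rw [h1, h2] at hs
    rw [← hs.uniq (p_sw T _)]
    exact huE
  have ht2 : F.t (M + 1) ∈ E := by
    obtain ⟨u, huE, hs⟩ := hu2 2 (by omega)
    have h1 : (fun w => Ws.spine (M + 1) (Ws.cn 2 w)) = Ws.lam ((M + 1 + 1) * 3 - 1) := by
      funext w
      rw [spine_cn Ws (by norm_num) M 2 (by omega) w]
      congr 1
      omega
    have h2 : (fun w => Ws.spine (M + 1) (Ws.cn (2 + 1) w)) = Ws.spine (M + 1 + 1) := by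
      funext w
      exact (spine_succ' Ws (M + 1) w).symm
    rw [h1, h2] at hs
    rw [← hs.uniq (t_sw T _)]
    exact huE
  have hp3 : F.p ((M + 1) * 3 - 1) ∈ E := by
    obtain ⟨v, hvE, hs⟩ := hv
    obtain ⟨q, hq, hqs⟩ := sw_exists T M 0 ((M + 1) * 3) (by omega) le_rfl
    obtain ⟨q', hq', hqs'⟩ := sw_exists T M 0 ((M + 1) * 3 - 1) (by omega) (by omega)
    have h1 : IsSw (fun w => Ws.leaf M ((M + 1) * 3) (Ws.cn 0 w)) (Ws.leaf M 0) (q * v * q⁻¹) :=
      hs.conj (fun w => hqs.l _) (fun w => hqs.r w)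
    have h2 : IsSw (fun w => Ws.leaf M ((M + 1) * 3) (Ws.cn 0 w)) (Ws.leaf M ((M + 1) * 3 - 1))
        (q' * (q * v * q⁻¹) * q'⁻¹) := by
      refine h1.conj (fun w => ?_) (fun w => hqs'.l w)
      exact hqs'.o _ (leaf_notin M _ _ le_rfl (by omega) (by omega) _)
        (leaf_notin M _ _ le_rfl (by omega) (by omega) _)
    have h3 : (fun w => Ws.leaf M ((M + 1) * 3) (Ws.cn 0 w)) = Ws.lam ((M + 1) * 3 - 1 + 1) := by
      funext w
      rw [leaf_last, spine_cn Ws (by norm_num) M 0 (by omega) w]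
      congr 1
    have h4 : Ws.leaf M ((M + 1) * 3 - 1) = Ws.lam ((M + 1) * 3 - 1) := by
      funext w
      exact leaf_lt Ws _ _ (by omega) w
    rw [h3, h4] at h2
    rw [← h2.symm.uniq (p_sw T _)]
    exact conj_mem _ _ (hP hq') (conj_mem _ _ (hP hq) hvE)
  have hp : ∀ k, k ≤ (M + 1) * 3 + 1 → F.p k ∈ E := by
    intro k hk
    rcases lt_or_ge (k + 1) ((M + 1) * 3) with h | h
    · exact hp1 k h
    · rcases lt_or_ge k ((M + 1) * 3) with h' | h'
      · have : k = (M + 1) * 3 - 1 := by omega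
        rw [this]; exact hp3
      · obtain ⟨c, rfl⟩ := Nat.exists_eq_add_of_le h'
        exact hp2 c (by omega)
  have hpr : ∀ n i, i + n ≤ (M + 1) * 3 + 2 → pr F.p i n ∈ E := by
    intro n i hin
    unfold pr
    apply Subgroup.list_prod_mem
    intro y hy
    rw [List.mem_map] at hy
    obtain ⟨k, hk, rfl⟩ := hy
    rw [List.mem_range] at hk
    exact hp _ (by omega)
  -- the expansions
  have hx0 : F.x ((M + 1) * 3 - 1) ∈ E := by
    have h1 := F.T2 M
    have h2 : F.t M * F.x ((M + 1) * 3 - 1) ∈ E := by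
      rw [h1]
      exact E.mul_mem (hpr _ _ (by omega)) ht2
    exact (E.mul_mem_cancel_left htM).1 h2
  have hx1 : ∀ j i, i + j = (M + 1) * 3 - 1 → F.x i ∈ E := by
    intro j
    induction j with
    | zero => intro i hi; rw [show i = (M + 1) * 3 - 1 by omega]; exact hx0
    | succ j ih =>
      intro i hi
      have h1 := F.B3 i
      have h2 : F.p i * F.x i ∈ E := by
        rw [h1]
        exact E.mul_mem (ih (i + 1) (by omega)) (hpr _ _ (by omega))
      exact (E.mul_mem_cancel_left (hp i (by omega))).1 h2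
  have hx2 : ∀ i, i ≤ 3 → F.x i ∈ E := fun i hi => hx1 ((M + 1) * 3 - 1 - i) i (by omega)
  have hxx : F.x 0 ∈ E := hx2 0 (by omega)
  have shift : ∀ a b, a * F.x 0 = F.x 0 * b → a ∈ E → b ∈ E := by
    intro a b h ha
    have : F.x 0 * b ∈ E := by rw [← h]; exact E.mul_mem ha hxx
    exact (E.mul_mem_cancel_left hxx).1 this
  have hX : ∀ i, F.x i ∈ E := by
    intro i
    induction i using Nat.strong_induction_on with
    | _ i ih =>
      by_cases h : i ≤ 3
      · exact hx2 i h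
      · obtain ⟨j, rfl⟩ : ∃ j, i = j + 3 := ⟨i - 3, by omega⟩
        exact shift _ _ (F.A 0 j (by omega)) (ih j (by omega))
  have hPp : ∀ i, F.p i ∈ E := by
    intro i
    induction i using Nat.strong_induction_on with
    | _ i ih =>
      by_cases h : i ≤ 3
      · exact hp i (by omega)
      · obtain ⟨j, rfl⟩ : ∃ j, i = j + 3 := ⟨i - 3, by omega⟩
        exact shift _ _ (F.B1 0 j (by omega)) (ih j (by omega))
  have hT1 : ∀ j, F.t (M + j) ∈ E := by
    intro j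
    induction j with
    | zero => exact htM
    | succ j ih => exact shift _ _ (F.T1 (M + j) 0 (by omega)) ih
  have hT2 : ∀ j, j ≤ M → F.t (M - j) ∈ E := by
    intro j
    induction j with
    | zero => intro _; exact htM
    | succ j ih =>
      intro hj
      have h1 := F.T1 (M - (j + 1)) 0 (by omega)
      rw [show M - (j + 1) + 1 = M - j by omega] at h1
      have h2 : F.t (M - (j + 1)) * F.x 0 ∈ E := by
        rw [h1]; exact E.mul_mem hxx (ih (by omega))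
      exact (E.mul_mem_cancel_right hxx).1 h2
  have hTt : ∀ N, F.t N ∈ E := by
    intro N
    rcases le_total N M with h | h
    · have := hT2 (M - N) (by omega)
      rwa [show M - (M - N) = N by omega] at this
    · obtain ⟨j, rfl⟩ := Nat.exists_eq_add_of_le h
      exact hT1 j
  rw [VG, Subgroup.closure_le]
  rintro _ ((⟨i, rfl⟩ | ⟨i, rfl⟩) | ⟨i, rfl⟩)
  · exact hX i
  · exact hPp i
  · exact hTt i

end Pool.Agent.R636.HT
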