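import Pool.Agent.R636.HTB

/-!
States: forests of boxes, and their number.
-/

set_option autoImplicit false

namespace Pool.Agent.R636.HT

open Pool.Agent.H665Simp

/-- trees of boxes; leaves carry the name of an unopened box -/
inductive Tr
  | lf (b : ℕ) : Tr
  | nd (ch : Fin 4 → Tr) : Tr

namespace Tr

/-- number of opened boxes -/
def nodes : Tr → ℕ
  | lf _ => 0
  | nd ch => 1 + ∑ i, nodes (ch i)

/-- all names are smaller than `N` -/
def bdd (N : ℕ) : Tr → Prop
  | lf b => b < N
  | nd ch => ∀ i, bdd N (ch i)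

theorem bdd_mono {N N' : ℕ} (h : N ≤ N') : ∀ t : Tr, t.bdd N → t.bdd N'
  | lf _ => fun h1 => lt_of_lt_of_le h1 h
  | nd ch => fun h1 i => bdd_mono h (ch i) (h1 i)

/-- preorder code -/
def enc : Tr → List ℕ
  | lf b => [b + 1]
  | nd ch => 0 :: (enc (ch 0) ++ (enc (ch 1) ++ (enc (ch 2) ++ enc (ch 3))))

theorem enc_length (t : Tr) : t.enc.length = 1 + 4 * t.nodes := by
  induction t with
  | lf b => rfl
  | nd ch ih =>
    simp only [enc, nodes, List.length_cons, List.length_append, ih, Fin.sum_univ_four]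
    ring

theorem enc_bdd {N : ℕ} (t : Tr) (h : t.bdd N) : ∀ a ∈ t.enc, a ≤ N := by
  induction t with
  | lf b =>
    intro a ha
    simp only [enc, List.mem_singleton] at ha
    subst ha
    exact h
  | nd ch ih =>
    intro a ha
    simp only [enc, List.mem_cons, List.mem_append] at ha
    rcases ha with ha | ha | ha | ha | ha
    · omega
    · exact ih 0 (h 0) a ha
    · exact ih 1 (h 1) a ha
    · exact ih 2 (h 2) a ha
    · exact ih 3 (h 3) a ha

theorem enc_inj (t : Tr) : ∀ (t' : Tr) (r r' : List ℕ), t.enc ++ r = t'.enc ++ r' →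
    t = t' ∧ r = r' := by
  induction t with
  | lf b =>
    intro t' r r' h
    cases t' with
    | lf b' =>
      simp only [enc, List.cons_append, List.nil_append, List.cons.injEq] at h
      obtain ⟨h1, h2⟩ := h
      exact ⟨by rw [Nat.succ_injective h1], h2⟩
    | nd ch' => simp [enc] at h
  | nd ch ih =>
    intro t' r r' h
    cases t' with
    | lf b' => simp [enc] at h
    | nd ch' =>
      simp only [enc, List.cons_append, List.cons.injEq, true_and, List.append_assoc] at h
      obtain ⟨h0, h⟩ := ih 0 _ _ _ h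
      obtain ⟨h1, h⟩ := ih 1 _ _ _ h
      obtain ⟨h2, h⟩ := ih 2 _ _ _ h
      obtain ⟨h3, h⟩ := ih 3 _ _ _ h
      refine ⟨?_, h⟩
      congr 1
      funext i
      fin_cases i
      · exact h0
      · exact h1
      · exact h2
      · exact h3

end Tr

/-- code of a forest -/
def encF {n : ℕ} (t : Fin n → Tr) : List ℕ := (List.ofFn fun i => (t i).enc).flatten

theorem encF_length {n : ℕ} (t : Fin n → Tr) : (encF t).length = n + 4 * ∑ i, (t i).nodes := by
  unfold encF
  rw [List.length_flatten, List.map_ofFn, List.sum_ofFn]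
  simp only [Function.comp_apply, Tr.enc_length]
  rw [Finset.sum_add_distrib, ← Finset.mul_sum]
  simp

theorem encF_bdd {n N : ℕ} (t : Fin n → Tr) (h : ∀ i, (t i).bdd N) : ∀ a ∈ encF t, a ≤ N := by
  intro a ha
  unfold encF at ha
  rw [List.mem_flatten] at ha
  obtain ⟨l, hl, hal⟩ := ha
  rw [List.mem_ofFn] at hl
  obtain ⟨i, rfl⟩ := hl
  exact (t i).enc_bdd (h i) a hal

theorem encF_inj {n : ℕ} (t t' : Fin n → Tr) (h : encF t = encF t') : t = t' := by
  induction n with
  | zero => funext i; exact i.elim0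
  | succ n ih =>
    unfold encF at h
    rw [List.ofFn_succ, List.ofFn_succ, List.flatten_cons, List.flatten_cons] at h
    obtain ⟨h0, h1⟩ := Tr.enc_inj _ _ _ _ h
    have h2 := ih (fun i => t i.succ) (fun i => t' i.succ) h1
    funext i
    refine Fin.cases h0 (fun i => ?_) i
    exact congrFun h2 i

/-- lists of bounded length with bounded entries are determined by finitely many numbers -/
theorem list_eq_of_getD {l l' : List ℕ} {K a : ℕ} (hl : l.length ≤ K) (hl' : l'.length ≤ K)
    (h : ∀ x ∈ l, x < a) (h' : ∀ x ∈ l', x < a)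
    (hh : ∀ i, i < K → l.getD i a = l'.getD i a) : l = l' := by
  apply List.ext_getElem?
  intro i
  by_cases hi : i < K
  · have h1 := hh i hi
    by_cases h2 : i < l.length
    · by_cases h3 : i < l'.length
      · rw [List.getD_eq_getElem _ _ h2, List.getD_eq_getElem _ _ h3] at h1
        rw [List.getElem?_eq_getElem h2, List.getElem?_eq_getElem h3, h1]
      · rw [List.getD_eq_getElem _ _ h2, List.getD_eq_default _ _ (not_lt.1 h3)] at h1
        exact absurd (h _ (List.getElem_mem h2)) (by omega)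
    · by_cases h3 : i < l'.length
      · rw [List.getD_eq_getElem _ _ h3, List.getD_eq_default _ _ (not_lt.1 h2)] at h1
        exact absurd (h' _ (List.getElem_mem h3)) (by omega)
      · rw [List.getElem?_eq_none (not_lt.1 h2), List.getElem?_eq_none (not_lt.1 h3)]
  · rw [List.getElem?_eq_none (by omega), List.getElem?_eq_none (by omega)]

/-- a family of elements with bounded codes is small -/
theorem card_of_code {A : Type} (s : Set A) (K N a : ℕ) (c1 c2 : A → List ℕ)
    (h1 : ∀ x ∈ s, (c1 x).length ≤ K) (h2 : ∀ x ∈ s, (c2 x).length ≤ N)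
    (h3 : ∀ x ∈ s, ∀ y ∈ c1 x, y < a) (h4 : ∀ x ∈ s, ∀ y ∈ c2 x, y < a)
    (hinj : ∀ x ∈ s, ∀ y ∈ s, c1 x = c1 y → c2 x = c2 y → x = y) :
    s.Finite ∧ s.ncard ≤ (a + 1) ^ (K + N) := by
  classical
  set f : A → (Fin K → ℕ) × (Fin N → ℕ) := fun x =>
    (fun i => (c1 x).getD i a, fun i => (c2 x).getD i a) with hf
  set T : Finset ((Fin K → ℕ) × (Fin N → ℕ)) :=
    (Fintype.piFinset fun _ => Finset.range (a + 1)) ×ˢ
      (Fintype.piFinset fun _ => Finset.range (a + 1)) with hT
  have hmem : ∀ (l : List ℕ) (i : ℕ), (∀ y ∈ l, y < a) → l.getD i a < a + 1 := by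
    intro l i h
    by_cases hi : i < l.length
    · rw [List.getD_eq_getElem _ _ hi]
      exact (h _ (List.getElem_mem hi)).trans (Nat.lt_succ_self a)
    · rw [List.getD_eq_default _ _ (not_lt.1 hi)]
      exact Nat.lt_succ_self a
  have hmaps : ∀ x ∈ s, f x ∈ (T : Set ((Fin K → ℕ) × (Fin N → ℕ))) := by
    intro x hx
    rw [Finset.mem_coe, hT, Finset.mem_product, Fintype.mem_piFinset, Fintype.mem_piFinset]
    refine ⟨fun i => ?_, fun i => ?_⟩
    · rw [Finset.mem_range]; exact hmem _ _ (h3 x hx)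
    · rw [Finset.mem_range]; exact hmem _ _ (h4 x hx)
  have hinj' : Set.InjOn f s := by
    intro x hx y hy hxy
    have e1 := congrArg Prod.fst hxy
    have e2 := congrArg Prod.snd hxy
    apply hinj x hx y hy
    · exact list_eq_of_getD (h1 x hx) (h1 y hy) (h3 x hx) (h3 y hy)
        (fun i hi => congrFun e1 ⟨i, hi⟩)
    · exact list_eq_of_getD (h2 x hx) (h2 y hy) (h4 x hx) (h4 y hy)
        (fun i hi => congrFun e2 ⟨i, hi⟩)
  refine ⟨Set.Finite.of_injOn hmaps hinj' T.finite_toSet, ?_⟩
  refine (Set.ncard_le_ncard_of_injOn f hmaps hinj' T.finite_toSet).trans ?_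
  rw [Set.ncard_coe_finset, hT, Finset.card_product, Fintype.card_piFinset,
    Fintype.card_piFinset]
  simp [pow_add]

section Ev

variable (Ws : SSet S0 W0)

/-- the map described by a tree -/
def ev (B : List (W0 → W0)) : Tr → W0 → W0
  | .lf b => B.getD b id
  | .nd ch => fun y => ev B (ch (Ws.cons.symm y).1) (Ws.cons.symm y).2

theorem ev_nd (B : List (W0 → W0)) (ch : Fin 4 → Tr) (c : Fin 4) (y : W0) :
    ev Ws B (.nd ch) (Ws.cons (c, y)) = ev Ws B (ch c) y := by
  simp only [ev, Equiv.symm_apply_apply]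

theorem ev_append (B C : List (W0 → W0)) (t : Tr) : ∀ y, t.bdd B.length →
    ev Ws (B ++ C) t y = ev Ws B t y := by
  induction t with
  | lf b =>
    intro y h
    have h' : b < B.length := h
    show (B ++ C).getD b id y = B.getD b id y
    rw [List.getD_append _ _ _ _ h']
  | nd ch ih =>
    intro y h
    obtain ⟨⟨c, z⟩, rfl⟩ := Ws.cons.surjective y
    rw [ev_nd, ev_nd]
    exact ih c z (h c)

/-- the maps describing the boxes, for a list of opened boxes -/
def Bl (M : ℕ) : List ℕ → List (W0 → W0)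
  | [] => List.ofFn (fun j : Fin ((M + 1) * 3 + 1) => Ws.leaf M j)
  | b :: op => Bl M op ++ List.ofFn (fun c : Fin 4 => fun y => (Bl M op).getD b id (Ws.cons (c, y)))

theorem Bl_length (M : ℕ) (op : List ℕ) :
    (Bl Ws M op).length = (M + 1) * 3 + 1 + 4 * op.length := by
  induction op with
  | nil => rw [Bl, List.length_ofFn]; rfl
  | cons b op ih =>
    rw [Bl, List.length_append, ih, List.length_ofFn, List.length_cons]
    ring

/-- the opened box -/
theorem ev_open (M : ℕ) (op : List ℕ) (b : ℕ) (y : W0) :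
    ev Ws (Bl Ws M (b :: op)) (.nd fun c => .lf ((M + 1) * 3 + 1 + 4 * op.length + c)) y =
      ev Ws (Bl Ws M op) (.lf b) y := by
  obtain ⟨⟨c, z⟩, rfl⟩ := Ws.cons.surjective y
  rw [ev_nd]
  show (Bl Ws M (b :: op)).getD _ id z = (Bl Ws M op).getD b id _
  rw [Bl, ← Bl_length Ws M op, List.getD_append_right _ _ _ _ (Nat.le_add_right _ _),
    Nat.add_sub_cancel_left, List.getD_eq_getElem _ _ (by rw [List.length_ofFn]; exact c.2),
    List.getElem_ofFn]

end Ev

end Pool.Agent.R636.HT
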