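import Pool.Agent.R636.HTC

/-!
The invariant and the count of the balls.
-/

set_option autoImplicit false

namespace Pool.Agent.R636.HT

open Pool.Agent.H665Simp

theorem sum_change {n : ℕ} (A A' : Fin n → ℕ) (j : Fin n) (h : ∀ i, i ≠ j → A' i = A i) :
    ∑ i, A' i + A j = ∑ i, A i + A' j := by
  rw [← Finset.add_sum_erase _ A' (Finset.mem_univ j), ← Finset.add_sum_erase _ A (Finset.mem_univ j)]
  have : ∑ i ∈ Finset.univ.erase j, A' i = ∑ i ∈ Finset.univ.erase j, A i :=
    Finset.sum_congr rfl fun i hi => h i (Finset.ne_of_mem_erase hi)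
  rw [this]
  ring

/-- potential of a tree at the place `j` -/
def pot (M m : ℕ) (j : ℕ) : Tr → ℕ
  | .lf _ => min ((M + 1) * 3 - j) ((M + 1) * 3 - m)
  | .nd ch => ((M + 1) * 3 - m) * (Tr.nd ch).nodes

theorem pot_ge (M m j : ℕ) (t : Tr) : ((M + 1) * 3 - m) * t.nodes ≤ pot M m j t := by
  cases t with
  | lf b => simp [Tr.nodes]
  | nd ch => exact le_rfl

/-- a state describing `g` -/
structure Stt (Ws : SSet S0 W0) (M m n : ℕ) (g : Equiv.Perm W0) (op : List ℕ)
    (t : Fin ((M + 1) * 3 + 1) → Tr) : Prop where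
  hop : ∀ b ∈ op, b < (M + 1) * 3 + 1 + 4 * op.length
  hb : ∀ j, (t j).bdd ((M + 1) * 3 + 1 + 4 * op.length)
  hn : ∑ j, (t j).nodes = op.length
  hg : ∀ (j : Fin ((M + 1) * 3 + 1)) y, g⁻¹ (Ws.leaf M j y) = ev Ws (Bl Ws M op) (t j) y
  hp : ∑ j : Fin ((M + 1) * 3 + 1), pot M m j (t j) ≤
    ((M + 1) * 3 + 1) * ((M + 1) * 3 - m) + 2 * n

/-- there is a state describing `g` -/
def St (Ws : SSet S0 W0) (M m n : ℕ) (g : Equiv.Perm W0) : Prop :=
  ∃ op t, Stt Ws M m n g op t

variable {Ws : SSet S0 W0} {F : Fam S0 (Equiv.Perm W0)}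

theorem cn_fin (Ws : SSet S0 W0) (c : Fin 4) (w : W0) : Ws.cn c w = Ws.cons (c, w) := by
  unfold SSet.cn
  congr 2
  apply Fin.ext
  show (c : ℕ) % 4 = c
  exact Nat.mod_eq_of_lt c.2

theorem St_zero (M m : ℕ) : St Ws M m 0 1 := by
  refine ⟨[], fun j => .lf j, by simp, fun j => ?_, by simp [Tr.nodes], fun j y => ?_, ?_⟩
  · have := j.2
    show (j : ℕ) < (M + 1) * 3 + 1 + 4 * 0
    omega
  · show _ = (Bl Ws M []).getD j id y
    rw [Bl, List.getD_eq_getElem _ _ (by rw [List.length_ofFn]; exact j.2), List.getElem_ofFn]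
    simp
  · calc ∑ j : Fin ((M + 1) * 3 + 1), pot M m j (.lf j)
        ≤ ∑ _j : Fin ((M + 1) * 3 + 1), ((M + 1) * 3 - m) :=
          Finset.sum_le_sum fun j _ => min_le_right _ _
      _ ≤ _ := by simp

theorem St_mono {M m n n' : ℕ} {g : Equiv.Perm W0} (h : n ≤ n') (H : St Ws M m n g) :
    St Ws M m n' g := by
  obtain ⟨op, t, H⟩ := H
  exact ⟨op, t, H.hop, H.hb, H.hn, H.hg, H.hp.trans (by omega)⟩

theorem St_sg (T : Tab Ws F) {M m n k : ℕ} {g : Equiv.Perm W0} (hk : k < (M + 1) * 3)
    (H : St Ws M m n g) : St Ws M m (n + 1) (sg F M k * g) := by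
  classical
  obtain ⟨op, t, H⟩ := H
  set a : Fin ((M + 1) * 3 + 1) := ⟨k, by omega⟩ with ha
  set b : Fin ((M + 1) * 3 + 1) := ⟨k + 1, by omega⟩ with hb
  set σ : Equiv.Perm (Fin ((M + 1) * 3 + 1)) := Equiv.swap a b with hσ
  have hab : a ≠ b := by
    intro h; have := congrArg Fin.val h; simp [ha, hb] at this
  have hact : ∀ (j : Fin ((M + 1) * 3 + 1)) y, sg F M k (Ws.leaf M j y) = Ws.leaf M (σ j) y := by
    intro j y
    by_cases h1 : j = a
    · rw [h1, hσ, Equiv.swap_apply_left]
      exact (sg_sw T M k hk).l y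
    · by_cases h2 : j = b
      · rw [h2, hσ, Equiv.swap_apply_right]
        exact (sg_sw T M k hk).r y
      · rw [hσ, Equiv.swap_apply_of_ne_of_ne h1 h2]
        refine sg_fix T M k j hk (Nat.lt_succ_iff.1 j.2) ?_ ?_ y
        · intro h; exact h1 (Fin.ext h)
        · intro h; exact h2 (Fin.ext h)
  refine ⟨op, fun j => t (σ j), H.hop, fun j => H.hb _, ?_, fun j y => ?_, ?_⟩
  · rw [← H.hn]
    exact Equiv.sum_comp σ (fun j => (t j).nodes)
  · rw [mul_inv_rev, Equiv.Perm.mul_apply, (sg_sw T M k hk).inv, hact, H.hg]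
  · have e1 : ∑ j : Fin ((M + 1) * 3 + 1), pot M m j (t (σ j)) =
        ∑ j : Fin ((M + 1) * 3 + 1), pot M m (σ j) (t j) := by
      rw [← Equiv.sum_comp σ (fun j : Fin ((M + 1) * 3 + 1) => pot M m (σ j) (t j))]
      refine Finset.sum_congr rfl fun j _ => ?_
      have : σ (σ j) = j := by rw [hσ]; exact Equiv.swap_apply_self _ _ _
      rw [this]
    rw [e1]
    have e2 : ∀ j : Fin ((M + 1) * 3 + 1), pot M m (σ j) (t j) ≤
        pot M m j (t j) + ((if j = a then 1 else 0) + (if j = b then 1 else 0)) := by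
      intro j
      by_cases h1 : j = a
      · rw [h1, hσ, Equiv.swap_apply_left, if_pos rfl, if_neg hab]
        cases t a with
        | lf x => simp only [pot, ha, hb]; omega
        | nd ch => simp only [pot]; omega
      · by_cases h2 : j = b
        · rw [h2, hσ, Equiv.swap_apply_right, if_pos rfl, if_neg hab.symm]
          cases t b with
          | lf x => simp only [pot, ha, hb]; omega
          | nd ch => simp only [pot]; omega
        · rw [hσ, Equiv.swap_apply_of_ne_of_ne h1 h2]
          simp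
    refine (Finset.sum_le_sum fun j _ => e2 j).trans ?_
    rw [Finset.sum_add_distrib, Finset.sum_add_distrib (f := fun j => if j = a then 1 else 0),
      Finset.sum_ite_eq' Finset.univ a, Finset.sum_ite_eq' Finset.univ b,
      if_pos (Finset.mem_univ _), if_pos (Finset.mem_univ _)]
    have := H.hp
    omega

/-- opening the box at the place `j` -/
theorem Stt_open {M m n : ℕ} {g : Equiv.Perm W0} {op : List ℕ} {t : Fin ((M + 1) * 3 + 1) → Tr}
    (H : Stt Ws M m n g op t) (j : Fin ((M + 1) * 3 + 1)) (hj : (j : ℕ) ≤ m) :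
    ∃ op' t', Stt Ws M m n g op' t' ∧ ∃ ch, t' j = .nd ch := by
  classical
  cases htj : t j with
  | nd ch => exact ⟨op, t, H, ch, htj⟩
  | lf b =>
    have hb : b < (M + 1) * 3 + 1 + 4 * op.length := by
      have := H.hb j
      rw [htj] at this
      exact this
    set nt : Tr := .nd fun c : Fin 4 => .lf ((M + 1) * 3 + 1 + 4 * op.length + c) with hnt
    have hnodes : nt.nodes = 1 := by simp [hnt, Tr.nodes]
    refine ⟨b :: op, Function.update t j nt, ⟨?_, ?_, ?_, ?_, ?_⟩, _, Function.update_self _ _ _⟩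
    · intro b' hb'
      rw [List.length_cons]
      rcases List.mem_cons.1 hb' with rfl | hb'
      · omega
      · have := H.hop b' hb'
        omega
    · intro i
      rw [List.length_cons]
      by_cases hi : i = j
      · rw [hi, Function.update_self]
        intro c
        show (M + 1) * 3 + 1 + 4 * op.length + (c : ℕ) < _
        have := c.2
        omega
      · rw [Function.update_of_ne hi]
        exact Tr.bdd_mono (by omega) _ (H.hb i)
    · have h1 := sum_change (fun i => (t i).nodes) (fun i => (Function.update t j nt i).nodes) j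
        (fun i hi => by simp only [Function.update_of_ne hi])
      simp only [Function.update_self, htj, hnodes] at h1
      have h2 := H.hn
      have h3 : (Tr.lf b).nodes = 0 := rfl
      rw [List.length_cons]
      omega
    · intro i y
      by_cases hi : i = j
      · rw [hi, Function.update_self, H.hg, htj, ev_open]
      · rw [Function.update_of_ne hi, H.hg, Bl, ev_append]
        rw [Bl_length]
        exact H.hb i
    · have h1 := sum_change (fun i => pot M m i (t i)) (fun i => pot M m i (Function.update t j nt i)) j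
        (fun i hi => by simp only [Function.update_of_ne hi])
      simp only [Function.update_self, htj] at h1
      have h2 := H.hp
      have h3 : pot M m j (.lf b) = (M + 1) * 3 - m := by
        simp only [pot]
        omega
      have h4 : pot M m j nt = (M + 1) * 3 - m := by
        show ((M + 1) * 3 - m) * nt.nodes = _
        rw [hnodes, mul_one]
      rw [h3, h4] at h1
      omega

theorem St_v {M m n : ℕ} {g v : Equiv.Perm W0}
    (hv : IsSw (fun w => Ws.leaf M 0 (Ws.cn 0 w)) (Ws.leaf M ((M + 1) * 3)) v)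
    (H : St Ws M m n g) : St Ws M m (n + 1) (v * g) := by
  classical
  obtain ⟨op₀, t₀, H₀⟩ := H
  obtain ⟨op, t, H, ch, hch⟩ := Stt_open H₀ 0 (Nat.zero_le m)
  set last : Fin ((M + 1) * 3 + 1) := Fin.last _ with hlast
  have h0l : (0 : Fin ((M + 1) * 3 + 1)) ≠ last := by
    intro h; have := congrArg Fin.val h; simp [hlast] at this
  set nt : Tr := .nd (Function.update ch 0 (t last)) with hnt
  set t1 := Function.update t 0 nt with ht1
  set t2 := Function.update t1 last (ch 0) with ht2
  have e0 : t2 0 = nt := by rw [ht2, Function.update_of_ne h0l, ht1, Function.update_self]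
  have el : t2 last = ch 0 := by rw [ht2, Function.update_self]
  have eo : ∀ i, i ≠ 0 → i ≠ last → t2 i = t i := by
    intro i h1 h2
    rw [ht2, Function.update_of_ne h2, ht1, Function.update_of_ne h1]
  have hbch : ∀ c, (ch c).bdd ((M + 1) * 3 + 1 + 4 * op.length) := by
    have := H.hb 0
    rw [hch] at this
    exact this
  have hnodes : nt.nodes + (ch 0).nodes = (t 0).nodes + (t last).nodes := by
    rw [hch, hnt]
    simp only [Tr.nodes, Fin.sum_univ_four, Function.update_self]
    rw [Function.update_of_ne (by decide), Function.update_of_ne (by decide),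
      Function.update_of_ne (by decide)]
    ring
  have hsum : ∀ (A : Fin ((M + 1) * 3 + 1) → Tr → ℕ),
      ∑ i, A i (t2 i) + A 0 (t 0) + A last (t last) = ∑ i, A i (t i) + A 0 nt + A last (ch 0) := by
    intro A
    have h1 := sum_change (fun i => A i (t i)) (fun i => A i (t1 i)) 0
      (fun i hi => by simp only [ht1, Function.update_of_ne hi])
    have h2 := sum_change (fun i => A i (t1 i)) (fun i => A i (t2 i)) last
      (fun i hi => by simp only [ht2, Function.update_of_ne hi])
    have h3 : t1 0 = nt := by rw [ht1, Function.update_self]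
    have h4 : t1 last = t last := by rw [ht1, Function.update_of_ne h0l.symm]
    simp only [h3, h4, el] at h1 h2
    omega
  refine ⟨op, t2, ⟨H.hop, ?_, ?_, ?_, ?_⟩⟩
  · intro i
    by_cases h1 : i = 0
    · rw [h1, e0, hnt]
      intro c
      by_cases hc : c = 0
      · rw [hc, Function.update_self]; exact H.hb last
      · rw [Function.update_of_ne hc]; exact hbch c
    · by_cases h2 : i = last
      · rw [h2, el]; exact hbch 0
      · rw [eo i h1 h2]; exact H.hb i
  · have h1 := hsum (fun _ t => t.nodes)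
    have h2 := H.hn
    omega
  · intro i y
    rw [mul_inv_rev, Equiv.Perm.mul_apply, hv.inv]
    by_cases h1 : i = 0
    · rw [h1, e0]
      obtain ⟨⟨c, z⟩, rfl⟩ := Ws.cons.surjective y
      rw [hnt, ev_nd]
      by_cases hc : c = 0
      · rw [hc, Function.update_self]
        have h3 : Ws.leaf M ((0 : Fin ((M + 1) * 3 + 1)) : ℕ) (Ws.cons ((0 : Fin 4), z)) =
            Ws.leaf M 0 (Ws.cn 0 z) := by
          have := cn_fin Ws 0 z
          rw [← this]
          rfl
        rw [h3, hv.l, ← H.hg]
        rfl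
      · rw [Function.update_of_ne hc, hv.o, H.hg, hch, ev_nd]
        · rintro ⟨w, hw⟩
          have h3 := (leaf_inj Ws (by norm_num) M 0 0 (Nat.zero_le _) (Nat.zero_le _) _ _ hw).2
          have h4 := cn_fin Ws 0 w
          have h5 : Ws.cn ((0 : Fin 4) : ℕ) w = Ws.cn 0 w := rfl
          rw [← h5, h4] at h3
          have h6 := Ws.cons.injective h3
          exact hc (congrArg Prod.fst h6).symm
        · exact leaf_notin M 0 _ (Nat.zero_le _) le_rfl (by omega) _
    · by_cases h2 : i = last
      · rw [h2, el]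
        have h3 : Ws.leaf M (last : ℕ) y = Ws.leaf M ((M + 1) * 3) y := rfl
        rw [h3, hv.r]
        have h4 := H.hg 0 (Ws.cons ((0 : Fin 4), y))
        rw [hch, ev_nd] at h4
        rw [← h4]
        have h5 := cn_fin Ws 0 y
        rw [← h5]
        rfl
      · rw [eo i h1 h2, hv.o, H.hg]
        · rintro ⟨w, hw⟩
          have h3 := (leaf_inj Ws (by norm_num) M 0 i (Nat.zero_le _)
            (Nat.lt_succ_iff.1 i.2) _ _ hw).1
          exact h1 (Fin.ext h3.symm)
        · refine leaf_notin M i _ (Nat.lt_succ_iff.1 i.2) le_rfl ?_ _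
          intro h; exact h2 (Fin.ext h)
  · have h1 := hsum (fun i t => pot M m i t)
    have h2 := H.hp
    have hlp : ∀ s : Tr, pot M m (last : ℕ) s = ((M + 1) * 3 - m) * s.nodes := by
      intro s
      cases s with
      | lf b =>
        have : (last : ℕ) = (M + 1) * 3 := rfl
        simp only [pot, Tr.nodes, this]
        omega
      | nd ch => rfl
    have h3 : pot M m ((0 : Fin ((M + 1) * 3 + 1)) : ℕ) (t 0) = ((M + 1) * 3 - m) * (t 0).nodes := by
      rw [hch]; rfl
    have h4 : pot M m ((0 : Fin ((M + 1) * 3 + 1)) : ℕ) nt = ((M + 1) * 3 - m) * nt.nodes := rfl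
    simp only [hlp, h3, h4] at h1
    have h5 : ((M + 1) * 3 - m) * nt.nodes + ((M + 1) * 3 - m) * (ch 0).nodes =
        ((M + 1) * 3 - m) * (t 0).nodes + ((M + 1) * 3 - m) * (t last).nodes := by
      rw [← mul_add, hnodes, mul_add]
    omega

theorem St_u {M m n c : ℕ} (hm : m < (M + 1) * 3) (hc : c < 3) {g u : Equiv.Perm W0}
    (hu : IsSw (fun w => Ws.leaf M m (Ws.cn c w)) (fun w => Ws.leaf M m (Ws.cn (c + 1) w)) u)
    (H : St Ws M m n g) : St Ws M m (n + 1) (u * g) := by
  classical
  obtain ⟨op₀, t₀, H₀⟩ := H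
  set j : Fin ((M + 1) * 3 + 1) := ⟨m, by omega⟩ with hj
  obtain ⟨op, t, H, ch, hch⟩ := Stt_open H₀ j le_rfl
  set a : Fin 4 := ⟨c, by omega⟩ with ha
  set b : Fin 4 := ⟨c + 1, by omega⟩ with hb
  set σ : Equiv.Perm (Fin 4) := Equiv.swap a b with hσ
  set nt : Tr := .nd (fun i => ch (σ i)) with hnt
  have hnodes : nt.nodes = (t j).nodes := by
    rw [hch, hnt]
    simp only [Tr.nodes]
    congr 1
    exact Equiv.sum_comp σ (fun i => (ch i).nodes)
  have hact : ∀ (i : Fin 4) z, u (Ws.leaf M m (Ws.cons (i, z))) = Ws.leaf M m (Ws.cons (σ i, z)) := by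
    intro i z
    by_cases h1 : i = a
    · rw [h1, hσ, Equiv.swap_apply_left, ← cn_fin, ← cn_fin]
      exact hu.l z
    · by_cases h2 : i = b
      · rw [h2, hσ, Equiv.swap_apply_right, ← cn_fin, ← cn_fin]
        exact hu.r z
      · rw [hσ, Equiv.swap_apply_of_ne_of_ne h1 h2]
        apply hu.o
        · rintro ⟨w, hw⟩
          have h3 := (leaf_inj Ws (by norm_num) M m m hm.le hm.le _ _ hw).2
          have h4 := cn_fin Ws a w
          have h5 : Ws.cn (a : ℕ) w = Ws.cn c w := rfl
          rw [← h5, h4] at h3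
          exact h1 (congrArg Prod.fst (Ws.cons.injective h3)).symm
        · rintro ⟨w, hw⟩
          have h3 := (leaf_inj Ws (by norm_num) M m m hm.le hm.le _ _ hw).2
          have h4 := cn_fin Ws b w
          have h5 : Ws.cn (b : ℕ) w = Ws.cn (c + 1) w := rfl
          rw [← h5, h4] at h3
          exact h2 (congrArg Prod.fst (Ws.cons.injective h3)).symm
  refine ⟨op, Function.update t j nt, ⟨H.hop, ?_, ?_, ?_, ?_⟩⟩
  · intro i
    by_cases hi : i = j
    · rw [hi, Function.update_self, hnt]
      intro c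
      have := H.hb j
      rw [hch] at this
      exact this _
    · rw [Function.update_of_ne hi]; exact H.hb i
  · have h1 := sum_change (fun i => (t i).nodes) (fun i => (Function.update t j nt i).nodes) j
      (fun i hi => by simp only [Function.update_of_ne hi])
    simp only [Function.update_self, hnodes] at h1
    have h2 := H.hn
    omega
  · intro i y
    rw [mul_inv_rev, Equiv.Perm.mul_apply, hu.inv]
    by_cases hi : i = j
    · rw [hi, Function.update_self]
      obtain ⟨⟨c', z⟩, rfl⟩ := Ws.cons.surjective y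
      have h3 := hact c' z
      have h4 : Ws.leaf M (j : ℕ) (Ws.cons (c', z)) = Ws.leaf M m (Ws.cons (c', z)) := rfl
      rw [h4, h3, hnt, ev_nd]
      have h5 := H.hg j (Ws.cons (σ c', z))
      rw [hch, ev_nd] at h5
      exact h5
    · rw [Function.update_of_ne hi, hu.o, H.hg]
      · rintro ⟨w, hw⟩
        have h3 := (leaf_inj Ws (by norm_num) M m i hm.le (Nat.lt_succ_iff.1 i.2) _ _ hw).1
        exact hi (Fin.ext h3.symm)
      · rintro ⟨w, hw⟩
        have h3 := (leaf_inj Ws (by norm_num) M m i hm.le (Nat.lt_succ_iff.1 i.2) _ _ hw).1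
        exact hi (Fin.ext h3.symm)
  · have h1 := sum_change (fun i => pot M m i (t i)) (fun i => pot M m i (Function.update t j nt i)) j
      (fun i hi => by simp only [Function.update_of_ne hi])
    simp only [Function.update_self] at h1
    have h3 : pot M m j nt = pot M m j (t j) := by
      have e1 : pot M m j nt = ((M + 1) * 3 - m) * nt.nodes := rfl
      have e2 : pot M m j (t j) = ((M + 1) * 3 - m) * (t j).nodes := by rw [hch]; rfl
      rw [e1, e2, hnodes]
    have h2 := H.hp
    omega

/-- the number of elements described by states -/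
theorem St_card (M m n : ℕ) (hm : m < (M + 1) * 3) :
    {g : Equiv.Perm W0 | St Ws M m n g}.Finite ∧
    {g : Equiv.Perm W0 | St Ws M m n g}.ncard ≤
      ((M + 1) * 3 + 1 + 4 * ((M + 1) * 3 + 1 + 2 * n / ((M + 1) * 3 - m)) + 2) ^
        (((M + 1) * 3 + 1 + 2 * n / ((M + 1) * 3 - m)) +
          ((M + 1) * 3 + 1 + 4 * ((M + 1) * 3 + 1 + 2 * n / ((M + 1) * 3 - m)))) := by
  classical
  set D := (M + 1) * 3 - m with hD
  have hD0 : 0 < D := by omega
  set K := (M + 1) * 3 + 1 + 2 * n / D with hK
  set N := (M + 1) * 3 + 1 + 4 * K with hN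
  have hch : ∀ g : Equiv.Perm W0, ∃ p : List ℕ × (Fin ((M + 1) * 3 + 1) → Tr),
      St Ws M m n g → Stt Ws M m n g p.1 p.2 := by
    intro g
    by_cases h : St Ws M m n g
    · obtain ⟨op, t, H⟩ := h
      exact ⟨(op, t), fun _ => H⟩
    · exact ⟨([], fun _ => .lf 0), fun h' => absurd h' h⟩
  choose p hp using hch
  have hlen : ∀ g, St Ws M m n g → (p g).1.length ≤ K := by
    intro g hg
    have H := hp g hg
    have h1 : D * (p g).1.length ≤ ((M + 1) * 3 + 1) * D + 2 * n := by
      rw [← H.hn, Finset.mul_sum]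
      calc ∑ j, D * ((p g).2 j).nodes
          ≤ ∑ j : Fin ((M + 1) * 3 + 1), pot M m j ((p g).2 j) :=
            Finset.sum_le_sum fun j _ => pot_ge M m j _
        _ ≤ _ := H.hp
    rw [hK]
    have h2 : (p g).1.length ≤ (((M + 1) * 3 + 1) * D + 2 * n) / D := by
      rw [Nat.le_div_iff_mul_le hD0, mul_comm]
      exact h1
    rwa [mul_comm ((M + 1) * 3 + 1) D, Nat.mul_add_div hD0] at h2
  refine card_of_code {g : Equiv.Perm W0 | St Ws M m n g} K N (N + 1) (fun g => (p g).1)
    (fun g => encF (p g).2) hlen ?_ ?_ ?_ ?_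
  · intro g hg
    have H := hp g hg
    show (encF (p g).2).length ≤ N
    rw [encF_length, H.hn]
    have := hlen g hg
    omega
  · intro g hg y hy
    have H := hp g hg
    have h1 := H.hop y hy
    have h2 := hlen g hg
    omega
  · intro g hg y hy
    have H := hp g hg
    have h1 := encF_bdd (p g).2 H.hb y hy
    have h2 := hlen g hg
    omega
  · intro g hg g' hg' h1 h2
    have H := hp g hg
    have H' := hp g' hg'
    have h3 : (p g).2 = (p g').2 := encF_inj _ _ h2
    have h1' : (p g).1 = (p g').1 := h1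
    have h4 : g⁻¹ = g'⁻¹ := by
      apply Equiv.ext
      intro w
      obtain ⟨j, y, hj, rfl⟩ := leaf_cover Ws (by norm_num) M w
      have e1 := H.hg ⟨j, by omega⟩ y
      have e2 := H'.hg ⟨j, by omega⟩ y
      rw [← h3, ← h1'] at e2
      exact e1.trans e2.symm
    exact inv_injective h4

end Pool.Agent.R636.HT
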