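import Pool.Agent.R636.HTD

/-!
Non-uniform exponential growth of the Higman-Thompson group on four letters.
-/

set_option autoImplicit false

namespace Pool.Agent.R636.HT

open Pool.Agent.H665Simp

variable {Ws : SSet S0 W0} {F : Fam S0 (Equiv.Perm W0)}

/-- the ball of radius `k` -/
def bl {G : Type} [Group G] (S : Finset G) (k : ℕ) : Set G :=
  {g : G | ∃ l : List G, l.length ≤ k ∧ (∀ x ∈ l, x ∈ S ∨ x⁻¹ ∈ S) ∧ l.prod = g}

theorem bl_finite {G : Type} [Group G] (S : Finset G) (k : ℕ) : (bl S k).Finite := by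
  classical
  set A : Set G := (S : Set G) ∪ (S : Set G)⁻¹ with hA
  have hAf : A.Finite := S.finite_toSet.union (Set.Finite.inv S.finite_toSet)
  have : Finite A := hAf
  have h1 : {l : List A | l.length ≤ k}.Finite := List.finite_length_le A k
  refine (h1.image (fun l => (l.map (Subtype.val)).prod)).subset ?_
  rintro g ⟨l, hl, hx, rfl⟩
  have h2 : ∀ x ∈ l, x ∈ A := by
    intro x hxl
    rcases hx x hxl with h | h
    · exact Or.inl h
    · exact Or.inr h
  refine ⟨l.attach.map (fun x => ⟨x.1, h2 x.1 x.2⟩), by simpa using hl, ?_⟩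
  simp [List.map_map, Function.comp_def]

/-- the path of a sequence of bits -/
def pth (Ws : SSet S0 W0) : List Bool → W0 → W0
  | [], w => w
  | b :: l, w => Ws.cn (if b then 1 else 0) (pth Ws l w)

theorem pth_inj (w : W0) : ∀ (l l' : List Bool), l.length = l'.length →
    pth Ws l w = pth Ws l' w → l = l'
  | [], [], _, _ => rfl
  | [], b :: l', h, _ => by simp at h
  | b :: l, [], h, _ => by simp at h
  | b :: l, b' :: l', h, h2 => by
    have h3 := cn_inj Ws _ _ (by split_ifs <;> omega) (by split_ifs <;> omega) _ _ h2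
    have h4 := pth_inj w l l' (by simpa using h) h3.2
    rw [h4]
    congr 1
    cases b <;> cases b' <;> simp_all

/-- two elements generating a free monoid -/
def fb (F : Fam S0 (Equiv.Perm W0)) (b : Bool) : Equiv.Perm W0 := if b then F.x 0 * F.p 0 else F.x 0

theorem fb_mem (b : Bool) : fb F b ∈ VG F := by
  unfold fb
  split_ifs
  · exact (VG F).mul_mem (x_mem_VG 0) (p_mem_VG 0)
  · exact x_mem_VG 0

theorem cn_lam (Ws : SSet S0 W0) (k : ℕ) (hk : k < 3) (w : W0) : Ws.cn k w = Ws.lam k w :=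
  (lam_lt Ws k hk w).symm

theorem fb_apply (T : Tab Ws F) (b : Bool) (w : W0) :
    fb F b (Ws.cn 0 w) = Ws.cn 0 (Ws.cn (if b then 1 else 0) w) := by
  unfold fb
  cases b with
  | false =>
    simp only [Bool.false_eq_true, if_false]
    rw [cn_lam Ws 0 (by omega) w, cn_lam Ws 0 (by omega) (Ws.lam 0 w), ← cn_lam Ws 0 (by omega) w]
    have := T.x2 0 0 w (by omega)
    rw [← cn_lam Ws 0 (by omega)] at this
    exact this
  | true =>
    simp only [if_true]
    rw [Equiv.Perm.mul_apply, cn_lam Ws 0 (by omega) w, T.p1,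
      cn_lam Ws 0 (by omega) (Ws.cn 1 w)]
    exact T.x2 0 1 w (by omega)

theorem fb_prod (T : Tab Ws F) (l : List Bool) (w : W0) :
    (l.map (fb F)).prod (Ws.cn 0 w) = Ws.cn 0 (pth Ws l w) := by
  induction l with
  | nil => rfl
  | cons b l ih =>
    rw [List.map_cons, List.prod_cons, Equiv.Perm.mul_apply, ih, fb_apply T]
    rfl

/-- lower bound for the growth -/
theorem growth_lower (T : Tab Ws F) (S : Finset (VG F))
    (hS : ∀ b, (⟨fb F b, fb_mem b⟩ : VG F) ∈ S) (k : ℕ) : 2 ^ k ≤ (bl S k).ncard := by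
  classical
  set f : (Fin k → Bool) → VG F := fun a =>
    ((List.ofFn a).map (fun b => (⟨fb F b, fb_mem b⟩ : VG F))).prod with hf
  have hval : ∀ a, ((f a : VG F) : Equiv.Perm W0) = ((List.ofFn a).map (fb F)).prod := by
    intro a
    rw [hf]
    show (VG F).subtype _ = _
    rw [map_list_prod, List.map_map]
    rfl
  have hmaps : ∀ a ∈ (Set.univ : Set (Fin k → Bool)), f a ∈ bl S k := by
    intro a _
    refine ⟨_, ?_, ?_, rfl⟩
    · simp
    · intro x hx
      rw [List.mem_map] at hx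
      obtain ⟨b, -, rfl⟩ := hx
      exact Or.inl (hS b)
  have hinj : Set.InjOn f Set.univ := by
    intro a _ a' _ h
    have h1 := congrArg (fun g : VG F => (g : Equiv.Perm W0) (Ws.cn 0 (fun _ => 0))) h
    simp only [hval, fb_prod T] at h1
    have h2 := (cn_inj Ws 0 0 (by omega) (by omega) _ _ h1).2
    have h3 := pth_inj _ _ _ (by simp) h2
    exact List.ofFn_injective h3
  have h1 := Set.ncard_le_ncard_of_injOn f hmaps hinj (bl_finite S k)
  rw [Set.ncard_univ] at h1
  simpa using h1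

open Classical in
/-- the slow generating sets -/
theorem slow (T : Tab Ws F) (M m : ℕ) (hM : 1 ≤ M) (hm : m < (M + 1) * 3) :
    ∃ S : Finset (VG F), Subgroup.closure (S : Set (VG F)) = ⊤ ∧
      ∀ n, (bl S n).ncard ≤
        ((M + 1) * 3 + 1 + 4 * ((M + 1) * 3 + 1 + 2 * n / ((M + 1) * 3 - m)) + 2) ^
          (((M + 1) * 3 + 1 + 2 * n / ((M + 1) * 3 - m)) +
            ((M + 1) * 3 + 1 + 4 * ((M + 1) * 3 + 1 + 2 * n / ((M + 1) * 3 - m)))) := by
  obtain ⟨v, hvV, hv⟩ := v_exists T M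
  have hu := fun c : Fin 3 => u_exists T M m c hm c.2
  choose u huV hu using hu
  set S : Finset (VG F) := (Finset.univ.image fun k : Fin ((M + 1) * 3) =>
    (⟨sg F M k, sg_mem_VG M k⟩ : VG F)) ∪ ({⟨v, hvV⟩} ∪
      Finset.univ.image fun c : Fin 3 => (⟨u c, huV c⟩ : VG F)) with hS
  have hmem1 : ∀ k (hk : k < (M + 1) * 3), (⟨sg F M k, sg_mem_VG M k⟩ : VG F) ∈ S := by
    intro k hk
    rw [hS]
    exact Finset.mem_union_left _ (Finset.mem_image.2 ⟨⟨k, hk⟩, Finset.mem_univ _, rfl⟩)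
  have hmem2 : (⟨v, hvV⟩ : VG F) ∈ S := by
    rw [hS]
    exact Finset.mem_union_right _ (Finset.mem_union_left _ (Finset.mem_singleton_self _))
  have hmem3 : ∀ c : Fin 3, (⟨u c, huV c⟩ : VG F) ∈ S := by
    intro c
    rw [hS]
    exact Finset.mem_union_right _ (Finset.mem_union_right _
      (Finset.mem_image.2 ⟨c, Finset.mem_univ _, rfl⟩))
  refine ⟨S, ?_, fun n => ?_⟩
  · have h1 : VG F ≤ (Subgroup.closure (S : Set (VG F))).map (VG F).subtype := by
      apply gen_aux T M m hM hm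
      · rw [PM, Subgroup.closure_le]
        rintro _ ⟨k, hk, rfl⟩
        exact ⟨_, Subgroup.subset_closure (hmem1 k hk), rfl⟩
      · exact ⟨v, ⟨_, Subgroup.subset_closure hmem2, rfl⟩, hv⟩
      · intro c hc
        exact ⟨u ⟨c, hc⟩, ⟨_, Subgroup.subset_closure (hmem3 ⟨c, hc⟩), rfl⟩, hu ⟨c, hc⟩⟩
    rw [eq_top_iff]
    rintro ⟨g, hg⟩ -
    obtain ⟨g', hg', e⟩ := h1 hg
    have : g' = ⟨g, hg⟩ := Subtype.ext e
    rw [← this]
    exact hg'
  · obtain ⟨hfin, hcard⟩ := St_card (Ws := Ws) M m n hm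
    refine le_trans ?_ hcard
    refine Set.ncard_le_ncard_of_injOn (fun g : VG F => (g : Equiv.Perm W0)) ?_
      Subtype.val_injective.injOn hfin
    have hstep : ∀ x ∈ S, (x : Equiv.Perm W0)⁻¹ = x ∧
        ∀ n (g : Equiv.Perm W0), St Ws M m n g → St Ws M m (n + 1) (x * g) := by
      intro x hx
      rw [hS, Finset.mem_union, Finset.mem_union, Finset.mem_singleton, Finset.mem_image,
        Finset.mem_image] at hx
      rcases hx with ⟨k, -, rfl⟩ | rfl | ⟨c, -, rfl⟩
      · exact ⟨(sg_sw T M k k.2).inv, fun n g hg => St_sg T k.2 hg⟩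
      · exact ⟨hv.inv, fun n g hg => St_v hv hg⟩
      · exact ⟨(hu c).inv, fun n g hg => St_u hm c.2 (hu c) hg⟩
    have hlist : ∀ l : List (VG F), (∀ x ∈ l, x ∈ S ∨ x⁻¹ ∈ S) →
        St Ws M m l.length ((l.prod : VG F) : Equiv.Perm W0) := by
      intro l
      induction l with
      | nil => intro _; exact St_zero M m
      | cons x l ih =>
        intro hl
        have h1 := ih fun y hy => hl y (List.mem_cons_of_mem _ hy)
        rw [List.prod_cons, List.length_cons]
        show St Ws M m (l.length + 1) ((x : Equiv.Perm W0) * ((l.prod : VG F) : Equiv.Perm W0))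
        rcases hl x List.mem_cons_self with h | h
        · exact (hstep x h).2 _ _ h1
        · have h2 := (hstep _ h).1
          have h3 : ((x⁻¹ : VG F) : Equiv.Perm W0) = (x : Equiv.Perm W0) := by
            have h4 : ((x⁻¹ : VG F) : Equiv.Perm W0) = (x : Equiv.Perm W0)⁻¹ := rfl
            rw [h4] at h2 ⊢
            rw [inv_inv] at h2
            exact h2.symm
          have h5 := (hstep _ h).2 _ _ h1
          rw [h3] at h5
          exact h5
    rintro g ⟨l, h1, h2, rfl⟩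
    exact St_mono h1 (hlist l h2)

theorem final_bound (c : ℝ) (hc : 1 < c) : ∃ a : ℕ, 1 ≤ a ∧
    ((41 * a : ℕ) : ℝ) ^ (47 * a) < c ^ (a ^ 2) := by
  have h1 := tendsto_pow_const_div_const_pow_of_one_lt 47 hc
  have h2 : Filter.Tendsto (fun n : ℕ => (41 : ℝ) ^ 47 * ((n : ℝ) ^ 47 / c ^ n)) Filter.atTop
      (nhds ((41 : ℝ) ^ 47 * 0)) := h1.const_mul _
  rw [mul_zero] at h2
  have h3 := (h2.eventually (gt_mem_nhds (show (0 : ℝ) < 1 by norm_num))).and
    (Filter.eventually_ge_atTop 1)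
  obtain ⟨a, ha, ha1⟩ := h3.exists
  refine ⟨a, ha1, ?_⟩
  have hca : 0 < c ^ a := by positivity
  have h4 : ((41 * a : ℕ) : ℝ) ^ 47 < c ^ a := by
    push_cast
    rw [mul_pow]
    rw [← mul_div_assoc, div_lt_one hca] at ha
    exact ha
  calc ((41 * a : ℕ) : ℝ) ^ (47 * a) = (((41 * a : ℕ) : ℝ) ^ 47) ^ a := by rw [pow_mul]
    _ < (c ^ a) ^ a := pow_lt_pow_left₀ h4 (by positivity) (by omega)
    _ = c ^ (a ^ 2) := by rw [← pow_mul, pow_two]

/-- small balls -/
theorem slow_sets (T : Tab Ws F) (c : ℝ) (hc : 1 < c) :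
    ∃ S : Finset (VG F), Subgroup.closure (S : Set (VG F)) = ⊤ ∧
      ∃ k, ((bl S k).ncard : ℝ) < c ^ k := by
  obtain ⟨a, ha, hlt⟩ := final_bound c hc
  obtain ⟨S, hgen, hS⟩ := slow T (2 * a - 1) (3 * a) (by omega) (by omega)
  refine ⟨S, hgen, a ^ 2, lt_of_le_of_lt ?_ hlt⟩
  have h1 := hS (a ^ 2)
  have e1 : (2 * a - 1 + 1) * 3 = 6 * a := by omega
  rw [e1] at h1
  have e2 : 6 * a - 3 * a = 3 * a := by omega
  rw [e2] at h1
  have h2 : 2 * a ^ 2 / (3 * a) ≤ a := by
    apply Nat.div_le_of_le_mul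
    nlinarith
  have h3 : (bl S (a ^ 2)).ncard ≤ (41 * a) ^ (47 * a) := by
    refine h1.trans ?_
    refine (Nat.pow_le_pow_left (show _ ≤ 41 * a by omega) _).trans ?_
    exact Nat.pow_le_pow_right (by omega) (by omega)
  exact_mod_cast h3

theorem main_growth (T : Tab Ws F) :
    (∃ (S : Finset (VG F)), Subgroup.closure (S : Set (VG F)) = ⊤ ∧
        ∃ c : ℝ, 1 < c ∧ ∀ k : ℕ, c ^ k ≤ ((bl S k).ncard : ℝ)) ∧
      (∀ c : ℝ, 1 < c → ∃ (S : Finset (VG F)), Subgroup.closure (S : Set (VG F)) = ⊤ ∧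
        ∃ k : ℕ, ((bl S k).ncard : ℝ) < c ^ k) := by
  classical
  refine ⟨?_, slow_sets T⟩
  obtain ⟨S, hS, -⟩ := slow_sets T 2 (by norm_num)
  refine ⟨S ∪ Finset.univ.image (fun b => (⟨fb F b, fb_mem b⟩ : VG F)), ?_, 2, by norm_num, ?_⟩
  · rw [eq_top_iff, ← hS]
    apply Subgroup.closure_mono
    intro x hx
    rw [Finset.mem_coe, Finset.mem_union]
    exact Or.inl hx
  · intro k
    have := growth_lower T (S ∪ Finset.univ.image (fun b => (⟨fb F b, fb_mem b⟩ : VG F)))
      (fun b => Finset.mem_union_right _ (Finset.mem_image_of_mem _ (Finset.mem_univ b))) k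
    exact_mod_cast this

end Pool.Agent.R636.HT
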